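import Pool.Agent.Work.MP_77d073_nt.Q4.IsoGl

/-!
MODULE Inf (helper84).  Infinitely many integer points with small product.
-/

set_option autoImplicit false

namespace Pool.Agent.Work.MP_77d073_nt.Q4

open Pool.Agent.Work.MP_77d073_nt Filter Topology

/-- If the norm form is in the closure of the orbit of a bounded system, the system is the norm
form. -/
theorem nf_of_closure {th : Fin 4 → ℝ} (hth : IsTh th) {L L' : Fin 4 → Fin 4 → ℝ}
    (hLdet : (Matrix.of L).det ≠ 0) (hb : PairResult.Bounded L) (hL' : L' ∈ closure (orb L))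
    (hNF' : NF th L') : NF th L := by
  have hli : LinearIndependent ℝ L := (li_iff_det L).mpr hLdet
  have hconc := conc hth hli hb hL' hNF'
  obtain ⟨A, μ, hμ, hA⟩ := PairResult.eigen_of_conclusion hli hconc
  obtain ⟨C, hC⟩ := values_of_matrix hμ hA
  obtain ⟨M, t, hM, ht, hLt⟩ := closed_orbit hLdet hC hL'
  have ht0 : ∀ i, t i ≠ 0 := by
    intro i hi
    rw [Finset.prod_eq_zero (Finset.mem_univ i) hi] at ht
    exact zero_ne_one ht
  rw [hLt] at hNF'
  exact nf_of_tr hM ht0 hNF'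

/-- A system which is not the norm form has infinitely many integer points with product at most
`κ - ε`. -/
theorem inf_of_not {th : Fin 4 → ℝ} (hth : IsTh th) {ε : ℝ}
    (hiso : ∀ L : Fin 4 → Fin 4 → ℝ, |(Matrix.of L).det| = 1 →
      (∀ p : Fin 4 → ℤ, p ≠ 0 → κ - ε ≤ |∏ i, ∑ j, L i j * (p j : ℝ)|) → NF th L)
    {L : Fin 4 → Fin 4 → ℝ} (hL : |(Matrix.of L).det| = 1) {c : ℝ} (hc : 0 < c)
    (hlow : ∀ p : Fin 4 → ℤ, p ≠ 0 → c ≤ |∏ i, ∑ j, L i j * (p j : ℝ)|) (hnot : ¬ NF th L) :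
    {p : Fin 4 → ℤ | p ≠ 0 ∧ |∏ i, ∑ j, L i j * (p j : ℝ)| < κ - ε}.Infinite := by
  classical
  intro hfin
  have hLdet : (Matrix.of L).det ≠ 0 := by
    intro h0
    rw [h0, abs_zero] at hL
    exact zero_ne_one hL
  -- the linear form of index 0 is bounded below on the finite set
  have hne0 : ∀ p : Fin 4 → ℤ, p ≠ 0 → 0 < |∑ j, L 0 j * (p j : ℝ)| := by
    intro p hp
    rw [abs_pos]
    intro h0
    have h1 := hlow p hp
    rw [Finset.prod_eq_zero (Finset.mem_univ 0) h0, abs_zero] at h1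
    linarith
  obtain ⟨δ, hδ, hδlow⟩ : ∃ δ : ℝ, 0 < δ ∧
      ∀ p ∈ {p : Fin 4 → ℤ | p ≠ 0 ∧ |∏ i, ∑ j, L i j * (p j : ℝ)| < κ - ε},
        δ ≤ |∑ j, L 0 j * (p j : ℝ)| := by
    rcases hfin.toFinset.eq_empty_or_nonempty with he | he
    · refine ⟨1, one_pos, fun p hp => ?_⟩
      have : p ∈ hfin.toFinset := hfin.mem_toFinset.mpr hp
      rw [he] at this
      exact absurd this (Finset.notMem_empty p)
    · obtain ⟨q, hq, hqmin⟩ := hfin.toFinset.exists_min_image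
        (fun p => |∑ j, L 0 j * (p j : ℝ)|) he
      refine ⟨|∑ j, L 0 j * (q j : ℝ)|, hne0 q (hfin.mem_toFinset.mp hq).1, fun p hp => ?_⟩
      exact hqmin p (hfin.mem_toFinset.mpr hp)
  -- the diagonal elements
  obtain ⟨t, ht⟩ : ∃ t : ℕ → Fin 4 → ℝ, t = fun (k : ℕ) (i : Fin 4) => if i = 0 then ((k : ℝ) + 1) else
      if i = 3 then ((k : ℝ) + 1)⁻¹ else 1 := ⟨_, rfl⟩
  have htprod : ∀ k, ∏ i, t k i = 1 := by
    intro k
    rw [ht, Fin.prod_univ_four]
    have h0 : ((k : ℝ) + 1) ≠ 0 := by positivity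
    simp only [Fin.isValue, if_true, show (1 : Fin 4) ≠ 0 by decide, show (1 : Fin 4) ≠ 3 by decide,
      show (2 : Fin 4) ≠ 0 by decide, show (2 : Fin 4) ≠ 3 by decide, show (3 : Fin 4) ≠ 0 by decide,
      if_false, mul_one]
    exact mul_inv_cancel₀ h0
  have ht0 : ∀ k, t k 0 = (k : ℝ) + 1 := by
    intro k
    rw [ht]
    simp
  obtain ⟨β, hβ, hred⟩ := reduction (n := 4) (by norm_num) hc (D := 1) one_pos
  have h1det : ∀ k, |(Matrix.of (tr L 1 (t k))).det| = 1 := by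
    intro k
    rw [tr_det, htprod, one_mul, abs_mul, hL]
    simp
  have hlow1 : ∀ k, ∀ p : Fin 4 → ℤ, p ≠ 0 → c ≤ |∏ i, ∑ j, tr L 1 (t k) i j * (p j : ℝ)| :=
    fun k p hp => tr_lower hlow (by simp) (htprod k) p hp
  choose M hM hMb using fun k => hred _ (h1det k) (hlow1 k)
  have hMu : ∀ k, Uni (M k) := hM
  obtain ⟨T, hT⟩ : ∃ T : ℕ → Fin 4 → Fin 4 → ℝ, T = fun k => tr L (M k) (t k) := ⟨_, rfl⟩
  have hT1 : ∀ k, T k = tr (tr L 1 (t k)) (M k) 1 := by
    intro k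
    rw [tr_tr, hT]
    simp
  have hTbox : ∀ k, T k ∈ box 4 β := by
    intro k i j
    rw [hT1 k]
    show |(1 : Fin 4 → ℝ) i * ∑ l, tr L 1 (t k) i l * (M k l j : ℝ)| ≤ β
    rw [Pi.one_apply, one_mul]
    exact hMb k i j
  have hTorb : ∀ k, T k ∈ orb L := fun k => by
    rw [hT]
    exact ⟨M k, t k, hMu k, htprod k, rfl⟩
  obtain ⟨A, -, φ, hφ, hlim⟩ := (box_compact (n := 4) β).tendsto_subseq hTbox
  have hA : A ∈ closure (orb L) :=
    mem_closure_of_tendsto hlim (Eventually.of_forall fun k => hTorb (φ k))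
  have hAnot : ¬ NF th A := fun h => hnot (nf_of_closure hth hLdet ⟨c, hc, hlow⟩ hA h)
  have hAdet : |(Matrix.of A).det| = 1 := by rw [orb_det hA, hL]
  obtain ⟨p, hp, hpA⟩ : ∃ p : Fin 4 → ℤ, p ≠ 0 ∧ |∏ i, ∑ j, A i j * (p j : ℝ)| < κ - ε := by
    by_contra hcon
    push Not at hcon
    exact hAnot (hiso A hAdet hcon)
  -- continuity
  have hcont : Continuous fun B : Fin 4 → Fin 4 → ℝ => |∏ i, ∑ j, B i j * (p j : ℝ)| := by
    fun_prop
  have hev1 : ∀ᶠ k in atTop, |∏ i, ∑ j, T (φ k) i j * (p j : ℝ)| < κ - ε :=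
    ((hcont.tendsto A).comp hlim).eventually (gt_mem_nhds hpA)
  -- the size of the form of index 0
  set B : ℝ := ∑ j, β * |(p j : ℝ)| with hB
  have hsize : ∀ k, |∑ j, T k 0 j * (p j : ℝ)| ≤ B := by
    intro k
    calc |∑ j, T k 0 j * (p j : ℝ)| ≤ ∑ j, |T k 0 j * (p j : ℝ)| := Finset.abs_sum_le_sum_abs _ _
      _ ≤ ∑ j, β * |(p j : ℝ)| := by
          refine Finset.sum_le_sum fun j _ => ?_
          rw [abs_mul]
          exact mul_le_mul_of_nonneg_right (hTbox k 0 j) (abs_nonneg _)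
  have hform : ∀ k i, ∑ j, T k i j * (p j : ℝ) = t k i * ∑ l, L i l * (((M k).mulVec p l : ℤ) : ℝ) := by
    intro k i
    rw [hT]
    show ∑ j, tr L (M k) (t k) i j * (p j : ℝ) = _
    rw [tr_sum]
    congr 1
    refine Finset.sum_congr rfl fun l _ => ?_
    congr 1
    simp only [Matrix.mulVec, dotProduct]
    push_cast
    rfl
  have hev2 : ∀ᶠ k : ℕ in atTop, B / δ < (φ k : ℝ) + 1 := by
    have h1 : Tendsto (fun k => ((φ k : ℕ) : ℝ)) atTop atTop :=
      tendsto_natCast_atTop_atTop.comp hφ.tendsto_atTop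
    filter_upwards [h1.eventually_gt_atTop (B / δ)] with k hk
    linarith
  obtain ⟨k, hk1, hk2⟩ := (hev1.and hev2).exists
  have hq0 : (M (φ k)).mulVec p ≠ 0 := by
    intro h0
    exact hp (Matrix.eq_zero_of_mulVec_eq_zero (hMu (φ k)).ne_zero h0)
  have hqval : |∏ i, ∑ l, L i l * (((M (φ k)).mulVec p l : ℤ) : ℝ)| < κ - ε := by
    simp_rw [hform] at hk1
    rw [Finset.prod_mul_distrib, htprod, one_mul] at hk1
    exact hk1
  have h3 := hδlow _ ⟨hq0, hqval⟩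
  have h4 := hsize (φ k)
  rw [hform, ht0, abs_mul, abs_of_pos (by positivity : (0 : ℝ) < (φ k : ℝ) + 1)] at h4
  have h5 : ((φ k : ℝ) + 1) * δ ≤ B :=
    le_trans (mul_le_mul_of_nonneg_left h3 (by positivity)) h4
  rw [div_lt_iff₀ hδ] at hk2
  linarith

end Pool.Agent.Work.MP_77d073_nt.Q4
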