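import Pool.Agent.Work.MP_77d073_nt.Q4.IsoGl
import Pool.Agent.Work.MP_77d073_nt.Q4.Inf

/-!
MODULE Main (helper84).  The final statement.
-/

set_option autoImplicit false

namespace Pool.Agent.Work.MP_77d073_nt.Q4

open Pool.Agent.Work.MP_77d073_nt

/-- Up to scaling and a unimodular substitution the forms are the four conjugates of
`x₀ + x₁ θ + x₂ θ² + x₃ θ³`, `θ^4 - θ^3 - 3θ^2 + θ + 1 = 0`. -/
def NormForm725 (L : Fin 4 → Fin 4 → ℝ) : Prop :=
  ∃ (θ : Fin 4 → ℝ) (U : Matrix (Fin 4) (Fin 4) ℤ) (a : Fin 4 → ℝ),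
    (∀ i, θ i ^ 4 - θ i ^ 3 - 3 * θ i ^ 2 + θ i + 1 = 0) ∧ Function.Injective θ ∧
    (U.det = 1 ∨ U.det = -1) ∧ (∀ i, a i ≠ 0) ∧
    ∀ i j, L i j = a i * ∑ k : Fin 4, θ i ^ (k : ℕ) * (U k j : ℝ)

private theorem kap_sqrt : κ * Real.sqrt 725 = 1 := by
  unfold κ
  exact inv_mul_cancel₀ (by positivity)

private theorem absV {th : Fin 4 → ℝ} (hth : IsTh th) : |(Matrix.of (V th)).det| = Real.sqrt 725 := by
  rw [← Real.sqrt_sq_eq_abs, detV_sq hth]

private theorem nf_det {th : Fin 4 → ℝ} (hth : IsTh th) {L : Fin 4 → Fin 4 → ℝ} {σ : Equiv.Perm (Fin 4)}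
    {U : Matrix (Fin 4) (Fin 4) ℤ} {a : Fin 4 → ℝ} (hU : Uni U)
    (h : ∀ i j, L i j = a i * ∑ k, V th (σ i) k * (U k j : ℝ)) :
    |(Matrix.of L).det| = |∏ i, a i| * Real.sqrt 725 := by
  have h1 : Matrix.of L = Matrix.diagonal a *
      ((Matrix.of (V th)).submatrix σ id * U.map (Int.castRingHom ℝ)) := by
    ext i j
    rw [Matrix.diagonal_mul, Matrix.mul_apply]
    simpa using h i j
  have h2 : |((U.map (Int.castRingHom ℝ)).det)| = 1 := by
    rw [← RingHom.mapMatrix_apply, ← RingHom.map_det]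
    rcases hU with h | h <;> simp [h]
  rw [h1, Matrix.det_mul, Matrix.det_mul, Matrix.det_diagonal, abs_mul, abs_mul, h2, mul_one,
    Matrix.det_permute, abs_mul, absV hth]
  have h3 : |((Equiv.Perm.sign σ : ℤ) : ℝ)| = 1 := by
    rcases Int.units_eq_one_or (Equiv.Perm.sign σ) with h | h <;> simp [h]
  have h4 : |(((Equiv.Perm.sign σ : ℤˣ) : ℤ) : ℝ)| = 1 := h3
  rw [h4, one_mul]

private theorem nf_val {th : Fin 4 → ℝ} {L : Fin 4 → Fin 4 → ℝ} {σ : Equiv.Perm (Fin 4)}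
    {U : Matrix (Fin 4) (Fin 4) ℤ} {a : Fin 4 → ℝ}
    (h : ∀ i j, L i j = a i * ∑ k, V th (σ i) k * (U k j : ℝ)) (p : Fin 4 → ℤ) :
    ∏ i, ∑ j, L i j * (p j : ℝ) = (∏ i, a i) * ∏ i, ∑ k, V th i k * ((U.mulVec p k : ℤ) : ℝ) := by
  have h1 : ∀ i, ∑ j, L i j * (p j : ℝ) = a i * ∑ k, V th (σ i) k * ((U.mulVec p k : ℤ) : ℝ) := by
    intro i
    simp_rw [h, Matrix.mulVec, dotProduct]
    push_cast
    simp_rw [Finset.mul_sum, Finset.sum_mul]
    rw [Finset.sum_comm]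
    refine Finset.sum_congr rfl fun k _ => Finset.sum_congr rfl fun j _ => ?_
    ring
  simp_rw [h1]
  rw [Finset.prod_mul_distrib]
  congr 1
  exact Equiv.prod_comp σ fun i => ∑ k, V th i k * ((U.mulVec p k : ℤ) : ℝ)

private theorem exists_scale {D : ℝ} (hD : 0 < D) : ∃ c : ℝ, 0 < c ∧ c ^ 4 * D = 1 := by
  refine ⟨Real.sqrt (Real.sqrt D⁻¹), by positivity, ?_⟩
  have h1 : Real.sqrt (Real.sqrt D⁻¹) ^ 4 = D⁻¹ := by
    have h2 : Real.sqrt (Real.sqrt D⁻¹) ^ 4 = (Real.sqrt (Real.sqrt D⁻¹) ^ 2) ^ 2 := by ring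
    rw [h2, Real.sq_sqrt (Real.sqrt_nonneg _), Real.sq_sqrt (by positivity)]
  rw [h1]
  exact inv_mul_cancel₀ hD.ne'

private theorem sc_sum (L : Fin 4 → Fin 4 → ℝ) (c : ℝ) (p : Fin 4 → ℤ) :
    ∏ i, ∑ j, tr L 1 (fun _ => c) i j * (p j : ℝ) = c ^ 4 * ∏ i, ∑ j, L i j * (p j : ℝ) := by
  have h1 : ∀ i, ∑ j, tr L 1 (fun _ => c) i j * (p j : ℝ) = c * ∑ j, L i j * (p j : ℝ) := by
    intro i
    rw [Finset.mul_sum]
    refine Finset.sum_congr rfl fun j _ => ?_
    have : tr L 1 (fun _ => c) i j = c * L i j := by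
      unfold tr
      simp [Matrix.one_apply]
    rw [this]
    ring
  simp_rw [h1]
  rw [Finset.prod_mul_distrib]
  simp

private theorem sc_det (L : Fin 4 → Fin 4 → ℝ) {c : ℝ} (hc : 0 < c) :
    |(Matrix.of (tr L 1 (fun _ => c))).det| = c ^ 4 * |(Matrix.of L).det| := by
  rw [tr_det, abs_mul]
  simp [abs_of_pos hc]

private theorem nf725 {th : Fin 4 → ℝ} (hth : IsTh th) {L : Fin 4 → Fin 4 → ℝ}
    (hL : LinearIndependent ℝ L) (h : NF th L) : NormForm725 L := by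
  obtain ⟨σ, U, a, hU, h⟩ := h
  refine ⟨fun i => th (σ i), U, a, fun i => hth.root _, fun i j hij => ?_, hU, fun i hi => ?_, h⟩
  · exact σ.injective (hth.mono.injective hij)
  · apply hL.ne_zero i
    funext j
    rw [h i j, hi, zero_mul]
    rfl

private theorem of725 {th : Fin 4 → ℝ} (hth : IsTh th) {L : Fin 4 → Fin 4 → ℝ} (h : NormForm725 L) :
    NF th L := by
  obtain ⟨θ, U, a, hr, hinj, hU, -, h⟩ := h
  have h1 : ∀ i, ∃ k, θ i = th k := by
    intro i
    have h2 := th_all hth (θ i)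
    rw [hr i] at h2
    rcases mul_eq_zero.mp h2.symm with h3 | h3
    · rcases mul_eq_zero.mp h3 with h4 | h4
      · rcases mul_eq_zero.mp h4 with h5 | h5
        · exact ⟨0, by linarith⟩
        · exact ⟨1, by linarith⟩
      · exact ⟨2, by linarith⟩
    · exact ⟨3, by linarith⟩
  choose s hs using h1
  have hsinj : Function.Injective s := by
    intro i j hij
    apply hinj
    rw [hs i, hs j, hij]
  refine ⟨Equiv.ofBijective s (Finite.injective_iff_bijective.mp hsinj), U, a, hU, fun i j => ?_⟩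
  rw [h i j]
  congr 1
  refine Finset.sum_congr rfl fun k _ => ?_
  rw [Equiv.ofBijective_apply, V, hs i]

private theorem nf_infinite {th : Fin 4 → ℝ} (hth : IsTh th) {L : Fin 4 → Fin 4 → ℝ}
    {σ : Equiv.Perm (Fin 4)} {U : Matrix (Fin 4) (Fin 4) ℤ} {a : Fin 4 → ℝ} (hU : Uni U)
    (h : ∀ i j, L i j = a i * ∑ k, V th (σ i) k * (U k j : ℝ)) :
    {p : Fin 4 → ℤ | |∏ i, ∑ j, L i j * (p j : ℝ)| = |∏ i, a i|}.Infinite := by
  obtain ⟨U', -, hUU, -⟩ := Uni.inv hU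
  set q : ℕ → Fin 4 → ℤ := fun k => (C4 ^ k).mulVec (Pi.single 0 1) with hq
  have hV : ∀ k i, ∑ j, V th i j * ((q k j : ℤ) : ℝ) = th i ^ k := by
    intro k i
    induction k with
    | zero =>
      rw [hq]
      simp only [pow_zero, Matrix.one_mulVec]
      rw [Finset.sum_eq_single 0]
      · simp [V]
      · intro j _ hj
        simp [hj]
      · simp
    | succ k ih =>
      have h1 : q (k + 1) = C4.mulVec (q k) := by
        rw [hq]
        simp only
        rw [pow_succ', Matrix.mulVec_mulVec]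
      rw [h1]
      have h2 : ∑ j, V th i j * ((C4.mulVec (q k) j : ℤ) : ℝ) =
          ∑ l, (∑ j, V th i j * (C4 j l : ℝ)) * ((q k l : ℤ) : ℝ) := by
        simp only [Matrix.mulVec, dotProduct]
        push_cast
        simp_rw [Finset.mul_sum, Finset.sum_mul]
        rw [Finset.sum_comm]
        refine Finset.sum_congr rfl fun l _ => Finset.sum_congr rfl fun j _ => ?_
        ring
      rw [h2]
      simp_rw [V_C4 hth, mul_assoc]
      rw [← Finset.mul_sum, ih]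
      ring
  refine Set.infinite_of_injective_forall_mem (f := fun k : ℕ => U'.mulVec (q k)) ?_ ?_
  · intro k l hkl
    have h1 : q k = q l := by
      have h2 := congrArg (fun v => U.mulVec v) hkl
      simp only [Matrix.mulVec_mulVec, hUU, Matrix.one_mulVec] at h2
      exact h2
    have h2 : th 3 ^ k = th 3 ^ l := by rw [← hV k 3, ← hV l 3, h1]
    have h3 : 1 < th 3 := by
      have := (th_bd hth).2.2.2.1
      linarith
    exact (pow_right_injective₀ (by linarith) h3.ne') h2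
  · intro k
    show |∏ i, ∑ j, L i j * ((U'.mulVec (q k) j : ℤ) : ℝ)| = |∏ i, a i|
    rw [nf_val h, Matrix.mulVec_mulVec, hUU, Matrix.one_mulVec]
    simp_rw [hV]
    rw [Finset.prod_pow, prod_th hth, one_pow, mul_one]

private theorem unbounded_inf {L : Fin 4 → Fin 4 → ℝ} {m : ℝ} (hm : 0 < m)
    (h : ¬ PairResult.Bounded L) :
    {p : Fin 4 → ℤ | p ≠ 0 ∧ |∏ i, ∑ j, L i j * (p j : ℝ)| < m}.Infinite := by
  by_cases hz : ∃ p : Fin 4 → ℤ, p ≠ 0 ∧ ∏ i, ∑ j, L i j * (p j : ℝ) = 0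
  · obtain ⟨p, hp, hp0⟩ := hz
    refine Set.infinite_of_injective_forall_mem (f := fun k : ℕ => ((k : ℤ) + 1) • p) ?_ ?_
    · intro k l hkl
      have h1 : ((k : ℤ) + 1) • p = ((l : ℤ) + 1) • p := hkl
      have h2 : ((k : ℤ) + 1) = ((l : ℤ) + 1) := smul_left_injective ℤ hp h1
      omega
    · intro k
      refine ⟨smul_ne_zero (by omega) hp, ?_⟩
      have h1 : ∀ i, ∑ j, L i j * (((((k : ℤ) + 1) • p) j : ℤ) : ℝ) =
          ((k : ℝ) + 1) * ∑ j, L i j * (p j : ℝ) := by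
        intro i
        rw [Finset.mul_sum]
        refine Finset.sum_congr rfl fun j _ => ?_
        simp only [Pi.smul_apply, smul_eq_mul]
        push_cast
        ring
      simp_rw [h1]
      rw [Finset.prod_mul_distrib, hp0, mul_zero, abs_zero]
      exact hm
  · push Not at hz
    intro hfin
    obtain ⟨δ, hδ, hδm, hδlow⟩ : ∃ δ : ℝ, 0 < δ ∧ δ ≤ m ∧
        ∀ p ∈ {p : Fin 4 → ℤ | p ≠ 0 ∧ |∏ i, ∑ j, L i j * (p j : ℝ)| < m},
          δ ≤ |∏ i, ∑ j, L i j * (p j : ℝ)| := by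
      rcases hfin.toFinset.eq_empty_or_nonempty with he | he
      · refine ⟨m, hm, le_rfl, fun p hp => ?_⟩
        have : p ∈ hfin.toFinset := hfin.mem_toFinset.mpr hp
        rw [he] at this
        exact absurd this (Finset.notMem_empty p)
      · obtain ⟨q, hq, hqmin⟩ := hfin.toFinset.exists_min_image
          (fun p => |∏ i, ∑ j, L i j * (p j : ℝ)|) he
        have hq' := hfin.mem_toFinset.mp hq
        exact ⟨|∏ i, ∑ j, L i j * (q j : ℝ)|, abs_pos.mpr (hz q hq'.1), hq'.2.le,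
          fun p hp => hqmin p (hfin.mem_toFinset.mpr hp)⟩
    apply h
    refine ⟨δ, hδ, fun p hp => ?_⟩
    by_contra hcon
    push Not at hcon
    exact absurd (hδlow p ⟨hp, hcon.trans_le hδm⟩) (not_le.mpr hcon)

private theorem nf_low {th : Fin 4 → ℝ} (hth : IsTh th) {L : Fin 4 → Fin 4 → ℝ}
    {σ : Equiv.Perm (Fin 4)} {U : Matrix (Fin 4) (Fin 4) ℤ} {a : Fin 4 → ℝ} (hU : Uni U)
    (h : ∀ i j, L i j = a i * ∑ k, V th (σ i) k * (U k j : ℝ)) (p : Fin 4 → ℤ) (hp : p ≠ 0) :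
    |∏ i, a i| ≤ |∏ i, ∑ j, L i j * (p j : ℝ)| := by
  rw [nf_val h, abs_mul]
  have hq : U.mulVec p ≠ 0 := by
    intro h0
    exact hp (Matrix.eq_zero_of_mulVec_eq_zero (Uni.ne_zero hU) h0)
  obtain ⟨z, hz⟩ := norm_int hth (U.mulVec p)
  have hne := norm_ne hth _ hq
  rw [hz] at hne ⊢
  have hz1 : (1 : ℝ) ≤ |(z : ℝ)| := by
    have h1 : z ≠ 0 := by exact_mod_cast hne
    exact_mod_cast Int.one_le_abs h1
  calc |∏ i, a i| = |∏ i, a i| * 1 := (mul_one _).symm
    _ ≤ |∏ i, a i| * |(z : ℝ)| := mul_le_mul_of_nonneg_left hz1 (abs_nonneg _)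

/-- No nonzero integer point has a product smaller than `|det L| / √725`. -/
theorem low725 {L : Fin 4 → Fin 4 → ℝ} (h : NormForm725 L) (p : Fin 4 → ℤ)
    (hp : p ≠ 0) : |(Matrix.of L).det| / Real.sqrt 725 ≤ |∏ i, ∑ j, L i j * (p j : ℝ)| := by
  obtain ⟨th, hth⟩ := exists_th
  have hs : (0 : ℝ) < Real.sqrt 725 := by positivity
  obtain ⟨σ, U, a, hU, h⟩ := of725 hth h
  rw [nf_det hth hU h, mul_div_assoc, div_self hs.ne', mul_one]
  exact nf_low hth hU h p hp

/-- The norm forms of discriminant 725 exist. -/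
theorem exists_normForm : ∃ L : Fin 4 → Fin 4 → ℝ, LinearIndependent ℝ L ∧ NormForm725 L := by
  obtain ⟨th, hth⟩ := exists_th
  have hli : LinearIndependent ℝ (V th) := by
    rw [li_iff_det]
    intro h0
    have := detV_sq hth
    rw [h0] at this
    norm_num at this
  refine ⟨V th, hli, nf725 hth hli ⟨1, 1, 1, Or.inl (by simp), fun i j => ?_⟩⟩
  simp [Matrix.one_apply]

/-- The sharp constant in dimension four: norm form of discriminant 725 or infinitely many smaller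
values. -/
theorem main : ∃ ε : ℝ, 0 < ε ∧ ∀ L : Fin 4 → Fin 4 → ℝ, LinearIndependent ℝ L →
    (NormForm725 L ∧ PairResult.Conclusion L ∧
      (∀ p : Fin 4 → ℤ, p ≠ 0 →
        |(Matrix.of L).det| / Real.sqrt 725 ≤ |∏ i, ∑ j, L i j * (p j : ℝ)|) ∧
      {p : Fin 4 → ℤ | |∏ i, ∑ j, L i j * (p j : ℝ)| =
        |(Matrix.of L).det| / Real.sqrt 725}.Infinite) ∨
    {p : Fin 4 → ℤ | p ≠ 0 ∧ |∏ i, ∑ j, L i j * (p j : ℝ)| <
      (1 / Real.sqrt 725 - ε) * |(Matrix.of L).det|}.Infinite := by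
  obtain ⟨th, hth⟩ := exists_th
  have hs : (0 : ℝ) < Real.sqrt 725 := by positivity
  have hκ := kap_pos
  have hk : κ = 1 / Real.sqrt 725 := by
    unfold κ
    rw [one_div]
  obtain ⟨ε₀, hε₀, hiso₀⟩ := isoGl hth
  set ε : ℝ := min ε₀ (κ / 2) with hεdef
  have hε : 0 < ε := lt_min hε₀ (by positivity)
  have hεκ : ε < κ := lt_of_le_of_lt (min_le_right _ _) (by linarith)
  have hiso : ∀ L : Fin 4 → Fin 4 → ℝ, |(Matrix.of L).det| = 1 →
      (∀ p : Fin 4 → ℤ, p ≠ 0 → κ - ε ≤ |∏ i, ∑ j, L i j * (p j : ℝ)|) → NF th L := by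
    intro L hL h
    refine hiso₀ L hL fun p hp => le_trans ?_ (h p hp)
    have := min_le_left ε₀ (κ / 2)
    linarith
  refine ⟨ε, hε, fun L hL => ?_⟩
  rw [← hk]
  have hLdet : (Matrix.of L).det ≠ 0 := (li_iff_det L).mp hL
  have hD : 0 < |(Matrix.of L).det| := abs_pos.mpr hLdet
  by_cases hnf : NF th L
  · left
    obtain ⟨σ, U, a, hU, h⟩ := hnf
    have hdet := nf_det hth hU h
    have ha : |(Matrix.of L).det| / Real.sqrt 725 = |∏ i, a i| := by
      rw [hdet, mul_div_assoc, div_self hs.ne', mul_one]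
    rw [ha]
    refine ⟨nf725 hth hL ⟨σ, U, a, hU, h⟩, conc hth hL ⟨|∏ i, a i|, ?_, nf_low hth hU h⟩
      (subset_closure (self_mem_orb L)) ⟨σ, U, a, hU, h⟩, nf_low hth hU h, nf_infinite hth hU h⟩
    rw [← ha]
    positivity
  · right
    by_cases hb : PairResult.Bounded L
    · obtain ⟨m, hm, hlow⟩ := hb
      obtain ⟨c, hc, hcD⟩ := exists_scale hD
      have hc4 : (0 : ℝ) < c ^ 4 := by positivity
      have hdet : |(Matrix.of (tr L 1 (fun _ => c))).det| = 1 := by rw [sc_det L hc, hcD]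
      have hnot : ¬ NF th (tr L 1 (fun _ => c)) := fun h =>
        hnf (nf_of_tr (Or.inl (by simp)) (fun _ => hc.ne') h)
      have hinf := inf_of_not hth hiso hdet (c := c ^ 4 * m) (by positivity) (fun p hp => by
        rw [sc_sum, abs_mul, abs_of_pos hc4]
        exact mul_le_mul_of_nonneg_left (hlow p hp) hc4.le) hnot
      refine hinf.mono fun p hp => ⟨hp.1, ?_⟩
      have h1 := hp.2
      rw [sc_sum, abs_mul, abs_of_pos hc4] at h1
      have h2 : κ - ε = c ^ 4 * ((κ - ε) * |(Matrix.of L).det|) := by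
        linear_combination -(κ - ε) * hcD
      rw [h2] at h1
      exact lt_of_mul_lt_mul_left h1 hc4.le
    · exact unbounded_inf (mul_pos (by linarith) hD) hb

end Pool.Agent.Work.MP_77d073_nt.Q4
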