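import Pool.Agent.Work.MP_77d073_nt.Q4.CrH

set_option autoImplicit false

/-!
# CrI: the exact local lemma in rational box form, and the invariances of the problem

`loc_T3`: if the ternary configuration lies in a small rational box around the critical one, the
conclusion holds.  `hyp_perm`, `hyp_neg`, `hyp_base`, `cn_perm`, `cn_neg`, `cn_base`: invariance
under permutations of the forms, sign change, unimodular substitutions.
-/

namespace Pool.Agent.Work.MP_77d073_nt.Q4.Cr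

open Pool.Agent.Work.MP_77d073_nt.Q4

variable {th : Fin 4 → ℝ} {X : Fin 4 → Fin 3 → ℝ}

private theorem vl_eq (i : Fin 4) (p1 p2 p3 : ℤ) :
    ∑ j, X i j * ((![p1, p2, p3] : Fin 3 → ℤ) j : ℝ) = vl (X i 0) (X i 1) (X i 2) p1 p2 p3 := by
  rw [Fin.sum_univ_three]
  rfl

private theorem vec3 {f : Fin 3 → ℝ} {a b d : ℝ} (h0 : f 0 = a) (h1 : f 1 = b) (h2 : f 2 = d) :
    f = ![a, b, d] := by
  funext i
  fin_cases i
  · exact h0
  · exact h1
  · exact h2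

/-- the exact local lemma -/
theorem loc_T3 (h : IsTh th) (hX : Hyp X)
    (k1 : |X 0 0 + X 1 0 - 2065 / 10000| ≤ 199 / 10000) (k2 : |X 0 0 + X 2 0| ≤ 699 / 10000)
    (k3 : |X 0 0 + X 3 0 - 20106 / 10000| ≤ 199 / 10000)
    (k4 : |X 0 1 + X 1 1 - 21447 / 10000| ≤ 199 / 10000)
    (k5 : |X 0 1 + X 2 1| ≤ 199 / 10000)
    (k6 : |X 0 1 + X 3 1 + 7744 / 10000| ≤ 199 / 10000)
    (k7 : |X 0 2 + X 1 2 - 10723 / 10000| ≤ 199 / 10000)
    (k8 : |X 0 2 + X 2 2 + 23206 / 10000| ≤ 199 / 10000)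
    (k9 : |X 0 2 + X 3 2 + 3872 / 10000| ≤ 199 / 10000) : Cn th X := by
  obtain ⟨ph, c, x1, x2, y1, y2, hc⟩ := cst_exists
  have z0 := hX.h0 0
  have z1 := hX.h0 1
  have z2 := hX.h0 2
  rw [Fin.sum_univ_four] at z0 z1 z2
  have hV : ∀ p1 p2 p3 : ℤ, ¬(p1 = 0 ∧ p2 = 0 ∧ p3 = 0) →
      1 ≤ |vl (X 0 0) (X 0 1) (X 0 2) p1 p2 p3 * vl (X 1 0) (X 1 1) (X 1 2) p1 p2 p3 *
        vl (X 2 0) (X 2 1) (X 2 2) p1 p2 p3 * vl (X 3 0) (X 3 1) (X 3 2) p1 p2 p3| := by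
    intro p1 p2 p3 hp
    have h1 := hX.h1 ![p1, p2, p3] (by
      intro h
      apply hp
      exact ⟨congrFun h 0, congrFun h 1, congrFun h 2⟩)
    rw [Fin.prod_univ_four, vl_eq, vl_eq, vl_eq, vl_eq] at h1
    exact h1
  obtain ⟨d1, d2⟩ := loc_fin hc z0 z1 z2 hV k1 k2 k3 k4 k5 k6 k7 k8 k9
  rw [← Dt_eq] at d1 d2
  refine ⟨d1, fun hD => ?_⟩
  obtain ⟨⟨e1, e2, e3, e4⟩, ⟨e5, e6, e7, e8⟩, e9, e10, e11, e12⟩ := d2 hD
  exact crit_of hc h (vec3 e1 e5 e9) (vec3 e2 e6 e10) (vec3 e3 e7 e11) (vec3 e4 e8 e12)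

/-! ### permutations of the forms -/

theorem hyp_perm (τ : Equiv.Perm (Fin 4)) (hX : Hyp X) : Hyp (fun i => X (τ i)) := by
  refine ⟨fun j => ?_, fun p hp => ?_⟩
  · rw [← hX.h0 j]
    exact Equiv.sum_comp τ (fun i => X i j)
  · have h := hX.h1 p hp
    have e : ∏ i, ∑ j, X (τ i) j * (p j : ℝ) = ∏ i, ∑ j, X i j * (p j : ℝ) :=
      Equiv.prod_comp τ (fun i => ∑ j, X i j * (p j : ℝ))
    rw [e]
    exact h

/-- the extended matrix -/
private def Mx (X : Fin 4 → Fin 3 → ℝ) : Matrix (Fin 4) (Fin 4) ℝ :=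
  Matrix.of fun i => ![X i 0, X i 1, X i 2, 1]

private theorem Mx_det (h0 : ∀ j, ∑ i, X i j = 0) : (Mx X).det = 4 * Dt X := by
  have z0 := h0 0
  have z1 := h0 1
  have z2 := h0 2
  rw [Fin.sum_univ_four] at z0 z1 z2
  have t0 : X 3 0 = -(X 0 0 + X 1 0 + X 2 0) := by linarith only [z0]
  have t1 : X 3 1 = -(X 0 1 + X 1 1 + X 2 1) := by linarith only [z1]
  have t2 : X 3 2 = -(X 0 2 + X 1 2 + X 2 2) := by linarith only [z2]
  have e : Mx X = !![X 0 0, X 0 1, X 0 2, 1; X 1 0, X 1 1, X 1 2, 1; X 2 0, X 2 1, X 2 2, 1;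
      X 3 0, X 3 1, X 3 2, 1] := by
    ext i j
    fin_cases i <;> fin_cases j <;> rfl
  rw [e, t0, t1, t2, Dt_eq]
  generalize X 0 0 = r0
  generalize X 0 1 = r1
  generalize X 0 2 = r2
  generalize X 1 0 = s0
  generalize X 1 1 = s1
  generalize X 1 2 = s2
  generalize X 2 0 = q0
  generalize X 2 1 = q1
  generalize X 2 2 = q2
  simp [Matrix.det_succ_row_zero, Fin.sum_univ_succ, Fin.succAbove]
  ring

theorem Dt_perm (τ : Equiv.Perm (Fin 4)) (h0 : ∀ j, ∑ i, X i j = 0) :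
    Dt (fun i => X (τ i)) ^ 4 = Dt X ^ 4 := by
  have h1 : ∀ j, ∑ i, (fun i => X (τ i)) i j = 0 := fun j => by
    rw [← h0 j]
    exact Equiv.sum_comp τ (fun i => X i j)
  have h2 := Mx_det h1
  have h3 := Mx_det h0
  have h4 : Mx (fun i => X (τ i)) = (Mx X).submatrix τ id := rfl
  rw [h4, Matrix.det_permute, h3] at h2
  have h5 : ((Equiv.Perm.sign τ : ℤ) : ℝ) ^ 2 = 1 := by
    rcases Int.units_eq_one_or (Equiv.Perm.sign τ) with h | h
    · rw [h]; norm_num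
    · rw [h]; norm_num
  have h6 : ((Equiv.Perm.sign τ : ℤ) : ℝ) ^ 4 = 1 := by
    calc ((Equiv.Perm.sign τ : ℤ) : ℝ) ^ 4 = (((Equiv.Perm.sign τ : ℤ) : ℝ) ^ 2) ^ 2 := by ring
      _ = 1 := by rw [h5]; norm_num
  have h7 : Dt (fun i => X (τ i)) = ((Equiv.Perm.sign τ : ℤ) : ℝ) * Dt X := by
    linarith only [h2]
  rw [h7, mul_pow, h6, one_mul]

theorem crit_perm (τ : Equiv.Perm (Fin 4)) (h : Crit th (fun i => X (τ i))) : Crit th X := by
  obtain ⟨σ, U, s, hU, hs, h1⟩ := h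
  refine ⟨τ.symm.trans σ, U, s, hU, hs, fun i j => ?_⟩
  have h2 := h1 (τ.symm i) j
  simp only [Equiv.apply_symm_apply] at h2
  exact h2

theorem cn_perm (τ : Equiv.Perm (Fin 4)) (h0 : ∀ j, ∑ i, X i j = 0)
    (h : Cn th (fun i => X (τ i))) : Cn th X := by
  obtain ⟨h1, h2⟩ := h
  rw [Dt_perm τ h0] at h1 h2
  exact ⟨h1, fun h3 => crit_perm τ (h2 h3)⟩

/-! ### sign change -/

theorem hyp_neg (hX : Hyp X) : Hyp (fun i j => -X i j) := by
  refine ⟨fun j => ?_, fun p hp => ?_⟩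
  · rw [Finset.sum_neg_distrib, hX.h0 j, neg_zero]
  · have h := hX.h1 p hp
    have e : ∏ i, ∑ j, -X i j * (p j : ℝ) = ∏ i, ∑ j, X i j * (p j : ℝ) := by
      rw [Fin.prod_univ_four, Fin.prod_univ_four]
      simp only [neg_mul, Finset.sum_neg_distrib]
      ring
    rw [e]
    exact h

theorem Dt_neg : Dt (fun i j => -X i j) = -Dt X := by
  rw [Dt_eq, Dt_eq]
  ring

theorem cn_neg (h : Cn th (fun i j => -X i j)) : Cn th X := by
  obtain ⟨h1, h2⟩ := h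
  have e : (-Dt X) ^ 4 = Dt X ^ 4 := by ring
  rw [Dt_neg, e] at h1 h2
  refine ⟨h1, fun h3 => ?_⟩
  obtain ⟨σ, U, s, hU, hs, h4⟩ := h2 h3
  refine ⟨σ, U, -s, hU, by rw [← hs]; ring, fun i j => ?_⟩
  have h5 := h4 i j
  simp only [neg_mul, Finset.sum_neg_distrib] at h5
  rw [neg_mul, neg_div, ← h5, neg_neg]

/-! ### unimodular substitutions -/

/-- substitution -/
def sub (X : Fin 4 → Fin 3 → ℝ) (V : Matrix (Fin 3) (Fin 3) ℤ) : Fin 4 → Fin 3 → ℝ :=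
  fun i j => ∑ k, X i k * (V k j : ℝ)

theorem sub_apply (V : Matrix (Fin 3) (Fin 3) ℤ) (i : Fin 4) (p : Fin 3 → ℤ) :
    ∑ j, sub X V i j * (p j : ℝ) = ∑ k, X i k * ((V.mulVec p) k : ℝ) := by
  unfold sub
  simp only [Finset.sum_mul]
  rw [Finset.sum_comm]
  refine Finset.sum_congr rfl fun k _ => ?_
  simp only [Matrix.mulVec, dotProduct]
  push_cast
  rw [Finset.mul_sum]
  refine Finset.sum_congr rfl fun j _ => ?_
  ring

theorem hyp_base {V : Matrix (Fin 3) (Fin 3) ℤ} (hV : V.det = 1 ∨ V.det = -1) (hX : Hyp X) :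
    Hyp (sub X V) := by
  refine ⟨fun j => ?_, fun p hp => ?_⟩
  · unfold sub
    rw [Finset.sum_comm]
    refine Finset.sum_eq_zero fun k _ => ?_
    rw [← Finset.sum_mul, hX.h0 k, zero_mul]
  · have hd : V.det ≠ 0 := by
      rcases hV with h | h <;> rw [h] <;> norm_num
    have hne : V.mulVec p ≠ 0 := by
      intro h
      exact hp (Matrix.eq_zero_of_mulVec_eq_zero hd h)
    have h := hX.h1 _ hne
    simp only [sub_apply]
    exact h

theorem Dt_sub (V : Matrix (Fin 3) (Fin 3) ℤ) : Dt (sub X V) = Dt X * (V.det : ℝ) := by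
  unfold Dt
  have h1 : (Matrix.of fun i j : Fin 3 => sub X V i.castSucc j) =
      (Matrix.of fun i j : Fin 3 => X i.castSucc j) * V.map (Int.cast : ℤ → ℝ) := by
    ext i j
    rfl
  have h2 : (V.map (Int.cast : ℤ → ℝ)).det = (V.det : ℝ) := by
    exact (Int.cast_det V).symm
  rw [h1, Matrix.det_mul, h2]

theorem crit_base {V : Matrix (Fin 3) (Fin 3) ℤ} (hV : V.det = 1 ∨ V.det = -1)
    (h : Crit th (sub X V)) : Crit th X := by
  obtain ⟨σ, U, s, hU, hs, h1⟩ := h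
  refine ⟨σ, V * U, s, ?_, hs, fun i j => ?_⟩
  · rw [Matrix.det_mul]
    rcases hV with a | a <;> rcases hU with b | b <;> rw [a, b] <;> norm_num
  · rw [← h1 i j]
    unfold sub
    simp only [Finset.sum_mul]
    rw [Finset.sum_comm]
    refine Finset.sum_congr rfl fun k _ => ?_
    rw [Matrix.mul_apply]
    push_cast
    rw [Finset.mul_sum]
    refine Finset.sum_congr rfl fun l _ => ?_
    ring

theorem cn_base {V : Matrix (Fin 3) (Fin 3) ℤ} (hV : V.det = 1 ∨ V.det = -1)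
    (h : Cn th (sub X V)) : Cn th X := by
  obtain ⟨h1, h2⟩ := h
  have e : (V.det : ℝ) ^ 4 = 1 := by
    rcases hV with a | a <;> rw [a] <;> norm_num
  rw [Dt_sub, mul_pow, e, mul_one] at h1 h2
  exact ⟨h1, fun h3 => crit_base hV (h2 h3)⟩

/-! ### assembly -/

theorem isTh_exists : ∃ th : Fin 4 → ℝ, IsTh th := by
  obtain ⟨ph, c, x1, x2, y1, y2, hc⟩ := cst_exists
  refine ⟨er ph c x1 y1, ?_, er_mono hc⟩
  have hph := hc.ph2
  have hB : (c / x1) ^ 2 = 6 - ph := by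
    rw [div_pow, hc.cx]
    have := hc.x1p
    field_simp
  have hA : (c / y1) ^ 2 = 5 + ph := by
    rw [div_pow, hc.cy]
    have := hc.y1p
    field_simp
  have key : ∀ q t : ℝ, q ^ 2 = q + 1 → t ^ 2 = q * t + 1 →
      t ^ 4 - t ^ 3 - 3 * t ^ 2 + t + 1 = 0 := by
    intro q t hq ht
    have h3 : t ^ 3 = (q + 2) * t + q := by
      linear_combination (t + q) * ht + t * hq
    have h4 : t ^ 4 = (4 * q + 1) * t + q + 2 := by
      linear_combination t * h3 + (q + 2) * ht + t * hq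
    linear_combination h4 - h3 - 3 * ht
  have q1 : (1 - ph) ^ 2 = (1 - ph) + 1 := by linear_combination hph
  intro i
  fin_cases i
  · refine key (1 - ph) _ q1 ?_
    show ((1 - ph - c / x1) / 2) ^ 2 = (1 - ph) * ((1 - ph - c / x1) / 2) + 1
    linear_combination (hB - hph) / 4
  · refine key ph _ hph ?_
    show ((ph - c / y1) / 2) ^ 2 = ph * ((ph - c / y1) / 2) + 1
    linear_combination (hA - hph) / 4
  · refine key (1 - ph) _ q1 ?_
    show ((1 - ph + c / x1) / 2) ^ 2 = (1 - ph) * ((1 - ph + c / x1) / 2) + 1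
    linear_combination (hB - hph) / 4
  · refine key ph _ hph ?_
    show ((ph + c / y1) / 2) ^ 2 = ph * ((ph + c / y1) / 2) + 1
    linear_combination (hA - hph) / 4

/-- the statements of `Q4/T3.lean` from `Cn` -/
theorem t3_bound_of (H : ∀ (th : Fin 4 → ℝ) (X : Fin 4 → Fin 3 → ℝ), IsTh th → Hyp X → Cn th X)
    (X : Fin 4 → Fin 3 → ℝ) (h0 : ∀ j, ∑ i, X i j = 0)
    (h1 : ∀ p : Fin 3 → ℤ, p ≠ 0 → 1 ≤ |∏ i, ∑ j, X i j * (p j : ℝ)|) :
    725 ≤ (Matrix.of fun i j : Fin 3 => X i.castSucc j).det ^ 4 := by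
  obtain ⟨th, ht⟩ := isTh_exists
  exact (H th X ht ⟨h0, h1⟩).1

theorem t3_eq_of (H : ∀ (th : Fin 4 → ℝ) (X : Fin 4 → Fin 3 → ℝ), IsTh th → Hyp X → Cn th X)
    {th : Fin 4 → ℝ} (h : IsTh th) (X : Fin 4 → Fin 3 → ℝ) (h0 : ∀ j, ∑ i, X i j = 0)
    (h1 : ∀ p : Fin 3 → ℤ, p ≠ 0 → 1 ≤ |∏ i, ∑ j, X i j * (p j : ℝ)|)
    (h2 : (Matrix.of fun i j : Fin 3 => X i.castSucc j).det ^ 4 = 725) :
    ∃ (σ : Equiv.Perm (Fin 4)) (U : Matrix (Fin 3) (Fin 3) ℤ) (s : ℝ), (U.det = 1 ∨ U.det = -1) ∧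
      s ^ 4 = 725 ∧ ∀ i j, ∑ k, X i k * (U k j : ℝ) = s * th (σ i) ^ (j : ℕ) / fd (th (σ i)) :=
  (H th X h ⟨h0, h1⟩).2 h2

end Pool.Agent.Work.MP_77d073_nt.Q4.Cr
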