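import Pool.Agent.Work.MP_77d073_nt.Q4.Th

/-!
MODULE Nrm (M).  The norm form is integer valued and has no nontrivial zero.

PROOF.  `V_C4`: direct (`Fin.sum_univ_four`; for `k = 3` use `h.root i`).
`norm_det`: let `A` be the real matrix of `V th` (`Matrix.of (V th)`), `G = ∑ j, p j • C4 ^ j` (integer matrix), then
`A * (G : real) = diagonal (fun i => ∑ j, p j th i ^ j) * A` (iterate `V_C4`: `A * C4^j = diagonal (th i ^ j) * A`), and `det A ≠ 0`
(`Matrix.of (V th) = Matrix.vandermonde th`, `Matrix.det_vandermonde_ne_zero_iff`, `h.mono.injective`); take determinants: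
`∏ i, ∑ j, V th i j p j = det G`.  (This is the proof of `values_of_matrix` in `Disc.lean`, whose constant is
`det V / det (vandermonde th) = 1` here; copy it.)
`C4_irr`: the characteristic polynomial of `C4` is `X^4 - X^3 - 3X^2 + X + 1` (compute: `Matrix.charpoly`,
`Matrix.det_succ_row_zero`, `Fin.sum_univ_succ`, or use that it is monic of degree 4 and kills the four distinct roots `th i`
by `V_C4`: each `th i` is an eigenvalue of the real matrix, existence of `th` from `exists_th`).  It is irreducible over `ℚ`: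
by Gauss (`Polynomial.Monic.irreducible_iff_irreducible_map_fraction_map` or `Polynomial.Monic.irreducible_of_irreducible_map`
modulo 2, where it is `X^4 + X^3 + X^2 + X + 1`).  Elementary over `ℤ`: no root `±1`; a factorization
`(X^2 + aX + b)(X^2 + cX + d)` needs `bd = 1`, `a + c = -1`, `ac + b + d = -3`, `ad + bc = 1`; `b = d = 1` gives
`a + c = 1`; `b = d = -1` gives `ac = -1`, `a + c = -1`: impossible.
`norm_ne`: if `∏ = det G = 0`, then some `∑ j, p j th i ^ j = 0`, a polynomial of degree `≤ 3` over `ℚ` vanishing at a root of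
the irreducible quartic: so `p = 0` (`minpoly`).
-/

set_option autoImplicit false

namespace Pool.Agent.Work.MP_77d073_nt.Q4

theorem V_C4 {th : Fin 4 → ℝ} (h : IsTh th) (i k : Fin 4) :
    ∑ j, V th i j * (C4 j k : ℝ) = th i * V th i k := by
  have hr := h.root i
  fin_cases k
  · simp [Fin.sum_univ_four, V, C4]
  · simp [Fin.sum_univ_four, V, C4]
    ring
  · simp [Fin.sum_univ_four, V, C4]
    ring
  · simp [Fin.sum_univ_four, V, C4]
    linear_combination -hr

theorem norm_int {th : Fin 4 → ℝ} (h : IsTh th) (p : Fin 4 → ℤ) :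
    ∃ z : ℤ, ∏ i, ∑ j, V th i j * (p j : ℝ) = (z : ℝ) := by
  classical
  have hV : (Matrix.vandermonde th).det ≠ 0 := Matrix.det_vandermonde_ne_zero_iff.mpr h.mono.injective
  set P : Matrix (Fin 4) (Fin 4) ℤ := fun l k => ((C4 ^ (k : ℕ)).mulVec p) l with hP
  refine ⟨P.det, ?_⟩
  have hstep : ∀ (q : Fin 4 → ℤ) (i : Fin 4), ∑ l, V th i l * ((C4.mulVec q l : ℤ) : ℝ) =
      th i * ∑ l, V th i l * (q l : ℝ) := by
    intro q i
    have h1 : ∀ l, V th i l * ((C4.mulVec q l : ℤ) : ℝ) = ∑ j, V th i l * (C4 l j : ℝ) * (q j : ℝ) := by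
      intro l
      simp only [Matrix.mulVec, dotProduct]
      push_cast
      rw [Finset.mul_sum]
      refine Finset.sum_congr rfl fun j _ => ?_
      ring
    simp_rw [h1]
    rw [Finset.sum_comm]
    simp_rw [← Finset.sum_mul, V_C4 h, mul_assoc]
    rw [← Finset.mul_sum]
  have hpow : ∀ (k : ℕ) (i : Fin 4), ∑ l, V th i l * (((C4 ^ k).mulVec p l : ℤ) : ℝ) =
      th i ^ k * ∑ l, V th i l * (p l : ℝ) := by
    intro k
    induction k with
    | zero => intro i; simp
    | succ k ih =>
      intro i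
      rw [pow_succ' C4, ← Matrix.mulVec_mulVec, hstep, ih, pow_succ]
      ring
  have hmat : Matrix.of (V th) * P.map (Int.castRingHom ℝ) =
      Matrix.diagonal (fun i => ∑ l, V th i l * (p l : ℝ)) * Matrix.vandermonde th := by
    ext i k
    rw [Matrix.mul_apply, Matrix.diagonal_mul, Matrix.vandermonde_apply, mul_comm, ← hpow]
    rfl
  have hof : Matrix.of (V th) = Matrix.vandermonde th := by
    ext i k
    simp [V, Matrix.vandermonde_apply]
  have hdet := congrArg Matrix.det hmat
  rw [Matrix.det_mul, Matrix.det_mul, Matrix.det_diagonal, ← RingHom.mapMatrix_apply,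
    ← RingHom.map_det, hof, mul_comm] at hdet
  have := mul_right_cancel₀ hV hdet
  rw [← this]
  simp

private theorem quartic_irr :
    Irreducible (Polynomial.X ^ 4 - Polynomial.X ^ 3 - 3 * Polynomial.X ^ 2 + Polynomial.X + 1 :
      Polynomial ℤ) := by
  open Polynomial in
  have hm : (X ^ 4 - X ^ 3 - 3 * X ^ 2 + X + 1 : ℤ[X]).Monic := by
    monicity!
  have hd : (X ^ 4 - X ^ 3 - 3 * X ^ 2 + X + 1 : ℤ[X]).natDegree = 4 := by
    compute_degree!
  have he : ∀ r : ℤ, (X ^ 4 - X ^ 3 - 3 * X ^ 2 + X + 1 : ℤ[X]).eval r =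
      r ^ 4 - r ^ 3 - 3 * r ^ 2 + r + 1 := by
    intro r
    simp
  have h1 : (X ^ 4 - X ^ 3 - 3 * X ^ 2 + X + 1 : ℤ[X]) ≠ 1 := by
    intro hc
    have := congrArg natDegree hc
    rw [hd] at this
    simp at this
  rw [hm.irreducible_iff_natDegree']
  refine ⟨h1, ?_⟩
  intro f g hf hg hfg hmem
  rw [hd] at hmem
  have hm1 := (Finset.mem_Ioc.mp hmem).1
  have hm2 := (Finset.mem_Ioc.mp hmem).2
  have hev : ∀ r : ℤ, f.eval r * g.eval r = r ^ 4 - r ^ 3 - 3 * r ^ 2 + r + 1 := by
    intro r
    rw [← eval_mul, hfg, he]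
  have hsum : f.natDegree + g.natDegree = 4 := by
    rw [← hf.natDegree_mul hg, hfg, hd]
  have hg12 : g.natDegree = 1 ∨ g.natDegree = 2 := by omega
  rcases hg12 with hg1 | hg2
  · have hge : ∀ r : ℤ, g.eval r = g.coeff 0 + r := by
      intro r
      have hlc : g.coeff 1 = 1 := by
        have := hg.coeff_natDegree
        rwa [hg1] at this
      rw [eval_eq_sum_range, hg1]
      simp [Finset.sum_range_succ, hlc]
    have h0 := hev (-g.coeff 0)
    rw [hge] at h0
    have h2 : g.coeff 0 * (g.coeff 0 ^ 3 + g.coeff 0 ^ 2 - 3 * g.coeff 0 - 1) = -1 := by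
      have : f.eval (-g.coeff 0) * (g.coeff 0 + -g.coeff 0) = 0 := by ring
      rw [this] at h0
      linarith
    have h3 : g.coeff 0 = 1 ∨ g.coeff 0 = -1 := by
      have : IsUnit (g.coeff 0) := by
        refine IsUnit.of_mul_eq_one (-(g.coeff 0 ^ 3 + g.coeff 0 ^ 2 - 3 * g.coeff 0 - 1)) ?_
        linarith
      exact Int.isUnit_iff.mp this
    rcases h3 with h3 | h3 <;> rw [h3] at h2 <;> norm_num at h2
  · have hf2 : f.natDegree = 2 := by omega
    have hge : ∀ r : ℤ, g.eval r = g.coeff 0 + g.coeff 1 * r + r ^ 2 := by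
      intro r
      have hlc : g.coeff 2 = 1 := by
        have := hg.coeff_natDegree
        rwa [hg2] at this
      rw [eval_eq_sum_range, hg2]
      simp [Finset.sum_range_succ, hlc]
    have hfe : ∀ r : ℤ, f.eval r = f.coeff 0 + f.coeff 1 * r + r ^ 2 := by
      intro r
      have hlc : f.coeff 2 = 1 := by
        have := hf.coeff_natDegree
        rwa [hf2] at this
      rw [eval_eq_sum_range, hf2]
      simp [Finset.sum_range_succ, hlc]
    have e0 := hev 0
    have e1 := hev 1
    have e2 := hev (-1)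
    have e3 := hev 2
    rw [hge, hfe] at e0 e1 e2 e3
    generalize g.coeff 0 = d at *
    generalize g.coeff 1 = c at *
    generalize f.coeff 0 = b at *
    generalize f.coeff 1 = a at *
    norm_num at e0 e1 e2 e3
    rcases Int.eq_one_or_neg_one_of_mul_eq_one' e0 with ⟨hb, hd'⟩ | ⟨hb, hd'⟩
    · subst hb hd'
      nlinarith
    · subst hb hd'
      have hac : a * c = -1 := by linarith
      have hu : IsUnit a := IsUnit.of_mul_eq_one (-c) (by linarith)
      rcases Int.isUnit_iff.mp hu with ha | ha <;> subst ha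
      · have : c = -1 := by linarith
        subst this
        norm_num at e3
      · have : c = 1 := by linarith
        subst this
        norm_num at e3

private theorem C4_charpoly :
    C4.charpoly = (Polynomial.X ^ 4 - Polynomial.X ^ 3 - 3 * Polynomial.X ^ 2 + Polynomial.X + 1 :
      Polynomial ℤ) := by
  open Polynomial in
  have hM : Matrix.charmatrix C4 = !![X, 0, 0, 1; -1, X, 0, 1; 0, -1, X, -3; 0, 0, -1, X - 1] := by
    ext1 i j
    fin_cases i <;> fin_cases j <;> simp [C4]
  unfold Matrix.charpoly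
  rw [hM, Matrix.det_succ_row_zero]
  simp [Fin.sum_univ_succ, Matrix.det_fin_three, Matrix.submatrix_apply, Fin.succAbove]
  ring

theorem C4_irr : Irreducible (C4.map (Int.cast : ℤ → ℚ)).charpoly := by
  have h1 : (C4.map (Int.cast : ℤ → ℚ)).charpoly = C4.charpoly.map (Int.castRingHom ℚ) := by
    rw [← Matrix.charpoly_map]
    rfl
  rw [h1]
  have hm := Matrix.charpoly_monic C4
  have h2 := (Polynomial.Monic.irreducible_iff_irreducible_map_fraction_map (K := ℚ) hm).mp
    (by rw [C4_charpoly]; exact quartic_irr)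
  exact h2

theorem norm_ne {th : Fin 4 → ℝ} (h : IsTh th) (p : Fin 4 → ℤ) (hp : p ≠ 0) :
    ∏ i, ∑ j, V th i j * (p j : ℝ) ≠ 0 := by
  intro h0
  obtain ⟨i, -, hi⟩ := Finset.prod_eq_zero_iff.mp h0
  set f : Polynomial ℚ := (C4.map (Int.cast : ℤ → ℚ)).charpoly with hf
  have hf1 : f = Polynomial.X ^ 4 - Polynomial.X ^ 3 - 3 * Polynomial.X ^ 2 + Polynomial.X + 1 := by
    have h1 : (C4.map (Int.cast : ℤ → ℚ)).charpoly = C4.charpoly.map (Int.castRingHom ℚ) := by
      rw [← Matrix.charpoly_map]
      rfl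
    rw [hf, h1, C4_charpoly]
    simp
  have hmin : f = minpoly ℚ (th i) := by
    refine minpoly.eq_of_irreducible_of_monic C4_irr ?_ (Matrix.charpoly_monic _)
    rw [hf1]
    simp only [map_add, map_sub, map_mul, map_pow, Polynomial.aeval_X, map_one, map_ofNat]
    linear_combination h.root i
  set q : Polynomial ℚ := ∑ j : Fin 4, Polynomial.C (p j : ℚ) * Polynomial.X ^ (j : ℕ) with hq
  have hq0 : Polynomial.aeval (th i) q = 0 := by
    rw [hq, map_sum]
    rw [← hi]
    refine Finset.sum_congr rfl fun j _ => ?_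
    simp [V, mul_comm]
  have hdvd : f ∣ q := by
    rw [hmin]
    exact minpoly.dvd _ _ hq0
  have hdeg : q.natDegree ≤ 3 := by
    refine Polynomial.natDegree_sum_le_of_forall_le _ _ fun j _ => ?_
    refine (Polynomial.natDegree_C_mul_X_pow_le _ _).trans ?_
    have := j.2
    omega
  have hfd : f.natDegree = 4 := by
    rw [hf, Matrix.charpoly_natDegree_eq_dim]
    simp
  have hqz : q = 0 := by
    by_contra hne
    have := Polynomial.natDegree_le_of_dvd hdvd hne
    omega
  apply hp
  funext j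
  have hc : q.coeff (j : ℕ) = (p j : ℚ) := by
    rw [hq, Polynomial.finsetSum_coeff]
    rw [Finset.sum_eq_single j]
    · simp
    · intro b _ hb
      have : (b : ℕ) ≠ (j : ℕ) := fun hh => hb (Fin.ext hh)
      simp [Polynomial.coeff_X_pow, this.symm]
    · simp
  rw [hqz] at hc
  have : (p j : ℚ) = 0 := by rw [← hc]; simp
  exact_mod_cast this

end Pool.Agent.Work.MP_77d073_nt.Q4
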