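import Pool.Agent.Work.MP_77d073_nt.PairResult
import Pool.Agent.Work.MP_77d073_nt.Q4.Nrm

/-!
MODULE Conc (M).  If the norm form lies in the closure of the orbit, the conclusion of Oppenheim's conjecture holds.

PROOF.  `nf_eigen`: with `U'` the inverse of `U` (`Uni.inv`) and `B = U' * C4 * U`, `V_C4` gives
`∑ j, L i j * B j k = th (σ i) * L i k` (`L = diag(a) * V_σ * U`, `V_σ C4 = diag(th (σ i)) V_σ`; sums exchanged, or pass to matrices
`Matrix.of`).  `B` over `ℚ` is similar to `C4`, so it has the same characteristic polynomial (`Matrix.charpoly_units_conj` or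
`Matrix.charpoly_mul_comm`), irreducible by `C4_irr`.
`conc`: `mem_closure_orb` gives `M, t`; apply `Pool.Agent.Work.MP_77d073_nt.HypResult.result 4` with `i₀ = 0` and
`B.map Int.cast` (a hyperplane `L' 0 = 0` is mapped into itself because `L' 0` is an eigenvector), exactly as in
`concl_of_isolated` (end of its proof, file `Pair.lean`).  The result is literally `PairResult.Conclusion L`.
-/

set_option autoImplicit false

namespace Pool.Agent.Work.MP_77d073_nt.Q4

open Pool.Agent.Work.MP_77d073_nt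

theorem nf_eigen {th : Fin 4 → ℝ} (hth : IsTh th) {L : Fin 4 → Fin 4 → ℝ} (h : NF th L) :
    ∃ (B : Matrix (Fin 4) (Fin 4) ℤ) (σ : Equiv.Perm (Fin 4)),
      Irreducible (B.map (Int.cast : ℤ → ℚ)).charpoly ∧
      ∀ i k, ∑ j, L i j * (B j k : ℝ) = th (σ i) * L i k := by
  classical
  obtain ⟨σ, U, a, hU, hL⟩ := h
  obtain ⟨U', -, hUU', hU'U⟩ := hU.inv
  refine ⟨U' * C4 * U, σ, ?_, fun i k => ?_⟩
  · have h1 : (U' * C4 * U).map (Int.cast : ℤ → ℚ) =
        (U'.map (Int.cast : ℤ → ℚ)) * ((C4.map (Int.cast : ℤ → ℚ)) * (U.map (Int.cast : ℤ → ℚ))) := by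
      have h := Matrix.map_mul (L := U' * C4) (M := U) (f := Int.castRingHom ℚ)
      have h2 := Matrix.map_mul (L := U') (M := C4) (f := Int.castRingHom ℚ)
      rw [h2] at h
      rw [← Matrix.mul_assoc]
      exact h
    have h3 : (U.map (Int.cast : ℤ → ℚ)) * (U'.map (Int.cast : ℤ → ℚ)) = 1 := by
      have h := Matrix.map_mul (L := U) (M := U') (f := Int.castRingHom ℚ)
      rw [hUU'] at h
      have h4 : (1 : Matrix (Fin 4) (Fin 4) ℤ).map (Int.castRingHom ℚ) = 1 :=
        Matrix.map_one _ (map_zero _) (map_one _)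
      rw [h4] at h
      exact h.symm
    rw [h1, Matrix.charpoly_mul_comm, Matrix.mul_assoc, h3, Matrix.mul_one]
    exact C4_irr
  · have hmul : U * (U' * C4 * U) = C4 * U := by
      rw [← Matrix.mul_assoc, ← Matrix.mul_assoc, hUU', Matrix.one_mul]
    have hB : ∀ l, ∑ j, (U l j : ℝ) * (((U' * C4 * U) j k : ℤ) : ℝ) =
        ∑ m, (C4 l m : ℝ) * (U m k : ℝ) := by
      intro l
      have h := congrFun (congrFun hmul l) k
      rw [Matrix.mul_apply, Matrix.mul_apply] at h
      exact_mod_cast h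
    calc ∑ j, L i j * (((U' * C4 * U) j k : ℤ) : ℝ)
        = ∑ j, ∑ l, a i * V th (σ i) l * ((U l j : ℝ) * (((U' * C4 * U) j k : ℤ) : ℝ)) := by
          refine Finset.sum_congr rfl fun j _ => ?_
          rw [hL i j, Finset.mul_sum, Finset.sum_mul]
          refine Finset.sum_congr rfl fun l _ => ?_
          ring
      _ = ∑ l, a i * V th (σ i) l * ∑ j, (U l j : ℝ) * (((U' * C4 * U) j k : ℤ) : ℝ) := by
          rw [Finset.sum_comm]
          refine Finset.sum_congr rfl fun l _ => ?_
          rw [Finset.mul_sum]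
      _ = ∑ l, ∑ m, a i * (V th (σ i) l * (C4 l m : ℝ)) * (U m k : ℝ) := by
          refine Finset.sum_congr rfl fun l _ => ?_
          rw [hB l, Finset.mul_sum]
          refine Finset.sum_congr rfl fun m _ => ?_
          ring
      _ = ∑ m, a i * (∑ l, V th (σ i) l * (C4 l m : ℝ)) * (U m k : ℝ) := by
          rw [Finset.sum_comm]
          refine Finset.sum_congr rfl fun m _ => ?_
          rw [Finset.mul_sum, Finset.sum_mul]
      _ = th (σ i) * L i k := by
          rw [hL i k, Finset.mul_sum, Finset.mul_sum]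
          refine Finset.sum_congr rfl fun m _ => ?_
          rw [V_C4 hth]
          ring

theorem conc {th : Fin 4 → ℝ} (hth : IsTh th) {L L' : Fin 4 → Fin 4 → ℝ} (hL : LinearIndependent ℝ L)
    (hb : PairResult.Bounded L) (h' : L' ∈ closure (orb L)) (h : NF th L') : PairResult.Conclusion L := by
  classical
  obtain ⟨B, σ, hirr, hB⟩ := nf_eigen hth h
  obtain ⟨M, t, hM, ht, hlim⟩ := mem_closure_orb h'
  refine Pool.Agent.Work.MP_77d073_nt.HypResult.result 4 (by norm_num) L hL hb M t L'
    (fun k => (hM k).ne_zero) ht hlim 0 (B.map (Int.cast : ℤ → ℚ)) hirr ?_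
  intro x hx
  have h1 : ∀ j, (((B.map (Int.cast : ℤ → ℚ)).map (Rat.cast : ℚ → ℝ)).mulVec x) j =
      ∑ k, (B j k : ℝ) * x k := by
    intro j
    simp [Matrix.mulVec, dotProduct]
  simp_rw [h1, Finset.mul_sum]
  rw [Finset.sum_comm]
  simp_rw [← mul_assoc, ← Finset.sum_mul, hB, mul_assoc]
  rw [← Finset.mul_sum, hx, mul_zero]

end Pool.Agent.Work.MP_77d073_nt.Q4
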