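import Pool.Agent.Work.MP_77d073_nt.Q4.Th

/-!
MODULE Cov (helper84).  The covering of `[-1/2, 1/2]^3` by a certificate checked in the kernel.
-/

set_option autoImplicit false

namespace Pool.Agent.Work.MP_77d073_nt.Q4

/-- The covering tree: critical box, leaf with an integer shift, and the splits of the three
coordinates. -/
inductive CTree where
  | C : CTree
  | L : ℤ → ℤ → ℤ → CTree
  | S0 : CTree → CTree → CTree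
  | S1 : CTree → CTree → CTree
  | S2 : CTree → CTree → CTree

/-- Upper bound for `1024 * 10^6` times a shifted form on a box. -/
private def bd (t1 t2 t3 a b c p q r x y z : ℤ) : ℤ :=
  ((1024 * t3 + (1024 * x + a) * 1000000 + (1024 * y + b) * t1 + (1024 * z + c) * t2).natAbs : ℤ)
    + 20480 + ((1024 * y + b).natAbs : ℤ) + 6 * ((1024 * z + c).natAbs : ℤ)
    + (p * 1000000 + q * ((t1.natAbs : ℤ) + 1) + r * (t2 + 6))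

private def leafOK (a b c p q r x y z : ℤ) : Bool :=
  decide (bd (-1355674) 1837853 (-2491530) a b c p q r x y z *
    bd (-477260) 227777 (-108709) a b c p q r x y z *
    bd 737640 544113 401360 a b c p q r x y z *
    bd 2095294 4390257 9198879 a b c p q r x y z < 1024000000 ^ 4)

private def chk : CTree → ℤ → ℤ → ℤ → ℤ → ℤ → ℤ → Bool
  | .C, a, b, c, p, q, r => decide ((a.natAbs : ℤ) + p ≤ 102) && decide ((b.natAbs : ℤ) + q ≤ 102) &&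
      decide ((c.natAbs : ℤ) + r ≤ 102)
  | .L x y z, a, b, c, p, q, r => leafOK a b c p q r x y z
  | .S0 t t', a, b, c, p, q, r => decide (2 * (p / 2) = p) && chk t (a - p / 2) b c (p / 2) q r &&
      chk t' (a + p / 2) b c (p / 2) q r
  | .S1 t t', a, b, c, p, q, r => decide (2 * (q / 2) = q) && chk t a (b - q / 2) c p (q / 2) r &&
      chk t' a (b + q / 2) c p (q / 2) r
  | .S2 t t', a, b, c, p, q, r => decide (2 * (r / 2) = r) && chk t a b (c - r / 2) p q (r / 2) &&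
      chk t' a b (c + r / 2) p q (r / 2)

private theorem bd_sound {t : ℝ} {t1 t2 t3 : ℤ} (h1 : |1000000 * t - t1| ≤ 1)
    (h2 : |1000000 * t ^ 2 - t2| ≤ 6) (h3 : |1000000 * t ^ 3 - t3| ≤ 20) {w : Fin 3 → ℝ}
    {a b c p q r : ℤ} (ha : |1024 * w 0 - a| ≤ p) (hb : |1024 * w 1 - b| ≤ q)
    (hc : |1024 * w 2 - c| ≤ r) (x y z : ℤ) :
    |1024000000 * (t ^ 3 + w3 w t + q3 ![x, y, z] t)| ≤ ((bd t1 t2 t3 a b c p q r x y z : ℤ) : ℝ) := by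
  have hp0 : (0 : ℝ) ≤ p := (abs_nonneg _).trans ha
  have hq0 : (0 : ℝ) ≤ q := (abs_nonneg _).trans hb
  have hr0 : (0 : ℝ) ≤ r := (abs_nonneg _).trans hc
  have e : 1024000000 * (t ^ 3 + w3 w t + q3 ![x, y, z] t) =
      ((1024 * t3 + (1024 * x + a) * 1000000 + (1024 * y + b) * t1 + (1024 * z + c) * t2 : ℤ) : ℝ) +
      1024 * (1000000 * t ^ 3 - t3) + 1000000 * (1024 * w 0 - a) +
      ((1024 * y + b : ℤ) : ℝ) * (1000000 * t - t1) + (1024 * w 1 - b) * (1000000 * t) +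
      ((1024 * z + c : ℤ) : ℝ) * (1000000 * t ^ 2 - t2) + (1024 * w 2 - c) * (1000000 * t ^ 2) := by
    have e0 : (![x, y, z] : Fin 3 → ℤ) 0 = x := rfl
    have e1 : (![x, y, z] : Fin 3 → ℤ) 1 = y := rfl
    have e2 : (![x, y, z] : Fin 3 → ℤ) 2 = z := rfl
    unfold w3 q3
    rw [e0, e1, e2]
    push_cast
    ring
  have k1 : |1024 * (1000000 * t ^ 3 - t3)| ≤ 20480 := by
    rw [abs_mul, abs_of_pos (by norm_num : (0 : ℝ) < 1024)]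
    linarith
  have k2 : |1000000 * (1024 * w 0 - a)| ≤ p * 1000000 := by
    rw [abs_mul, abs_of_pos (by norm_num : (0 : ℝ) < 1000000)]
    linarith
  have k3 : |((1024 * y + b : ℤ) : ℝ) * (1000000 * t - t1)| ≤ |((1024 * y + b : ℤ) : ℝ)| := by
    rw [abs_mul]
    calc |((1024 * y + b : ℤ) : ℝ)| * |1000000 * t - t1| ≤ |((1024 * y + b : ℤ) : ℝ)| * 1 := by gcongr
      _ = _ := mul_one _
  have m1 : |1000000 * t| ≤ |(t1 : ℝ)| + 1 := by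
    have : |1000000 * t| ≤ |1000000 * t - t1| + |(t1 : ℝ)| := by
      have := abs_add_le (1000000 * t - t1) (t1 : ℝ)
      simpa using this
    linarith
  have k4 : |(1024 * w 1 - b) * (1000000 * t)| ≤ q * (|(t1 : ℝ)| + 1) := by
    rw [abs_mul]
    gcongr
  have k5 : |((1024 * z + c : ℤ) : ℝ) * (1000000 * t ^ 2 - t2)| ≤ 6 * |((1024 * z + c : ℤ) : ℝ)| := by
    rw [abs_mul, mul_comm]
    gcongr
  have m2 : |1000000 * t ^ 2| ≤ (t2 : ℝ) + 6 := by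
    rw [abs_of_nonneg (by positivity)]
    have := (abs_le.mp h2).2
    linarith
  have k6 : |(1024 * w 2 - c) * (1000000 * t ^ 2)| ≤ (r : ℝ) * ((t2 : ℝ) + 6) := by
    rw [abs_mul]
    gcongr
  rw [e]
  have hcast : ((bd t1 t2 t3 a b c p q r x y z : ℤ) : ℝ) =
      |((1024 * t3 + (1024 * x + a) * 1000000 + (1024 * y + b) * t1 + (1024 * z + c) * t2 : ℤ) : ℝ)| +
      20480 + |((1024 * y + b : ℤ) : ℝ)| + 6 * |((1024 * z + c : ℤ) : ℝ)| +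
      (p * 1000000 + q * (|(t1 : ℝ)| + 1) + r * (t2 + 6)) := by
    unfold bd
    push_cast [Int.natCast_natAbs]
    ring
  rw [hcast]
  refine (abs_add_le _ _).trans ?_
  refine (add_le_add (abs_add_le _ _) le_rfl).trans ?_
  refine (add_le_add (add_le_add (abs_add_le _ _) le_rfl) le_rfl).trans ?_
  refine (add_le_add (add_le_add (add_le_add (abs_add_le _ _) le_rfl) le_rfl) le_rfl).trans ?_
  refine (add_le_add (add_le_add (add_le_add (add_le_add (abs_add_le _ _) le_rfl) le_rfl) le_rfl) le_rfl).trans ?_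
  refine (add_le_add (add_le_add (add_le_add (add_le_add (add_le_add (abs_add_le _ _) le_rfl) le_rfl) le_rfl) le_rfl) le_rfl).trans ?_
  linarith

private theorem th_num {th : Fin 4 → ℝ} (h : IsTh th) :
    ((|1000000 * th 0 - ((-1355674 : ℤ) : ℝ)| ≤ 1 ∧ |1000000 * th 0 ^ 2 - ((1837853 : ℤ) : ℝ)| ≤ 6) ∧
      |1000000 * th 0 ^ 3 - ((-2491530 : ℤ) : ℝ)| ≤ 20) ∧
    ((|1000000 * th 1 - ((-477260 : ℤ) : ℝ)| ≤ 1 ∧ |1000000 * th 1 ^ 2 - ((227777 : ℤ) : ℝ)| ≤ 6) ∧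
      |1000000 * th 1 ^ 3 - ((-108709 : ℤ) : ℝ)| ≤ 20) ∧
    ((|1000000 * th 2 - ((737640 : ℤ) : ℝ)| ≤ 1 ∧ |1000000 * th 2 ^ 2 - ((544113 : ℤ) : ℝ)| ≤ 6) ∧
      |1000000 * th 2 ^ 3 - ((401360 : ℤ) : ℝ)| ≤ 20) ∧
    ((|1000000 * th 3 - ((2095294 : ℤ) : ℝ)| ≤ 1 ∧ |1000000 * th 3 ^ 2 - ((4390257 : ℤ) : ℝ)| ≤ 6) ∧
      |1000000 * th 3 ^ 3 - ((9198879 : ℤ) : ℝ)| ≤ 20) := by
  obtain ⟨⟨a0, b0⟩, ⟨a1, b1⟩, ⟨a2, b2⟩, a3, b3⟩ := th_bd h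
  have c0 : 1.837851 < th 0 ^ 2 ∧ th 0 ^ 2 < 1.837856 := by constructor <;> nlinarith
  have c1 : 0.227776 < th 1 ^ 2 ∧ th 1 ^ 2 < 0.227778 := by constructor <;> nlinarith
  have c2 : 0.544112 < th 2 ^ 2 ∧ th 2 ^ 2 < 0.544115 := by constructor <;> nlinarith
  have c3 : 4.390252 < th 3 ^ 2 ∧ th 3 ^ 2 < 4.390258 := by constructor <;> nlinarith
  have d0 : -2.491540 < th 0 ^ 3 ∧ th 0 ^ 3 < -2.491520 := by
    have : th 0 ^ 3 = th 0 * th 0 ^ 2 := by ring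
    rw [this]
    constructor <;> nlinarith [c0.1, c0.2]
  have d1 : -0.108720 < th 1 ^ 3 ∧ th 1 ^ 3 < -0.108700 := by
    have : th 1 ^ 3 = th 1 * th 1 ^ 2 := by ring
    rw [this]
    constructor <;> nlinarith [c1.1, c1.2]
  have d2 : 0.401350 < th 2 ^ 3 ∧ th 2 ^ 3 < 0.401370 := by
    have : th 2 ^ 3 = th 2 * th 2 ^ 2 := by ring
    rw [this]
    constructor <;> nlinarith [c2.1, c2.2]
  have d3 : 9.198860 < th 3 ^ 3 ∧ th 3 ^ 3 < 9.198898 := by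
    have : th 3 ^ 3 = th 3 * th 3 ^ 2 := by ring
    rw [this]
    constructor <;> nlinarith [c3.1, c3.2]
  push_cast
  refine ⟨⟨⟨?_, ?_⟩, ?_⟩, ⟨⟨?_, ?_⟩, ?_⟩, ⟨⟨?_, ?_⟩, ?_⟩, ⟨?_, ?_⟩, ?_⟩ <;> rw [abs_le] <;>
    constructor <;> linarith [c0.1, c0.2, c1.1, c1.2, c2.1, c2.2, c3.1, c3.2, d0.1, d0.2, d1.1, d1.2, d2.1, d2.2, d3.1, d3.2]

private theorem leaf_sound {th : Fin 4 → ℝ} (h : IsTh th) {w : Fin 3 → ℝ} {a b c p q r : ℤ}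
    (ha : |1024 * w 0 - a| ≤ p) (hb : |1024 * w 1 - b| ≤ q) (hc : |1024 * w 2 - c| ≤ r) {x y z : ℤ}
    (hk : leafOK a b c p q r x y z = true)
    (H : ∀ g : Fin 3 → ℤ, 1 ≤ |∏ i, (th i ^ 3 + w3 w (th i) + q3 g (th i))|) : False := by
  obtain ⟨⟨⟨h01, h02⟩, h03⟩, ⟨⟨h11, h12⟩, h13⟩, ⟨⟨h21, h22⟩, h23⟩, ⟨h31, h32⟩, h33⟩ := th_num h
  have k0 := bd_sound h01 h02 h03 ha hb hc x y z
  have k1 := bd_sound h11 h12 h13 ha hb hc x y z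
  have k2 := bd_sound h21 h22 h23 ha hb hc x y z
  have k3 := bd_sound h31 h32 h33 ha hb hc x y z
  have hH := H ![x, y, z]
  rw [Fin.prod_univ_four, abs_mul, abs_mul, abs_mul] at hH
  unfold leafOK at hk
  have hk' := of_decide_eq_true hk
  have hk2 : ((bd (-1355674) 1837853 (-2491530) a b c p q r x y z : ℤ) : ℝ) *
    ((bd (-477260) 227777 (-108709) a b c p q r x y z : ℤ) : ℝ) *
    ((bd 737640 544113 401360 a b c p q r x y z : ℤ) : ℝ) *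
    ((bd 2095294 4390257 9198879 a b c p q r x y z : ℤ) : ℝ) < 1024000000 ^ 4 := by
    exact_mod_cast hk'
  rw [abs_mul, abs_of_pos (by norm_num : (0 : ℝ) < 1024000000)] at k0 k1 k2 k3
  have n0 := abs_nonneg (th 0 ^ 3 + w3 w (th 0) + q3 ![x, y, z] (th 0))
  have n1 := abs_nonneg (th 1 ^ 3 + w3 w (th 1) + q3 ![x, y, z] (th 1))
  have n2 := abs_nonneg (th 2 ^ 3 + w3 w (th 2) + q3 ![x, y, z] (th 2))
  have n3 := abs_nonneg (th 3 ^ 3 + w3 w (th 3) + q3 ![x, y, z] (th 3))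
  have hprod := mul_le_mul (mul_le_mul (mul_le_mul k0 k1 (by positivity) (by linarith))
    k2 (by positivity) (by
      have := mul_nonneg (by linarith : (0 : ℝ) ≤ 1024000000 * |th 0 ^ 3 + w3 w (th 0) + q3 ![x, y, z] (th 0)|)
        (by linarith : (0 : ℝ) ≤ 1024000000 * |th 1 ^ 3 + w3 w (th 1) + q3 ![x, y, z] (th 1)|)
      exact this.trans (mul_le_mul k0 k1 (by positivity) (by linarith)))) k3 (by positivity) (by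
      have z0 : (0 : ℝ) ≤ ((bd (-1355674) 1837853 (-2491530) a b c p q r x y z : ℤ) : ℝ) := by linarith
      have z1 : (0 : ℝ) ≤ ((bd (-477260) 227777 (-108709) a b c p q r x y z : ℤ) : ℝ) := by linarith
      have z2 : (0 : ℝ) ≤ ((bd 737640 544113 401360 a b c p q r x y z : ℤ) : ℝ) := by linarith
      positivity)
  have hfin : (1024000000 : ℝ) ^ 4 * (|th 0 ^ 3 + w3 w (th 0) + q3 ![x, y, z] (th 0)| *
      |th 1 ^ 3 + w3 w (th 1) + q3 ![x, y, z] (th 1)| * |th 2 ^ 3 + w3 w (th 2) + q3 ![x, y, z] (th 2)| *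
      |th 3 ^ 3 + w3 w (th 3) + q3 ![x, y, z] (th 3)|) < 1024000000 ^ 4 := by
    refine lt_of_le_of_lt (le_of_eq ?_) (lt_of_le_of_lt hprod hk2)
    ring
  nlinarith

private theorem chk_sound {th : Fin 4 → ℝ} (h : IsTh th) (w : Fin 3 → ℝ)
    (H : ∀ g : Fin 3 → ℤ, 1 ≤ |∏ i, (th i ^ 3 + w3 w (th i) + q3 g (th i))|) :
    ∀ (T : CTree) (a b c p q r : ℤ), chk T a b c p q r = true → |1024 * w 0 - a| ≤ p →
      |1024 * w 1 - b| ≤ q → |1024 * w 2 - c| ≤ r → ∀ j, |w j| ≤ 1 / 10 := by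
  intro T
  induction T with
  | C =>
    intro a b c p q r hk ha hb hc
    simp only [chk, Bool.and_eq_true, decide_eq_true_eq] at hk
    obtain ⟨⟨ka, kb⟩, kc⟩ := hk
    have key : ∀ (x : ℝ) (u v : ℤ), (u.natAbs : ℤ) + v ≤ 102 → |1024 * x - u| ≤ v → |x| ≤ 1 / 10 := by
      intro x u v huv hx
      have h1 : (|(u : ℝ)| + v) ≤ 102 := by
        have : (((u.natAbs : ℤ) + v : ℤ) : ℝ) ≤ ((102 : ℤ) : ℝ) := by exact_mod_cast huv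
        push_cast [Int.natCast_natAbs] at this
        exact this
      have h2 : |1024 * x| ≤ |1024 * x - u| + |(u : ℝ)| := by
        have := abs_add_le (1024 * x - u) (u : ℝ)
        simpa using this
      rw [abs_mul, abs_of_pos (by norm_num : (0 : ℝ) < 1024)] at h2
      linarith
    intro j
    fin_cases j
    · exact key _ _ _ ka ha
    · exact key _ _ _ kb hb
    · exact key _ _ _ kc hc
  | L x y z =>
    intro a b c p q r hk ha hb hc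
    exact (leaf_sound h ha hb hc hk H).elim
  | S0 t t' iht iht' =>
    intro a b c p q r hk ha hb hc
    simp only [chk, Bool.and_eq_true, decide_eq_true_eq] at hk
    obtain ⟨⟨k0, k1⟩, k2⟩ := hk
    have hp : ((p / 2 : ℤ) : ℝ) = p / 2 := by
      have : ((2 * (p / 2) : ℤ) : ℝ) = p := by rw [k0]
      push_cast at this
      linarith
    rcases le_total (1024 * w 0) a with hle | hle
    · refine iht _ _ _ _ _ _ k1 ?_ hb hc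
      rw [abs_le] at ha ⊢
      push_cast [hp]
      constructor <;> linarith [ha.1, ha.2]
    · refine iht' _ _ _ _ _ _ k2 ?_ hb hc
      rw [abs_le] at ha ⊢
      push_cast [hp]
      constructor <;> linarith [ha.1, ha.2]
  | S1 t t' iht iht' =>
    intro a b c p q r hk ha hb hc
    simp only [chk, Bool.and_eq_true, decide_eq_true_eq] at hk
    obtain ⟨⟨k0, k1⟩, k2⟩ := hk
    have hp : ((q / 2 : ℤ) : ℝ) = q / 2 := by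
      have : ((2 * (q / 2) : ℤ) : ℝ) = q := by rw [k0]
      push_cast at this
      linarith
    rcases le_total (1024 * w 1) b with hle | hle
    · refine iht _ _ _ _ _ _ k1 ha ?_ hc
      rw [abs_le] at hb ⊢
      push_cast [hp]
      constructor <;> linarith [hb.1, hb.2]
    · refine iht' _ _ _ _ _ _ k2 ha ?_ hc
      rw [abs_le] at hb ⊢
      push_cast [hp]
      constructor <;> linarith [hb.1, hb.2]
  | S2 t t' iht iht' =>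
    intro a b c p q r hk ha hb hc
    simp only [chk, Bool.and_eq_true, decide_eq_true_eq] at hk
    obtain ⟨⟨k0, k1⟩, k2⟩ := hk
    have hp : ((r / 2 : ℤ) : ℝ) = r / 2 := by
      have : ((2 * (r / 2) : ℤ) : ℝ) = r := by rw [k0]
      push_cast at this
      linarith
    rcases le_total (1024 * w 2) c with hle | hle
    · refine iht _ _ _ _ _ _ k1 ha hb ?_
      rw [abs_le] at hc ⊢
      push_cast [hp]
      constructor <;> linarith [hc.1, hc.2]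
    · refine iht' _ _ _ _ _ _ k2 ha hb ?_
      rw [abs_le] at hc ⊢
      push_cast [hp]
      constructor <;> linarith [hc.1, hc.2]

open CTree in
private def tree : CTree :=
  (S0 (S1 (S2 (S0 (S1 (S2 (S0 (CTree.L (-1) (-3) 0) (CTree.L (-1) (-3) 0)) (S0 (CTree.L (-1) (-3) 0) (S1
  (CTree.L 0 0 1) (CTree.L 1 0 (-2))))) (S2 (S0 (S1 (CTree.L (-1) (-3) 0) (CTree.L (-1) (-3) 0)) (CTree.L (-1) (-3) 0))
  (CTree.L (-1) (-3) 0))) (S1 (S2 (CTree.L 2 (-2) (-1)) (S0 (S1 (S2 (CTree.L (-1) (-3) 0) (CTree.L 1 0 (-2))) (CTree.L 1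
  0 (-2))) (CTree.L 0 0 0))) (S2 (CTree.L (-1) (-3) 0) (S0 (CTree.L 1 0 (-2)) (S1 (CTree.L 1 0 (-2)) (S2 (CTree.L 2 (-2)
  (-1)) (S0 (CTree.L 0 (-1) 1) (S1 (CTree.L 1 0 (-2)) (S2 (CTree.L 2 (-3) (-1)) CTree.C))))))))) (S0 (S1 (S2 (S0
  (S1 (CTree.L 0 0 1) (S2 (CTree.L 1 (-1) 0) (CTree.L 2 (-1) (-2)))) (S1 (CTree.L 0 0 1) (CTree.L 0 0 1))) (S0 (S1 (CTree.L 0
  0 1) (CTree.L 0 0 1)) (S1 (CTree.L 1 1 (-3)) (CTree.L 0 0 1)))) (S2 (S0 (S1 (CTree.L 1 0 (-2)) (CTree.L 1 0 (-2))) (S1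
  (CTree.L 1 0 (-2)) (CTree.L 1 0 (-2)))) (S0 (S1 (CTree.L 3 (-2) (-2)) (CTree.L 1 0 (-2))) (S1 (CTree.L 0 0 1) (S2 (CTree.L 3
  (-2) (-2)) (CTree.L 0 (-3) (-1))))))) (S1 (S2 (S0 (S1 (CTree.L 0 0 0) (S2 (CTree.L 1 0 (-2)) (CTree.L 1 0 (-2))))
  (S1 (CTree.L (-1) (-2) 0) (CTree.L 0 0 0))) (S0 (S1 (CTree.L 0 0 0) (S2 (CTree.L (-1) (-2) 0) (CTree.L 1 1 (-3)))) (.L
  1 1 (-3)))) (S2 (S0 (S1 (S2 (CTree.L 1 0 (-2)) (CTree.L 3 (-2) (-2))) (S2 (CTree.L 0 (-1) 1) (S0 (CTree.L 0 0 1)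
  (CTree.L 3 (-2) (-2))))) (S1 (S2 (S0 (CTree.L 1 0 (-2)) (CTree.L 0 0 0)) (CTree.L 3 (-2) (-2))) (S2 (S0 (S1 (.L
  1 (-1) (-1)) (S2 (CTree.L 1 (-1) (-1)) (CTree.L (-1) (-3) (-1)))) (S1 (S2 (CTree.L 1 (-1) (-1)) (CTree.L 0 (-3)
  (-1))) (S2 CTree.C (CTree.L 0 (-3) (-1))))) (CTree.L 3 (-2) (-2))))) (S0 (S1 (S2 (CTree.L 3 (-2) (-2)) (CTree.L 2 (-2)
  (-2))) (S2 (CTree.L 3 (-2) (-2)) (CTree.L 2 (-2) (-2)))) (S1 (S2 (CTree.L (-1) (-2) 0) (CTree.L 2 (-2) (-2))) (CTree.L 2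
  (-2) (-2)))))))) (S2 (S0 (S1 (S2 (S0 (S1 (CTree.L 0 (-1) 1) (CTree.L 0 (-1) 1)) (CTree.L 1 0 (-2))) (CTree.L 1 0
  (-2))) (S2 (S0 (CTree.L 1 0 (-2)) (CTree.L 0 (-1) 1)) (CTree.L 0 (-1) 1))) (S1 (S2 (CTree.L 1 0 (-2)) (S0 (.L
  (-1) (-3) 0) (S1 (S2 (CTree.L (-1) (-3) 0) (S0 (CTree.L (-1) (-3) 0) (S1 (S2 (CTree.L 2 (-2) (-1)) CTree.C) (.L
  (-1) (-3) 0)))) (CTree.L (-1) (-3) 0)))) (S2 (S0 (CTree.L 1 0 (-2)) (CTree.L (-1) (-3) 0)) (S0 (S1 (CTree.L 0 (-1)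
  1) (S2 (CTree.L 1 0 (-2)) (CTree.L 1 (-3) (-1)))) (S1 (CTree.L (-1) (-3) 0) (CTree.L (-1) (-3) 0)))))) (S0 (S1
  (S2 (S0 (CTree.L 1 0 (-2)) (S1 (CTree.L 0 (-1) 1) (CTree.L 0 (-1) 1))) (S0 (S1 (CTree.L 0 (-3) (-1)) (S2 (CTree.L 0
  (-1) 1) (CTree.L 2 (-2) (-2)))) (S1 (CTree.L 0 (-3) (-1)) (CTree.L 2 (-2) (-2))))) (S2 (S0 (CTree.L 0 (-1) 1) (S1
  (CTree.L 0 (-1) 1) (CTree.L 0 (-1) 1))) (S0 (S1 (S2 (CTree.L 0 (-1) 1) (CTree.L (-1) (-4) (-1))) (CTree.L 0 (-1) 1))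
  (S1 (CTree.L 0 (-1) 0) (CTree.L 1 0 (-3)))))) (S1 (S2 (S0 (S1 (S2 (S0 (CTree.L 0 (-1) 1) (S1 (CTree.L 0 (-1)
  (-1)) (CTree.L 1 0 (-3)))) (CTree.L 3 (-2) (-2))) (S2 (CTree.L (-1) (-3) 0) (CTree.L 1 0 (-3)))) (S1 (S2 (S0 (S1
  (CTree.L (-1) (-3) (-1)) (CTree.L 0 (-1) (-1))) (S1 (S2 CTree.C (CTree.L 1 (-3) (-1))) (CTree.L 1 (-1) (-2)))) (CTree.L 0 (-3)
  (-1))) (S2 (CTree.L 1 (-1) (-2)) (CTree.L 1 0 (-3))))) (S0 (CTree.L 2 (-2) (-2)) (S1 (CTree.L 2 (-2) (-2)) (CTree.L 1 0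
  (-3))))) (S2 (S0 (S1 (CTree.L (-1) (-3) 0) (CTree.L 0 (-1) 0)) (CTree.L 1 0 (-3))) (S0 (CTree.L 1 0 (-3)) (CTree.L 1 0
  (-3)))))))) (S1 (S2 (S0 (S1 (S2 (S0 (CTree.L 2 (-2) (-1)) (S1 (CTree.L 2 (-2) (-1)) (CTree.L 2 (-2)
  (-1)))) (S0 (S1 (CTree.L 1 0 (-2)) (S2 (CTree.L 1 0 (-2)) (CTree.L (-2) (-3) 0))) (S1 (S2 (CTree.L 1 (-2) (-1))
  (CTree.L (-2) (-3) 0)) (CTree.L (-2) (-3) 0)))) (S2 (S0 (CTree.L (-1) (-3) 0) (S1 (CTree.L 2 (-2) (-1)) (S2 (.L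
  (-1) (-3) 0) (CTree.L 2 (-2) (-1))))) (S0 (S1 (S2 (CTree.L 1 0 (-2)) (CTree.L (-1) (-2) 0)) (S2 (S0 (CTree.L 2
  (-2) (-1)) (S1 (CTree.L (-2) (-3) 0) (CTree.L 2 (-2) (-1)))) (S0 (S1 (S2 (CTree.L 0 (-2) (-1)) (CTree.L 2 (-1)
  (-2))) (S2 (CTree.L 0 0 (-2)) CTree.C)) (CTree.L 0 0 0)))) (S1 (S2 (CTree.L (-2) (-3) 0) (CTree.L (-2) (-3) 0)) (S2 (.L
  (-1) (-1) 2) (CTree.L 0 0 (-1))))))) (S1 (S2 (S0 (S1 (CTree.L (-1) (-1) 1) (CTree.L (-1) (-1) 1)) (S1 (.L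
  (-2) (-3) 0) (CTree.L (-1) (-1) 1))) (S0 (CTree.L (-2) (-3) 0) (CTree.L (-2) (-3) 0))) (S2 (S0 (S1 (CTree.L 0 0
  (-1)) (S2 (CTree.L (-1) (-3) 0) (CTree.L 0 0 (-1)))) (S1 (CTree.L (-1) (-1) 1) (CTree.L 0 0 (-1)))) (S0 (CTree.L 0 0
  (-1)) (CTree.L 0 0 (-2)))))) (S0 (S1 (S2 (S0 (S1 (S2 (CTree.L (-1) (-2) 0) (CTree.L 1 1 (-3))) (S2 (.L
  (-1) (-2) 0) (CTree.L 1 1 (-3)))) (S1 (S2 (CTree.L 0 0 (-2)) (CTree.L (-1) (-2) (-1))) (CTree.L (-1) (-2) (-1))))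
  (S0 (S1 (CTree.L (-1) (-2) (-1)) (CTree.L 1 1 (-3))) (CTree.L 2 (-2) (-2)))) (S2 (S0 (S1 (S2 (CTree.L (-1) (-2)
  0) (CTree.L (-1) (-2) 0)) (S2 (S0 (S1 (CTree.L (-1) (-1) 1) (S2 CTree.C (CTree.L 0 (-3) (-1)))) (CTree.L (-1) (-2) 0))
  (CTree.L 3 (-2) (-2)))) (S1 (CTree.L 0 0 (-1)) (S2 (CTree.L (-1) (-1) 1) (CTree.L 1 1 (-3))))) (S0 (CTree.L 2 (-2) (-2))
  (CTree.L 2 (-2) (-2))))) (S1 (S2 (S0 (S1 (CTree.L 0 0 (-2)) (S2 (CTree.L 0 0 (-2)) (CTree.L 2 (-2) (-2)))) (S1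
  (CTree.L 2 (-2) (-2)) (CTree.L 0 0 (-2)))) (S0 (CTree.L 2 (-2) (-2)) (S1 (CTree.L (-1) 0 1) (CTree.L 2 (-2) (-2))))) (S2
  (S0 (S1 (CTree.L (-1) (-2) (-1)) (CTree.L (-1) (-1) 1)) (S1 (CTree.L 0 0 (-2)) (CTree.L 0 0 (-2)))) (S0 (S1 (CTree.L 2
  (-2) (-2)) (CTree.L 2 (-2) (-2))) (S1 (CTree.L 2 (-2) (-2)) (CTree.L 0 0 (-2)))))))) (S2 (S0 (S1 (S2 (S0
  (S1 (CTree.L (-1) (-3) 0) (CTree.L (-1) (-3) 0)) (S1 (CTree.L (-1) (-3) 0) (S2 (CTree.L (-1) (-3) 0) (CTree.L (-1) (-3)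
  0)))) (S0 (S1 (S2 (CTree.L 2 (-2) (-1)) (S0 (S1 (S2 (CTree.L 0 (-2) 0) CTree.C) (S2 (CTree.L (-1) (-3) 0) (CTree.L 0
  (-2) 0))) (S1 (S2 (CTree.L 0 0 (-2)) (CTree.L 0 0 (-1))) (CTree.L 0 0 (-1))))) (S2 (CTree.L (-1) (-3) 0) (S0 (.L
  (-1) (-2) 1) (CTree.L 1 0 (-3))))) (S1 (S2 (S0 (CTree.L 2 (-3) (-1)) (CTree.L (-1) (-1) 2)) (CTree.L (-1) (-1) 2))
  (S2 (CTree.L (-1) (-1) 2) (CTree.L (-1) (-1) 2))))) (S2 (S0 (S1 (S2 (CTree.L 1 (-2) 0) (CTree.L 2 (-3) (-1))) (.L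
  2 (-3) (-1))) (S1 (CTree.L (-1) (-2) 1) (CTree.L 2 (-3) (-1)))) (S0 (S1 (S2 (CTree.L (-1) (-3) 0) (CTree.L 1 (-3)
  (-1))) (CTree.L 1 (-3) (-1))) (S1 (S2 (CTree.L (-1) (-3) 0) (CTree.L 1 (-1) (-2))) (CTree.L 1 (-1) (-2)))))) (S1
  (S2 (S0 (CTree.L (-1) (-1) 2) (S1 (CTree.L 0 0 (-1)) (S2 (CTree.L (-1) (-1) 2) (CTree.L 2 (-3) (-1))))) (S0 (S1
  (S2 (CTree.L (-1) (-1) 2) (CTree.L (-1) (-1) 1)) (S2 (CTree.L (-1) (-1) 2) (CTree.L 1 (-1) (-2)))) (CTree.L (-1) (-1)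
  1))) (S2 (S0 (CTree.L 2 (-3) (-1)) (S1 (CTree.L (-2) (-4) 0) (CTree.L (-2) (-4) 0))) (S0 (S1 (S2 (CTree.L 1 (-1)
  (-2)) (CTree.L 1 (-1) (-2))) (S2 (CTree.L 1 (-3) (-1)) (CTree.L (-2) (-4) 0))) (S1 (S2 (CTree.L (-2) (-4) 0) (.L
  (-1) (-1) 1)) (CTree.L (-2) (-4) 0)))))) (S0 (S1 (S2 (S0 (S1 (S2 (S0 (S1 (S2 CTree.C (CTree.L 3 (-4)
  (-1))) (CTree.L 2 (-2) (-2))) (CTree.L 2 (-2) (-2))) (CTree.L 2 (-2) (-2))) (S2 (CTree.L 1 (-1) (-2)) (CTree.L 0 (-3)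
  (-1)))) (S1 (S2 (CTree.L (-1) (-1) 2) (CTree.L (-2) (-4) 0)) (CTree.L (-2) (-4) 0))) (S0 (S1 (CTree.L 0 (-1) (-2))
  (CTree.L 0 (-1) (-2))) (S1 (CTree.L (-1) (-2) 0) (CTree.L 1 (-2) (-1))))) (S2 (S0 (S1 (S2 (CTree.L 1 (-1) (-2))
  (CTree.L 0 (-3) (-1))) (S2 (CTree.L 1 (-1) (-2)) (CTree.L (-1) (-3) (-1)))) (S1 (CTree.L 0 (-1) (-2)) (CTree.L 0 (-1)
  (-2)))) (S0 (CTree.L (-1) (-3) (-1)) (S1 (CTree.L 1 (-2) (-1)) (CTree.L (-1) (-1) 1))))) (S1 (S2 (S0 (.L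
  (-1) (-1) 1) (CTree.L (-1) (-1) 1)) (S0 (S1 (CTree.L (-1) (-1) 1) (CTree.L (-1) (-1) 1)) (CTree.L (-1) (-1) 1)))
  (S2 (S0 (S1 (CTree.L (-2) (-4) 0) (CTree.L 0 (-1) (-2))) (CTree.L (-1) (-1) 1)) (S0 (CTree.L (-1) (-1) 1) (CTree.L (-1)
  (-1) 1))))))))

private theorem chk_tree : chk tree 0 0 0 512 512 512 = true := by
  decide +kernel

theorem cover {th : Fin 4 → ℝ} (h : IsTh th) (w : Fin 3 → ℝ) (hw : ∀ j, |w j| ≤ 1 / 2)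
    (H : ∀ g : Fin 3 → ℤ, 1 ≤ |∏ i, (th i ^ 3 + w3 w (th i) + q3 g (th i))|) :
    ∀ j, |w j| ≤ 1 / 10 := by
  have key : ∀ j, |1024 * w j - ((0 : ℤ) : ℝ)| ≤ ((512 : ℤ) : ℝ) := by
    intro j
    have := hw j
    push_cast
    rw [sub_zero, abs_mul, abs_of_pos (by norm_num : (0 : ℝ) < 1024)]
    linarith
  exact chk_sound h w H tree 0 0 0 512 512 512 chk_tree (key 0) (key 1) (key 2)

end Pool.Agent.Work.MP_77d073_nt.Q4
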