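import Mathlib

set_option autoImplicit false

/-!
# CrA: the constants of the critical lattice

`ph` is the golden ratio, `c = 29^(1/4)`, `x1 = c / sqrt (6 - ph)`, `y1 = c / sqrt (5 + ph)`,
`x2 = x1 (ph - 1)`, `y2 = y1 ph`. Numerical bounds and the general estimate for the product of four
linear forms (arithmetic-geometric mean).
-/

namespace Pool.Agent.Work.MP_77d073_nt.Q4.Cr

/-- the constants of the critical lattice -/
structure Cst (ph c x1 x2 y1 y2 : ℝ) : Prop where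
  ph2 : ph ^ 2 = ph + 1
  php : 0 < ph
  cp : 0 < c
  x1p : 0 < x1
  y1p : 0 < y1
  xy : x1 * y1 = 1
  cx : c ^ 2 = (6 - ph) * x1 ^ 2
  cy : c ^ 2 = (5 + ph) * y1 ^ 2
  hx2 : x2 = x1 * (ph - 1)
  hy2 : y2 = y1 * ph

theorem cst_exists : ∃ ph c x1 x2 y1 y2 : ℝ, Cst ph c x1 x2 y1 y2 := by
  have h5 : (0 : ℝ) ≤ 5 := by norm_num
  have hs : Real.sqrt 5 ^ 2 = 5 := Real.sq_sqrt h5
  have hs0 : 0 ≤ Real.sqrt 5 := Real.sqrt_nonneg 5
  have hs3 : Real.sqrt 5 < 3 := by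
    nlinarith
  have h6 : 0 < 6 - (1 + Real.sqrt 5) / 2 := by linarith
  have h7 : 0 < 5 + (1 + Real.sqrt 5) / 2 := by linarith
  set ph := (1 + Real.sqrt 5) / 2 with hph
  have hph2 : ph ^ 2 = ph + 1 := by
    rw [hph]
    nlinarith
  have h29 : (6 - ph) * (5 + ph) = 29 := by nlinarith
  set a := Real.sqrt (6 - ph) with ha
  set b := Real.sqrt (5 + ph) with hb
  have ha2 : a ^ 2 = 6 - ph := Real.sq_sqrt h6.le
  have hb2 : b ^ 2 = 5 + ph := Real.sq_sqrt h7.le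
  have ha0 : 0 < a := Real.sqrt_pos.2 h6
  have hb0 : 0 < b := Real.sqrt_pos.2 h7
  have hc2 : Real.sqrt (a * b) ^ 2 = a * b := Real.sq_sqrt (mul_pos ha0 hb0).le
  have hc0 : 0 < Real.sqrt (a * b) := Real.sqrt_pos.2 (mul_pos ha0 hb0)
  set c := Real.sqrt (a * b) with hc
  refine ⟨ph, c, c / a, c / a * (ph - 1), c / b, c / b * ph, hph2, by rw [hph]; positivity, hc0,
    div_pos hc0 ha0, div_pos hc0 hb0, ?_, ?_, ?_, rfl, rfl⟩
  · rw [div_mul_div_comm, ← pow_two, hc2]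
    exact div_self (mul_pos ha0 hb0).ne'
  · rw [div_pow, ha2]
    field_simp
  · rw [div_pow, hb2]
    field_simp

variable {ph c x1 x2 y1 y2 : ℝ}

theorem cst_ph (h : Cst ph c x1 x2 y1 y2) :
    (1618033988 / 10 ^ 9 : ℝ) ≤ ph ∧ ph ≤ 1618033989 / 10 ^ 9 := by
  have h1 := h.ph2
  have h2 := h.php
  constructor
  · by_contra h3
    push Not at h3
    nlinarith
  · by_contra h3
    push Not at h3
    nlinarith

theorem cst_c4 (h : Cst ph c x1 x2 y1 y2) : c ^ 4 = 29 := by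
  have h1 : c ^ 4 = ((6 - ph) * x1 ^ 2) * ((5 + ph) * y1 ^ 2) := by
    rw [← h.cx, ← h.cy]
    ring
  rw [h1]
  have h2 : ((6 - ph) * x1 ^ 2) * ((5 + ph) * y1 ^ 2) =
      (30 + ph - ph ^ 2) * (x1 * y1) ^ 2 := by ring
  rw [h2, h.xy, h.ph2]
  ring

private theorem le_of_pow4 {a b : ℝ} (_ : 0 ≤ a) (hb : 0 ≤ b) (h : a ^ 4 ≤ b ^ 4) : a ≤ b :=
  le_of_pow_le_pow_left₀ (by norm_num) hb h

theorem cst_c (h : Cst ph c x1 x2 y1 y2) :
    (2320595787 / 10 ^ 9 : ℝ) ≤ c ∧ c ≤ 2320595788 / 10 ^ 9 := by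
  have h1 := cst_c4 h
  have h2 := h.cp.le
  constructor
  · apply le_of_pow4 (by norm_num) h2
    rw [h1]
    norm_num
  · apply le_of_pow4 h2 (by norm_num)
    rw [h1]
    norm_num

private theorem le_of_sq {a b : ℝ} (hb : 0 ≤ b) (h : a ^ 2 ≤ b ^ 2) : a ≤ b :=
  le_of_pow_le_pow_left₀ (by norm_num) hb h

theorem cst_x1 (h : Cst ph c x1 x2 y1 y2) :
    (1108574787 / 10 ^ 9 : ℝ) ≤ x1 ∧ x1 ≤ 1108574789 / 10 ^ 9 := by
  obtain ⟨p1, p2⟩ := cst_ph h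
  obtain ⟨c1, c2⟩ := cst_c h
  have h1 := h.cx
  have h2 := h.x1p
  have h3 : (2320595787 / 10 ^ 9 : ℝ) ^ 2 ≤ c ^ 2 := pow_le_pow_left₀ (by norm_num) c1 2
  have h4 : c ^ 2 ≤ (2320595788 / 10 ^ 9 : ℝ) ^ 2 := pow_le_pow_left₀ h.cp.le c2 2
  have h5 : 0 ≤ x1 ^ 2 := sq_nonneg _
  constructor
  · apply le_of_sq h2.le
    have h6 : c ^ 2 ≤ (6 - 1618033988 / 10 ^ 9) * x1 ^ 2 := by
      rw [h1]
      exact mul_le_mul_of_nonneg_right (by linarith) h5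
    have h7 : (2320595787 / 10 ^ 9 : ℝ) ^ 2 ≤ (6 - 1618033988 / 10 ^ 9) * x1 ^ 2 := h3.trans h6
    norm_num at h7 ⊢
    linarith
  · apply le_of_sq (by norm_num)
    have h6 : (6 - 1618033989 / 10 ^ 9) * x1 ^ 2 ≤ c ^ 2 := by
      rw [h1]
      exact mul_le_mul_of_nonneg_right (by linarith) h5
    have h7 : (6 - 1618033989 / 10 ^ 9) * x1 ^ 2 ≤ (2320595788 / 10 ^ 9 : ℝ) ^ 2 := h6.trans h4
    norm_num at h7 ⊢
    linarith

theorem cst_y1 (h : Cst ph c x1 x2 y1 y2) :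
    (902059121 / 10 ^ 9 : ℝ) ≤ y1 ∧ y1 ≤ 902059123 / 10 ^ 9 := by
  obtain ⟨p1, p2⟩ := cst_ph h
  obtain ⟨c1, c2⟩ := cst_c h
  have h1 := h.cy
  have h2 := h.y1p
  have h3 : (2320595787 / 10 ^ 9 : ℝ) ^ 2 ≤ c ^ 2 := pow_le_pow_left₀ (by norm_num) c1 2
  have h4 : c ^ 2 ≤ (2320595788 / 10 ^ 9 : ℝ) ^ 2 := pow_le_pow_left₀ h.cp.le c2 2
  have h5 : 0 ≤ y1 ^ 2 := sq_nonneg _
  constructor
  · apply le_of_sq h2.le
    have h6 : c ^ 2 ≤ (5 + 1618033989 / 10 ^ 9) * y1 ^ 2 := by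
      rw [h1]
      exact mul_le_mul_of_nonneg_right (by linarith) h5
    have h7 : (2320595787 / 10 ^ 9 : ℝ) ^ 2 ≤ (5 + 1618033989 / 10 ^ 9) * y1 ^ 2 := h3.trans h6
    norm_num at h7 ⊢
    linarith
  · apply le_of_sq (by norm_num)
    have h6 : (5 + 1618033988 / 10 ^ 9) * y1 ^ 2 ≤ c ^ 2 := by
      rw [h1]
      exact mul_le_mul_of_nonneg_right (by linarith) h5
    have h7 : (5 + 1618033988 / 10 ^ 9) * y1 ^ 2 ≤ (2320595788 / 10 ^ 9 : ℝ) ^ 2 := h6.trans h4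
    norm_num at h7 ⊢
    linarith

theorem cst_x2 (h : Cst ph c x1 x2 y1 y2) :
    (685136896 / 10 ^ 9 : ℝ) ≤ x2 ∧ x2 ≤ 685136900 / 10 ^ 9 := by
  obtain ⟨p1, p2⟩ := cst_ph h
  obtain ⟨c1, c2⟩ := cst_x1 h
  have h2 := h.x1p
  rw [h.hx2]
  constructor
  · calc (685136896 / 10 ^ 9 : ℝ) ≤ 1108574787 / 10 ^ 9 * (1618033988 / 10 ^ 9 - 1) := by norm_num
      _ ≤ x1 * (ph - 1) := mul_le_mul c1 (by linarith) (by norm_num) h2.le
  · calc x1 * (ph - 1) ≤ 1108574789 / 10 ^ 9 * (1618033989 / 10 ^ 9 - 1) :=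
          mul_le_mul c2 (by linarith) (by linarith) (by norm_num)
      _ ≤ (685136900 / 10 ^ 9 : ℝ) := by norm_num

theorem cst_y2 (h : Cst ph c x1 x2 y1 y2) :
    (1459562316 / 10 ^ 9 : ℝ) ≤ y2 ∧ y2 ≤ 1459562323 / 10 ^ 9 := by
  obtain ⟨p1, p2⟩ := cst_ph h
  obtain ⟨c1, c2⟩ := cst_y1 h
  have h2 := h.y1p
  rw [h.hy2]
  constructor
  · calc (1459562316 / 10 ^ 9 : ℝ) ≤ 902059121 / 10 ^ 9 * (1618033988 / 10 ^ 9) := by norm_num
      _ ≤ y1 * ph := mul_le_mul c1 p1 (by norm_num) h2.le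
  · calc y1 * ph ≤ 902059123 / 10 ^ 9 * (1618033989 / 10 ^ 9) :=
          mul_le_mul c2 p2 h.php.le (by norm_num)
      _ ≤ (1459562323 / 10 ^ 9 : ℝ) := by norm_num

/-- arithmetic-geometric mean for four numbers -/
theorem amgm4 {a b c d : ℝ} (ha : 0 ≤ a) (hb : 0 ≤ b) (hc : 0 ≤ c) (hd : 0 ≤ d)
    (h : 1 ≤ a * b * c * d) : 4 ≤ a + b + c + d := by
  by_contra h1
  push Not at h1
  have am : ∀ x y : ℝ, x * y ≤ ((x + y) / 2) ^ 2 := by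
    intro x y
    have e : ((x + y) / 2) ^ 2 - x * y = ((x - y) / 2) ^ 2 := by ring
    have e2 := sq_nonneg ((x - y) / 2)
    linarith only [e, e2]
  have h2 := am a b
  have h3 := am c d
  have h4 : a * b * (c * d) ≤ ((a + b) / 2) ^ 2 * ((c + d) / 2) ^ 2 :=
    mul_le_mul h2 h3 (mul_nonneg hc hd) (sq_nonneg _)
  have h5 : 0 ≤ (a + b) / 2 * ((c + d) / 2) := by positivity
  have h6 : (a + b) / 2 * ((c + d) / 2) < 1 := by
    refine lt_of_le_of_lt (am _ _) ?_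
    refine pow_lt_one₀ (by positivity) ?_ (by norm_num)
    linarith only [h1]
  have h7 : ((a + b) / 2 * ((c + d) / 2)) ^ 2 < 1 := pow_lt_one₀ h5 h6 (by norm_num)
  have h8 : ((a + b) / 2) ^ 2 * ((c + d) / 2) ^ 2 = ((a + b) / 2 * ((c + d) / 2)) ^ 2 := by ring
  have h9 : a * b * c * d = a * b * (c * d) := by ring
  linarith only [h, h4, h7, h8, h9]

/-- the first order consequence of `|T1 T2 T3 T4| ≥ 16` near a point with `|t1 t2 t3 t4| = 16` -/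
theorem gen_lin {t1 t2 t3 t4 F1 F2 F3 F4 : ℝ} (hn : (t1 * t2 * t3 * t4) ^ 2 = 256)
    (hT : 256 ≤ ((t1 + F1) * (t2 + F2) * (t3 + F3) * (t4 + F4)) ^ 2)
    (s1 : 0 ≤ t1 * (t1 + F1)) (s2 : 0 ≤ t2 * (t2 + F2)) (s3 : 0 ≤ t3 * (t3 + F3))
    (s4 : 0 ≤ t4 * (t4 + F4)) : 0 ≤ F1 / t1 + F2 / t2 + F3 / t3 + F4 / t4 := by
  have hne : t1 * t2 * t3 * t4 ≠ 0 := by
    intro h
    rw [h] at hn
    norm_num at hn
  have n4 : t4 ≠ 0 := right_ne_zero_of_mul hne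
  have n3 : t3 ≠ 0 := right_ne_zero_of_mul (left_ne_zero_of_mul hne)
  have n2 : t2 ≠ 0 := right_ne_zero_of_mul (left_ne_zero_of_mul (left_ne_zero_of_mul hne))
  have n1 : t1 ≠ 0 := left_ne_zero_of_mul (left_ne_zero_of_mul (left_ne_zero_of_mul hne))
  have z : ∀ t F : ℝ, t ≠ 0 → 0 ≤ t * (t + F) → 0 ≤ 1 + F / t := by
    intro t F ht hs
    have h1 : 1 + F / t = t * (t + F) / t ^ 2 := by
      field_simp
    rw [h1]
    positivity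
  have z1 := z t1 F1 n1 s1
  have z2 := z t2 F2 n2 s2
  have z3 := z t3 F3 n3 s3
  have z4 := z t4 F4 n4 s4
  have hprod : ((1 + F1 / t1) * (1 + F2 / t2) * (1 + F3 / t3) * (1 + F4 / t4)) ^ 2 =
      ((t1 + F1) * (t2 + F2) * (t3 + F3) * (t4 + F4)) ^ 2 / 256 := by
    rw [← hn]
    field_simp
  have h1 : 1 ≤ ((1 + F1 / t1) * (1 + F2 / t2) * (1 + F3 / t3) * (1 + F4 / t4)) ^ 2 := by
    rw [hprod, le_div_iff₀ (by norm_num)]
    linarith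
  have h2 : 0 ≤ (1 + F1 / t1) * (1 + F2 / t2) * (1 + F3 / t3) * (1 + F4 / t4) := by positivity
  have h3 : 1 ≤ (1 + F1 / t1) * (1 + F2 / t2) * (1 + F3 / t3) * (1 + F4 / t4) := by
    by_contra h4
    push Not at h4
    exact absurd (pow_lt_one₀ h2 h4 (by norm_num : 2 ≠ 0)) (not_lt.2 h1)
  have h4 := amgm4 z1 z2 z3 z4 h3
  linarith

/-- bounds of a reciprocal -/
theorem rec_bd {t lo hi rlo rhi : ℝ} (h0 : 0 < lo) (h1 : lo ≤ t) (h2 : t ≤ hi)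
    (h3 : rlo * hi ≤ 1) (h4 : 1 ≤ rhi * lo) (h5 : 0 ≤ rlo) : rlo ≤ 1 / t ∧ 1 / t ≤ rhi := by
  have ht : 0 < t := lt_of_lt_of_le h0 h1
  have hr : 0 ≤ rhi := by
    by_contra h
    push Not at h
    nlinarith
  constructor
  · rw [le_div_iff₀ ht]
    exact (mul_le_mul_of_nonneg_left h2 h5).trans h3
  · rw [div_le_iff₀ ht]
    exact h4.trans (mul_le_mul_of_nonneg_left h1 hr)

/-- bounds of a reciprocal, negative case -/
theorem rec_bd_neg {t lo hi rlo rhi : ℝ} (h0 : 0 < lo) (h1 : lo ≤ -t) (h2 : -t ≤ hi)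
    (h3 : rlo * hi ≤ 1) (h4 : 1 ≤ rhi * lo) (h5 : 0 ≤ rlo) : -rhi ≤ 1 / t ∧ 1 / t ≤ -rlo := by
  obtain ⟨h6, h7⟩ := rec_bd h0 h1 h2 h3 h4 h5
  have h8 : 1 / -t = -(1 / t) := by rw [div_neg]
  rw [h8] at h6 h7
  constructor <;> linarith

private theorem lin_err {H h n e : ℝ} (h1 : |H - h| ≤ e) : H * n ≤ h * n + e * |n| := by
  have h2 : (H - h) * n ≤ e * |n| := by
    calc (H - h) * n ≤ |(H - h) * n| := le_abs_self _
      _ = |H - h| * |n| := abs_mul _ _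
      _ ≤ e * |n| := mul_le_mul_of_nonneg_right h1 (abs_nonneg _)
  linarith

/-- replacing the coefficients by approximations -/
theorem approx_lin {t1 t2 t3 t4 hu hv hw nu nv nw e : ℝ}
    (bu : |(1 / t1 + 1 / t2 - 1 / t3 - 1 / t4) - hu| ≤ e)
    (bv : |(1 / t1 - 1 / t2 + 1 / t3 - 1 / t4) - hv| ≤ e)
    (bw : |(1 / t1 - 1 / t2 - 1 / t3 + 1 / t4) - hw| ≤ e)
    (h : 0 ≤ (nu + nv + nw) / t1 + (nu - nv - nw) / t2 + (-nu + nv - nw) / t3 +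
      (-nu - nv + nw) / t4) :
    0 ≤ hu * nu + hv * nv + hw * nw + e * (|nu| + |nv| + |nw|) := by
  have h1 := lin_err (n := nu) bu
  have h2 := lin_err (n := nv) bv
  have h3 := lin_err (n := nw) bw
  have h4 : (nu + nv + nw) / t1 + (nu - nv - nw) / t2 + (-nu + nv - nw) / t3 +
      (-nu - nv + nw) / t4 = (1 / t1 + 1 / t2 - 1 / t3 - 1 / t4) * nu +
      (1 / t1 - 1 / t2 + 1 / t3 - 1 / t4) * nv + (1 / t1 - 1 / t2 - 1 / t3 + 1 / t4) * nw := by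
    ring
  rw [h4] at h
  linarith

end Pool.Agent.Work.MP_77d073_nt.Q4.Cr
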