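import Mathlib
import Pool.Agent.Work.MP_77d073_nt.Q4.CrA

set_option autoImplicit false

/-!
# CrB: first order inequalities for thirteen units

For `p = (p1, p2, p3)` and `q = 2 p2 + p3` the values at the critical lattice are
`t1 = Z - p3 c`, `t2 = W + p3 c`, `t3 = -Z - p3 c`, `t4 = -W + p3 c`, `Z = 2 p1 x1 + q x2`,
`W = -2 p1 y1 + q y2`.
-/

namespace Pool.Agent.Work.MP_77d073_nt.Q4.Cr

variable {ph c x1 x2 y1 y2 : ℝ}

/-- the product of the four values -/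
theorem prodT (h : Cst ph c x1 x2 y1 y2) (p1 q p3 : ℝ) :
    (2 * p1 * x1 + q * x2 - p3 * c) * (-2 * p1 * y1 + q * y2 + p3 * c) *
      (-(2 * p1 * x1 + q * x2) - p3 * c) * (-(-2 * p1 * y1 + q * y2) + p3 * c) =
      (6 * p3 ^ 2 - (2 * p1 - q) ^ 2 - q ^ 2) ^ 2 +
        (6 * p3 ^ 2 - (2 * p1 - q) ^ 2 - q ^ 2) * (q ^ 2 - 4 * p1 * q - p3 ^ 2) -
        (q ^ 2 - 4 * p1 * q - p3 ^ 2) ^ 2 := by
  have h1 : (2 * p1 * x1 + q * x2 - p3 * c) * (-(2 * p1 * x1 + q * x2) - p3 * c) =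
      x1 ^ 2 * ((6 * p3 ^ 2 - (2 * p1 - q) ^ 2 - q ^ 2) +
        (q ^ 2 - 4 * p1 * q - p3 ^ 2) * ph) := by
    rw [h.hx2]
    linear_combination p3 ^ 2 * h.cx - x1 ^ 2 * q ^ 2 * h.ph2
  have h2 : (-2 * p1 * y1 + q * y2 + p3 * c) * (-(-2 * p1 * y1 + q * y2) + p3 * c) =
      y1 ^ 2 * ((6 * p3 ^ 2 - (2 * p1 - q) ^ 2 - q ^ 2) +
        (q ^ 2 - 4 * p1 * q - p3 ^ 2) * (1 - ph)) := by
    rw [h.hy2]
    linear_combination p3 ^ 2 * h.cy - y1 ^ 2 * q ^ 2 * h.ph2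
  have h3 : (2 * p1 * x1 + q * x2 - p3 * c) * (-2 * p1 * y1 + q * y2 + p3 * c) *
      (-(2 * p1 * x1 + q * x2) - p3 * c) * (-(-2 * p1 * y1 + q * y2) + p3 * c) =
      ((2 * p1 * x1 + q * x2 - p3 * c) * (-(2 * p1 * x1 + q * x2) - p3 * c)) *
      ((-2 * p1 * y1 + q * y2 + p3 * c) * (-(-2 * p1 * y1 + q * y2) + p3 * c)) := by ring
  rw [h3, h1, h2]
  have h4 : x1 ^ 2 * ((6 * p3 ^ 2 - (2 * p1 - q) ^ 2 - q ^ 2) +
        (q ^ 2 - 4 * p1 * q - p3 ^ 2) * ph) *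
      (y1 ^ 2 * ((6 * p3 ^ 2 - (2 * p1 - q) ^ 2 - q ^ 2) +
        (q ^ 2 - 4 * p1 * q - p3 ^ 2) * (1 - ph))) =
      (x1 * y1) ^ 2 * (((6 * p3 ^ 2 - (2 * p1 - q) ^ 2 - q ^ 2) +
        (q ^ 2 - 4 * p1 * q - p3 ^ 2) * ph) * ((6 * p3 ^ 2 - (2 * p1 - q) ^ 2 - q ^ 2) +
        (q ^ 2 - 4 * p1 * q - p3 ^ 2) * (1 - ph))) := by ring
  rw [h4, h.xy]
  linear_combination (-(q ^ 2 - 4 * p1 * q - p3 ^ 2) ^ 2) * h.ph2

/-- `p = (0, 0, 1)` -/
theorem gB0 (h : Cst ph c x1 x2 y1 y2) {nu nv nw : ℝ}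
    (hT : 256 ≤ (((x2 - c) + (nu + nv + nw)) * ((y2 + c) + (nu - nv - nw)) *
      ((-x2 - c) + (-nu + nv - nw)) * ((-y2 + c) + (-nu - nv + nw))) ^ 2)
    (s1 : (x2 - c) + (nu + nv + nw) ≤ 0) (s2 : 0 ≤ (y2 + c) + (nu - nv - nw))
    (s3 : (-x2 - c) + (-nu + nv - nw) ≤ 0) (s4 : 0 ≤ (-y2 + c) + (-nu - nv + nw)) :
    0 ≤ (-11756074 / 10 ^ 7) * nu + (-23700810 / 10 ^ 7) * nv + (6181042 / 10 ^ 7) * nw +
      1 / 10 ^ 6 * (|nu| + |nv| + |nw|) := by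
  obtain ⟨c1, c2⟩ := cst_c h
  obtain ⟨a1, a2⟩ := cst_x1 h
  obtain ⟨a3, a4⟩ := cst_x2 h
  obtain ⟨b1, b2⟩ := cst_y1 h
  obtain ⟨b3, b4⟩ := cst_y2 h
  have hn : (x2 - c) * (y2 + c) * (-x2 - c) * (-y2 + c) = 16 := by
    have e := prodT h (0) (1) (1)
    norm_num at e
    linear_combination e
  obtain ⟨l1, u1⟩ := rec_bd_neg (t := x2 - c) (lo := 1635458887 / 10 ^ 9) (hi := 1635458892 / 10 ^ 9)
    (rlo := 61144918 / 10 ^ 8) (rhi := 61144919 / 10 ^ 8) (by norm_num) (by linarith only [c1, c2, a3, a4])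
    (by linarith only [c1, c2, a3, a4])
    (by norm_num) (by norm_num) (by norm_num)
  obtain ⟨l2, u2⟩ := rec_bd (t := y2 + c) (lo := 3780158103 / 10 ^ 9) (hi := 3780158111 / 10 ^ 9)
    (rlo := 26453919 / 10 ^ 8) (rhi := 26453920 / 10 ^ 8) (by norm_num) (by linarith only [c1, c2, b3, b4])
    (by linarith only [c1, c2, b3, b4])
    (by norm_num) (by norm_num) (by norm_num)
  obtain ⟨l3, u3⟩ := rec_bd_neg (t := -x2 - c) (lo := 3005732683 / 10 ^ 9) (hi := 3005732688 / 10 ^ 9)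
    (rlo := 33269758 / 10 ^ 8) (rhi := 33269759 / 10 ^ 8) (by norm_num) (by linarith only [c1, c2, a3, a4])
    (by linarith only [c1, c2, a3, a4])
    (by norm_num) (by norm_num) (by norm_num)
  obtain ⟨l4, u4⟩ := rec_bd (t := -y2 + c) (lo := 861033464 / 10 ^ 9) (hi := 861033472 / 10 ^ 9)
    (rlo := 116139503 / 10 ^ 8) (rhi := 116139505 / 10 ^ 8) (by norm_num) (by linarith only [c1, c2, b3, b4])
    (by linarith only [c1, c2, b3, b4])
    (by norm_num) (by norm_num) (by norm_num)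
  refine approx_lin (t1 := x2 - c) (t2 := y2 + c)
    (t3 := -x2 - c) (t4 := -y2 + c) ?_ ?_ ?_
    (gen_lin ?_ hT ?_ ?_ ?_ ?_)
  · rw [abs_le]; constructor <;> linarith only [l1, u1, l2, u2, l3, u3, l4, u4]
  · rw [abs_le]; constructor <;> linarith only [l1, u1, l2, u2, l3, u3, l4, u4]
  · rw [abs_le]; constructor <;> linarith only [l1, u1, l2, u2, l3, u3, l4, u4]
  · rw [hn]; norm_num
  · exact mul_nonneg_of_nonpos_of_nonpos (by linarith only [c1, c2, a3, a4]) s1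
  · exact mul_nonneg (by linarith only [c1, c2, b3, b4]) s2
  · exact mul_nonneg_of_nonpos_of_nonpos (by linarith only [c1, c2, a3, a4]) s3
  · exact mul_nonneg (by linarith only [c1, c2, b3, b4]) s4

/-- `p = (0, 1, -1)` -/
theorem gB1 (h : Cst ph c x1 x2 y1 y2) {nu nv nw : ℝ}
    (hT : 256 ≤ (((x2 + c) + (nu + nv + nw)) * ((y2 - c) + (nu - nv - nw)) *
      ((-x2 + c) + (-nu + nv - nw)) * ((-y2 - c) + (-nu - nv + nw))) ^ 2)
    (s1 : 0 ≤ (x2 + c) + (nu + nv + nw)) (s2 : (y2 - c) + (nu - nv - nw) ≤ 0)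
    (s3 : 0 ≤ (-x2 + c) + (-nu + nv - nw)) (s4 : (-y2 - c) + (-nu - nv + nw) ≤ 0) :
    0 ≤ (-11756074 / 10 ^ 7) * nu + (23700810 / 10 ^ 7) * nv + (6181042 / 10 ^ 7) * nw +
      1 / 10 ^ 6 * (|nu| + |nv| + |nw|) := by
  obtain ⟨c1, c2⟩ := cst_c h
  obtain ⟨a1, a2⟩ := cst_x1 h
  obtain ⟨a3, a4⟩ := cst_x2 h
  obtain ⟨b1, b2⟩ := cst_y1 h
  obtain ⟨b3, b4⟩ := cst_y2 h
  have hn : (x2 + c) * (y2 - c) * (-x2 + c) * (-y2 - c) = 16 := by
    have e := prodT h (0) (1) (-1)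
    norm_num at e
    linear_combination e
  obtain ⟨l1, u1⟩ := rec_bd (t := x2 + c) (lo := 3005732683 / 10 ^ 9) (hi := 3005732688 / 10 ^ 9)
    (rlo := 33269758 / 10 ^ 8) (rhi := 33269759 / 10 ^ 8) (by norm_num) (by linarith only [c1, c2, a3, a4])
    (by linarith only [c1, c2, a3, a4])
    (by norm_num) (by norm_num) (by norm_num)
  obtain ⟨l2, u2⟩ := rec_bd_neg (t := y2 - c) (lo := 861033464 / 10 ^ 9) (hi := 861033472 / 10 ^ 9)
    (rlo := 116139503 / 10 ^ 8) (rhi := 116139505 / 10 ^ 8) (by norm_num) (by linarith only [c1, c2, b3, b4])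
    (by linarith only [c1, c2, b3, b4])
    (by norm_num) (by norm_num) (by norm_num)
  obtain ⟨l3, u3⟩ := rec_bd (t := -x2 + c) (lo := 1635458887 / 10 ^ 9) (hi := 1635458892 / 10 ^ 9)
    (rlo := 61144918 / 10 ^ 8) (rhi := 61144919 / 10 ^ 8) (by norm_num) (by linarith only [c1, c2, a3, a4])
    (by linarith only [c1, c2, a3, a4])
    (by norm_num) (by norm_num) (by norm_num)
  obtain ⟨l4, u4⟩ := rec_bd_neg (t := -y2 - c) (lo := 3780158103 / 10 ^ 9) (hi := 3780158111 / 10 ^ 9)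
    (rlo := 26453919 / 10 ^ 8) (rhi := 26453920 / 10 ^ 8) (by norm_num) (by linarith only [c1, c2, b3, b4])
    (by linarith only [c1, c2, b3, b4])
    (by norm_num) (by norm_num) (by norm_num)
  refine approx_lin (t1 := x2 + c) (t2 := y2 - c)
    (t3 := -x2 + c) (t4 := -y2 - c) ?_ ?_ ?_
    (gen_lin ?_ hT ?_ ?_ ?_ ?_)
  · rw [abs_le]; constructor <;> linarith only [l1, u1, l2, u2, l3, u3, l4, u4]
  · rw [abs_le]; constructor <;> linarith only [l1, u1, l2, u2, l3, u3, l4, u4]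
  · rw [abs_le]; constructor <;> linarith only [l1, u1, l2, u2, l3, u3, l4, u4]
  · rw [hn]; norm_num
  · exact mul_nonneg (by linarith only [c1, c2, a3, a4]) s1
  · exact mul_nonneg_of_nonpos_of_nonpos (by linarith only [c1, c2, b3, b4]) s2
  · exact mul_nonneg (by linarith only [c1, c2, a3, a4]) s3
  · exact mul_nonneg_of_nonpos_of_nonpos (by linarith only [c1, c2, b3, b4]) s4

/-- `p = (0, 1, 0)` -/
theorem gB2 (h : Cst ph c x1 x2 y1 y2) {nu nv nw : ℝ}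
    (hT : 256 ≤ (((2 * x2) + (nu + nv + nw)) * ((2 * y2) + (nu - nv - nw)) *
      ((-(2 * x2)) + (-nu + nv - nw)) * ((-(2 * y2)) + (-nu - nv + nw))) ^ 2)
    (s1 : 0 ≤ (2 * x2) + (nu + nv + nw)) (s2 : 0 ≤ (2 * y2) + (nu - nv - nw))
    (s3 : (-(2 * x2)) + (-nu + nv - nw) ≤ 0) (s4 : (-(2 * y2)) + (-nu - nv + nw) ≤ 0) :
    0 ≤ (21446992 / 10 ^ 7) * nu + (0 / 10 ^ 7) * nv + (7744254 / 10 ^ 7) * nw +
      1 / 10 ^ 6 * (|nu| + |nv| + |nw|) := by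
  obtain ⟨c1, c2⟩ := cst_c h
  obtain ⟨a1, a2⟩ := cst_x1 h
  obtain ⟨a3, a4⟩ := cst_x2 h
  obtain ⟨b1, b2⟩ := cst_y1 h
  obtain ⟨b3, b4⟩ := cst_y2 h
  have hn : (2 * x2) * (2 * y2) * (-(2 * x2)) * (-(2 * y2)) = 16 := by
    have e := prodT h (0) (2) (0)
    norm_num at e
    linear_combination e
  obtain ⟨l1, u1⟩ := rec_bd (t := 2 * x2) (lo := 1370273792 / 10 ^ 9) (hi := 1370273800 / 10 ^ 9)
    (rlo := 72978115 / 10 ^ 8) (rhi := 72978117 / 10 ^ 8) (by norm_num) (by linarith only [a3, a4])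
    (by linarith only [a3, a4])
    (by norm_num) (by norm_num) (by norm_num)
  obtain ⟨l2, u2⟩ := rec_bd (t := 2 * y2) (lo := 2919124632 / 10 ^ 9) (hi := 2919124646 / 10 ^ 9)
    (rlo := 34256844 / 10 ^ 8) (rhi := 34256845 / 10 ^ 8) (by norm_num) (by linarith only [b3, b4])
    (by linarith only [b3, b4])
    (by norm_num) (by norm_num) (by norm_num)
  obtain ⟨l3, u3⟩ := rec_bd_neg (t := -(2 * x2)) (lo := 1370273792 / 10 ^ 9) (hi := 1370273800 / 10 ^ 9)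
    (rlo := 72978115 / 10 ^ 8) (rhi := 72978117 / 10 ^ 8) (by norm_num) (by linarith only [a3, a4])
    (by linarith only [a3, a4])
    (by norm_num) (by norm_num) (by norm_num)
  obtain ⟨l4, u4⟩ := rec_bd_neg (t := -(2 * y2)) (lo := 2919124632 / 10 ^ 9) (hi := 2919124646 / 10 ^ 9)
    (rlo := 34256844 / 10 ^ 8) (rhi := 34256845 / 10 ^ 8) (by norm_num) (by linarith only [b3, b4])
    (by linarith only [b3, b4])
    (by norm_num) (by norm_num) (by norm_num)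
  refine approx_lin (t1 := 2 * x2) (t2 := 2 * y2)
    (t3 := -(2 * x2)) (t4 := -(2 * y2)) ?_ ?_ ?_
    (gen_lin ?_ hT ?_ ?_ ?_ ?_)
  · rw [abs_le]; constructor <;> linarith only [l1, u1, l2, u2, l3, u3, l4, u4]
  · rw [abs_le]; constructor <;> linarith only [l1, u1, l2, u2, l3, u3, l4, u4]
  · rw [abs_le]; constructor <;> linarith only [l1, u1, l2, u2, l3, u3, l4, u4]
  · rw [hn]; norm_num
  · exact mul_nonneg (by linarith only [a3, a4]) s1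
  · exact mul_nonneg (by linarith only [b3, b4]) s2
  · exact mul_nonneg_of_nonpos_of_nonpos (by linarith only [a3, a4]) s3
  · exact mul_nonneg_of_nonpos_of_nonpos (by linarith only [b3, b4]) s4

/-- `p = (0, 1, 1)` -/
theorem gB3 (h : Cst ph c x1 x2 y1 y2) {nu nv nw : ℝ}
    (hT : 256 ≤ (((3 * x2 - c) + (nu + nv + nw)) * ((3 * y2 + c) + (nu - nv - nw)) *
      ((-(3 * x2) - c) + (-nu + nv - nw)) * ((-(3 * y2) + c) + (-nu - nv + nw))) ^ 2)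
    (s1 : (3 * x2 - c) + (nu + nv + nw) ≤ 0) (s2 : 0 ≤ (3 * y2 + c) + (nu - nv - nw))
    (s3 : (-(3 * x2) - c) + (-nu + nv - nw) ≤ 0) (s4 : (-(3 * y2) + c) + (-nu - nv + nw) ≤ 0) :
    0 ≤ (-29072753 / 10 ^ 7) * nu + (-36628525 / 10 ^ 7) * nv + (-41775890 / 10 ^ 7) * nw +
      1 / 10 ^ 6 * (|nu| + |nv| + |nw|) := by
  obtain ⟨c1, c2⟩ := cst_c h
  obtain ⟨a1, a2⟩ := cst_x1 h
  obtain ⟨a3, a4⟩ := cst_x2 h
  obtain ⟨b1, b2⟩ := cst_y1 h
  obtain ⟨b3, b4⟩ := cst_y2 h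
  have hn : (3 * x2 - c) * (3 * y2 + c) * (-(3 * x2) - c) * (-(3 * y2) + c) = -16 := by
    have e := prodT h (0) (3) (1)
    norm_num at e
    linear_combination e
  obtain ⟨l1, u1⟩ := rec_bd_neg (t := 3 * x2 - c) (lo := 265185087 / 10 ^ 9) (hi := 265185100 / 10 ^ 9)
    (rlo := 377095093 / 10 ^ 8) (rhi := 377095112 / 10 ^ 8) (by norm_num) (by linarith only [c1, c2, a3, a4])
    (by linarith only [c1, c2, a3, a4])
    (by norm_num) (by norm_num) (by norm_num)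
  obtain ⟨l2, u2⟩ := rec_bd (t := 3 * y2 + c) (lo := 6699282735 / 10 ^ 9) (hi := 6699282757 / 10 ^ 9)
    (rlo := 14926971 / 10 ^ 8) (rhi := 14926972 / 10 ^ 8) (by norm_num) (by linarith only [c1, c2, b3, b4])
    (by linarith only [c1, c2, b3, b4])
    (by norm_num) (by norm_num) (by norm_num)
  obtain ⟨l3, u3⟩ := rec_bd_neg (t := -(3 * x2) - c) (lo := 4376006475 / 10 ^ 9) (hi := 4376006488 / 10 ^ 9)
    (rlo := 22851885 / 10 ^ 8) (rhi := 22851886 / 10 ^ 8) (by norm_num) (by linarith only [c1, c2, a3, a4])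
    (by linarith only [c1, c2, a3, a4])
    (by norm_num) (by norm_num) (by norm_num)
  obtain ⟨l4, u4⟩ := rec_bd_neg (t := -(3 * y2) + c) (lo := 2058091160 / 10 ^ 9) (hi := 2058091182 / 10 ^ 9)
    (rlo := 48588712 / 10 ^ 8) (rhi := 48588713 / 10 ^ 8) (by norm_num) (by linarith only [c1, c2, b3, b4])
    (by linarith only [c1, c2, b3, b4])
    (by norm_num) (by norm_num) (by norm_num)
  refine approx_lin (t1 := 3 * x2 - c) (t2 := 3 * y2 + c)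
    (t3 := -(3 * x2) - c) (t4 := -(3 * y2) + c) ?_ ?_ ?_
    (gen_lin ?_ hT ?_ ?_ ?_ ?_)
  · rw [abs_le]; constructor <;> linarith only [l1, u1, l2, u2, l3, u3, l4, u4]
  · rw [abs_le]; constructor <;> linarith only [l1, u1, l2, u2, l3, u3, l4, u4]
  · rw [abs_le]; constructor <;> linarith only [l1, u1, l2, u2, l3, u3, l4, u4]
  · rw [hn]; norm_num
  · exact mul_nonneg_of_nonpos_of_nonpos (by linarith only [c1, c2, a3, a4]) s1
  · exact mul_nonneg (by linarith only [c1, c2, b3, b4]) s2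
  · exact mul_nonneg_of_nonpos_of_nonpos (by linarith only [c1, c2, a3, a4]) s3
  · exact mul_nonneg_of_nonpos_of_nonpos (by linarith only [c1, c2, b3, b4]) s4

/-- `p = (1, -1, 0)` -/
theorem gB4 (h : Cst ph c x1 x2 y1 y2) {nu nv nw : ℝ}
    (hT : 256 ≤ (((2 * x1 - 2 * x2) + (nu + nv + nw)) * ((-(2 * y1) - 2 * y2) + (nu - nv - nw)) *
      ((-(2 * x1) + 2 * x2) + (-nu + nv - nw)) * ((2 * y1 + 2 * y2) + (-nu - nv + nw))) ^ 2)
    (s1 : 0 ≤ (2 * x1 - 2 * x2) + (nu + nv + nw)) (s2 : (-(2 * y1) - 2 * y2) + (nu - nv - nw) ≤ 0)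
    (s3 : (-(2 * x1) + 2 * x2) + (-nu + nv - nw) ≤ 0) (s4 : 0 ≤ (2 * y1 + 2 * y2) + (-nu - nv + nw)) :
    0 ≤ (19381836 / 10 ^ 7) * nu + (0 / 10 ^ 7) * nv + (27850593 / 10 ^ 7) * nw +
      1 / 10 ^ 6 * (|nu| + |nv| + |nw|) := by
  obtain ⟨c1, c2⟩ := cst_c h
  obtain ⟨a1, a2⟩ := cst_x1 h
  obtain ⟨a3, a4⟩ := cst_x2 h
  obtain ⟨b1, b2⟩ := cst_y1 h
  obtain ⟨b3, b4⟩ := cst_y2 h
  have hn : (2 * x1 - 2 * x2) * (-(2 * y1) - 2 * y2) * (-(2 * x1) + 2 * x2) * (2 * y1 + 2 * y2) = 16 := by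
    have e := prodT h (1) (-2) (0)
    norm_num at e
    linear_combination e
  obtain ⟨l1, u1⟩ := rec_bd (t := 2 * x1 - 2 * x2) (lo := 846875774 / 10 ^ 9) (hi := 846875786 / 10 ^ 9)
    (rlo := 118081071 / 10 ^ 8) (rhi := 118081073 / 10 ^ 8) (by norm_num) (by linarith only [a1, a2, a3, a4])
    (by linarith only [a1, a2, a3, a4])
    (by norm_num) (by norm_num) (by norm_num)
  obtain ⟨l2, u2⟩ := rec_bd_neg (t := -(2 * y1) - 2 * y2) (lo := 4723242874 / 10 ^ 9) (hi := 4723242892 / 10 ^ 9)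
    (rlo := 21171894 / 10 ^ 8) (rhi := 21171895 / 10 ^ 8) (by norm_num) (by linarith only [b1, b2, b3, b4])
    (by linarith only [b1, b2, b3, b4])
    (by norm_num) (by norm_num) (by norm_num)
  obtain ⟨l3, u3⟩ := rec_bd_neg (t := -(2 * x1) + 2 * x2) (lo := 846875774 / 10 ^ 9) (hi := 846875786 / 10 ^ 9)
    (rlo := 118081071 / 10 ^ 8) (rhi := 118081073 / 10 ^ 8) (by norm_num) (by linarith only [a1, a2, a3, a4])
    (by linarith only [a1, a2, a3, a4])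
    (by norm_num) (by norm_num) (by norm_num)
  obtain ⟨l4, u4⟩ := rec_bd (t := 2 * y1 + 2 * y2) (lo := 4723242874 / 10 ^ 9) (hi := 4723242892 / 10 ^ 9)
    (rlo := 21171894 / 10 ^ 8) (rhi := 21171895 / 10 ^ 8) (by norm_num) (by linarith only [b1, b2, b3, b4])
    (by linarith only [b1, b2, b3, b4])
    (by norm_num) (by norm_num) (by norm_num)
  refine approx_lin (t1 := 2 * x1 - 2 * x2) (t2 := -(2 * y1) - 2 * y2)
    (t3 := -(2 * x1) + 2 * x2) (t4 := 2 * y1 + 2 * y2) ?_ ?_ ?_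
    (gen_lin ?_ hT ?_ ?_ ?_ ?_)
  · rw [abs_le]; constructor <;> linarith only [l1, u1, l2, u2, l3, u3, l4, u4]
  · rw [abs_le]; constructor <;> linarith only [l1, u1, l2, u2, l3, u3, l4, u4]
  · rw [abs_le]; constructor <;> linarith only [l1, u1, l2, u2, l3, u3, l4, u4]
  · rw [hn]; norm_num
  · exact mul_nonneg (by linarith only [a1, a2, a3, a4]) s1
  · exact mul_nonneg_of_nonpos_of_nonpos (by linarith only [b1, b2, b3, b4]) s2
  · exact mul_nonneg_of_nonpos_of_nonpos (by linarith only [a1, a2, a3, a4]) s3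
  · exact mul_nonneg (by linarith only [b1, b2, b3, b4]) s4

/-- `p = (1, -1, 1)` -/
theorem gB5 (h : Cst ph c x1 x2 y1 y2) {nu nv nw : ℝ}
    (hT : 256 ≤ (((2 * x1 - x2 - c) + (nu + nv + nw)) * ((-(2 * y1) - y2 + c) + (nu - nv - nw)) *
      ((-(2 * x1) + x2 - c) + (-nu + nv - nw)) * ((2 * y1 + y2 + c) + (-nu - nv + nw))) ^ 2)
    (s1 : (2 * x1 - x2 - c) + (nu + nv + nw) ≤ 0) (s2 : (-(2 * y1) - y2 + c) + (nu - nv - nw) ≤ 0)
    (s3 : (-(2 * x1) + x2 - c) + (-nu + nv - nw) ≤ 0) (s4 : 0 ≤ (2 * y1 + y2 + c) + (-nu - nv + nw)) :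
    0 ≤ (-22479571 / 10 ^ 7) * nu + (-6463857 / 10 ^ 7) * nv + (2308915 / 10 ^ 7) * nw +
      1 / 10 ^ 6 * (|nu| + |nv| + |nw|) := by
  obtain ⟨c1, c2⟩ := cst_c h
  obtain ⟨a1, a2⟩ := cst_x1 h
  obtain ⟨a3, a4⟩ := cst_x2 h
  obtain ⟨b1, b2⟩ := cst_y1 h
  obtain ⟨b3, b4⟩ := cst_y2 h
  have hn : (2 * x1 - x2 - c) * (-(2 * y1) - y2 + c) * (-(2 * x1) + x2 - c) * (2 * y1 + y2 + c) = -16 := by
    have e := prodT h (1) (-1) (1)
    norm_num at e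
    linear_combination e
  obtain ⟨l1, u1⟩ := rec_bd_neg (t := 2 * x1 - x2 - c) (lo := 788583105 / 10 ^ 9) (hi := 788583114 / 10 ^ 9)
    (rlo := 126809715 / 10 ^ 8) (rhi := 126809717 / 10 ^ 8) (by norm_num) (by linarith only [c1, c2, a1, a2, a3, a4])
    (by linarith only [c1, c2, a1, a2, a3, a4])
    (by norm_num) (by norm_num) (by norm_num)
  obtain ⟨l2, u2⟩ := rec_bd_neg (t := -(2 * y1) - y2 + c) (lo := 943084770 / 10 ^ 9) (hi := 943084782 / 10 ^ 9)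
    (rlo := 106035005 / 10 ^ 8) (rhi := 106035007 / 10 ^ 8) (by norm_num) (by linarith only [c1, c2, b1, b2, b3, b4])
    (by linarith only [c1, c2, b1, b2, b3, b4])
    (by norm_num) (by norm_num) (by norm_num)
  obtain ⟨l3, u3⟩ := rec_bd_neg (t := -(2 * x1) + x2 - c) (lo := 3852608461 / 10 ^ 9) (hi := 3852608470 / 10 ^ 9)
    (rlo := 25956439 / 10 ^ 8) (rhi := 25956440 / 10 ^ 8) (by norm_num) (by linarith only [c1, c2, a1, a2, a3, a4])
    (by linarith only [c1, c2, a1, a2, a3, a4])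
    (by norm_num) (by norm_num) (by norm_num)
  obtain ⟨l4, u4⟩ := rec_bd (t := 2 * y1 + y2 + c) (lo := 5584276345 / 10 ^ 9) (hi := 5584276357 / 10 ^ 9)
    (rlo := 17907423 / 10 ^ 8) (rhi := 17907424 / 10 ^ 8) (by norm_num) (by linarith only [c1, c2, b1, b2, b3, b4])
    (by linarith only [c1, c2, b1, b2, b3, b4])
    (by norm_num) (by norm_num) (by norm_num)
  refine approx_lin (t1 := 2 * x1 - x2 - c) (t2 := -(2 * y1) - y2 + c)
    (t3 := -(2 * x1) + x2 - c) (t4 := 2 * y1 + y2 + c) ?_ ?_ ?_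
    (gen_lin ?_ hT ?_ ?_ ?_ ?_)
  · rw [abs_le]; constructor <;> linarith only [l1, u1, l2, u2, l3, u3, l4, u4]
  · rw [abs_le]; constructor <;> linarith only [l1, u1, l2, u2, l3, u3, l4, u4]
  · rw [abs_le]; constructor <;> linarith only [l1, u1, l2, u2, l3, u3, l4, u4]
  · rw [hn]; norm_num
  · exact mul_nonneg_of_nonpos_of_nonpos (by linarith only [c1, c2, a1, a2, a3, a4]) s1
  · exact mul_nonneg_of_nonpos_of_nonpos (by linarith only [c1, c2, b1, b2, b3, b4]) s2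
  · exact mul_nonneg_of_nonpos_of_nonpos (by linarith only [c1, c2, a1, a2, a3, a4]) s3
  · exact mul_nonneg (by linarith only [c1, c2, b1, b2, b3, b4]) s4

/-- `p = (1, 0, -1)` -/
theorem gB6 (h : Cst ph c x1 x2 y1 y2) {nu nv nw : ℝ}
    (hT : 256 ≤ (((2 * x1 - x2 + c) + (nu + nv + nw)) * ((-(2 * y1) - y2 - c) + (nu - nv - nw)) *
      ((-(2 * x1) + x2 + c) + (-nu + nv - nw)) * ((2 * y1 + y2 - c) + (-nu - nv + nw))) ^ 2)
    (s1 : 0 ≤ (2 * x1 - x2 + c) + (nu + nv + nw)) (s2 : (-(2 * y1) - y2 - c) + (nu - nv - nw) ≤ 0)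
    (s3 : 0 ≤ (-(2 * x1) + x2 + c) + (-nu + nv - nw)) (s4 : 0 ≤ (2 * y1 + y2 - c) + (-nu - nv + nw)) :
    0 ≤ (-22479571 / 10 ^ 7) * nu + (6463857 / 10 ^ 7) * nv + (2308915 / 10 ^ 7) * nw +
      1 / 10 ^ 6 * (|nu| + |nv| + |nw|) := by
  obtain ⟨c1, c2⟩ := cst_c h
  obtain ⟨a1, a2⟩ := cst_x1 h
  obtain ⟨a3, a4⟩ := cst_x2 h
  obtain ⟨b1, b2⟩ := cst_y1 h
  obtain ⟨b3, b4⟩ := cst_y2 h
  have hn : (2 * x1 - x2 + c) * (-(2 * y1) - y2 - c) * (-(2 * x1) + x2 + c) * (2 * y1 + y2 - c) = -16 := by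
    have e := prodT h (1) (-1) (-1)
    norm_num at e
    linear_combination e
  obtain ⟨l1, u1⟩ := rec_bd (t := 2 * x1 - x2 + c) (lo := 3852608461 / 10 ^ 9) (hi := 3852608470 / 10 ^ 9)
    (rlo := 25956439 / 10 ^ 8) (rhi := 25956440 / 10 ^ 8) (by norm_num) (by linarith only [c1, c2, a1, a2, a3, a4])
    (by linarith only [c1, c2, a1, a2, a3, a4])
    (by norm_num) (by norm_num) (by norm_num)
  obtain ⟨l2, u2⟩ := rec_bd_neg (t := -(2 * y1) - y2 - c) (lo := 5584276345 / 10 ^ 9) (hi := 5584276357 / 10 ^ 9)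
    (rlo := 17907423 / 10 ^ 8) (rhi := 17907424 / 10 ^ 8) (by norm_num) (by linarith only [c1, c2, b1, b2, b3, b4])
    (by linarith only [c1, c2, b1, b2, b3, b4])
    (by norm_num) (by norm_num) (by norm_num)
  obtain ⟨l3, u3⟩ := rec_bd (t := -(2 * x1) + x2 + c) (lo := 788583105 / 10 ^ 9) (hi := 788583114 / 10 ^ 9)
    (rlo := 126809715 / 10 ^ 8) (rhi := 126809717 / 10 ^ 8) (by norm_num) (by linarith only [c1, c2, a1, a2, a3, a4])
    (by linarith only [c1, c2, a1, a2, a3, a4])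
    (by norm_num) (by norm_num) (by norm_num)
  obtain ⟨l4, u4⟩ := rec_bd (t := 2 * y1 + y2 - c) (lo := 943084770 / 10 ^ 9) (hi := 943084782 / 10 ^ 9)
    (rlo := 106035005 / 10 ^ 8) (rhi := 106035007 / 10 ^ 8) (by norm_num) (by linarith only [c1, c2, b1, b2, b3, b4])
    (by linarith only [c1, c2, b1, b2, b3, b4])
    (by norm_num) (by norm_num) (by norm_num)
  refine approx_lin (t1 := 2 * x1 - x2 + c) (t2 := -(2 * y1) - y2 - c)
    (t3 := -(2 * x1) + x2 + c) (t4 := 2 * y1 + y2 - c) ?_ ?_ ?_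
    (gen_lin ?_ hT ?_ ?_ ?_ ?_)
  · rw [abs_le]; constructor <;> linarith only [l1, u1, l2, u2, l3, u3, l4, u4]
  · rw [abs_le]; constructor <;> linarith only [l1, u1, l2, u2, l3, u3, l4, u4]
  · rw [abs_le]; constructor <;> linarith only [l1, u1, l2, u2, l3, u3, l4, u4]
  · rw [hn]; norm_num
  · exact mul_nonneg (by linarith only [c1, c2, a1, a2, a3, a4]) s1
  · exact mul_nonneg_of_nonpos_of_nonpos (by linarith only [c1, c2, b1, b2, b3, b4]) s2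
  · exact mul_nonneg (by linarith only [c1, c2, a1, a2, a3, a4]) s3
  · exact mul_nonneg (by linarith only [c1, c2, b1, b2, b3, b4]) s4

/-- `p = (1, 0, 0)` -/
theorem gB7 (h : Cst ph c x1 x2 y1 y2) {nu nv nw : ℝ}
    (hT : 256 ≤ (((2 * x1) + (nu + nv + nw)) * ((-(2 * y1)) + (nu - nv - nw)) *
      ((-(2 * x1)) + (-nu + nv - nw)) * ((2 * y1) + (-nu - nv + nw))) ^ 2)
    (s1 : 0 ≤ (2 * x1) + (nu + nv + nw)) (s2 : (-(2 * y1)) + (nu - nv - nw) ≤ 0)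
    (s3 : (-(2 * x1)) + (-nu + nv - nw) ≤ 0) (s4 : 0 ≤ (2 * y1) + (-nu - nv + nw)) :
    0 ≤ (-2065157 / 10 ^ 7) * nu + (0 / 10 ^ 7) * nv + (20106339 / 10 ^ 7) * nw +
      1 / 10 ^ 6 * (|nu| + |nv| + |nw|) := by
  obtain ⟨c1, c2⟩ := cst_c h
  obtain ⟨a1, a2⟩ := cst_x1 h
  obtain ⟨a3, a4⟩ := cst_x2 h
  obtain ⟨b1, b2⟩ := cst_y1 h
  obtain ⟨b3, b4⟩ := cst_y2 h
  have hn : (2 * x1) * (-(2 * y1)) * (-(2 * x1)) * (2 * y1) = 16 := by
    have e := prodT h (1) (0) (0)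
    norm_num at e
    linear_combination e
  obtain ⟨l1, u1⟩ := rec_bd (t := 2 * x1) (lo := 2217149574 / 10 ^ 9) (hi := 2217149578 / 10 ^ 9)
    (rlo := 45102956 / 10 ^ 8) (rhi := 45102957 / 10 ^ 8) (by norm_num) (by linarith only [a1, a2])
    (by linarith only [a1, a2])
    (by norm_num) (by norm_num) (by norm_num)
  obtain ⟨l2, u2⟩ := rec_bd_neg (t := -(2 * y1)) (lo := 1804118242 / 10 ^ 9) (hi := 1804118246 / 10 ^ 9)
    (rlo := 55428739 / 10 ^ 8) (rhi := 55428740 / 10 ^ 8) (by norm_num) (by linarith only [b1, b2])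
    (by linarith only [b1, b2])
    (by norm_num) (by norm_num) (by norm_num)
  obtain ⟨l3, u3⟩ := rec_bd_neg (t := -(2 * x1)) (lo := 2217149574 / 10 ^ 9) (hi := 2217149578 / 10 ^ 9)
    (rlo := 45102956 / 10 ^ 8) (rhi := 45102957 / 10 ^ 8) (by norm_num) (by linarith only [a1, a2])
    (by linarith only [a1, a2])
    (by norm_num) (by norm_num) (by norm_num)
  obtain ⟨l4, u4⟩ := rec_bd (t := 2 * y1) (lo := 1804118242 / 10 ^ 9) (hi := 1804118246 / 10 ^ 9)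
    (rlo := 55428739 / 10 ^ 8) (rhi := 55428740 / 10 ^ 8) (by norm_num) (by linarith only [b1, b2])
    (by linarith only [b1, b2])
    (by norm_num) (by norm_num) (by norm_num)
  refine approx_lin (t1 := 2 * x1) (t2 := -(2 * y1))
    (t3 := -(2 * x1)) (t4 := 2 * y1) ?_ ?_ ?_
    (gen_lin ?_ hT ?_ ?_ ?_ ?_)
  · rw [abs_le]; constructor <;> linarith only [l1, u1, l2, u2, l3, u3, l4, u4]
  · rw [abs_le]; constructor <;> linarith only [l1, u1, l2, u2, l3, u3, l4, u4]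
  · rw [abs_le]; constructor <;> linarith only [l1, u1, l2, u2, l3, u3, l4, u4]
  · rw [hn]; norm_num
  · exact mul_nonneg (by linarith only [a1, a2]) s1
  · exact mul_nonneg_of_nonpos_of_nonpos (by linarith only [b1, b2]) s2
  · exact mul_nonneg_of_nonpos_of_nonpos (by linarith only [a1, a2]) s3
  · exact mul_nonneg (by linarith only [b1, b2]) s4

/-- `p = (1, 0, 1)` -/
theorem gB8 (h : Cst ph c x1 x2 y1 y2) {nu nv nw : ℝ}
    (hT : 256 ≤ (((2 * x1 + x2 - c) + (nu + nv + nw)) * ((-(2 * y1) + y2 + c) + (nu - nv - nw)) *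
      ((-(2 * x1) - x2 - c) + (-nu + nv - nw)) * ((2 * y1 - y2 + c) + (-nu - nv + nw))) ^ 2)
    (s1 : 0 ≤ (2 * x1 + x2 - c) + (nu + nv + nw)) (s2 : 0 ≤ (-(2 * y1) + y2 + c) + (nu - nv - nw))
    (s3 : (-(2 * x1) - x2 - c) + (-nu + nv - nw) ≤ 0) (s4 : 0 ≤ (2 * y1 - y2 + c) + (-nu - nv + nw)) :
    0 ≤ (20414414 / 10 ^ 7) * nu + (6463857 / 10 ^ 7) * nv + (17797424 / 10 ^ 7) * nw +
      1 / 10 ^ 6 * (|nu| + |nv| + |nw|) := by
  obtain ⟨c1, c2⟩ := cst_c h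
  obtain ⟨a1, a2⟩ := cst_x1 h
  obtain ⟨a3, a4⟩ := cst_x2 h
  obtain ⟨b1, b2⟩ := cst_y1 h
  obtain ⟨b3, b4⟩ := cst_y2 h
  have hn : (2 * x1 + x2 - c) * (-(2 * y1) + y2 + c) * (-(2 * x1) - x2 - c) * (2 * y1 - y2 + c) = -16 := by
    have e := prodT h (1) (1) (1)
    norm_num at e
    linear_combination e
  obtain ⟨l1, u1⟩ := rec_bd (t := 2 * x1 + x2 - c) (lo := 581690682 / 10 ^ 9) (hi := 581690691 / 10 ^ 9)
    (rlo := 171912670 / 10 ^ 8) (rhi := 171912673 / 10 ^ 8) (by norm_num) (by linarith only [c1, c2, a1, a2, a3, a4])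
    (by linarith only [c1, c2, a1, a2, a3, a4])
    (by norm_num) (by norm_num) (by norm_num)
  obtain ⟨l2, u2⟩ := rec_bd (t := -(2 * y1) + y2 + c) (lo := 1976039857 / 10 ^ 9) (hi := 1976039869 / 10 ^ 9)
    (rlo := 50606266 / 10 ^ 8) (rhi := 50606267 / 10 ^ 8) (by norm_num) (by linarith only [c1, c2, b1, b2, b3, b4])
    (by linarith only [c1, c2, b1, b2, b3, b4])
    (by norm_num) (by norm_num) (by norm_num)
  obtain ⟨l3, u3⟩ := rec_bd_neg (t := -(2 * x1) - x2 - c) (lo := 5222882257 / 10 ^ 9) (hi := 5222882266 / 10 ^ 9)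
    (rlo := 19146516 / 10 ^ 8) (rhi := 19146517 / 10 ^ 8) (by norm_num) (by linarith only [c1, c2, a1, a2, a3, a4])
    (by linarith only [c1, c2, a1, a2, a3, a4])
    (by norm_num) (by norm_num) (by norm_num)
  obtain ⟨l4, u4⟩ := rec_bd (t := 2 * y1 - y2 + c) (lo := 2665151706 / 10 ^ 9) (hi := 2665151718 / 10 ^ 9)
    (rlo := 37521316 / 10 ^ 8) (rhi := 37521317 / 10 ^ 8) (by norm_num) (by linarith only [c1, c2, b1, b2, b3, b4])
    (by linarith only [c1, c2, b1, b2, b3, b4])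
    (by norm_num) (by norm_num) (by norm_num)
  refine approx_lin (t1 := 2 * x1 + x2 - c) (t2 := -(2 * y1) + y2 + c)
    (t3 := -(2 * x1) - x2 - c) (t4 := 2 * y1 - y2 + c) ?_ ?_ ?_
    (gen_lin ?_ hT ?_ ?_ ?_ ?_)
  · rw [abs_le]; constructor <;> linarith only [l1, u1, l2, u2, l3, u3, l4, u4]
  · rw [abs_le]; constructor <;> linarith only [l1, u1, l2, u2, l3, u3, l4, u4]
  · rw [abs_le]; constructor <;> linarith only [l1, u1, l2, u2, l3, u3, l4, u4]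
  · rw [hn]; norm_num
  · exact mul_nonneg (by linarith only [c1, c2, a1, a2, a3, a4]) s1
  · exact mul_nonneg (by linarith only [c1, c2, b1, b2, b3, b4]) s2
  · exact mul_nonneg_of_nonpos_of_nonpos (by linarith only [c1, c2, a1, a2, a3, a4]) s3
  · exact mul_nonneg (by linarith only [c1, c2, b1, b2, b3, b4]) s4

/-- `p = (1, 1, -1)` -/
theorem gB9 (h : Cst ph c x1 x2 y1 y2) {nu nv nw : ℝ}
    (hT : 256 ≤ (((2 * x1 + x2 + c) + (nu + nv + nw)) * ((-(2 * y1) + y2 - c) + (nu - nv - nw)) *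
      ((-(2 * x1) - x2 + c) + (-nu + nv - nw)) * ((2 * y1 - y2 - c) + (-nu - nv + nw))) ^ 2)
    (s1 : 0 ≤ (2 * x1 + x2 + c) + (nu + nv + nw)) (s2 : (-(2 * y1) + y2 - c) + (nu - nv - nw) ≤ 0)
    (s3 : (-(2 * x1) - x2 + c) + (-nu + nv - nw) ≤ 0) (s4 : (2 * y1 - y2 - c) + (-nu - nv + nw) ≤ 0) :
    0 ≤ (20414414 / 10 ^ 7) * nu + (-6463857 / 10 ^ 7) * nv + (17797424 / 10 ^ 7) * nw +
      1 / 10 ^ 6 * (|nu| + |nv| + |nw|) := by
  obtain ⟨c1, c2⟩ := cst_c h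
  obtain ⟨a1, a2⟩ := cst_x1 h
  obtain ⟨a3, a4⟩ := cst_x2 h
  obtain ⟨b1, b2⟩ := cst_y1 h
  obtain ⟨b3, b4⟩ := cst_y2 h
  have hn : (2 * x1 + x2 + c) * (-(2 * y1) + y2 - c) * (-(2 * x1) - x2 + c) * (2 * y1 - y2 - c) = -16 := by
    have e := prodT h (1) (1) (-1)
    norm_num at e
    linear_combination e
  obtain ⟨l1, u1⟩ := rec_bd (t := 2 * x1 + x2 + c) (lo := 5222882257 / 10 ^ 9) (hi := 5222882266 / 10 ^ 9)
    (rlo := 19146516 / 10 ^ 8) (rhi := 19146517 / 10 ^ 8) (by norm_num) (by linarith only [c1, c2, a1, a2, a3, a4])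
    (by linarith only [c1, c2, a1, a2, a3, a4])
    (by norm_num) (by norm_num) (by norm_num)
  obtain ⟨l2, u2⟩ := rec_bd_neg (t := -(2 * y1) + y2 - c) (lo := 2665151706 / 10 ^ 9) (hi := 2665151718 / 10 ^ 9)
    (rlo := 37521316 / 10 ^ 8) (rhi := 37521317 / 10 ^ 8) (by norm_num) (by linarith only [c1, c2, b1, b2, b3, b4])
    (by linarith only [c1, c2, b1, b2, b3, b4])
    (by norm_num) (by norm_num) (by norm_num)
  obtain ⟨l3, u3⟩ := rec_bd_neg (t := -(2 * x1) - x2 + c) (lo := 581690682 / 10 ^ 9) (hi := 581690691 / 10 ^ 9)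
    (rlo := 171912670 / 10 ^ 8) (rhi := 171912673 / 10 ^ 8) (by norm_num) (by linarith only [c1, c2, a1, a2, a3, a4])
    (by linarith only [c1, c2, a1, a2, a3, a4])
    (by norm_num) (by norm_num) (by norm_num)
  obtain ⟨l4, u4⟩ := rec_bd_neg (t := 2 * y1 - y2 - c) (lo := 1976039857 / 10 ^ 9) (hi := 1976039869 / 10 ^ 9)
    (rlo := 50606266 / 10 ^ 8) (rhi := 50606267 / 10 ^ 8) (by norm_num) (by linarith only [c1, c2, b1, b2, b3, b4])
    (by linarith only [c1, c2, b1, b2, b3, b4])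
    (by norm_num) (by norm_num) (by norm_num)
  refine approx_lin (t1 := 2 * x1 + x2 + c) (t2 := -(2 * y1) + y2 - c)
    (t3 := -(2 * x1) - x2 + c) (t4 := 2 * y1 - y2 - c) ?_ ?_ ?_
    (gen_lin ?_ hT ?_ ?_ ?_ ?_)
  · rw [abs_le]; constructor <;> linarith only [l1, u1, l2, u2, l3, u3, l4, u4]
  · rw [abs_le]; constructor <;> linarith only [l1, u1, l2, u2, l3, u3, l4, u4]
  · rw [abs_le]; constructor <;> linarith only [l1, u1, l2, u2, l3, u3, l4, u4]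
  · rw [hn]; norm_num
  · exact mul_nonneg (by linarith only [c1, c2, a1, a2, a3, a4]) s1
  · exact mul_nonneg_of_nonpos_of_nonpos (by linarith only [c1, c2, b1, b2, b3, b4]) s2
  · exact mul_nonneg_of_nonpos_of_nonpos (by linarith only [c1, c2, a1, a2, a3, a4]) s3
  · exact mul_nonneg_of_nonpos_of_nonpos (by linarith only [c1, c2, b1, b2, b3, b4]) s4

/-- `p = (1, 1, 0)` -/
theorem gB10 (h : Cst ph c x1 x2 y1 y2) {nu nv nw : ℝ}
    (hT : 256 ≤ (((2 * x1 + 2 * x2) + (nu + nv + nw)) * ((-(2 * y1) + 2 * y2) + (nu - nv - nw)) *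
      ((-(2 * x1) - 2 * x2) + (-nu + nv - nw)) * ((2 * y1 - 2 * y2) + (-nu - nv + nw))) ^ 2)
    (s1 : 0 ≤ (2 * x1 + 2 * x2) + (nu + nv + nw)) (s2 : 0 ≤ (-(2 * y1) + 2 * y2) + (nu - nv - nw))
    (s3 : (-(2 * x1) - 2 * x2) + (-nu + nv - nw) ≤ 0) (s4 : (2 * y1 - 2 * y2) + (-nu - nv + nw) ≤ 0) :
    0 ≤ (23512149 / 10 ^ 7) * nu + (0 / 10 ^ 7) * nv + (-12362085 / 10 ^ 7) * nw +
      1 / 10 ^ 6 * (|nu| + |nv| + |nw|) := by
  obtain ⟨c1, c2⟩ := cst_c h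
  obtain ⟨a1, a2⟩ := cst_x1 h
  obtain ⟨a3, a4⟩ := cst_x2 h
  obtain ⟨b1, b2⟩ := cst_y1 h
  obtain ⟨b3, b4⟩ := cst_y2 h
  have hn : (2 * x1 + 2 * x2) * (-(2 * y1) + 2 * y2) * (-(2 * x1) - 2 * x2) * (2 * y1 - 2 * y2) = 16 := by
    have e := prodT h (1) (2) (0)
    norm_num at e
    linear_combination e
  obtain ⟨l1, u1⟩ := rec_bd (t := 2 * x1 + 2 * x2) (lo := 3587423366 / 10 ^ 9) (hi := 3587423378 / 10 ^ 9)
    (rlo := 27875159 / 10 ^ 8) (rhi := 27875160 / 10 ^ 8) (by norm_num) (by linarith only [a1, a2, a3, a4])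
    (by linarith only [a1, a2, a3, a4])
    (by norm_num) (by norm_num) (by norm_num)
  obtain ⟨l2, u2⟩ := rec_bd (t := -(2 * y1) + 2 * y2) (lo := 1115006386 / 10 ^ 9) (hi := 1115006404 / 10 ^ 9)
    (rlo := 89685583 / 10 ^ 8) (rhi := 89685585 / 10 ^ 8) (by norm_num) (by linarith only [b1, b2, b3, b4])
    (by linarith only [b1, b2, b3, b4])
    (by norm_num) (by norm_num) (by norm_num)
  obtain ⟨l3, u3⟩ := rec_bd_neg (t := -(2 * x1) - 2 * x2) (lo := 3587423366 / 10 ^ 9) (hi := 3587423378 / 10 ^ 9)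
    (rlo := 27875159 / 10 ^ 8) (rhi := 27875160 / 10 ^ 8) (by norm_num) (by linarith only [a1, a2, a3, a4])
    (by linarith only [a1, a2, a3, a4])
    (by norm_num) (by norm_num) (by norm_num)
  obtain ⟨l4, u4⟩ := rec_bd_neg (t := 2 * y1 - 2 * y2) (lo := 1115006386 / 10 ^ 9) (hi := 1115006404 / 10 ^ 9)
    (rlo := 89685583 / 10 ^ 8) (rhi := 89685585 / 10 ^ 8) (by norm_num) (by linarith only [b1, b2, b3, b4])
    (by linarith only [b1, b2, b3, b4])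
    (by norm_num) (by norm_num) (by norm_num)
  refine approx_lin (t1 := 2 * x1 + 2 * x2) (t2 := -(2 * y1) + 2 * y2)
    (t3 := -(2 * x1) - 2 * x2) (t4 := 2 * y1 - 2 * y2) ?_ ?_ ?_
    (gen_lin ?_ hT ?_ ?_ ?_ ?_)
  · rw [abs_le]; constructor <;> linarith only [l1, u1, l2, u2, l3, u3, l4, u4]
  · rw [abs_le]; constructor <;> linarith only [l1, u1, l2, u2, l3, u3, l4, u4]
  · rw [abs_le]; constructor <;> linarith only [l1, u1, l2, u2, l3, u3, l4, u4]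
  · rw [hn]; norm_num
  · exact mul_nonneg (by linarith only [a1, a2, a3, a4]) s1
  · exact mul_nonneg (by linarith only [b1, b2, b3, b4]) s2
  · exact mul_nonneg_of_nonpos_of_nonpos (by linarith only [a1, a2, a3, a4]) s3
  · exact mul_nonneg_of_nonpos_of_nonpos (by linarith only [b1, b2, b3, b4]) s4

/-- `p = (1, 1, 1)` -/
theorem gB11 (h : Cst ph c x1 x2 y1 y2) {nu nv nw : ℝ}
    (hT : 256 ≤ (((2 * x1 + 3 * x2 - c) + (nu + nv + nw)) * ((-(2 * y1) + 3 * y2 + c) + (nu - nv - nw)) *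
      ((-(2 * x1) - 3 * x2 - c) + (-nu + nv - nw)) * ((2 * y1 - 3 * y2 + c) + (-nu - nv + nw))) ^ 2)
    (s1 : 0 ≤ (2 * x1 + 3 * x2 - c) + (nu + nv + nw)) (s2 : 0 ≤ (-(2 * y1) + 3 * y2 + c) + (nu - nv - nw))
    (s3 : (-(2 * x1) - 3 * x2 - c) + (-nu + nv - nw) ≤ 0) (s4 : (2 * y1 - 3 * y2 + c) + (-nu - nv + nw) ≤ 0) :
    0 ≤ (48056876 / 10 ^ 7) * nu + (40937763 / 10 ^ 7) * nv + (-34777339 / 10 ^ 7) * nw +
      1 / 10 ^ 6 * (|nu| + |nv| + |nw|) := by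
  obtain ⟨c1, c2⟩ := cst_c h
  obtain ⟨a1, a2⟩ := cst_x1 h
  obtain ⟨a3, a4⟩ := cst_x2 h
  obtain ⟨b1, b2⟩ := cst_y1 h
  obtain ⟨b3, b4⟩ := cst_y2 h
  have hn : (2 * x1 + 3 * x2 - c) * (-(2 * y1) + 3 * y2 + c) * (-(2 * x1) - 3 * x2 - c) * (2 * y1 - 3 * y2 + c) = 16 := by
    have e := prodT h (1) (3) (1)
    norm_num at e
    linear_combination e
  obtain ⟨l1, u1⟩ := rec_bd (t := 2 * x1 + 3 * x2 - c) (lo := 1951964474 / 10 ^ 9) (hi := 1951964491 / 10 ^ 9)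
    (rlo := 51230440 / 10 ^ 8) (rhi := 51230441 / 10 ^ 8) (by norm_num) (by linarith only [c1, c2, a1, a2, a3, a4])
    (by linarith only [c1, c2, a1, a2, a3, a4])
    (by norm_num) (by norm_num) (by norm_num)
  obtain ⟨l2, u2⟩ := rec_bd (t := -(2 * y1) + 3 * y2 + c) (lo := 4895164489 / 10 ^ 9) (hi := 4895164515 / 10 ^ 9)
    (rlo := 20428322 / 10 ^ 8) (rhi := 20428323 / 10 ^ 8) (by norm_num) (by linarith only [c1, c2, b1, b2, b3, b4])
    (by linarith only [c1, c2, b1, b2, b3, b4])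
    (by norm_num) (by norm_num) (by norm_num)
  obtain ⟨l3, u3⟩ := rec_bd_neg (t := -(2 * x1) - 3 * x2 - c) (lo := 6593156049 / 10 ^ 9) (hi := 6593156066 / 10 ^ 9)
    (rlo := 15167242 / 10 ^ 8) (rhi := 15167244 / 10 ^ 8) (by norm_num) (by linarith only [c1, c2, a1, a2, a3, a4])
    (by linarith only [c1, c2, a1, a2, a3, a4])
    (by norm_num) (by norm_num) (by norm_num)
  obtain ⟨l4, u4⟩ := rec_bd_neg (t := 2 * y1 - 3 * y2 + c) (lo := 253972914 / 10 ^ 9) (hi := 253972940 / 10 ^ 9)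
    (rlo := 393742734 / 10 ^ 8) (rhi := 393742776 / 10 ^ 8) (by norm_num) (by linarith only [c1, c2, b1, b2, b3, b4])
    (by linarith only [c1, c2, b1, b2, b3, b4])
    (by norm_num) (by norm_num) (by norm_num)
  refine approx_lin (t1 := 2 * x1 + 3 * x2 - c) (t2 := -(2 * y1) + 3 * y2 + c)
    (t3 := -(2 * x1) - 3 * x2 - c) (t4 := 2 * y1 - 3 * y2 + c) ?_ ?_ ?_
    (gen_lin ?_ hT ?_ ?_ ?_ ?_)
  · rw [abs_le]; constructor <;> linarith only [l1, u1, l2, u2, l3, u3, l4, u4]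
  · rw [abs_le]; constructor <;> linarith only [l1, u1, l2, u2, l3, u3, l4, u4]
  · rw [abs_le]; constructor <;> linarith only [l1, u1, l2, u2, l3, u3, l4, u4]
  · rw [hn]; norm_num
  · exact mul_nonneg (by linarith only [c1, c2, a1, a2, a3, a4]) s1
  · exact mul_nonneg (by linarith only [c1, c2, b1, b2, b3, b4]) s2
  · exact mul_nonneg_of_nonpos_of_nonpos (by linarith only [c1, c2, a1, a2, a3, a4]) s3
  · exact mul_nonneg_of_nonpos_of_nonpos (by linarith only [c1, c2, b1, b2, b3, b4]) s4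

/-- `p = (1, 2, -1)` -/
theorem gB12 (h : Cst ph c x1 x2 y1 y2) {nu nv nw : ℝ}
    (hT : 256 ≤ (((2 * x1 + 3 * x2 + c) + (nu + nv + nw)) * ((-(2 * y1) + 3 * y2 - c) + (nu - nv - nw)) *
      ((-(2 * x1) - 3 * x2 + c) + (-nu + nv - nw)) * ((2 * y1 - 3 * y2 - c) + (-nu - nv + nw))) ^ 2)
    (s1 : 0 ≤ (2 * x1 + 3 * x2 + c) + (nu + nv + nw)) (s2 : 0 ≤ (-(2 * y1) + 3 * y2 - c) + (nu - nv - nw))
    (s3 : (-(2 * x1) - 3 * x2 + c) + (-nu + nv - nw) ≤ 0) (s4 : (2 * y1 - 3 * y2 - c) + (-nu - nv + nw) ≤ 0) :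
    0 ≤ (48056876 / 10 ^ 7) * nu + (-40937763 / 10 ^ 7) * nv + (-34777339 / 10 ^ 7) * nw +
      1 / 10 ^ 6 * (|nu| + |nv| + |nw|) := by
  obtain ⟨c1, c2⟩ := cst_c h
  obtain ⟨a1, a2⟩ := cst_x1 h
  obtain ⟨a3, a4⟩ := cst_x2 h
  obtain ⟨b1, b2⟩ := cst_y1 h
  obtain ⟨b3, b4⟩ := cst_y2 h
  have hn : (2 * x1 + 3 * x2 + c) * (-(2 * y1) + 3 * y2 - c) * (-(2 * x1) - 3 * x2 + c) * (2 * y1 - 3 * y2 - c) = 16 := by
    have e := prodT h (1) (3) (-1)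
    norm_num at e
    linear_combination e
  obtain ⟨l1, u1⟩ := rec_bd (t := 2 * x1 + 3 * x2 + c) (lo := 6593156049 / 10 ^ 9) (hi := 6593156066 / 10 ^ 9)
    (rlo := 15167242 / 10 ^ 8) (rhi := 15167244 / 10 ^ 8) (by norm_num) (by linarith only [c1, c2, a1, a2, a3, a4])
    (by linarith only [c1, c2, a1, a2, a3, a4])
    (by norm_num) (by norm_num) (by norm_num)
  obtain ⟨l2, u2⟩ := rec_bd (t := -(2 * y1) + 3 * y2 - c) (lo := 253972914 / 10 ^ 9) (hi := 253972940 / 10 ^ 9)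
    (rlo := 393742734 / 10 ^ 8) (rhi := 393742776 / 10 ^ 8) (by norm_num) (by linarith only [c1, c2, b1, b2, b3, b4])
    (by linarith only [c1, c2, b1, b2, b3, b4])
    (by norm_num) (by norm_num) (by norm_num)
  obtain ⟨l3, u3⟩ := rec_bd_neg (t := -(2 * x1) - 3 * x2 + c) (lo := 1951964474 / 10 ^ 9) (hi := 1951964491 / 10 ^ 9)
    (rlo := 51230440 / 10 ^ 8) (rhi := 51230441 / 10 ^ 8) (by norm_num) (by linarith only [c1, c2, a1, a2, a3, a4])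
    (by linarith only [c1, c2, a1, a2, a3, a4])
    (by norm_num) (by norm_num) (by norm_num)
  obtain ⟨l4, u4⟩ := rec_bd_neg (t := 2 * y1 - 3 * y2 - c) (lo := 4895164489 / 10 ^ 9) (hi := 4895164515 / 10 ^ 9)
    (rlo := 20428322 / 10 ^ 8) (rhi := 20428323 / 10 ^ 8) (by norm_num) (by linarith only [c1, c2, b1, b2, b3, b4])
    (by linarith only [c1, c2, b1, b2, b3, b4])
    (by norm_num) (by norm_num) (by norm_num)
  refine approx_lin (t1 := 2 * x1 + 3 * x2 + c) (t2 := -(2 * y1) + 3 * y2 - c)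
    (t3 := -(2 * x1) - 3 * x2 + c) (t4 := 2 * y1 - 3 * y2 - c) ?_ ?_ ?_
    (gen_lin ?_ hT ?_ ?_ ?_ ?_)
  · rw [abs_le]; constructor <;> linarith only [l1, u1, l2, u2, l3, u3, l4, u4]
  · rw [abs_le]; constructor <;> linarith only [l1, u1, l2, u2, l3, u3, l4, u4]
  · rw [abs_le]; constructor <;> linarith only [l1, u1, l2, u2, l3, u3, l4, u4]
  · rw [hn]; norm_num
  · exact mul_nonneg (by linarith only [c1, c2, a1, a2, a3, a4]) s1
  · exact mul_nonneg (by linarith only [c1, c2, b1, b2, b3, b4]) s2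
  · exact mul_nonneg_of_nonpos_of_nonpos (by linarith only [c1, c2, a1, a2, a3, a4]) s3
  · exact mul_nonneg_of_nonpos_of_nonpos (by linarith only [c1, c2, b1, b2, b3, b4]) s4

end Pool.Agent.Work.MP_77d073_nt.Q4.Cr
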