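import Mathlib
import Pool.Agent.Work.MP_77d073_nt.Q4.CrA

set_option autoImplicit false

/-!
# CrC: the linear step of the exact local lemma
-/

namespace Pool.Agent.Work.MP_77d073_nt.Q4.Cr

/-- the thirteen first order inequalities -/
structure FO (a1 a2 a3 b1 b2 b3 c1 c2 c3 S : ℝ) : Prop where
  g0 : 0 ≤ (-11756074 / 10 ^ 7) * c1 + (-23700810 / 10 ^ 7) * c2 + (6181042 / 10 ^ 7) * c3 + 2 /
    10 ^ 6 * S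
  g1 : 0 ≤ (-11756074 / 10 ^ 7) * b1 + (23700810 / 10 ^ 7) * b2 + (6181042 / 10 ^ 7) * b3 +
    (11756074 / 10 ^ 7) * c1 + (-23700810 / 10 ^ 7) * c2 + (-6181042 / 10 ^ 7) * c3 + 2 / 10 ^ 6 *
    S
  g2 : 0 ≤ (21446992 / 10 ^ 7) * b1 + (7744254 / 10 ^ 7) * b3 + 2 / 10 ^ 6 * S
  g3 : 0 ≤ (-29072753 / 10 ^ 7) * b1 + (-36628525 / 10 ^ 7) * b2 + (-41775890 / 10 ^ 7) * b3 +
    (-29072753 / 10 ^ 7) * c1 + (-36628525 / 10 ^ 7) * c2 + (-41775890 / 10 ^ 7) * c3 + 2 / 10 ^ 6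
    * S
  g4 : 0 ≤ (19381836 / 10 ^ 7) * a1 + (27850593 / 10 ^ 7) * a3 + (-19381836 / 10 ^ 7) * b1 +
    (-27850593 / 10 ^ 7) * b3 + 2 / 10 ^ 6 * S
  g5 : 0 ≤ (-22479571 / 10 ^ 7) * a1 + (-6463857 / 10 ^ 7) * a2 + (2308915 / 10 ^ 7) * a3 +
    (22479571 / 10 ^ 7) * b1 + (6463857 / 10 ^ 7) * b2 + (-2308915 / 10 ^ 7) * b3 + (-22479571 /
    10 ^ 7) * c1 + (-6463857 / 10 ^ 7) * c2 + (2308915 / 10 ^ 7) * c3 + 2 / 10 ^ 6 * S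
  g6 : 0 ≤ (-22479571 / 10 ^ 7) * a1 + (6463857 / 10 ^ 7) * a2 + (2308915 / 10 ^ 7) * a3 +
    (22479571 / 10 ^ 7) * c1 + (-6463857 / 10 ^ 7) * c2 + (-2308915 / 10 ^ 7) * c3 + 2 / 10 ^ 6 *
    S
  g7 : 0 ≤ (-2065157 / 10 ^ 7) * a1 + (20106339 / 10 ^ 7) * a3 + 2 / 10 ^ 6 * S
  g8 : 0 ≤ (20414414 / 10 ^ 7) * a1 + (6463857 / 10 ^ 7) * a2 + (17797424 / 10 ^ 7) * a3 +
    (20414414 / 10 ^ 7) * c1 + (6463857 / 10 ^ 7) * c2 + (17797424 / 10 ^ 7) * c3 + 2 / 10 ^ 6 * S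
  g9 : 0 ≤ (20414414 / 10 ^ 7) * a1 + (-6463857 / 10 ^ 7) * a2 + (17797424 / 10 ^ 7) * a3 +
    (20414414 / 10 ^ 7) * b1 + (-6463857 / 10 ^ 7) * b2 + (17797424 / 10 ^ 7) * b3 + (-20414414 /
    10 ^ 7) * c1 + (6463857 / 10 ^ 7) * c2 + (-17797424 / 10 ^ 7) * c3 + 2 / 10 ^ 6 * S
  g10 : 0 ≤ (23512149 / 10 ^ 7) * a1 + (-12362085 / 10 ^ 7) * a3 + (23512149 / 10 ^ 7) * b1 +
    (-12362085 / 10 ^ 7) * b3 + 2 / 10 ^ 6 * S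
  g11 : 0 ≤ (48056876 / 10 ^ 7) * a1 + (40937763 / 10 ^ 7) * a2 + (-34777339 / 10 ^ 7) * a3 +
    (48056876 / 10 ^ 7) * b1 + (40937763 / 10 ^ 7) * b2 + (-34777339 / 10 ^ 7) * b3 + (48056876 /
    10 ^ 7) * c1 + (40937763 / 10 ^ 7) * c2 + (-34777339 / 10 ^ 7) * c3 + 2 / 10 ^ 6 * S
  g12 : 0 ≤ (48056876 / 10 ^ 7) * a1 + (-40937763 / 10 ^ 7) * a2 + (-34777339 / 10 ^ 7) * a3 +
    (96113752 / 10 ^ 7) * b1 + (-81875526 / 10 ^ 7) * b2 + (-69554678 / 10 ^ 7) * b3 + (-48056876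
    / 10 ^ 7) * c1 + (40937763 / 10 ^ 7) * c2 + (34777339 / 10 ^ 7) * c3 + 2 / 10 ^ 6 * S

variable {a1 a2 a3 b1 b2 b3 c1 c2 c3 S : ℝ}

theorem linC0 (hS : 0 ≤ S) (h : FO a1 a2 a3 b1 b2 b3 c1 c2 c3 S)
    {lam : ℝ} (hl : lam = -((-17971284 / 10 ^ 7) * a1 + (-49769800 / 10 ^ 7) * a3 + (-46658686 /
      10 ^ 7) * b1 + (-22360680 / 10 ^ 7) * b2 + (4792394 / 10 ^ 7) * b3 + (44721360 / 10 ^ 7) *
      c2)) :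
    |a1| ≤ 991 / 10 ^ 4 * lam + 1 / 10 ^ 5 * S := by
  obtain ⟨g0, g1, g2, g3, g4, g5, g6, g7, g8, g9, g10, g11, g12⟩ := h
  rw [abs_le]
  constructor
  · linarith
  · linarith

theorem linC1 (hS : 0 ≤ S) (h : FO a1 a2 a3 b1 b2 b3 c1 c2 c3 S)
    {lam : ℝ} (hl : lam = -((-17971284 / 10 ^ 7) * a1 + (-49769800 / 10 ^ 7) * a3 + (-46658686 /
      10 ^ 7) * b1 + (-22360680 / 10 ^ 7) * b2 + (4792394 / 10 ^ 7) * b3 + (44721360 / 10 ^ 7) *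
      c2)) :
    |a2| ≤ 4817 / 10 ^ 4 * lam + 1 / 10 ^ 5 * S := by
  obtain ⟨g0, g1, g2, g3, g4, g5, g6, g7, g8, g9, g10, g11, g12⟩ := h
  rw [abs_le]
  constructor
  · linarith
  · linarith

theorem linC2 (hS : 0 ≤ S) (h : FO a1 a2 a3 b1 b2 b3 c1 c2 c3 S)
    {lam : ℝ} (hl : lam = -((-17971284 / 10 ^ 7) * a1 + (-49769800 / 10 ^ 7) * a3 + (-46658686 /
      10 ^ 7) * b1 + (-22360680 / 10 ^ 7) * b2 + (4792394 / 10 ^ 7) * b3 + (44721360 / 10 ^ 7) *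
      c2)) :
    |a3| ≤ 1544 / 10 ^ 4 * lam + 1 / 10 ^ 5 * S := by
  obtain ⟨g0, g1, g2, g3, g4, g5, g6, g7, g8, g9, g10, g11, g12⟩ := h
  rw [abs_le]
  constructor
  · linarith
  · linarith

theorem linC3 (hS : 0 ≤ S) (h : FO a1 a2 a3 b1 b2 b3 c1 c2 c3 S)
    {lam : ℝ} (hl : lam = -((-17971284 / 10 ^ 7) * a1 + (-49769800 / 10 ^ 7) * a3 + (-46658686 /
      10 ^ 7) * b1 + (-22360680 / 10 ^ 7) * b2 + (4792394 / 10 ^ 7) * b3 + (44721360 / 10 ^ 7) *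
      c2)) :
    |b1| ≤ 1557 / 10 ^ 4 * lam + 1 / 10 ^ 5 * S := by
  obtain ⟨g0, g1, g2, g3, g4, g5, g6, g7, g8, g9, g10, g11, g12⟩ := h
  rw [abs_le]
  constructor
  · linarith
  · linarith

theorem linC4 (hS : 0 ≤ S) (h : FO a1 a2 a3 b1 b2 b3 c1 c2 c3 S)
    {lam : ℝ} (hl : lam = -((-17971284 / 10 ^ 7) * a1 + (-49769800 / 10 ^ 7) * a3 + (-46658686 /
      10 ^ 7) * b1 + (-22360680 / 10 ^ 7) * b2 + (4792394 / 10 ^ 7) * b3 + (44721360 / 10 ^ 7) *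
      c2)) :
    |b2| ≤ 2035 / 10 ^ 4 * lam + 1 / 10 ^ 5 * S := by
  obtain ⟨g0, g1, g2, g3, g4, g5, g6, g7, g8, g9, g10, g11, g12⟩ := h
  rw [abs_le]
  constructor
  · linarith
  · linarith

theorem linC5 (hS : 0 ≤ S) (h : FO a1 a2 a3 b1 b2 b3 c1 c2 c3 S)
    {lam : ℝ} (hl : lam = -((-17971284 / 10 ^ 7) * a1 + (-49769800 / 10 ^ 7) * a3 + (-46658686 /
      10 ^ 7) * b1 + (-22360680 / 10 ^ 7) * b2 + (4792394 / 10 ^ 7) * b3 + (44721360 / 10 ^ 7) *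
      c2)) :
    |b3| ≤ 2607 / 10 ^ 4 * lam + 1 / 10 ^ 5 * S := by
  obtain ⟨g0, g1, g2, g3, g4, g5, g6, g7, g8, g9, g10, g11, g12⟩ := h
  rw [abs_le]
  constructor
  · linarith
  · linarith

theorem linC6 (hS : 0 ≤ S) (h : FO a1 a2 a3 b1 b2 b3 c1 c2 c3 S)
    {lam : ℝ} (hl : lam = -((-17971284 / 10 ^ 7) * a1 + (-49769800 / 10 ^ 7) * a3 + (-46658686 /
      10 ^ 7) * b1 + (-22360680 / 10 ^ 7) * b2 + (4792394 / 10 ^ 7) * b3 + (44721360 / 10 ^ 7) *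
      c2)) :
    |c1| ≤ 2437 / 10 ^ 4 * lam + 1 / 10 ^ 5 * S := by
  obtain ⟨g0, g1, g2, g3, g4, g5, g6, g7, g8, g9, g10, g11, g12⟩ := h
  rw [abs_le]
  constructor
  · linarith
  · linarith

theorem linC7 (hS : 0 ≤ S) (h : FO a1 a2 a3 b1 b2 b3 c1 c2 c3 S)
    {lam : ℝ} (hl : lam = -((-17971284 / 10 ^ 7) * a1 + (-49769800 / 10 ^ 7) * a3 + (-46658686 /
      10 ^ 7) * b1 + (-22360680 / 10 ^ 7) * b2 + (4792394 / 10 ^ 7) * b3 + (44721360 / 10 ^ 7) *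
      c2)) :
    |c2| ≤ 2433 / 10 ^ 4 * lam + 1 / 10 ^ 5 * S := by
  obtain ⟨g0, g1, g2, g3, g4, g5, g6, g7, g8, g9, g10, g11, g12⟩ := h
  rw [abs_le]
  constructor
  · linarith
  · linarith

theorem linC8 (hS : 0 ≤ S) (h : FO a1 a2 a3 b1 b2 b3 c1 c2 c3 S)
    {lam : ℝ} (hl : lam = -((-17971284 / 10 ^ 7) * a1 + (-49769800 / 10 ^ 7) * a3 + (-46658686 /
      10 ^ 7) * b1 + (-22360680 / 10 ^ 7) * b2 + (4792394 / 10 ^ 7) * b3 + (44721360 / 10 ^ 7) *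
      c2)) :
    |c3| ≤ 1768 / 10 ^ 4 * lam + 1 / 10 ^ 5 * S := by
  obtain ⟨g0, g1, g2, g3, g4, g5, g6, g7, g8, g9, g10, g11, g12⟩ := h
  rw [abs_le]
  constructor
  · linarith
  · linarith

end Pool.Agent.Work.MP_77d073_nt.Q4.Cr
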