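import Mathlib
import Pool.Agent.Work.MP_77d073_nt.Q4.CrB
import Pool.Agent.Work.MP_77d073_nt.Q4.CrC

set_option autoImplicit false

/-!
# CrD: the determinant near the critical lattice
-/

namespace Pool.Agent.Work.MP_77d073_nt.Q4.Cr

theorem mulb {a b alo ahi blo bhi : ℝ} (h0 : 0 ≤ alo) (h1 : 0 ≤ blo) (h2 : alo ≤ a)
    (h3 : a ≤ ahi) (h4 : blo ≤ b) (h5 : b ≤ bhi) : alo * blo ≤ a * b ∧ a * b ≤ ahi * bhi :=
  ⟨mul_le_mul h2 h4 h1 (h0.trans h2), mul_le_mul h3 h5 (h1.trans h4) ((h0.trans h2).trans h3)⟩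

theorem lerr {H h n e : ℝ} (h1 : |H - h| ≤ e) : H * n ≤ h * n + e * |n| := by
  have h2 : (H - h) * n ≤ e * |n| := by
    calc (H - h) * n ≤ |(H - h) * n| := le_abs_self _
      _ = |H - h| * |n| := abs_mul _ _
      _ ≤ e * |n| := mul_le_mul_of_nonneg_right h1 (abs_nonneg _)
  linarith

/-- quadratic terms -/
theorem tb2 {k x y K : ℝ} (hk : |k| ≤ K) (hy : |y| ≤ 1 / 4) : k * (x * y) ≤ K / 4 * |x| := by
  have hK : 0 ≤ K := (abs_nonneg _).trans hk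
  calc k * (x * y) ≤ |k * (x * y)| := le_abs_self _
    _ = |k| * (|x| * |y|) := by rw [abs_mul, abs_mul]
    _ ≤ K * (|x| * (1 / 4)) :=
        mul_le_mul hk (mul_le_mul_of_nonneg_left hy (abs_nonneg _))
          (mul_nonneg (abs_nonneg _) (abs_nonneg _)) hK
    _ = K / 4 * |x| := by ring

/-- cubic terms -/
theorem tb3 {x y z : ℝ} (hy : |y| ≤ 1 / 4) (hz : |z| ≤ 1 / 4) : x * (y * z) ≤ 1 / 16 * |x| := by
  calc x * (y * z) ≤ |x * (y * z)| := le_abs_self _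
    _ = |x| * (|y| * |z|) := by rw [abs_mul, abs_mul]
    _ ≤ |x| * (1 / 4 * (1 / 4)) :=
        mul_le_mul_of_nonneg_left (mul_le_mul hy hz (abs_nonneg _) (by norm_num)) (abs_nonneg _)
    _ = 1 / 16 * |x| := by ring

/-- the determinant with rows `u, v, w` -/
def dt (a1 a2 a3 b1 b2 b3 c1 c2 c3 : ℝ) : ℝ :=
  a1 * (b2 * c3 - b3 * c2) - a2 * (b1 * c3 - b3 * c1) + a3 * (b1 * c2 - b2 * c1)

theorem dt_exp (c x1 x2 y1 y2 a1 a2 a3 b1 b2 b3 c1 c2 c3 : ℝ) :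
    dt (x1 - y1 + a1) a2 (x1 + y1 + a3) (x2 + y2 + b1) b2 (x2 - y2 + b3)
      ((x2 + y2) / 2 + c1) (-c + c2) ((x2 - y2) / 2 + c3) =
      -2 * c * (x1 * y2 + y1 * x2) +
      (-(c * (y2 - x2)) * a1 + -(c * (x2 + y2)) * a3 + -(c * (x1 + y1)) * b1 +
        -(x1 * y2 + y1 * x2) * b2 + (c * (x1 - y1)) * b3 + (2 * (x1 * y2 + y1 * x2)) * c2) +
      ((x1 - y1) * (c3 * b2) + (-(x1 - y1)) * (c2 * b3) + (x1 + y1) * (b1 * c2) +
        (-(x1 + y1)) * (b2 * c1) + (-(x2 + y2)) * (c3 * a2) + (x2 + y2) * (a3 * c2) +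
        (y2 - x2) * (a1 * c2) + (x2 - y2) * (c1 * a2) + ((x2 + y2) / 2) * (b3 * a2) +
        (-((x2 + y2) / 2)) * (a3 * b2) + c * (a1 * b3) + (-c) * (a3 * b1) +
        ((x2 - y2) / 2) * (a1 * b2) + (-((x2 - y2) / 2)) * (b1 * a2)) +
      (a1 * (b2 * c3) + (-a1) * (b3 * c2) + (-b1) * (a2 * c3) + c1 * (a2 * b3) +
        a3 * (b1 * c2) + (-a3) * (b2 * c1)) := by
  unfold dt
  ring


/-- the determinant near the critical lattice, from the first order inequalities -/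
theorem core {ph c x1 x2 y1 y2 : ℝ} (h : Cst ph c x1 x2 y1 y2)
    {a1 a2 a3 b1 b2 b3 c1 c2 c3 : ℝ}
    (hg : FO a1 a2 a3 b1 b2 b3 c1 c2 c3
      (|a1| + |a2| + |a3| + |b1| + |b2| + |b3| + |c1| + |c2| + |c3|))
    (k2 : |a2| ≤ 1 / 4) (k4 : |b1| ≤ 1 / 4)
    (k5 : |b2| ≤ 1 / 4) (k6 : |b3| ≤ 1 / 4) (k7 : |c1| ≤ 1 / 4) (k8 : |c2| ≤ 1 / 4)
    (k9 : |c3| ≤ 1 / 4) :
    dt (x1 - y1 + a1) a2 (x1 + y1 + a3) (x2 + y2 + b1) b2 (x2 - y2 + b3)
      ((x2 + y2) / 2 + c1) (-c + c2) ((x2 - y2) / 2 + c3) ≤ -2 * c * (2 * ph - 1) -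
      (|a1| + |a2| + |a3| + |b1| + |b2| + |b3| + |c1| + |c2| + |c3|) / 20 := by
  have n1 := abs_nonneg a1
  have n2 := abs_nonneg a2
  have n3 := abs_nonneg a3
  have n4 := abs_nonneg b1
  have n5 := abs_nonneg b2
  have n6 := abs_nonneg b3
  have n7 := abs_nonneg c1
  have n8 := abs_nonneg c2
  have n9 := abs_nonneg c3
  have he : x1 * y2 + y1 * x2 = 2 * ph - 1 := by
    rw [h.hx2, h.hy2]
    linear_combination (2 * ph - 1) * h.xy
  obtain ⟨p1, p2⟩ := cst_ph h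
  obtain ⟨q1, q2⟩ := cst_c h
  obtain ⟨r1, r2⟩ := cst_x1 h
  obtain ⟨r3, r4⟩ := cst_x2 h
  obtain ⟨s1, s2⟩ := cst_y1 h
  obtain ⟨s3, s4⟩ := cst_y2 h
  obtain ⟨t1l, t1u⟩ := mulb (a := c) (b := y2 - x2) (alo := 2320595787 / 10 ^ 9)
    (ahi := 2320595788 / 10 ^ 9) (blo := 774425416 / 10 ^ 9) (bhi := 774425427 / 10 ^ 9) (by norm_num) (by norm_num)
    q1 q2 (by linarith only [r1, r2, r3, r4, s1, s2, s3, s4])
    (by linarith only [r1, r2, r3, r4, s1, s2, s3, s4])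
  obtain ⟨t2l, t2u⟩ := mulb (a := c) (b := x2 + y2) (alo := 2320595787 / 10 ^ 9)
    (ahi := 2320595788 / 10 ^ 9) (blo := 2144699212 / 10 ^ 9) (bhi := 2144699223 / 10 ^ 9) (by norm_num) (by norm_num)
    q1 q2 (by linarith only [r1, r2, r3, r4, s1, s2, s3, s4])
    (by linarith only [r1, r2, r3, r4, s1, s2, s3, s4])
  obtain ⟨t3l, t3u⟩ := mulb (a := c) (b := x1 + y1) (alo := 2320595787 / 10 ^ 9)
    (ahi := 2320595788 / 10 ^ 9) (blo := 2010633908 / 10 ^ 9) (bhi := 2010633912 / 10 ^ 9) (by norm_num) (by norm_num)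
    q1 q2 (by linarith only [r1, r2, r3, r4, s1, s2, s3, s4])
    (by linarith only [r1, r2, r3, r4, s1, s2, s3, s4])
  obtain ⟨t4l, t4u⟩ := mulb (a := c) (b := x1 - y1) (alo := 2320595787 / 10 ^ 9)
    (ahi := 2320595788 / 10 ^ 9) (blo := 206515664 / 10 ^ 9) (bhi := 206515668 / 10 ^ 9) (by norm_num) (by norm_num)
    q1 q2 (by linarith only [r1, r2, r3, r4, s1, s2, s3, s4])
    (by linarith only [r1, r2, r3, r4, s1, s2, s3, s4])
  have e1 := lerr (H := -(c * (y2 - x2))) (h := -17971284 / 10 ^ 7) (n := a1) (e := 1 / 10 ^ 6) (by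
    rw [abs_le]; constructor <;> linarith only [he, p1, p2, t1l, t1u, t2l, t2u, t3l, t3u, t4l, t4u])
  have e2 := lerr (H := -(c * (x2 + y2))) (h := -49769800 / 10 ^ 7) (n := a3) (e := 1 / 10 ^ 6) (by
    rw [abs_le]; constructor <;> linarith only [he, p1, p2, t1l, t1u, t2l, t2u, t3l, t3u, t4l, t4u])
  have e3 := lerr (H := -(c * (x1 + y1))) (h := -46658686 / 10 ^ 7) (n := b1) (e := 1 / 10 ^ 6) (by
    rw [abs_le]; constructor <;> linarith only [he, p1, p2, t1l, t1u, t2l, t2u, t3l, t3u, t4l, t4u])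
  have e4 := lerr (H := -(x1 * y2 + y1 * x2)) (h := -22360680 / 10 ^ 7) (n := b2) (e := 1 / 10 ^ 6) (by
    rw [abs_le]; constructor <;> linarith only [he, p1, p2, t1l, t1u, t2l, t2u, t3l, t3u, t4l, t4u])
  have e5 := lerr (H := c * (x1 - y1)) (h := 4792394 / 10 ^ 7) (n := b3) (e := 1 / 10 ^ 6) (by
    rw [abs_le]; constructor <;> linarith only [he, p1, p2, t1l, t1u, t2l, t2u, t3l, t3u, t4l, t4u])
  have e6 := lerr (H := 2 * (x1 * y2 + y1 * x2)) (h := 44721360 / 10 ^ 7) (n := c2) (e := 1 / 10 ^ 6) (by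
    rw [abs_le]; constructor <;> linarith only [he, p1, p2, t1l, t1u, t2l, t2u, t3l, t3u, t4l, t4u])
  have w1 := tb2 (k := x1 - y1) (x := c3) (K := 2066 / 10 ^ 4) (by
    rw [abs_le]; constructor <;> linarith only [q1, q2, r1, r2, r3, r4, s1, s2, s3, s4]) k5
  have w2 := tb2 (k := -(x1 - y1)) (x := c2) (K := 2066 / 10 ^ 4) (by
    rw [abs_le]; constructor <;> linarith only [q1, q2, r1, r2, r3, r4, s1, s2, s3, s4]) k6
  have w3 := tb2 (k := x1 + y1) (x := b1) (K := 20107 / 10 ^ 4) (by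
    rw [abs_le]; constructor <;> linarith only [q1, q2, r1, r2, r3, r4, s1, s2, s3, s4]) k8
  have w4 := tb2 (k := -(x1 + y1)) (x := b2) (K := 20107 / 10 ^ 4) (by
    rw [abs_le]; constructor <;> linarith only [q1, q2, r1, r2, r3, r4, s1, s2, s3, s4]) k7
  have w5 := tb2 (k := -(x2 + y2)) (x := c3) (K := 21447 / 10 ^ 4) (by
    rw [abs_le]; constructor <;> linarith only [q1, q2, r1, r2, r3, r4, s1, s2, s3, s4]) k2
  have w6 := tb2 (k := x2 + y2) (x := a3) (K := 21447 / 10 ^ 4) (by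
    rw [abs_le]; constructor <;> linarith only [q1, q2, r1, r2, r3, r4, s1, s2, s3, s4]) k8
  have w7 := tb2 (k := y2 - x2) (x := a1) (K := 7745 / 10 ^ 4) (by
    rw [abs_le]; constructor <;> linarith only [q1, q2, r1, r2, r3, r4, s1, s2, s3, s4]) k8
  have w8 := tb2 (k := x2 - y2) (x := c1) (K := 7745 / 10 ^ 4) (by
    rw [abs_le]; constructor <;> linarith only [q1, q2, r1, r2, r3, r4, s1, s2, s3, s4]) k2
  have w9 := tb2 (k := (x2 + y2) / 2) (x := b3) (K := 10724 / 10 ^ 4) (by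
    rw [abs_le]; constructor <;> linarith only [q1, q2, r1, r2, r3, r4, s1, s2, s3, s4]) k2
  have w10 := tb2 (k := -((x2 + y2) / 2)) (x := a3) (K := 10724 / 10 ^ 4) (by
    rw [abs_le]; constructor <;> linarith only [q1, q2, r1, r2, r3, r4, s1, s2, s3, s4]) k5
  have w11 := tb2 (k := c) (x := a1) (K := 23206 / 10 ^ 4) (by
    rw [abs_le]; constructor <;> linarith only [q1, q2, r1, r2, r3, r4, s1, s2, s3, s4]) k6
  have w12 := tb2 (k := -c) (x := a3) (K := 23206 / 10 ^ 4) (by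
    rw [abs_le]; constructor <;> linarith only [q1, q2, r1, r2, r3, r4, s1, s2, s3, s4]) k4
  have w13 := tb2 (k := (x2 - y2) / 2) (x := a1) (K := 3873 / 10 ^ 4) (by
    rw [abs_le]; constructor <;> linarith only [q1, q2, r1, r2, r3, r4, s1, s2, s3, s4]) k5
  have w14 := tb2 (k := -((x2 - y2) / 2)) (x := b1) (K := 3873 / 10 ^ 4) (by
    rw [abs_le]; constructor <;> linarith only [q1, q2, r1, r2, r3, r4, s1, s2, s3, s4]) k2
  have z1 := tb3 (x := a1) k5 k9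
  have z2 := tb3 (x := -a1) k6 k8
  have z3 := tb3 (x := -b1) k2 k9
  have z4 := tb3 (x := c1) k2 k6
  have z5 := tb3 (x := a3) k4 k8
  have z6 := tb3 (x := -a3) k5 k7
  rw [abs_neg] at z2 z3 z6
  have hS : 0 ≤ |a1| + |a2| + |a3| + |b1| + |b2| + |b3| + |c1| + |c2| + |c3| := by positivity
  obtain ⟨lam, hl⟩ : ∃ lam : ℝ, lam = -((-17971284 / 10 ^ 7) * a1 + (-49769800 / 10 ^ 7) * a3 +
    (-46658686 / 10 ^ 7) * b1 + (-22360680 / 10 ^ 7) * b2 + (4792394 / 10 ^ 7) * b3 + (44721360 /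
    10 ^ 7) * c2) := ⟨_, rfl⟩
  have v1 := linC0 hS hg hl
  have v2 := linC1 hS hg hl
  have v3 := linC2 hS hg hl
  have v4 := linC3 hS hg hl
  have v5 := linC4 hS hg hl
  have v6 := linC5 hS hg hl
  have v7 := linC6 hS hg hl
  have v8 := linC7 hS hg hl
  have v9 := linC8 hS hg hl
  rw [dt_exp, he]
  rw [he] at e4 e6
  clear hg he p1 p2 q1 q2 r1 r2 r3 r4 s1 s2 s3 s4 t1l t1u t2l t2u t3l t3u t4l t4u k2 k4 k5 k6 k7 k8 k9
  linarith

end Pool.Agent.Work.MP_77d073_nt.Q4.Cr
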