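import Mathlib
import Pool.Agent.Work.MP_77d073_nt.Q4.CrD

set_option autoImplicit false

/-!
# CrE: the exact local lemma
-/

namespace Pool.Agent.Work.MP_77d073_nt.Q4.Cr

variable {ph c x1 x2 y1 y2 a1 a2 a3 b1 b2 b3 c1 c2 c3 : ℝ}

private theorem cv {A B C D A' B' C' D' : ℝ} (h : 256 ≤ (A * B * C * D) ^ 2) (e1 : A = A')
    (e2 : B = B') (e3 : C = C') (e4 : D = D') : 256 ≤ (A' * B' * C' * D') ^ 2 := by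
  subst e1 e2 e3 e4
  exact h

private theorem ab3 (p q r : ℝ) (hp : |p| ≤ 2) (hq : |q| ≤ 2) (hr : |r| ≤ 2) (x y z : ℝ) :
    |p * x + q * y + r * z| ≤ 2 * |x| + 2 * |y| + 2 * |z| := by
  have h1 := abs_add_three (p * x) (q * y) (r * z)
  rw [abs_mul, abs_mul, abs_mul] at h1
  have h2 := mul_le_mul_of_nonneg_right hp (abs_nonneg x)
  have h3 := mul_le_mul_of_nonneg_right hq (abs_nonneg y)
  have h4 := mul_le_mul_of_nonneg_right hr (abs_nonneg z)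
  linarith only [h1, h2, h3, h4]

private theorem fin1 (p q r : ℝ) {hu hv hw : ℝ} (hp : |p| ≤ 2) (hq : |q| ≤ 2) (hr : |r| ≤ 2)
    (h : 0 ≤ hu * (p * a1 + q * b1 + r * c1) + hv * (p * a2 + q * b2 + r * c2) +
      hw * (p * a3 + q * b3 + r * c3) + 1 / 10 ^ 6 * (|p * a1 + q * b1 + r * c1| +
      |p * a2 + q * b2 + r * c2| + |p * a3 + q * b3 + r * c3|)) :
    0 ≤ hu * (p * a1 + q * b1 + r * c1) + hv * (p * a2 + q * b2 + r * c2) +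
      hw * (p * a3 + q * b3 + r * c3) + 2 / 10 ^ 6 *
      (|a1| + |a2| + |a3| + |b1| + |b2| + |b3| + |c1| + |c2| + |c3|) := by
  have h1 := ab3 p q r hp hq hr a1 b1 c1
  have h2 := ab3 p q r hp hq hr a2 b2 c2
  have h3 := ab3 p q r hp hq hr a3 b3 c3
  linarith only [h, h1, h2, h3]

private theorem small4 {A B C D : ℝ} (h1 : |A| ≤ 7) (h2 : |B| ≤ 1 / 25) (h3 : |C| ≤ 3)
    (h4 : |D| ≤ 6) : (A * B * C * D) ^ 2 < 256 := by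
  have h5 : |A * B * C * D| ≤ 7 * (1 / 25) * 3 * 6 := by
    rw [abs_mul, abs_mul, abs_mul]
    exact mul_le_mul (mul_le_mul (mul_le_mul h1 h2 (abs_nonneg _) (by norm_num)) h3
      (abs_nonneg _) (by norm_num)) h4 (abs_nonneg _) (by norm_num)
  rw [← sq_abs]
  calc |A * B * C * D| ^ 2 ≤ (7 * (1 / 25) * 3 * 6) ^ 2 :=
        pow_le_pow_left₀ (abs_nonneg _) h5 2
    _ < 256 := by norm_num

/-- the four values at `p` -/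
structure Pr (c x1 x2 y1 y2 a1 a2 a3 b1 b2 b3 c1 c2 c3 : ℝ) : Prop where
  hT : ∀ p1 p2 p3 : ℤ, ¬(p1 = 0 ∧ p2 = 0 ∧ p3 = 0) → 256 ≤ (
      (2 * p1 * x1 + (2 * p2 + p3) * x2 - p3 * c +
        (p1 * (a1 + a2 + a3) + p2 * (b1 + b2 + b3) + p3 * (c1 + c2 + c3))) *
      (-2 * p1 * y1 + (2 * p2 + p3) * y2 + p3 * c +
        (p1 * (a1 - a2 - a3) + p2 * (b1 - b2 - b3) + p3 * (c1 - c2 - c3))) *
      (-(2 * p1 * x1 + (2 * p2 + p3) * x2) - p3 * c +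
        (p1 * (-a1 + a2 - a3) + p2 * (-b1 + b2 - b3) + p3 * (-c1 + c2 - c3))) *
      (-(-2 * p1 * y1 + (2 * p2 + p3) * y2) + p3 * c +
        (p1 * (-a1 - a2 + a3) + p2 * (-b1 - b2 + b3) + p3 * (-c1 - c2 + c3)))) ^ 2
  k1 : |a1| ≤ 1 / 50
  k2 : |a2| ≤ 7 / 100
  k3 : |a3| ≤ 1 / 50
  k4 : |b1| ≤ 1 / 50
  k5 : |b2| ≤ 1 / 50
  k6 : |b3| ≤ 1 / 50
  k7 : |c1| ≤ 1 / 50
  k8 : |c2| ≤ 1 / 50
  k9 : |c3| ≤ 1 / 50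

private theorem fo0 (h : Cst ph c x1 x2 y1 y2)
    (hP : Pr c x1 x2 y1 y2 a1 a2 a3 b1 b2 b3 c1 c2 c3) :
    0 ≤ (-11756074 / 10 ^ 7) * (0 * a1 + 0 * b1 + 1 * c1) +
      (-23700810 / 10 ^ 7) * (0 * a2 + 0 * b2 + 1 * c2) +
      (6181042 / 10 ^ 7) * (0 * a3 + 0 * b3 + 1 * c3) + 2 / 10 ^ 6 *
      (|a1| + |a2| + |a3| + |b1| + |b2| + |b3| + |c1| + |c2| + |c3|) := by
  obtain ⟨hT, k1, k2, k3, k4, k5, k6, k7, k8, k9⟩ := hP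
  rw [abs_le] at k1 k2 k3 k4 k5 k6 k7 k8 k9
  obtain ⟨m1, m2⟩ := cst_c h
  obtain ⟨m3, m4⟩ := cst_x1 h
  obtain ⟨m5, m6⟩ := cst_x2 h
  obtain ⟨m7, m8⟩ := cst_y1 h
  obtain ⟨m9, m10⟩ := cst_y2 h
  have hq := hT 0 0 1 (by decide)
  have hq2 : 256 ≤ (((x2 - c) + ((0 * a1 + 0 * b1 + 1 * c1) + (0 * a2 + 0 * b2 + 1 * c2) + (0 * a3 + 0 * b3 + 1 * c3))) *
      ((y2 + c) + ((0 * a1 + 0 * b1 + 1 * c1) - (0 * a2 + 0 * b2 + 1 * c2) - (0 * a3 + 0 * b3 + 1 * c3))) *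
      ((-x2 - c) + (-(0 * a1 + 0 * b1 + 1 * c1) + (0 * a2 + 0 * b2 + 1 * c2) - (0 * a3 + 0 * b3 + 1 * c3))) *
      ((-y2 + c) + (-(0 * a1 + 0 * b1 + 1 * c1) - (0 * a2 + 0 * b2 + 1 * c2) + (0 * a3 + 0 * b3 + 1 * c3)))) ^ 2 :=
    cv hq (by push_cast; ring) (by push_cast; ring) (by push_cast; ring)
      (by push_cast; ring)
  clear hq hT
  refine fin1 (0) (0) (1) (by norm_num) (by norm_num) (by norm_num)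
    (gB0 h hq2 ?_ ?_ ?_ ?_)
  · linarith only [m1, m2, m3, m4, m5, m6, m7, m8, m9, m10, k7.1, k7.2, k8.1, k8.2, k9.1, k9.2]
  · linarith only [m1, m2, m3, m4, m5, m6, m7, m8, m9, m10, k7.1, k7.2, k8.1, k8.2, k9.1, k9.2]
  · linarith only [m1, m2, m3, m4, m5, m6, m7, m8, m9, m10, k7.1, k7.2, k8.1, k8.2, k9.1, k9.2]
  · linarith only [m1, m2, m3, m4, m5, m6, m7, m8, m9, m10, k7.1, k7.2, k8.1, k8.2, k9.1, k9.2]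

private theorem fo1 (h : Cst ph c x1 x2 y1 y2)
    (hP : Pr c x1 x2 y1 y2 a1 a2 a3 b1 b2 b3 c1 c2 c3) :
    0 ≤ (-11756074 / 10 ^ 7) * (0 * a1 + 1 * b1 + (-1) * c1) +
      (23700810 / 10 ^ 7) * (0 * a2 + 1 * b2 + (-1) * c2) +
      (6181042 / 10 ^ 7) * (0 * a3 + 1 * b3 + (-1) * c3) + 2 / 10 ^ 6 *
      (|a1| + |a2| + |a3| + |b1| + |b2| + |b3| + |c1| + |c2| + |c3|) := by
  obtain ⟨hT, k1, k2, k3, k4, k5, k6, k7, k8, k9⟩ := hP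
  rw [abs_le] at k1 k2 k3 k4 k5 k6 k7 k8 k9
  obtain ⟨m1, m2⟩ := cst_c h
  obtain ⟨m3, m4⟩ := cst_x1 h
  obtain ⟨m5, m6⟩ := cst_x2 h
  obtain ⟨m7, m8⟩ := cst_y1 h
  obtain ⟨m9, m10⟩ := cst_y2 h
  have hq := hT 0 1 (-1) (by decide)
  have hq2 : 256 ≤ (((x2 + c) + ((0 * a1 + 1 * b1 + (-1) * c1) + (0 * a2 + 1 * b2 + (-1) * c2) + (0 * a3 + 1 * b3 + (-1) * c3))) *
      ((y2 - c) + ((0 * a1 + 1 * b1 + (-1) * c1) - (0 * a2 + 1 * b2 + (-1) * c2) - (0 * a3 + 1 * b3 + (-1) * c3))) *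
      ((-x2 + c) + (-(0 * a1 + 1 * b1 + (-1) * c1) + (0 * a2 + 1 * b2 + (-1) * c2) - (0 * a3 + 1 * b3 + (-1) * c3))) *
      ((-y2 - c) + (-(0 * a1 + 1 * b1 + (-1) * c1) - (0 * a2 + 1 * b2 + (-1) * c2) + (0 * a3 + 1 * b3 + (-1) * c3)))) ^ 2 :=
    cv hq (by push_cast; ring) (by push_cast; ring) (by push_cast; ring)
      (by push_cast; ring)
  clear hq hT
  refine fin1 (0) (1) (-1) (by norm_num) (by norm_num) (by norm_num)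
    (gB1 h hq2 ?_ ?_ ?_ ?_)
  · linarith only [m1, m2, m3, m4, m5, m6, m7, m8, m9, m10, k4.1, k4.2, k5.1, k5.2, k6.1, k6.2, k7.1, k7.2, k8.1, k8.2, k9.1, k9.2]
  · linarith only [m1, m2, m3, m4, m5, m6, m7, m8, m9, m10, k4.1, k4.2, k5.1, k5.2, k6.1, k6.2, k7.1, k7.2, k8.1, k8.2, k9.1, k9.2]
  · linarith only [m1, m2, m3, m4, m5, m6, m7, m8, m9, m10, k4.1, k4.2, k5.1, k5.2, k6.1, k6.2, k7.1, k7.2, k8.1, k8.2, k9.1, k9.2]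
  · linarith only [m1, m2, m3, m4, m5, m6, m7, m8, m9, m10, k4.1, k4.2, k5.1, k5.2, k6.1, k6.2, k7.1, k7.2, k8.1, k8.2, k9.1, k9.2]

private theorem fo2 (h : Cst ph c x1 x2 y1 y2)
    (hP : Pr c x1 x2 y1 y2 a1 a2 a3 b1 b2 b3 c1 c2 c3) :
    0 ≤ (21446992 / 10 ^ 7) * (0 * a1 + 1 * b1 + 0 * c1) +
      (0 / 10 ^ 7) * (0 * a2 + 1 * b2 + 0 * c2) +
      (7744254 / 10 ^ 7) * (0 * a3 + 1 * b3 + 0 * c3) + 2 / 10 ^ 6 *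
      (|a1| + |a2| + |a3| + |b1| + |b2| + |b3| + |c1| + |c2| + |c3|) := by
  obtain ⟨hT, k1, k2, k3, k4, k5, k6, k7, k8, k9⟩ := hP
  rw [abs_le] at k1 k2 k3 k4 k5 k6 k7 k8 k9
  obtain ⟨m1, m2⟩ := cst_c h
  obtain ⟨m3, m4⟩ := cst_x1 h
  obtain ⟨m5, m6⟩ := cst_x2 h
  obtain ⟨m7, m8⟩ := cst_y1 h
  obtain ⟨m9, m10⟩ := cst_y2 h
  have hq := hT 0 1 0 (by decide)
  have hq2 : 256 ≤ (((2 * x2) + ((0 * a1 + 1 * b1 + 0 * c1) + (0 * a2 + 1 * b2 + 0 * c2) + (0 * a3 + 1 * b3 + 0 * c3))) *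
      ((2 * y2) + ((0 * a1 + 1 * b1 + 0 * c1) - (0 * a2 + 1 * b2 + 0 * c2) - (0 * a3 + 1 * b3 + 0 * c3))) *
      ((-(2 * x2)) + (-(0 * a1 + 1 * b1 + 0 * c1) + (0 * a2 + 1 * b2 + 0 * c2) - (0 * a3 + 1 * b3 + 0 * c3))) *
      ((-(2 * y2)) + (-(0 * a1 + 1 * b1 + 0 * c1) - (0 * a2 + 1 * b2 + 0 * c2) + (0 * a3 + 1 * b3 + 0 * c3)))) ^ 2 :=
    cv hq (by push_cast; ring) (by push_cast; ring) (by push_cast; ring)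
      (by push_cast; ring)
  clear hq hT
  refine fin1 (0) (1) (0) (by norm_num) (by norm_num) (by norm_num)
    (gB2 h hq2 ?_ ?_ ?_ ?_)
  · linarith only [m1, m2, m3, m4, m5, m6, m7, m8, m9, m10, k4.1, k4.2, k5.1, k5.2, k6.1, k6.2]
  · linarith only [m1, m2, m3, m4, m5, m6, m7, m8, m9, m10, k4.1, k4.2, k5.1, k5.2, k6.1, k6.2]
  · linarith only [m1, m2, m3, m4, m5, m6, m7, m8, m9, m10, k4.1, k4.2, k5.1, k5.2, k6.1, k6.2]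
  · linarith only [m1, m2, m3, m4, m5, m6, m7, m8, m9, m10, k4.1, k4.2, k5.1, k5.2, k6.1, k6.2]

private theorem fo3 (h : Cst ph c x1 x2 y1 y2)
    (hP : Pr c x1 x2 y1 y2 a1 a2 a3 b1 b2 b3 c1 c2 c3) :
    0 ≤ (-29072753 / 10 ^ 7) * (0 * a1 + 1 * b1 + 1 * c1) +
      (-36628525 / 10 ^ 7) * (0 * a2 + 1 * b2 + 1 * c2) +
      (-41775890 / 10 ^ 7) * (0 * a3 + 1 * b3 + 1 * c3) + 2 / 10 ^ 6 *
      (|a1| + |a2| + |a3| + |b1| + |b2| + |b3| + |c1| + |c2| + |c3|) := by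
  obtain ⟨hT, k1, k2, k3, k4, k5, k6, k7, k8, k9⟩ := hP
  rw [abs_le] at k1 k2 k3 k4 k5 k6 k7 k8 k9
  obtain ⟨m1, m2⟩ := cst_c h
  obtain ⟨m3, m4⟩ := cst_x1 h
  obtain ⟨m5, m6⟩ := cst_x2 h
  obtain ⟨m7, m8⟩ := cst_y1 h
  obtain ⟨m9, m10⟩ := cst_y2 h
  have hq := hT 0 1 1 (by decide)
  have hq2 : 256 ≤ (((3 * x2 - c) + ((0 * a1 + 1 * b1 + 1 * c1) + (0 * a2 + 1 * b2 + 1 * c2) + (0 * a3 + 1 * b3 + 1 * c3))) *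
      ((3 * y2 + c) + ((0 * a1 + 1 * b1 + 1 * c1) - (0 * a2 + 1 * b2 + 1 * c2) - (0 * a3 + 1 * b3 + 1 * c3))) *
      ((-(3 * x2) - c) + (-(0 * a1 + 1 * b1 + 1 * c1) + (0 * a2 + 1 * b2 + 1 * c2) - (0 * a3 + 1 * b3 + 1 * c3))) *
      ((-(3 * y2) + c) + (-(0 * a1 + 1 * b1 + 1 * c1) - (0 * a2 + 1 * b2 + 1 * c2) + (0 * a3 + 1 * b3 + 1 * c3)))) ^ 2 :=
    cv hq (by push_cast; ring) (by push_cast; ring) (by push_cast; ring)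
      (by push_cast; ring)
  clear hq hT
  refine fin1 (0) (1) (1) (by norm_num) (by norm_num) (by norm_num)
    (gB3 h hq2 ?_ ?_ ?_ ?_)
  · linarith only [m1, m2, m3, m4, m5, m6, m7, m8, m9, m10, k4.1, k4.2, k5.1, k5.2, k6.1, k6.2, k7.1, k7.2, k8.1, k8.2, k9.1, k9.2]
  · linarith only [m1, m2, m3, m4, m5, m6, m7, m8, m9, m10, k4.1, k4.2, k5.1, k5.2, k6.1, k6.2, k7.1, k7.2, k8.1, k8.2, k9.1, k9.2]
  · linarith only [m1, m2, m3, m4, m5, m6, m7, m8, m9, m10, k4.1, k4.2, k5.1, k5.2, k6.1, k6.2, k7.1, k7.2, k8.1, k8.2, k9.1, k9.2]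
  · linarith only [m1, m2, m3, m4, m5, m6, m7, m8, m9, m10, k4.1, k4.2, k5.1, k5.2, k6.1, k6.2, k7.1, k7.2, k8.1, k8.2, k9.1, k9.2]

private theorem fo4 (h : Cst ph c x1 x2 y1 y2)
    (hP : Pr c x1 x2 y1 y2 a1 a2 a3 b1 b2 b3 c1 c2 c3) :
    0 ≤ (19381836 / 10 ^ 7) * (1 * a1 + (-1) * b1 + 0 * c1) +
      (0 / 10 ^ 7) * (1 * a2 + (-1) * b2 + 0 * c2) +
      (27850593 / 10 ^ 7) * (1 * a3 + (-1) * b3 + 0 * c3) + 2 / 10 ^ 6 *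
      (|a1| + |a2| + |a3| + |b1| + |b2| + |b3| + |c1| + |c2| + |c3|) := by
  obtain ⟨hT, k1, k2, k3, k4, k5, k6, k7, k8, k9⟩ := hP
  rw [abs_le] at k1 k2 k3 k4 k5 k6 k7 k8 k9
  obtain ⟨m1, m2⟩ := cst_c h
  obtain ⟨m3, m4⟩ := cst_x1 h
  obtain ⟨m5, m6⟩ := cst_x2 h
  obtain ⟨m7, m8⟩ := cst_y1 h
  obtain ⟨m9, m10⟩ := cst_y2 h
  have hq := hT 1 (-1) 0 (by decide)
  have hq2 : 256 ≤ (((2 * x1 - 2 * x2) + ((1 * a1 + (-1) * b1 + 0 * c1) + (1 * a2 + (-1) * b2 + 0 * c2) + (1 * a3 + (-1) * b3 + 0 * c3))) *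
      ((-(2 * y1) - 2 * y2) + ((1 * a1 + (-1) * b1 + 0 * c1) - (1 * a2 + (-1) * b2 + 0 * c2) - (1 * a3 + (-1) * b3 + 0 * c3))) *
      ((-(2 * x1) + 2 * x2) + (-(1 * a1 + (-1) * b1 + 0 * c1) + (1 * a2 + (-1) * b2 + 0 * c2) - (1 * a3 + (-1) * b3 + 0 * c3))) *
      ((2 * y1 + 2 * y2) + (-(1 * a1 + (-1) * b1 + 0 * c1) - (1 * a2 + (-1) * b2 + 0 * c2) + (1 * a3 + (-1) * b3 + 0 * c3)))) ^ 2 :=
    cv hq (by push_cast; ring) (by push_cast; ring) (by push_cast; ring)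
      (by push_cast; ring)
  clear hq hT
  refine fin1 (1) (-1) (0) (by norm_num) (by norm_num) (by norm_num)
    (gB4 h hq2 ?_ ?_ ?_ ?_)
  · linarith only [m1, m2, m3, m4, m5, m6, m7, m8, m9, m10, k1.1, k1.2, k2.1, k2.2, k3.1, k3.2, k4.1, k4.2, k5.1, k5.2, k6.1, k6.2]
  · linarith only [m1, m2, m3, m4, m5, m6, m7, m8, m9, m10, k1.1, k1.2, k2.1, k2.2, k3.1, k3.2, k4.1, k4.2, k5.1, k5.2, k6.1, k6.2]
  · linarith only [m1, m2, m3, m4, m5, m6, m7, m8, m9, m10, k1.1, k1.2, k2.1, k2.2, k3.1, k3.2, k4.1, k4.2, k5.1, k5.2, k6.1, k6.2]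
  · linarith only [m1, m2, m3, m4, m5, m6, m7, m8, m9, m10, k1.1, k1.2, k2.1, k2.2, k3.1, k3.2, k4.1, k4.2, k5.1, k5.2, k6.1, k6.2]

private theorem fo5 (h : Cst ph c x1 x2 y1 y2)
    (hP : Pr c x1 x2 y1 y2 a1 a2 a3 b1 b2 b3 c1 c2 c3) :
    0 ≤ (-22479571 / 10 ^ 7) * (1 * a1 + (-1) * b1 + 1 * c1) +
      (-6463857 / 10 ^ 7) * (1 * a2 + (-1) * b2 + 1 * c2) +
      (2308915 / 10 ^ 7) * (1 * a3 + (-1) * b3 + 1 * c3) + 2 / 10 ^ 6 *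
      (|a1| + |a2| + |a3| + |b1| + |b2| + |b3| + |c1| + |c2| + |c3|) := by
  obtain ⟨hT, k1, k2, k3, k4, k5, k6, k7, k8, k9⟩ := hP
  rw [abs_le] at k1 k2 k3 k4 k5 k6 k7 k8 k9
  obtain ⟨m1, m2⟩ := cst_c h
  obtain ⟨m3, m4⟩ := cst_x1 h
  obtain ⟨m5, m6⟩ := cst_x2 h
  obtain ⟨m7, m8⟩ := cst_y1 h
  obtain ⟨m9, m10⟩ := cst_y2 h
  have hq := hT 1 (-1) 1 (by decide)
  have hq2 : 256 ≤ (((2 * x1 - x2 - c) + ((1 * a1 + (-1) * b1 + 1 * c1) + (1 * a2 + (-1) * b2 + 1 * c2) + (1 * a3 + (-1) * b3 + 1 * c3))) *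
      ((-(2 * y1) - y2 + c) + ((1 * a1 + (-1) * b1 + 1 * c1) - (1 * a2 + (-1) * b2 + 1 * c2) - (1 * a3 + (-1) * b3 + 1 * c3))) *
      ((-(2 * x1) + x2 - c) + (-(1 * a1 + (-1) * b1 + 1 * c1) + (1 * a2 + (-1) * b2 + 1 * c2) - (1 * a3 + (-1) * b3 + 1 * c3))) *
      ((2 * y1 + y2 + c) + (-(1 * a1 + (-1) * b1 + 1 * c1) - (1 * a2 + (-1) * b2 + 1 * c2) + (1 * a3 + (-1) * b3 + 1 * c3)))) ^ 2 :=
    cv hq (by push_cast; ring) (by push_cast; ring) (by push_cast; ring)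
      (by push_cast; ring)
  clear hq hT
  refine fin1 (1) (-1) (1) (by norm_num) (by norm_num) (by norm_num)
    (gB5 h hq2 ?_ ?_ ?_ ?_)
  · linarith only [m1, m2, m3, m4, m5, m6, m7, m8, m9, m10, k1.1, k1.2, k2.1, k2.2, k3.1, k3.2, k4.1, k4.2, k5.1, k5.2, k6.1, k6.2, k7.1, k7.2, k8.1, k8.2, k9.1, k9.2]
  · linarith only [m1, m2, m3, m4, m5, m6, m7, m8, m9, m10, k1.1, k1.2, k2.1, k2.2, k3.1, k3.2, k4.1, k4.2, k5.1, k5.2, k6.1, k6.2, k7.1, k7.2, k8.1, k8.2, k9.1, k9.2]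
  · linarith only [m1, m2, m3, m4, m5, m6, m7, m8, m9, m10, k1.1, k1.2, k2.1, k2.2, k3.1, k3.2, k4.1, k4.2, k5.1, k5.2, k6.1, k6.2, k7.1, k7.2, k8.1, k8.2, k9.1, k9.2]
  · linarith only [m1, m2, m3, m4, m5, m6, m7, m8, m9, m10, k1.1, k1.2, k2.1, k2.2, k3.1, k3.2, k4.1, k4.2, k5.1, k5.2, k6.1, k6.2, k7.1, k7.2, k8.1, k8.2, k9.1, k9.2]

private theorem fo6 (h : Cst ph c x1 x2 y1 y2)
    (hP : Pr c x1 x2 y1 y2 a1 a2 a3 b1 b2 b3 c1 c2 c3) :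
    0 ≤ (-22479571 / 10 ^ 7) * (1 * a1 + 0 * b1 + (-1) * c1) +
      (6463857 / 10 ^ 7) * (1 * a2 + 0 * b2 + (-1) * c2) +
      (2308915 / 10 ^ 7) * (1 * a3 + 0 * b3 + (-1) * c3) + 2 / 10 ^ 6 *
      (|a1| + |a2| + |a3| + |b1| + |b2| + |b3| + |c1| + |c2| + |c3|) := by
  obtain ⟨hT, k1, k2, k3, k4, k5, k6, k7, k8, k9⟩ := hP
  rw [abs_le] at k1 k2 k3 k4 k5 k6 k7 k8 k9
  obtain ⟨m1, m2⟩ := cst_c h
  obtain ⟨m3, m4⟩ := cst_x1 h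
  obtain ⟨m5, m6⟩ := cst_x2 h
  obtain ⟨m7, m8⟩ := cst_y1 h
  obtain ⟨m9, m10⟩ := cst_y2 h
  have hq := hT 1 0 (-1) (by decide)
  have hq2 : 256 ≤ (((2 * x1 - x2 + c) + ((1 * a1 + 0 * b1 + (-1) * c1) + (1 * a2 + 0 * b2 + (-1) * c2) + (1 * a3 + 0 * b3 + (-1) * c3))) *
      ((-(2 * y1) - y2 - c) + ((1 * a1 + 0 * b1 + (-1) * c1) - (1 * a2 + 0 * b2 + (-1) * c2) - (1 * a3 + 0 * b3 + (-1) * c3))) *
      ((-(2 * x1) + x2 + c) + (-(1 * a1 + 0 * b1 + (-1) * c1) + (1 * a2 + 0 * b2 + (-1) * c2) - (1 * a3 + 0 * b3 + (-1) * c3))) *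
      ((2 * y1 + y2 - c) + (-(1 * a1 + 0 * b1 + (-1) * c1) - (1 * a2 + 0 * b2 + (-1) * c2) + (1 * a3 + 0 * b3 + (-1) * c3)))) ^ 2 :=
    cv hq (by push_cast; ring) (by push_cast; ring) (by push_cast; ring)
      (by push_cast; ring)
  clear hq hT
  refine fin1 (1) (0) (-1) (by norm_num) (by norm_num) (by norm_num)
    (gB6 h hq2 ?_ ?_ ?_ ?_)
  · linarith only [m1, m2, m3, m4, m5, m6, m7, m8, m9, m10, k1.1, k1.2, k2.1, k2.2, k3.1, k3.2, k7.1, k7.2, k8.1, k8.2, k9.1, k9.2]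
  · linarith only [m1, m2, m3, m4, m5, m6, m7, m8, m9, m10, k1.1, k1.2, k2.1, k2.2, k3.1, k3.2, k7.1, k7.2, k8.1, k8.2, k9.1, k9.2]
  · linarith only [m1, m2, m3, m4, m5, m6, m7, m8, m9, m10, k1.1, k1.2, k2.1, k2.2, k3.1, k3.2, k7.1, k7.2, k8.1, k8.2, k9.1, k9.2]
  · linarith only [m1, m2, m3, m4, m5, m6, m7, m8, m9, m10, k1.1, k1.2, k2.1, k2.2, k3.1, k3.2, k7.1, k7.2, k8.1, k8.2, k9.1, k9.2]

private theorem fo7 (h : Cst ph c x1 x2 y1 y2)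
    (hP : Pr c x1 x2 y1 y2 a1 a2 a3 b1 b2 b3 c1 c2 c3) :
    0 ≤ (-2065157 / 10 ^ 7) * (1 * a1 + 0 * b1 + 0 * c1) +
      (0 / 10 ^ 7) * (1 * a2 + 0 * b2 + 0 * c2) +
      (20106339 / 10 ^ 7) * (1 * a3 + 0 * b3 + 0 * c3) + 2 / 10 ^ 6 *
      (|a1| + |a2| + |a3| + |b1| + |b2| + |b3| + |c1| + |c2| + |c3|) := by
  obtain ⟨hT, k1, k2, k3, k4, k5, k6, k7, k8, k9⟩ := hP
  rw [abs_le] at k1 k2 k3 k4 k5 k6 k7 k8 k9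
  obtain ⟨m1, m2⟩ := cst_c h
  obtain ⟨m3, m4⟩ := cst_x1 h
  obtain ⟨m5, m6⟩ := cst_x2 h
  obtain ⟨m7, m8⟩ := cst_y1 h
  obtain ⟨m9, m10⟩ := cst_y2 h
  have hq := hT 1 0 0 (by decide)
  have hq2 : 256 ≤ (((2 * x1) + ((1 * a1 + 0 * b1 + 0 * c1) + (1 * a2 + 0 * b2 + 0 * c2) + (1 * a3 + 0 * b3 + 0 * c3))) *
      ((-(2 * y1)) + ((1 * a1 + 0 * b1 + 0 * c1) - (1 * a2 + 0 * b2 + 0 * c2) - (1 * a3 + 0 * b3 + 0 * c3))) *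
      ((-(2 * x1)) + (-(1 * a1 + 0 * b1 + 0 * c1) + (1 * a2 + 0 * b2 + 0 * c2) - (1 * a3 + 0 * b3 + 0 * c3))) *
      ((2 * y1) + (-(1 * a1 + 0 * b1 + 0 * c1) - (1 * a2 + 0 * b2 + 0 * c2) + (1 * a3 + 0 * b3 + 0 * c3)))) ^ 2 :=
    cv hq (by push_cast; ring) (by push_cast; ring) (by push_cast; ring)
      (by push_cast; ring)
  clear hq hT
  refine fin1 (1) (0) (0) (by norm_num) (by norm_num) (by norm_num)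
    (gB7 h hq2 ?_ ?_ ?_ ?_)
  · linarith only [m1, m2, m3, m4, m5, m6, m7, m8, m9, m10, k1.1, k1.2, k2.1, k2.2, k3.1, k3.2]
  · linarith only [m1, m2, m3, m4, m5, m6, m7, m8, m9, m10, k1.1, k1.2, k2.1, k2.2, k3.1, k3.2]
  · linarith only [m1, m2, m3, m4, m5, m6, m7, m8, m9, m10, k1.1, k1.2, k2.1, k2.2, k3.1, k3.2]
  · linarith only [m1, m2, m3, m4, m5, m6, m7, m8, m9, m10, k1.1, k1.2, k2.1, k2.2, k3.1, k3.2]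

private theorem fo8 (h : Cst ph c x1 x2 y1 y2)
    (hP : Pr c x1 x2 y1 y2 a1 a2 a3 b1 b2 b3 c1 c2 c3) :
    0 ≤ (20414414 / 10 ^ 7) * (1 * a1 + 0 * b1 + 1 * c1) +
      (6463857 / 10 ^ 7) * (1 * a2 + 0 * b2 + 1 * c2) +
      (17797424 / 10 ^ 7) * (1 * a3 + 0 * b3 + 1 * c3) + 2 / 10 ^ 6 *
      (|a1| + |a2| + |a3| + |b1| + |b2| + |b3| + |c1| + |c2| + |c3|) := by
  obtain ⟨hT, k1, k2, k3, k4, k5, k6, k7, k8, k9⟩ := hP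
  rw [abs_le] at k1 k2 k3 k4 k5 k6 k7 k8 k9
  obtain ⟨m1, m2⟩ := cst_c h
  obtain ⟨m3, m4⟩ := cst_x1 h
  obtain ⟨m5, m6⟩ := cst_x2 h
  obtain ⟨m7, m8⟩ := cst_y1 h
  obtain ⟨m9, m10⟩ := cst_y2 h
  have hq := hT 1 0 1 (by decide)
  have hq2 : 256 ≤ (((2 * x1 + x2 - c) + ((1 * a1 + 0 * b1 + 1 * c1) + (1 * a2 + 0 * b2 + 1 * c2) + (1 * a3 + 0 * b3 + 1 * c3))) *
      ((-(2 * y1) + y2 + c) + ((1 * a1 + 0 * b1 + 1 * c1) - (1 * a2 + 0 * b2 + 1 * c2) - (1 * a3 + 0 * b3 + 1 * c3))) *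
      ((-(2 * x1) - x2 - c) + (-(1 * a1 + 0 * b1 + 1 * c1) + (1 * a2 + 0 * b2 + 1 * c2) - (1 * a3 + 0 * b3 + 1 * c3))) *
      ((2 * y1 - y2 + c) + (-(1 * a1 + 0 * b1 + 1 * c1) - (1 * a2 + 0 * b2 + 1 * c2) + (1 * a3 + 0 * b3 + 1 * c3)))) ^ 2 :=
    cv hq (by push_cast; ring) (by push_cast; ring) (by push_cast; ring)
      (by push_cast; ring)
  clear hq hT
  refine fin1 (1) (0) (1) (by norm_num) (by norm_num) (by norm_num)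
    (gB8 h hq2 ?_ ?_ ?_ ?_)
  · linarith only [m1, m2, m3, m4, m5, m6, m7, m8, m9, m10, k1.1, k1.2, k2.1, k2.2, k3.1, k3.2, k7.1, k7.2, k8.1, k8.2, k9.1, k9.2]
  · linarith only [m1, m2, m3, m4, m5, m6, m7, m8, m9, m10, k1.1, k1.2, k2.1, k2.2, k3.1, k3.2, k7.1, k7.2, k8.1, k8.2, k9.1, k9.2]
  · linarith only [m1, m2, m3, m4, m5, m6, m7, m8, m9, m10, k1.1, k1.2, k2.1, k2.2, k3.1, k3.2, k7.1, k7.2, k8.1, k8.2, k9.1, k9.2]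
  · linarith only [m1, m2, m3, m4, m5, m6, m7, m8, m9, m10, k1.1, k1.2, k2.1, k2.2, k3.1, k3.2, k7.1, k7.2, k8.1, k8.2, k9.1, k9.2]

private theorem fo9 (h : Cst ph c x1 x2 y1 y2)
    (hP : Pr c x1 x2 y1 y2 a1 a2 a3 b1 b2 b3 c1 c2 c3) :
    0 ≤ (20414414 / 10 ^ 7) * (1 * a1 + 1 * b1 + (-1) * c1) +
      (-6463857 / 10 ^ 7) * (1 * a2 + 1 * b2 + (-1) * c2) +
      (17797424 / 10 ^ 7) * (1 * a3 + 1 * b3 + (-1) * c3) + 2 / 10 ^ 6 *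
      (|a1| + |a2| + |a3| + |b1| + |b2| + |b3| + |c1| + |c2| + |c3|) := by
  obtain ⟨hT, k1, k2, k3, k4, k5, k6, k7, k8, k9⟩ := hP
  rw [abs_le] at k1 k2 k3 k4 k5 k6 k7 k8 k9
  obtain ⟨m1, m2⟩ := cst_c h
  obtain ⟨m3, m4⟩ := cst_x1 h
  obtain ⟨m5, m6⟩ := cst_x2 h
  obtain ⟨m7, m8⟩ := cst_y1 h
  obtain ⟨m9, m10⟩ := cst_y2 h
  have hq := hT 1 1 (-1) (by decide)
  have hq2 : 256 ≤ (((2 * x1 + x2 + c) + ((1 * a1 + 1 * b1 + (-1) * c1) + (1 * a2 + 1 * b2 + (-1) * c2) + (1 * a3 + 1 * b3 + (-1) * c3))) *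
      ((-(2 * y1) + y2 - c) + ((1 * a1 + 1 * b1 + (-1) * c1) - (1 * a2 + 1 * b2 + (-1) * c2) - (1 * a3 + 1 * b3 + (-1) * c3))) *
      ((-(2 * x1) - x2 + c) + (-(1 * a1 + 1 * b1 + (-1) * c1) + (1 * a2 + 1 * b2 + (-1) * c2) - (1 * a3 + 1 * b3 + (-1) * c3))) *
      ((2 * y1 - y2 - c) + (-(1 * a1 + 1 * b1 + (-1) * c1) - (1 * a2 + 1 * b2 + (-1) * c2) + (1 * a3 + 1 * b3 + (-1) * c3)))) ^ 2 :=
    cv hq (by push_cast; ring) (by push_cast; ring) (by push_cast; ring)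
      (by push_cast; ring)
  clear hq hT
  refine fin1 (1) (1) (-1) (by norm_num) (by norm_num) (by norm_num)
    (gB9 h hq2 ?_ ?_ ?_ ?_)
  · linarith only [m1, m2, m3, m4, m5, m6, m7, m8, m9, m10, k1.1, k1.2, k2.1, k2.2, k3.1, k3.2, k4.1, k4.2, k5.1, k5.2, k6.1, k6.2, k7.1, k7.2, k8.1, k8.2, k9.1, k9.2]
  · linarith only [m1, m2, m3, m4, m5, m6, m7, m8, m9, m10, k1.1, k1.2, k2.1, k2.2, k3.1, k3.2, k4.1, k4.2, k5.1, k5.2, k6.1, k6.2, k7.1, k7.2, k8.1, k8.2, k9.1, k9.2]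
  · linarith only [m1, m2, m3, m4, m5, m6, m7, m8, m9, m10, k1.1, k1.2, k2.1, k2.2, k3.1, k3.2, k4.1, k4.2, k5.1, k5.2, k6.1, k6.2, k7.1, k7.2, k8.1, k8.2, k9.1, k9.2]
  · linarith only [m1, m2, m3, m4, m5, m6, m7, m8, m9, m10, k1.1, k1.2, k2.1, k2.2, k3.1, k3.2, k4.1, k4.2, k5.1, k5.2, k6.1, k6.2, k7.1, k7.2, k8.1, k8.2, k9.1, k9.2]

private theorem fo10 (h : Cst ph c x1 x2 y1 y2)
    (hP : Pr c x1 x2 y1 y2 a1 a2 a3 b1 b2 b3 c1 c2 c3) :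
    0 ≤ (23512149 / 10 ^ 7) * (1 * a1 + 1 * b1 + 0 * c1) +
      (0 / 10 ^ 7) * (1 * a2 + 1 * b2 + 0 * c2) +
      (-12362085 / 10 ^ 7) * (1 * a3 + 1 * b3 + 0 * c3) + 2 / 10 ^ 6 *
      (|a1| + |a2| + |a3| + |b1| + |b2| + |b3| + |c1| + |c2| + |c3|) := by
  obtain ⟨hT, k1, k2, k3, k4, k5, k6, k7, k8, k9⟩ := hP
  rw [abs_le] at k1 k2 k3 k4 k5 k6 k7 k8 k9
  obtain ⟨m1, m2⟩ := cst_c h
  obtain ⟨m3, m4⟩ := cst_x1 h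
  obtain ⟨m5, m6⟩ := cst_x2 h
  obtain ⟨m7, m8⟩ := cst_y1 h
  obtain ⟨m9, m10⟩ := cst_y2 h
  have hq := hT 1 1 0 (by decide)
  have hq2 : 256 ≤ (((2 * x1 + 2 * x2) + ((1 * a1 + 1 * b1 + 0 * c1) + (1 * a2 + 1 * b2 + 0 * c2) + (1 * a3 + 1 * b3 + 0 * c3))) *
      ((-(2 * y1) + 2 * y2) + ((1 * a1 + 1 * b1 + 0 * c1) - (1 * a2 + 1 * b2 + 0 * c2) - (1 * a3 + 1 * b3 + 0 * c3))) *
      ((-(2 * x1) - 2 * x2) + (-(1 * a1 + 1 * b1 + 0 * c1) + (1 * a2 + 1 * b2 + 0 * c2) - (1 * a3 + 1 * b3 + 0 * c3))) *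
      ((2 * y1 - 2 * y2) + (-(1 * a1 + 1 * b1 + 0 * c1) - (1 * a2 + 1 * b2 + 0 * c2) + (1 * a3 + 1 * b3 + 0 * c3)))) ^ 2 :=
    cv hq (by push_cast; ring) (by push_cast; ring) (by push_cast; ring)
      (by push_cast; ring)
  clear hq hT
  refine fin1 (1) (1) (0) (by norm_num) (by norm_num) (by norm_num)
    (gB10 h hq2 ?_ ?_ ?_ ?_)
  · linarith only [m1, m2, m3, m4, m5, m6, m7, m8, m9, m10, k1.1, k1.2, k2.1, k2.2, k3.1, k3.2, k4.1, k4.2, k5.1, k5.2, k6.1, k6.2]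
  · linarith only [m1, m2, m3, m4, m5, m6, m7, m8, m9, m10, k1.1, k1.2, k2.1, k2.2, k3.1, k3.2, k4.1, k4.2, k5.1, k5.2, k6.1, k6.2]
  · linarith only [m1, m2, m3, m4, m5, m6, m7, m8, m9, m10, k1.1, k1.2, k2.1, k2.2, k3.1, k3.2, k4.1, k4.2, k5.1, k5.2, k6.1, k6.2]
  · linarith only [m1, m2, m3, m4, m5, m6, m7, m8, m9, m10, k1.1, k1.2, k2.1, k2.2, k3.1, k3.2, k4.1, k4.2, k5.1, k5.2, k6.1, k6.2]

private theorem fo11 (h : Cst ph c x1 x2 y1 y2)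
    (hP : Pr c x1 x2 y1 y2 a1 a2 a3 b1 b2 b3 c1 c2 c3) :
    0 ≤ (48056876 / 10 ^ 7) * (1 * a1 + 1 * b1 + 1 * c1) +
      (40937763 / 10 ^ 7) * (1 * a2 + 1 * b2 + 1 * c2) +
      (-34777339 / 10 ^ 7) * (1 * a3 + 1 * b3 + 1 * c3) + 2 / 10 ^ 6 *
      (|a1| + |a2| + |a3| + |b1| + |b2| + |b3| + |c1| + |c2| + |c3|) := by
  obtain ⟨hT, k1, k2, k3, k4, k5, k6, k7, k8, k9⟩ := hP
  rw [abs_le] at k1 k2 k3 k4 k5 k6 k7 k8 k9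
  obtain ⟨m1, m2⟩ := cst_c h
  obtain ⟨m3, m4⟩ := cst_x1 h
  obtain ⟨m5, m6⟩ := cst_x2 h
  obtain ⟨m7, m8⟩ := cst_y1 h
  obtain ⟨m9, m10⟩ := cst_y2 h
  have hq := hT 1 1 1 (by decide)
  have hq2 : 256 ≤ (((2 * x1 + 3 * x2 - c) + ((1 * a1 + 1 * b1 + 1 * c1) + (1 * a2 + 1 * b2 + 1 * c2) + (1 * a3 + 1 * b3 + 1 * c3))) *
      ((-(2 * y1) + 3 * y2 + c) + ((1 * a1 + 1 * b1 + 1 * c1) - (1 * a2 + 1 * b2 + 1 * c2) - (1 * a3 + 1 * b3 + 1 * c3))) *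
      ((-(2 * x1) - 3 * x2 - c) + (-(1 * a1 + 1 * b1 + 1 * c1) + (1 * a2 + 1 * b2 + 1 * c2) - (1 * a3 + 1 * b3 + 1 * c3))) *
      ((2 * y1 - 3 * y2 + c) + (-(1 * a1 + 1 * b1 + 1 * c1) - (1 * a2 + 1 * b2 + 1 * c2) + (1 * a3 + 1 * b3 + 1 * c3)))) ^ 2 :=
    cv hq (by push_cast; ring) (by push_cast; ring) (by push_cast; ring)
      (by push_cast; ring)
  clear hq hT
  refine fin1 (1) (1) (1) (by norm_num) (by norm_num) (by norm_num)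
    (gB11 h hq2 ?_ ?_ ?_ ?_)
  · linarith only [m1, m2, m3, m4, m5, m6, m7, m8, m9, m10, k1.1, k1.2, k2.1, k2.2, k3.1, k3.2, k4.1, k4.2, k5.1, k5.2, k6.1, k6.2, k7.1, k7.2, k8.1, k8.2, k9.1, k9.2]
  · linarith only [m1, m2, m3, m4, m5, m6, m7, m8, m9, m10, k1.1, k1.2, k2.1, k2.2, k3.1, k3.2, k4.1, k4.2, k5.1, k5.2, k6.1, k6.2, k7.1, k7.2, k8.1, k8.2, k9.1, k9.2]
  · linarith only [m1, m2, m3, m4, m5, m6, m7, m8, m9, m10, k1.1, k1.2, k2.1, k2.2, k3.1, k3.2, k4.1, k4.2, k5.1, k5.2, k6.1, k6.2, k7.1, k7.2, k8.1, k8.2, k9.1, k9.2]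
  · linarith only [m1, m2, m3, m4, m5, m6, m7, m8, m9, m10, k1.1, k1.2, k2.1, k2.2, k3.1, k3.2, k4.1, k4.2, k5.1, k5.2, k6.1, k6.2, k7.1, k7.2, k8.1, k8.2, k9.1, k9.2]

private theorem fo12 (h : Cst ph c x1 x2 y1 y2)
    (hP : Pr c x1 x2 y1 y2 a1 a2 a3 b1 b2 b3 c1 c2 c3) :
    0 ≤ (48056876 / 10 ^ 7) * (1 * a1 + 2 * b1 + (-1) * c1) +
      (-40937763 / 10 ^ 7) * (1 * a2 + 2 * b2 + (-1) * c2) +
      (-34777339 / 10 ^ 7) * (1 * a3 + 2 * b3 + (-1) * c3) + 2 / 10 ^ 6 *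
      (|a1| + |a2| + |a3| + |b1| + |b2| + |b3| + |c1| + |c2| + |c3|) := by
  obtain ⟨hT, k1, k2, k3, k4, k5, k6, k7, k8, k9⟩ := hP
  rw [abs_le] at k1 k2 k3 k4 k5 k6 k7 k8 k9
  obtain ⟨m1, m2⟩ := cst_c h
  obtain ⟨m3, m4⟩ := cst_x1 h
  obtain ⟨m5, m6⟩ := cst_x2 h
  obtain ⟨m7, m8⟩ := cst_y1 h
  obtain ⟨m9, m10⟩ := cst_y2 h
  have hq := hT 1 2 (-1) (by decide)
  have hq2 : 256 ≤ (((2 * x1 + 3 * x2 + c) + ((1 * a1 + 2 * b1 + (-1) * c1) + (1 * a2 + 2 * b2 + (-1) * c2) + (1 * a3 + 2 * b3 + (-1) * c3))) *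
      ((-(2 * y1) + 3 * y2 - c) + ((1 * a1 + 2 * b1 + (-1) * c1) - (1 * a2 + 2 * b2 + (-1) * c2) - (1 * a3 + 2 * b3 + (-1) * c3))) *
      ((-(2 * x1) - 3 * x2 + c) + (-(1 * a1 + 2 * b1 + (-1) * c1) + (1 * a2 + 2 * b2 + (-1) * c2) - (1 * a3 + 2 * b3 + (-1) * c3))) *
      ((2 * y1 - 3 * y2 - c) + (-(1 * a1 + 2 * b1 + (-1) * c1) - (1 * a2 + 2 * b2 + (-1) * c2) + (1 * a3 + 2 * b3 + (-1) * c3)))) ^ 2 :=
    cv hq (by push_cast; ring) (by push_cast; ring) (by push_cast; ring)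
      (by push_cast; ring)
  clear hq hT
  refine fin1 (1) (2) (-1) (by norm_num) (by norm_num) (by norm_num)
    (gB12 h hq2 ?_ ?_ ?_ ?_)
  · linarith only [m1, m2, m3, m4, m5, m6, m7, m8, m9, m10, k1.1, k1.2, k2.1, k2.2, k3.1, k3.2, k4.1, k4.2, k5.1, k5.2, k6.1, k6.2, k7.1, k7.2, k8.1, k8.2, k9.1, k9.2]
  · by_contra hn
    push Not at hn
    refine absurd hq2 (not_le.2 (small4 ?_ ?_ ?_ ?_))
    · rw [abs_le]; constructor <;> linarith only [hn, m1, m2, m3, m4, m5, m6, m7, m8, m9, m10, k1.1, k1.2, k2.1, k2.2, k3.1, k3.2, k4.1, k4.2, k5.1, k5.2, k6.1, k6.2, k7.1, k7.2, k8.1, k8.2, k9.1, k9.2]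
    · rw [abs_le]; constructor <;> linarith only [hn, m1, m2, m3, m4, m5, m6, m7, m8, m9, m10, k1.1, k1.2, k2.1, k2.2, k3.1, k3.2, k4.1, k4.2, k5.1, k5.2, k6.1, k6.2, k7.1, k7.2, k8.1, k8.2, k9.1, k9.2]
    · rw [abs_le]; constructor <;> linarith only [hn, m1, m2, m3, m4, m5, m6, m7, m8, m9, m10, k1.1, k1.2, k2.1, k2.2, k3.1, k3.2, k4.1, k4.2, k5.1, k5.2, k6.1, k6.2, k7.1, k7.2, k8.1, k8.2, k9.1, k9.2]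
    · rw [abs_le]; constructor <;> linarith only [hn, m1, m2, m3, m4, m5, m6, m7, m8, m9, m10, k1.1, k1.2, k2.1, k2.2, k3.1, k3.2, k4.1, k4.2, k5.1, k5.2, k6.1, k6.2, k7.1, k7.2, k8.1, k8.2, k9.1, k9.2]
  · linarith only [m1, m2, m3, m4, m5, m6, m7, m8, m9, m10, k1.1, k1.2, k2.1, k2.2, k3.1, k3.2, k4.1, k4.2, k5.1, k5.2, k6.1, k6.2, k7.1, k7.2, k8.1, k8.2, k9.1, k9.2]
  · linarith only [m1, m2, m3, m4, m5, m6, m7, m8, m9, m10, k1.1, k1.2, k2.1, k2.2, k3.1, k3.2, k4.1, k4.2, k5.1, k5.2, k6.1, k6.2, k7.1, k7.2, k8.1, k8.2, k9.1, k9.2]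

theorem first_order (h : Cst ph c x1 x2 y1 y2)
    (hP : Pr c x1 x2 y1 y2 a1 a2 a3 b1 b2 b3 c1 c2 c3) :
    FO a1 a2 a3 b1 b2 b3 c1 c2 c3
      (|a1| + |a2| + |a3| + |b1| + |b2| + |b3| + |c1| + |c2| + |c3|) where
  g0 := by linarith only [fo0 h hP]
  g1 := by linarith only [fo1 h hP]
  g2 := by linarith only [fo2 h hP]
  g3 := by linarith only [fo3 h hP]
  g4 := by linarith only [fo4 h hP]
  g5 := by linarith only [fo5 h hP]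
  g6 := by linarith only [fo6 h hP]
  g7 := by linarith only [fo7 h hP]
  g8 := by linarith only [fo8 h hP]
  g9 := by linarith only [fo9 h hP]
  g10 := by linarith only [fo10 h hP]
  g11 := by linarith only [fo11 h hP]
  g12 := by linarith only [fo12 h hP]

end Pool.Agent.Work.MP_77d073_nt.Q4.Cr
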