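import Mathlib
import Pool.Agent.Work.MP_77d073_nt.Q4.CrE

set_option autoImplicit false

/-!
# CrF: the exact local lemma for four forms with sum zero
-/

namespace Pool.Agent.Work.MP_77d073_nt.Q4.Cr

variable {ph c x1 x2 y1 y2 : ℝ}

/-- the value of a form -/
def vl (a b d : ℝ) (p1 p2 p3 : ℤ) : ℝ := a * p1 + b * p2 + d * p3

private theorem scl (A B C D : ℝ) (h : 1 ≤ |A * B * C * D|) :
    256 ≤ (2 * A * (2 * B) * (2 * C) * (2 * D)) ^ 2 := by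
  have h2 : (1 : ℝ) ≤ (A * B * C * D) ^ 2 := by
    rw [← sq_abs]
    exact one_le_pow₀ h
  have h3 : (2 * A * (2 * B) * (2 * C) * (2 * D)) ^ 2 = 256 * (A * B * C * D) ^ 2 := by ring
  rw [h3]
  linarith only [h2]

private theorem cv2 {A B C D A' B' C' D' : ℝ} (h : 256 ≤ (A' * B' * C' * D') ^ 2) (e1 : A = A')
    (e2 : B = B') (e3 : C = C') (e4 : D = D') : 256 ≤ (A * B * C * D) ^ 2 := by
  subst e1 e2 e3 e4
  exact h

/-- the local lemma in scalar form -/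
theorem loc_sc (h : Cst ph c x1 x2 y1 y2)
    {r0 r1 r2 s0 s1 s2 t0 t1 t2 u0 u1 u2 a1 a2 a3 b1 b2 b3 c1 c2 c3 : ℝ}
    (z0 : r0 + s0 + t0 + u0 = 0) (z1 : r1 + s1 + t1 + u1 = 0) (z2 : r2 + s2 + t2 + u2 = 0)
    (hV : ∀ p1 p2 p3 : ℤ, ¬(p1 = 0 ∧ p2 = 0 ∧ p3 = 0) →
      1 ≤ |vl r0 r1 r2 p1 p2 p3 * vl s0 s1 s2 p1 p2 p3 * vl t0 t1 t2 p1 p2 p3 *
        vl u0 u1 u2 p1 p2 p3|)
    (ha1 : a1 = r0 + s0 - (x1 - y1)) (ha2 : a2 = r0 + t0) (ha3 : a3 = r0 + u0 - (x1 + y1))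
    (hb1 : b1 = r1 + s1 - (x2 + y2)) (hb2 : b2 = r1 + t1) (hb3 : b3 = r1 + u1 - (x2 - y2))
    (hc1 : c1 = r2 + s2 - (x2 + y2) / 2) (hc2 : c2 = r2 + t2 + c)
    (hc3 : c3 = r2 + u2 - (x2 - y2) / 2)
    (k1 : |a1| ≤ 1 / 50) (k2 : |a2| ≤ 7 / 100) (k3 : |a3| ≤ 1 / 50)
    (k4 : |b1| ≤ 1 / 50) (k5 : |b2| ≤ 1 / 50) (k6 : |b3| ≤ 1 / 50)
    (k7 : |c1| ≤ 1 / 50) (k8 : |c2| ≤ 1 / 50) (k9 : |c3| ≤ 1 / 50) :
    r0 * (s1 * t2 - s2 * t1) - r1 * (s0 * t2 - s2 * t0) + r2 * (s0 * t1 - s1 * t0) ≤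
      -c * (2 * ph - 1) -
      (|a1| + |a2| + |a3| + |b1| + |b2| + |b3| + |c1| + |c2| + |c3|) / 40 := by
  have hP : Pr c x1 x2 y1 y2 a1 a2 a3 b1 b2 b3 c1 c2 c3 := by
    refine ⟨?_, k1, k2, k3, k4, k5, k6, k7, k8, k9⟩
    intro p1 p2 p3 hp
    refine cv2 (scl _ _ _ _ (hV p1 p2 p3 hp)) ?_ ?_ ?_ ?_
    · unfold vl
      rw [ha1, ha2, ha3, hb1, hb2, hb3, hc1, hc2, hc3]
      linear_combination (p1 : ℝ) * z0 + p2 * z1 + p3 * z2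
    · unfold vl
      rw [ha1, ha2, ha3, hb1, hb2, hb3, hc1, hc2, hc3]
      linear_combination -(p1 : ℝ) * z0 - p2 * z1 - p3 * z2
    · unfold vl
      rw [ha1, ha2, ha3, hb1, hb2, hb3, hc1, hc2, hc3]
      linear_combination -(p1 : ℝ) * z0 - p2 * z1 - p3 * z2
    · unfold vl
      rw [ha1, ha2, ha3, hb1, hb2, hb3, hc1, hc2, hc3]
      linear_combination -(p1 : ℝ) * z0 - p2 * z1 - p3 * z2
  have hc := core h (first_order h hP) (k2.trans (by norm_num)) (k4.trans (by norm_num))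
    (k5.trans (by norm_num)) (k6.trans (by norm_num)) (k7.trans (by norm_num))
    (k8.trans (by norm_num)) (k9.trans (by norm_num))
  have w1 : x1 - y1 + a1 = r0 + s0 := by linarith only [ha1]
  have w3 : x1 + y1 + a3 = -(s0 + t0) := by linarith only [ha3, z0]
  have w4 : x2 + y2 + b1 = r1 + s1 := by linarith only [hb1]
  have w6 : x2 - y2 + b3 = -(s1 + t1) := by linarith only [hb3, z1]
  have w7 : (x2 + y2) / 2 + c1 = r2 + s2 := by linarith only [hc1]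
  have w8 : -c + c2 = r2 + t2 := by linarith only [hc2]
  have w9 : (x2 - y2) / 2 + c3 = -(s2 + t2) := by linarith only [hc3, z2]
  have hd : dt (r0 + s0) (r0 + t0) (-(s0 + t0)) (r1 + s1) (r1 + t1) (-(s1 + t1)) (r2 + s2)
      (r2 + t2) (-(s2 + t2)) = 2 * (r0 * (s1 * t2 - s2 * t1) - r1 * (s0 * t2 - s2 * t0) +
      r2 * (s0 * t1 - s1 * t0)) := by
    unfold dt
    ring
  rw [w1, w3, w4, w6, w7, w8, w9, ha2, hb2, hd, ← ha2, ← hb2] at hc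
  linarith only [hc]

end Pool.Agent.Work.MP_77d073_nt.Q4.Cr
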