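import Pool.Agent.Work.MP_77d073_nt.Q4.Defs
import Pool.Agent.Work.MP_77d073_nt.Q4.CrA

set_option autoImplicit false

/-!
# CrG: the four roots and the critical lattice
-/

namespace Pool.Agent.Work.MP_77d073_nt.Q4.Cr

open Pool.Agent.Work.MP_77d073_nt.Q4

variable {ph c x1 x2 y1 y2 : ℝ}

/-- the four roots -/
noncomputable def er (ph c x1 y1 : ℝ) : Fin 4 → ℝ :=
  ![(1 - ph - c / x1) / 2, (ph - c / y1) / 2, (1 - ph + c / x1) / 2, (ph + c / y1) / 2]

private theorem sqB (h : Cst ph c x1 x2 y1 y2) : (c / x1) ^ 2 = 6 - ph := by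
  rw [div_pow, h.cx]
  have := h.x1p
  field_simp

private theorem sqA (h : Cst ph c x1 x2 y1 y2) : (c / y1) ^ 2 = 5 + ph := by
  rw [div_pow, h.cy]
  have := h.y1p
  field_simp

private theorem bB (h : Cst ph c x1 x2 y1 y2) : 2 ≤ c / x1 ∧ c / x1 ≤ 21 / 10 := by
  obtain ⟨p1, p2⟩ := cst_ph h
  have h0 : 0 < c / x1 := div_pos h.cp h.x1p
  have h1 := sqB h
  constructor
  · refine le_of_pow_le_pow_left₀ (n := 2) (by norm_num) h0.le ?_
    rw [h1]
    linarith only [p2]
  · refine le_of_pow_le_pow_left₀ (n := 2) (by norm_num) (by norm_num) ?_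
    rw [h1]
    linarith only [p1]

private theorem bA (h : Cst ph c x1 x2 y1 y2) : 5 / 2 ≤ c / y1 ∧ c / y1 ≤ 26 / 10 := by
  obtain ⟨p1, p2⟩ := cst_ph h
  have h0 : 0 < c / y1 := div_pos h.cp h.y1p
  have h1 := sqA h
  constructor
  · refine le_of_pow_le_pow_left₀ (n := 2) (by norm_num) h0.le ?_
    rw [h1]
    linarith only [p1]
  · refine le_of_pow_le_pow_left₀ (n := 2) (by norm_num) (by norm_num) ?_
    rw [h1]
    linarith only [p2]

theorem er_mono (h : Cst ph c x1 x2 y1 y2) : StrictMono (er ph c x1 y1) := by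
  obtain ⟨p1, p2⟩ := cst_ph h
  obtain ⟨q1, q2⟩ := bA h
  obtain ⟨r1, r2⟩ := bB h
  refine Fin.strictMono_iff_lt_succ.2 ?_
  intro i
  fin_cases i
  · show (1 - ph - c / x1) / 2 < (ph - c / y1) / 2
    linarith
  · show (ph - c / y1) / 2 < (1 - ph + c / x1) / 2
    linarith
  · show (1 - ph + c / x1) / 2 < (ph + c / y1) / 2
    linarith

theorem th_eq (h : Cst ph c x1 x2 y1 y2) {th : Fin 4 → ℝ} (ht : IsTh th) :
    th = er ph c x1 y1 := by
  have hsub : Set.range th ⊆ Set.range (er ph c x1 y1) := by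
    rintro _ ⟨i, rfl⟩
    have h1 := ht.root i
    have hph := h.ph2
    have h2 : (th i ^ 2 - ph * th i - 1) * (th i ^ 2 + (ph - 1) * th i - 1) = 0 := by
      linear_combination h1 - th i ^ 2 * hph
    rcases mul_eq_zero.1 h2 with h3 | h3
    · have h4 : (2 * th i - ph - c / y1) * (2 * th i - ph + c / y1) = 0 := by
        have := sqA h
        linear_combination 4 * h3 - this + hph
      rcases mul_eq_zero.1 h4 with h5 | h5
      · refine ⟨3, ?_⟩
        show (ph + c / y1) / 2 = th i
        linarith only [h5]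
      · refine ⟨1, ?_⟩
        show (ph - c / y1) / 2 = th i
        linarith only [h5]
    · have h4 : (2 * th i + ph - 1 - c / x1) * (2 * th i + ph - 1 + c / x1) = 0 := by
        have := sqB h
        linear_combination 4 * h3 - this + hph
      rcases mul_eq_zero.1 h4 with h5 | h5
      · refine ⟨2, ?_⟩
        show (1 - ph + c / x1) / 2 = th i
        linarith only [h5]
      · refine ⟨0, ?_⟩
        show (1 - ph - c / x1) / 2 = th i
        linarith only [h5]
  have hmono := er_mono h
  have hcard : Set.range th = Set.range (er ph c x1 y1) := by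
    apply Set.eq_of_subset_of_ncard_le hsub
    rw [← Set.image_univ, ← Set.image_univ, Set.ncard_image_of_injective _ ht.mono.injective,
        Set.ncard_image_of_injective _ hmono.injective]
  exact (ht.mono.range_inj hmono).1 hcard

private theorem fd_root {q t : ℝ} (hq : q ^ 2 = q + 1) (ht : t ^ 2 = q * t + 1) :
    fd t = (1 - 2 * q) * (q - 2 * t) * t := by
  unfold fd
  have h3 : t ^ 3 = (q + 2) * t + q := by
    linear_combination (t + q) * ht + t * hq
  linear_combination 4 * h3 + (-3 + 2 - 4 * q) * ht - 2 * t * hq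

/-- the values of the critical lattice -/
theorem crit_val {q t g c s : ℝ} (hq : q ^ 2 = q + 1) (ht : t ^ 2 = q * t + 1)
    (hg : g * ((1 - 2 * q) * (q - 2 * t)) = s) (hs : s ≠ 0) (_ : c = c) :
    g = s * t / fd t ∧ g * (t - q) = s / fd t ∧ g * t = s * t ^ 2 / fd t := by
  have h0 : t ≠ 0 := by
    intro h
    rw [h] at ht
    norm_num at ht
  have h1 := fd_root hq ht
  have h2 : (1 - 2 * q) * (q - 2 * t) ≠ 0 := by
    intro h
    rw [h, mul_zero] at hg
    exact hs hg.symm
  have h3 : fd t ≠ 0 := by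
    rw [h1]
    exact mul_ne_zero h2 h0
  have h4 : t * (t - q) = 1 := by linear_combination ht
  refine ⟨?_, ?_, ?_⟩
  · rw [eq_div_iff h3, h1]
    linear_combination t * hg
  · rw [eq_div_iff h3, h1]
    linear_combination (t * (t - q)) * hg + s * h4
  · rw [eq_div_iff h3, h1]
    linear_combination t ^ 2 * hg

end Pool.Agent.Work.MP_77d073_nt.Q4.Cr
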