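import Pool.Agent.Work.MP_77d073_nt.Q4.CrF
import Pool.Agent.Work.MP_77d073_nt.Q4.CrG

set_option autoImplicit false

/-!
# CrH: the exact local lemma, final form
-/

namespace Pool.Agent.Work.MP_77d073_nt.Q4.Cr

open Pool.Agent.Work.MP_77d073_nt.Q4

/-- the determinant of the first three forms -/
noncomputable def Dt (X : Fin 4 → Fin 3 → ℝ) : ℝ :=
  (Matrix.of fun i j : Fin 3 => X i.castSucc j).det

theorem Dt_eq (X : Fin 4 → Fin 3 → ℝ) :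
    Dt X = X 0 0 * (X 1 1 * X 2 2 - X 1 2 * X 2 1) - X 0 1 * (X 1 0 * X 2 2 - X 1 2 * X 2 0) +
      X 0 2 * (X 1 0 * X 2 1 - X 1 1 * X 2 0) := by
  unfold Dt
  rw [Matrix.det_fin_three]
  have e0 : (Fin.castSucc (0 : Fin 3)) = (0 : Fin 4) := rfl
  have e1 : (Fin.castSucc (1 : Fin 3)) = (1 : Fin 4) := rfl
  have e2 : (Fin.castSucc (2 : Fin 3)) = (2 : Fin 4) := rfl
  simp only [Matrix.of_apply, e0, e1, e2]
  ring

/-- the hypotheses: sum zero, and all values at nonzero integer points are at least one -/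
structure Hyp (X : Fin 4 → Fin 3 → ℝ) : Prop where
  h0 : ∀ j, ∑ i, X i j = 0
  h1 : ∀ p : Fin 3 → ℤ, p ≠ 0 → 1 ≤ |∏ i, ∑ j, X i j * (p j : ℝ)|

/-- `X` is a section of the norm form -/
def Crit (th : Fin 4 → ℝ) (X : Fin 4 → Fin 3 → ℝ) : Prop :=
  ∃ (σ : Equiv.Perm (Fin 4)) (U : Matrix (Fin 3) (Fin 3) ℤ) (s : ℝ), (U.det = 1 ∨ U.det = -1) ∧
    s ^ 4 = 725 ∧ ∀ i j, ∑ k, X i k * (U k j : ℝ) = s * th (σ i) ^ (j : ℕ) / fd (th (σ i))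

/-- the conclusion -/
def Cn (th : Fin 4 → ℝ) (X : Fin 4 → Fin 3 → ℝ) : Prop :=
  725 ≤ Dt X ^ 4 ∧ (Dt X ^ 4 = 725 → Crit th X)

variable {ph c x1 x2 y1 y2 : ℝ}

private theorem s4 (h : Cst ph c x1 x2 y1 y2) : (c * (2 * ph - 1)) ^ 4 = 725 := by
  have h1 := cst_c4 h
  have h2 := h.ph2
  have h3 : (2 * ph - 1) ^ 2 = 5 := by linear_combination 4 * h2
  calc (c * (2 * ph - 1)) ^ 4 = c ^ 4 * ((2 * ph - 1) ^ 2) ^ 2 := by ring
    _ = 725 := by rw [h1, h3]; norm_num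

private theorem s0 (h : Cst ph c x1 x2 y1 y2) : 0 < c * (2 * ph - 1) := by
  obtain ⟨p1, p2⟩ := cst_ph h
  exact mul_pos h.cp (by linarith)

private theorem det_alt (h : Cst ph c x1 x2 y1 y2) {D S : ℝ} (hS : 0 ≤ S)
    (hD : D ≤ -c * (2 * ph - 1) - S / 40) : 725 ≤ D ^ 4 ∧ (D ^ 4 = 725 → S = 0) := by
  have h1 := s4 h
  have h2 := s0 h
  have h3 : c * (2 * ph - 1) + S / 40 ≤ -D := by linarith
  have h4 : D ^ 4 = (-D) ^ 4 := by ring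
  constructor
  · rw [h4, ← h1]
    exact pow_le_pow_left₀ h2.le (by linarith) 4
  · intro h5
    rw [h4, ← h1] at h5
    have h6 : -D = c * (2 * ph - 1) :=
      (pow_left_inj₀ (by linarith) h2.le (by norm_num)).1 h5
    linarith

private theorem absz {S a1 a2 a3 b1 b2 b3 c1 c2 c3 : ℝ}
    (hS : S = |a1| + |a2| + |a3| + |b1| + |b2| + |b3| + |c1| + |c2| + |c3|) (h : S = 0) :
    a1 = 0 ∧ a2 = 0 ∧ a3 = 0 ∧ b1 = 0 ∧ b2 = 0 ∧ b3 = 0 ∧ c1 = 0 ∧ c2 = 0 ∧ c3 = 0 := by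
  have n1 := abs_nonneg a1
  have n2 := abs_nonneg a2
  have n3 := abs_nonneg a3
  have n4 := abs_nonneg b1
  have n5 := abs_nonneg b2
  have n6 := abs_nonneg b3
  have n7 := abs_nonneg c1
  have n8 := abs_nonneg c2
  have n9 := abs_nonneg c3
  refine ⟨?_, ?_, ?_, ?_, ?_, ?_, ?_, ?_, ?_⟩ <;> rw [← abs_eq_zero] <;> linarith

private theorem box {z m k : ℝ} {e e2 : ℝ} (h : |z - k| ≤ e) (h2 : |k - m| ≤ e2 - e) :
    |z - m| ≤ e2 := by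
  have h3 := abs_sub_le z k m
  linarith

/-- the local lemma, scalar form -/
theorem loc_fin (h : Cst ph c x1 x2 y1 y2)
    {r0 r1 r2 s0 s1 s2 t0 t1 t2 u0 u1 u2 : ℝ}
    (z0 : r0 + s0 + t0 + u0 = 0) (z1 : r1 + s1 + t1 + u1 = 0) (z2 : r2 + s2 + t2 + u2 = 0)
    (hV : ∀ p1 p2 p3 : ℤ, ¬(p1 = 0 ∧ p2 = 0 ∧ p3 = 0) →
      1 ≤ |vl r0 r1 r2 p1 p2 p3 * vl s0 s1 s2 p1 p2 p3 * vl t0 t1 t2 p1 p2 p3 *
        vl u0 u1 u2 p1 p2 p3|)
    (k1 : |r0 + s0 - 2065 / 10000| ≤ 199 / 10000) (k2 : |r0 + t0| ≤ 699 / 10000)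
    (k3 : |r0 + u0 - 20106 / 10000| ≤ 199 / 10000)
    (k4 : |r1 + s1 - 21447 / 10000| ≤ 199 / 10000) (k5 : |r1 + t1| ≤ 199 / 10000)
    (k6 : |r1 + u1 + 7744 / 10000| ≤ 199 / 10000)
    (k7 : |r2 + s2 - 10723 / 10000| ≤ 199 / 10000)
    (k8 : |r2 + t2 + 23206 / 10000| ≤ 199 / 10000)
    (k9 : |r2 + u2 + 3872 / 10000| ≤ 199 / 10000) :
    725 ≤ (r0 * (s1 * t2 - s2 * t1) - r1 * (s0 * t2 - s2 * t0) + r2 * (s0 * t1 - s1 * t0)) ^ 4 ∧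
    ((r0 * (s1 * t2 - s2 * t1) - r1 * (s0 * t2 - s2 * t0) + r2 * (s0 * t1 - s1 * t0)) ^ 4 =
      725 → (r0 = x1 ∧ s0 = -y1 ∧ t0 = -x1 ∧ u0 = y1) ∧ (r1 = x2 ∧ s1 = y2 ∧ t1 = -x2 ∧
        u1 = -y2) ∧ r2 = (x2 - c) / 2 ∧ s2 = (y2 + c) / 2 ∧ t2 = (-x2 - c) / 2 ∧
        u2 = (-y2 + c) / 2) := by
  obtain ⟨m1, m2⟩ := cst_c h
  obtain ⟨m3, m4⟩ := cst_x1 h
  obtain ⟨m5, m6⟩ := cst_x2 h
  obtain ⟨m7, m8⟩ := cst_y1 h
  obtain ⟨m9, m10⟩ := cst_y2 h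
  obtain ⟨a1, ha1⟩ : ∃ a, a = r0 + s0 - (x1 - y1) := ⟨_, rfl⟩
  obtain ⟨a2, ha2⟩ : ∃ a, a = r0 + t0 := ⟨_, rfl⟩
  obtain ⟨a3, ha3⟩ : ∃ a, a = r0 + u0 - (x1 + y1) := ⟨_, rfl⟩
  obtain ⟨b1, hb1⟩ : ∃ a, a = r1 + s1 - (x2 + y2) := ⟨_, rfl⟩
  obtain ⟨b2, hb2⟩ : ∃ a, a = r1 + t1 := ⟨_, rfl⟩
  obtain ⟨b3, hb3⟩ : ∃ a, a = r1 + u1 - (x2 - y2) := ⟨_, rfl⟩
  obtain ⟨c1, hc1⟩ : ∃ a, a = r2 + s2 - (x2 + y2) / 2 := ⟨_, rfl⟩
  obtain ⟨c2, hc2⟩ : ∃ a, a = r2 + t2 + c := ⟨_, rfl⟩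
  obtain ⟨c3, hc3⟩ : ∃ a, a = r2 + u2 - (x2 - y2) / 2 := ⟨_, rfl⟩
  have hm := loc_sc h z0 z1 z2 hV ha1 ha2 ha3 hb1 hb2 hb3 hc1 hc2 hc3
    (by rw [ha1]; exact box k1 (by rw [abs_le]; constructor <;> linarith only [m3, m4, m7, m8]))
    (by rw [ha2]; exact k2.trans (by norm_num))
    (by rw [ha3]; exact box k3 (by rw [abs_le]; constructor <;> linarith only [m3, m4, m7, m8]))
    (by rw [hb1]; exact box k4 (by rw [abs_le]; constructor <;> linarith only [m5, m6, m9, m10]))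
    (by rw [hb2]; exact k5.trans (by norm_num))
    (by
      rw [hb3]
      rw [← sub_neg_eq_add] at k6
      exact box k6 (by rw [abs_le]; constructor <;> linarith only [m5, m6, m9, m10]))
    (by rw [hc1]; exact box k7 (by rw [abs_le]; constructor <;> linarith only [m5, m6, m9, m10]))
    (by
      rw [hc2]
      rw [← sub_neg_eq_add] at k8
      rw [← sub_neg_eq_add (r2 + t2) c]
      exact box k8 (by rw [abs_le]; constructor <;> linarith only [m1, m2]))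
    (by
      rw [hc3]
      rw [← sub_neg_eq_add] at k9
      exact box k9 (by rw [abs_le]; constructor <;> linarith only [m5, m6, m9, m10]))
  obtain ⟨S, hS⟩ : ∃ S, S = |a1| + |a2| + |a3| + |b1| + |b2| + |b3| + |c1| + |c2| + |c3| :=
    ⟨_, rfl⟩
  rw [← hS] at hm
  have hS0 : 0 ≤ S := by rw [hS]; positivity
  obtain ⟨d1, d2⟩ := det_alt h hS0 hm
  refine ⟨d1, fun hD => ?_⟩
  obtain ⟨v1, v2, v3, v4, v5, v6, v7, v8, v9⟩ := absz hS (d2 hD)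
  rw [v1] at ha1
  rw [v2] at ha2
  rw [v3] at ha3
  rw [v4] at hb1
  rw [v5] at hb2
  rw [v6] at hb3
  rw [v7] at hc1
  rw [v8] at hc2
  rw [v9] at hc3
  clear hm d1 d2 hD k1 k2 k3 k4 k5 k6 k7 k8 k9 hS hS0 m1 m2 m3 m4 m5 m6 m7 m8 m9 m10 hV
  refine ⟨⟨?_, ?_, ?_, ?_⟩, ⟨?_, ?_, ?_, ?_⟩, ?_, ?_, ?_, ?_⟩
  · linarith only [ha1, ha2, ha3, z0]
  · linarith only [ha1, ha2, ha3, z0]
  · linarith only [ha1, ha2, ha3, z0]
  · linarith only [ha1, ha2, ha3, z0]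
  · linarith only [hb1, hb2, hb3, z1]
  · linarith only [hb1, hb2, hb3, z1]
  · linarith only [hb1, hb2, hb3, z1]
  · linarith only [hb1, hb2, hb3, z1]
  · linarith only [hc1, hc2, hc3, z2]
  · linarith only [hc1, hc2, hc3, z2]
  · linarith only [hc1, hc2, hc3, z2]
  · linarith only [hc1, hc2, hc3, z2]

/-- the base change `(θ, 1 - θ², 1) → (1, θ, θ²)` -/
def Ub : Matrix (Fin 3) (Fin 3) ℤ := !![0, 1, 0; 0, 0, -1; 1, 0, 1]

theorem Ub_det : Ub.det = -1 := by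
  unfold Ub
  rw [Matrix.det_fin_three]
  rfl

private theorem row {g0 g1 g2 t s F : ℝ} (h0 : g0 = s / F) (h1 : g1 = s * t / F)
    (h2 : g2 = s * t ^ 2 / F) {x0 x1' x2' : ℝ} (e0 : x0 = g1) (e1 : x1' = g0 - g2)
    (e2 : x2' = g0) (j : Fin 3) :
    ∑ k, ![x0, x1', x2'] k * (Ub k j : ℝ) = s * t ^ (j : ℕ) / F := by
  rw [Fin.sum_univ_three]
  fin_cases j
  · simp [Ub]
    rw [e2, h0]
  · simp [Ub]
    rw [e0, h1]
  · simp [Ub]
    rw [e1, e2, ← h2]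
    ring

/-- the critical lattice is a section of the norm form -/
theorem crit_of (h : Cst ph c x1 x2 y1 y2) {th : Fin 4 → ℝ} (ht : IsTh th)
    {X : Fin 4 → Fin 3 → ℝ}
    (hX0 : X 0 = ![x1, x2, (x2 - c) / 2]) (hX1 : X 1 = ![-y1, y2, (y2 + c) / 2])
    (hX2 : X 2 = ![-x1, -x2, (-x2 - c) / 2]) (hX3 : X 3 = ![y1, -y2, (-y2 + c) / 2]) :
    Crit th X := by
  have hth := th_eq h ht
  have hx : c / x1 * x1 = c := div_mul_cancel₀ _ h.x1p.ne'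
  have hy : c / y1 * y1 = c := div_mul_cancel₀ _ h.y1p.ne'
  have hB : (c / x1) ^ 2 = 6 - ph := by
    rw [div_pow, h.cx]
    have := h.x1p
    field_simp
  have hA : (c / y1) ^ 2 = 5 + ph := by
    rw [div_pow, h.cy]
    have := h.y1p
    field_simp
  have hs := (s0 h).ne'
  have hph := h.ph2
  have q1 : (1 - ph) ^ 2 = (1 - ph) + 1 := by linear_combination hph
  refine ⟨1, Ub, c * (2 * ph - 1), Or.inr Ub_det, s4 h, ?_⟩
  intro i j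
  have e0 : th 0 = (1 - ph - c / x1) / 2 := by rw [hth]; rfl
  have e1 : th 1 = (ph - c / y1) / 2 := by rw [hth]; rfl
  have e2 : th 2 = (1 - ph + c / x1) / 2 := by rw [hth]; rfl
  have e3 : th 3 = (ph + c / y1) / 2 := by rw [hth]; rfl
  have hx2 := h.hx2
  have hy2 := h.hy2
  generalize c / x1 = B at *
  generalize c / y1 = A at *
  rw [Equiv.Perm.one_apply]
  fin_cases i
  · show ∑ k, X 0 k * (Ub k j : ℝ) = c * (2 * ph - 1) * th 0 ^ (j : ℕ) / fd (th 0)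
    obtain ⟨w1, w0, w2⟩ := crit_val (q := 1 - ph) (t := th 0) (g := x1) (c := c)
      (s := c * (2 * ph - 1)) q1 (by rw [e0]; linear_combination (hB - hph) / 4)
      (by rw [e0]; linear_combination (2 * ph - 1) * hx) hs rfl
    rw [hX0]
    refine row w0 w1 w2 rfl ?_ ?_ j
    · rw [hx2]; ring
    · rw [e0, hx2]; linear_combination (1 / 2) * hx
  · show ∑ k, X 1 k * (Ub k j : ℝ) = c * (2 * ph - 1) * th 1 ^ (j : ℕ) / fd (th 1)
    obtain ⟨w1, w0, w2⟩ := crit_val (q := ph) (t := th 1) (g := -y1) (c := c)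
      (s := c * (2 * ph - 1)) hph (by rw [e1]; linear_combination (hA - hph) / 4)
      (by rw [e1]; linear_combination (2 * ph - 1) * hy) hs rfl
    rw [hX1]
    refine row w0 w1 w2 rfl ?_ ?_ j
    · rw [hy2]; ring
    · rw [e1, hy2]; linear_combination (-1 / 2) * hy
  · show ∑ k, X 2 k * (Ub k j : ℝ) = c * (2 * ph - 1) * th 2 ^ (j : ℕ) / fd (th 2)
    obtain ⟨w1, w0, w2⟩ := crit_val (q := 1 - ph) (t := th 2) (g := -x1) (c := c)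
      (s := c * (2 * ph - 1)) q1 (by rw [e2]; linear_combination (hB - hph) / 4)
      (by rw [e2]; linear_combination (2 * ph - 1) * hx) hs rfl
    rw [hX2]
    refine row w0 w1 w2 rfl ?_ ?_ j
    · rw [hx2]; ring
    · rw [e2, hx2]; linear_combination (1 / 2) * hx
  · show ∑ k, X 3 k * (Ub k j : ℝ) = c * (2 * ph - 1) * th 3 ^ (j : ℕ) / fd (th 3)
    obtain ⟨w1, w0, w2⟩ := crit_val (q := ph) (t := th 3) (g := y1) (c := c)
      (s := c * (2 * ph - 1)) hph (by rw [e3]; linear_combination (hA - hph) / 4)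
      (by rw [e3]; linear_combination (2 * ph - 1) * hy) hs rfl
    rw [hX3]
    refine row w0 w1 w2 rfl ?_ ?_ j
    · rw [hy2]; ring
    · rw [e3, hy2]; linear_combination (-1 / 2) * hy

end Pool.Agent.Work.MP_77d073_nt.Q4.Cr
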