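import Pool.Agent.Work.MP_77d073_nt.Space

/-!
Definitions for the sharp constant `1/√725` in dimension four.
-/

set_option autoImplicit false

namespace Pool.Agent.Work.MP_77d073_nt.Q4

open Pool.Agent.Work.MP_77d073_nt

/-- The four real roots of `x^4 - x^3 - 3x^2 + x + 1` in increasing order. -/
structure IsTh (th : Fin 4 → ℝ) : Prop where
  root : ∀ i, th i ^ 4 - th i ^ 3 - 3 * th i ^ 2 + th i + 1 = 0
  mono : StrictMono th

/-- The derivative of `x^4 - x^3 - 3x^2 + x + 1`. -/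
def fd (t : ℝ) : ℝ := 4 * t ^ 3 - 3 * t ^ 2 - 6 * t + 1

/-- `g₀ + g₁ t + g₂ t²`. -/
def q3 (g : Fin 3 → ℤ) (t : ℝ) : ℝ := (g 0 : ℝ) + (g 1 : ℝ) * t + (g 2 : ℝ) * t ^ 2

/-- The same with real coefficients. -/
def w3 (w : Fin 3 → ℝ) (t : ℝ) : ℝ := w 0 + w 1 * t + w 2 * t ^ 2

/-- The norm form system `x ↦ x₀ + x₁ θ_i + x₂ θ_i² + x₃ θ_i³`. -/
def V (th : Fin 4 → ℝ) : Fin 4 → Fin 4 → ℝ := fun i j => th i ^ (j : ℕ)

/-- The perturbed system `V + F V`. -/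
def pert (th : Fin 4 → ℝ) (F : Fin 4 → Fin 4 → ℝ) : Fin 4 → Fin 4 → ℝ :=
  fun i j => V th i j + ∑ k, F i k * V th k j

/-- The constant `1/√725`. -/
noncomputable def κ : ℝ := (Real.sqrt 725)⁻¹

/-- `L` is, up to scaling of the forms, permutation and a unimodular substitution, the norm form
system. -/
def NF (th : Fin 4 → ℝ) (L : Fin 4 → Fin 4 → ℝ) : Prop :=
  ∃ (σ : Equiv.Perm (Fin 4)) (U : Matrix (Fin 4) (Fin 4) ℤ) (a : Fin 4 → ℝ), Uni U ∧
    ∀ i j, L i j = a i * ∑ k, V th (σ i) k * (U k j : ℝ)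

/-- The companion matrix: `(1, t, t², t³) C = t (1, t, t², t³)` for the roots `t`. -/
def C4 : Matrix (Fin 4) (Fin 4) ℤ := !![0, 0, 0, -1; 1, 0, 0, -1; 0, 1, 0, 3; 0, 0, 1, 1]

theorem kap_pos : 0 < κ := by
  unfold κ
  positivity

theorem kap_sq : κ ^ 2 * 725 = 1 := by
  unfold κ
  rw [inv_pow, Real.sq_sqrt (by norm_num)]
  norm_num

end Pool.Agent.Work.MP_77d073_nt.Q4
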