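import Pool.Agent.Work.MP_77d073_nt.Q4.Th

/-!
MODULE Eul (M).  Euler's identities and the discriminant.

PROOF.  Differentiate or compare coefficients in `th_all`: with `e₁ = ∑ th i = 1`, `e₂ = -3`, `e₃ = -1`, `e₄ = ∏ th i = 1` (four
values of `t`, or `Polynomial` coefficients), `fd (th i) = ∏_(j ≠ i) (th i - th j)` (all four cases by `linear_combination`),
in particular `fd (th i) ≠ 0` (`h.mono`).
`euler`: after writing the four `fd` as products, `field_simp`; `ring` (classical partial fractions; it may help to prove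
the identities `∑ th i ^ k / fd (th i) = 0, 0, 0, 1` for general distinct `x₀..x₃`).
`prod_th`: the case `t = 0` of `th_all`.
`fd_725`, `detV_sq`: `∏ fd (th i)` is a symmetric function of the roots: either reduce with `e₁..e₄`
(`linear_combination` with the elementary symmetric identities; the discriminant of the quartic is 725), or
`(det V)^2 = det (Vᵀ V) = det (p_(i+j))` with the power sums `p_k = ∑ th i ^ k`: `p₀, ..., p₆ = 4, 1, 7, 7, 23, 36, 91`
(recursion `p_(k+4) = p_(k+3) + 3 p_(k+2) - p_(k+1) - p_k` from `h.root`), an explicit integer determinant, `= 725`; and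
`∏ fd (th i) = ∏_(i<j) (th i - th j)^2 = (det V)^2` (six pairs, sign `+`).
-/

set_option autoImplicit false

namespace Pool.Agent.Work.MP_77d073_nt.Q4

private theorem esym {th : Fin 4 → ℝ} (h : IsTh th) :
    th 0 + th 1 + th 2 + th 3 = 1 ∧
    th 0 * th 1 + th 0 * th 2 + th 0 * th 3 + th 1 * th 2 + th 1 * th 3 + th 2 * th 3 = -3 ∧
    th 0 * th 1 * th 2 + th 0 * th 1 * th 3 + th 0 * th 2 * th 3 + th 1 * th 2 * th 3 = -1 ∧
    th 0 * th 1 * th 2 * th 3 = 1 := by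
  have a0 := th_all h 0
  have a1 := th_all h 1
  have a2 := th_all h (-1)
  have a3 := th_all h 2
  have e4 : th 0 * th 1 * th 2 * th 3 = 1 := by linear_combination -a0
  have e2 : th 0 * th 1 + th 0 * th 2 + th 0 * th 3 + th 1 * th 2 + th 1 * th 3 + th 2 * th 3 = -3 := by
    linear_combination a0 - (1 / 2 : ℝ) * a1 - (1 / 2 : ℝ) * a2
  have e1 : th 0 + th 1 + th 2 + th 3 = 1 := by
    linear_combination (1 / 2 : ℝ) * a0 - (1 / 2 : ℝ) * a1 - (1 / 6 : ℝ) * a2 + (1 / 6 : ℝ) * a3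
  have e3 : th 0 * th 1 * th 2 + th 0 * th 1 * th 3 + th 0 * th 2 * th 3 + th 1 * th 2 * th 3 = -1 := by
    linear_combination (1 / 2 : ℝ) * a1 - (1 / 2 : ℝ) * a2 - e1
  exact ⟨e1, e2, e3, e4⟩

private theorem fd0 {th : Fin 4 → ℝ} (h : IsTh th) :
    fd (th 0) = (th 0 - th 1) * (th 0 - th 2) * (th 0 - th 3) := by
  obtain ⟨e1, e2, e3, -⟩ := esym h
  unfold fd
  linear_combination 3 * th 0 ^ 2 * e1 - 2 * th 0 * e2 + e3

private theorem fd1 {th : Fin 4 → ℝ} (h : IsTh th) :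
    fd (th 1) = (th 1 - th 0) * (th 1 - th 2) * (th 1 - th 3) := by
  obtain ⟨e1, e2, e3, -⟩ := esym h
  unfold fd
  linear_combination 3 * th 1 ^ 2 * e1 - 2 * th 1 * e2 + e3

private theorem fd2 {th : Fin 4 → ℝ} (h : IsTh th) :
    fd (th 2) = (th 2 - th 0) * (th 2 - th 1) * (th 2 - th 3) := by
  obtain ⟨e1, e2, e3, -⟩ := esym h
  unfold fd
  linear_combination 3 * th 2 ^ 2 * e1 - 2 * th 2 * e2 + e3

private theorem fd3 {th : Fin 4 → ℝ} (h : IsTh th) :
    fd (th 3) = (th 3 - th 0) * (th 3 - th 1) * (th 3 - th 2) := by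
  obtain ⟨e1, e2, e3, -⟩ := esym h
  unfold fd
  linear_combination 3 * th 3 ^ 2 * e1 - 2 * th 3 * e2 + e3

private theorem ord {th : Fin 4 → ℝ} (h : IsTh th) : th 0 < th 1 ∧ th 1 < th 2 ∧ th 2 < th 3 :=
  ⟨h.mono (by decide), h.mono (by decide), h.mono (by decide)⟩

theorem fd_ne {th : Fin 4 → ℝ} (h : IsTh th) (i : Fin 4) : fd (th i) ≠ 0 := by
  obtain ⟨o1, o2, o3⟩ := ord h
  have n01 : th 0 - th 1 ≠ 0 := by intro hh; linarith
  have n02 : th 0 - th 2 ≠ 0 := by intro hh; linarith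
  have n03 : th 0 - th 3 ≠ 0 := by intro hh; linarith
  have n12 : th 1 - th 2 ≠ 0 := by intro hh; linarith
  have n13 : th 1 - th 3 ≠ 0 := by intro hh; linarith
  have n23 : th 2 - th 3 ≠ 0 := by intro hh; linarith
  have n10 : th 1 - th 0 ≠ 0 := by intro hh; linarith
  have n20 : th 2 - th 0 ≠ 0 := by intro hh; linarith
  have n30 : th 3 - th 0 ≠ 0 := by intro hh; linarith
  have n21 : th 2 - th 1 ≠ 0 := by intro hh; linarith
  have n31 : th 3 - th 1 ≠ 0 := by intro hh; linarith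
  have n32 : th 3 - th 2 ≠ 0 := by intro hh; linarith
  have h0 : fd (th 0) ≠ 0 := by
    rw [fd0 h]; exact mul_ne_zero (mul_ne_zero n01 n02) n03
  have h1 : fd (th 1) ≠ 0 := by
    rw [fd1 h]; exact mul_ne_zero (mul_ne_zero n10 n12) n13
  have h2 : fd (th 2) ≠ 0 := by
    rw [fd2 h]; exact mul_ne_zero (mul_ne_zero n20 n21) n23
  have h3 : fd (th 3) ≠ 0 := by
    rw [fd3 h]; exact mul_ne_zero (mul_ne_zero n30 n31) n32
  fin_cases i
  · exact h0
  · exact h1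
  · exact h2
  · exact h3

theorem euler {th : Fin 4 → ℝ} (h : IsTh th) :
    (∑ i, 1 / fd (th i) = 0) ∧ (∑ i, th i / fd (th i) = 0) ∧ (∑ i, th i ^ 2 / fd (th i) = 0) ∧
    (∑ i, th i ^ 3 / fd (th i) = 1) := by
  obtain ⟨o1, o2, o3⟩ := ord h
  have n10 : th 1 - th 0 ≠ 0 := by intro hh; linarith
  have n20 : th 2 - th 0 ≠ 0 := by intro hh; linarith
  have n30 : th 3 - th 0 ≠ 0 := by intro hh; linarith
  have n21 : th 2 - th 1 ≠ 0 := by intro hh; linarith
  have n31 : th 3 - th 1 ≠ 0 := by intro hh; linarith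
  have n32 : th 3 - th 2 ≠ 0 := by intro hh; linarith
  have k0 : fd (th 0) = -((th 1 - th 0) * (th 2 - th 0) * (th 3 - th 0)) := by rw [fd0 h]; ring
  have k1 : fd (th 1) = (th 1 - th 0) * (th 2 - th 1) * (th 3 - th 1) := by rw [fd1 h]; ring
  have k2 : fd (th 2) = -((th 2 - th 0) * (th 2 - th 1) * (th 3 - th 2)) := by rw [fd2 h]; ring
  have k3 : fd (th 3) = (th 3 - th 0) * (th 3 - th 1) * (th 3 - th 2) := by rw [fd3 h]
  simp only [Fin.sum_univ_four]
  rw [k0, k1, k2, k3]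
  refine ⟨?_, ?_, ?_, ?_⟩
  · field_simp
    ring
  · field_simp
    ring
  · field_simp
    ring
  · field_simp
    ring

theorem prod_th {th : Fin 4 → ℝ} (h : IsTh th) : ∏ i, th i = 1 := by
  rw [Fin.prod_univ_four]
  exact (esym h).2.2.2

private theorem psums {th : Fin 4 → ℝ} (h : IsTh th) :
    (th 0 + th 1 + th 2 + th 3 = 1) ∧ (th 0 ^ 2 + th 1 ^ 2 + th 2 ^ 2 + th 3 ^ 2 = 7) ∧
    (th 0 ^ 3 + th 1 ^ 3 + th 2 ^ 3 + th 3 ^ 3 = 7) ∧ (th 0 ^ 4 + th 1 ^ 4 + th 2 ^ 4 + th 3 ^ 4 = 23) ∧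
    (th 0 ^ 5 + th 1 ^ 5 + th 2 ^ 5 + th 3 ^ 5 = 36) ∧ (th 0 ^ 6 + th 1 ^ 6 + th 2 ^ 6 + th 3 ^ 6 = 91) := by
  obtain ⟨e1, e2, e3, e4⟩ := esym h
  have r0 := h.root 0
  have r1 := h.root 1
  have r2 := h.root 2
  have r3 := h.root 3
  have p2 : th 0 ^ 2 + th 1 ^ 2 + th 2 ^ 2 + th 3 ^ 2 = 7 := by
    linear_combination (th 0 + th 1 + th 2 + th 3 + 1) * e1 - 2 * e2
  have p3 : th 0 ^ 3 + th 1 ^ 3 + th 2 ^ 3 + th 3 ^ 3 = 7 := by
    linear_combination (th 0 + th 1 + th 2 + th 3) * p2 - (th 0 + th 1 + th 2 + th 3) * e2 + 3 * e3 + 10 * e1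
  have p4 : th 0 ^ 4 + th 1 ^ 4 + th 2 ^ 4 + th 3 ^ 4 = 23 := by
    linear_combination r0 + r1 + r2 + r3 + p3 + 3 * p2 - e1
  have p5 : th 0 ^ 5 + th 1 ^ 5 + th 2 ^ 5 + th 3 ^ 5 = 36 := by
    linear_combination th 0 * r0 + th 1 * r1 + th 2 * r2 + th 3 * r3 + p4 + 3 * p3 - p2 - e1
  have p6 : th 0 ^ 6 + th 1 ^ 6 + th 2 ^ 6 + th 3 ^ 6 = 91 := by
    linear_combination th 0 ^ 2 * r0 + th 1 ^ 2 * r1 + th 2 ^ 2 * r2 + th 3 ^ 2 * r3 + p5 + 3 * p4 - p3 - p2
  exact ⟨e1, p2, p3, p4, p5, p6⟩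

private theorem detV_sq_aux {th : Fin 4 → ℝ} (h : IsTh th) : (Matrix.of (V th)).det ^ 2 = 725 := by
  obtain ⟨p1, p2, p3, p4, p5, p6⟩ := psums h
  have hH : (Matrix.of (V th)).transpose * Matrix.of (V th) =
      !![4, 1, 7, 7; 1, 7, 7, 23; 7, 7, 23, 36; 7, 23, 36, 91] := by
    ext i j
    fin_cases i <;> fin_cases j <;>
      simp [Matrix.mul_apply, Fin.sum_univ_four, V, Matrix.transpose_apply] <;>
      linarith
  have hd : (Matrix.of (V th)).det ^ 2 = ((Matrix.of (V th)).transpose * Matrix.of (V th)).det := by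
    rw [Matrix.det_mul, Matrix.det_transpose, sq]
  rw [hd, hH, Matrix.det_succ_row_zero]
  simp [Fin.sum_univ_succ, Matrix.det_fin_three, Matrix.submatrix_apply, Fin.succAbove]
  norm_num

theorem fd_725 {th : Fin 4 → ℝ} (h : IsTh th) : ∏ i, fd (th i) = 725 := by
  rw [← detV_sq_aux h]
  have hof : Matrix.of (V th) = Matrix.vandermonde th := by
    ext i k
    simp [V, Matrix.vandermonde_apply]
  rw [hof, Matrix.det_vandermonde, Fin.prod_univ_four, fd0 h, fd1 h, fd2 h, fd3 h]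
  have i0 : Finset.Ioi (0 : Fin 4) = {1, 2, 3} := by decide
  have i1 : Finset.Ioi (1 : Fin 4) = {2, 3} := by decide
  have i2 : Finset.Ioi (2 : Fin 4) = {3} := by decide
  have i3 : Finset.Ioi (3 : Fin 4) = ∅ := by decide
  rw [Fin.prod_univ_four, i0, i1, i2, i3]
  simp
  ring

theorem detV_sq {th : Fin 4 → ℝ} (h : IsTh th) : (Matrix.of (V th)).det ^ 2 = 725 := by
  exact detV_sq_aux h

end Pool.Agent.Work.MP_77d073_nt.Q4
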