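import Pool.Agent.Work.MP_77d073_nt.Q4.Sup

/-!
MODULE ExA (M).  In the closure of the orbit of an extremal system the dual minimum is attained.

PROOF.  For `k : ℕ` take `(c k, a k)` from `dual_near` with `ε = 1/(k+1)`.  `a k i ≠ 0` by `dual_ne`.  Let `ρ k > 0` with
`(ρ k)^4 = |∏ a k i|` (`Real.sqrt (Real.sqrt _)`), `t k i = |a k i| / ρ k`, so `∏ i, t k i = 1`, and `s k i = 1` or `-1` the sign of `a k i`.
The system `tr L 1 (t k)` has determinant `±1` and the lower bound `κ` (`tr_det`, `tr_lower`), so `reduction` gives `M k` with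
`Uni (M k)` and all entries of `T k := tr L (M k) (t k)` at most `β` in absolute value (compare `Space.meets_box`; `tr_tr`).  Then
`∑ i, s k i * ρ k * T k i j = c' k j` with `c' k j = ∑ l, c k l * M k l j` an integer vector, `≠ 0` since `M k` is invertible, and
`|c' k j| ≤ 4 ρ k β ≤ 4 (κ + 2) β` (as `(ρ k)^4 < κ + 1`, so `ρ k ≤ κ + 2`, any crude bound).
The points `(T k, ρ k, s k, c' k)` stay in the compact set `box 4 β × [0, κ + 2] × (finite) × (finite)`: a subsequence converges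
(`IsCompact.tendsto_subseq`; the integer vectors, as real vectors, lie in a compact box and their limit is an integer vector, or
use the finiteness of `{c : |c j| ≤ B}` (`Set.Finite`) and an infinite fibre), so `T → L' ∈ closure (orb L)`, `ρ → r ≥ 0`,
`s`, `c'` eventually constant.  In the limit `∑ i, (s i * r) * L' i j = c' j` with `c' ≠ 0`, and
`|∏ (s i * r)| = r^4 = lim |∏ a k i| ≤ κ`.
-/

set_option autoImplicit false

namespace Pool.Agent.Work.MP_77d073_nt.Q4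

open Pool.Agent.Work.MP_77d073_nt
open Filter Topology

private theorem kap_lt_one : κ < 1 := by
  have h1 := kap_sq
  have h2 := kap_pos
  by_contra h
  have h3 : 1 ≤ κ := not_lt.mp h
  nlinarith

/-- one step: a member of the orbit in the box, with a dual vector of constant absolute values -/
private theorem exA_step {L : Fin 4 → Fin 4 → ℝ} (hL : |(Matrix.of L).det| = 1)
    (h : ∀ p : Fin 4 → ℤ, p ≠ 0 → κ ≤ |∏ i, ∑ j, L i j * (p j : ℝ)|) {β : ℝ}
    (hβ : ∀ L : Fin 4 → Fin 4 → ℝ, |(Matrix.of L).det| = 1 →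
      (∀ p : Fin 4 → ℤ, p ≠ 0 → κ ≤ |∏ i, ∑ j, L i j * (p j : ℝ)|) →
      ∃ M : Matrix (Fin 4) (Fin 4) ℤ, (M.det = 1 ∨ M.det = -1) ∧
        ∀ i j, |∑ l, L i l * (M l j : ℝ)| ≤ β) {ε : ℝ} (hε : 0 < ε) (hε1 : ε ≤ 1) :
    ∃ (T : Fin 4 → Fin 4 → ℝ) (b : Fin 4 → ℝ) (c : Fin 4 → ℤ), T ∈ orb L ∧ T ∈ box 4 β ∧
      (∀ i, |b i| ≤ 2) ∧ c ≠ 0 ∧ (∀ j, ∑ i, b i * T i j = (c j : ℝ)) ∧ |∏ i, b i| ≤ κ + ε := by
  obtain ⟨c, a, hc, ha, hP⟩ := dual_near hL hε
  have hdet : (Matrix.of L).det ≠ 0 := by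
    intro h0
    rw [h0, abs_zero] at hL
    exact one_ne_zero hL.symm
  have ha0 := dual_ne hdet kap_pos h hc ha
  have hprod : ∏ i, a i ≠ 0 := Finset.prod_ne_zero_iff.mpr (fun i _ => ha0 i)
  obtain ⟨P, hPd⟩ : ∃ P : ℝ, P = |∏ i, a i| := ⟨_, rfl⟩
  have hP0 : 0 < P := by rw [hPd]; exact abs_pos.mpr hprod
  obtain ⟨ρ, hρ⟩ : ∃ ρ : ℝ, ρ = Real.sqrt (Real.sqrt P) := ⟨_, rfl⟩
  have hρ0 : 0 < ρ := by rw [hρ]; exact Real.sqrt_pos.mpr (Real.sqrt_pos.mpr hP0)
  have hρ4 : ρ ^ 4 = P := by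
    have e : ρ ^ 4 = (ρ ^ 2) ^ 2 := by ring
    rw [e, hρ, Real.sq_sqrt (Real.sqrt_nonneg _), Real.sq_sqrt hP0.le]
  obtain ⟨σ, hσ, hσP⟩ : ∃ σ : ℝ, |σ| = 1 ∧ σ * ∏ i, a i = P := by
    rcases lt_or_gt_of_ne hprod with h1 | h1
    · exact ⟨-1, by norm_num, by rw [hPd, abs_of_neg h1]; ring⟩
    · exact ⟨1, by norm_num, by rw [hPd, abs_of_pos h1]; ring⟩
  have hσ2 : σ * σ = 1 := by
    have h1 : |σ| * |σ| = 1 := by rw [hσ]; norm_num
    rwa [← abs_mul, abs_mul_self] at h1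
  obtain ⟨e, he⟩ : ∃ e : Fin 4 → ℝ, e = fun i => if i = 0 then σ else 1 := ⟨_, rfl⟩
  have hee : ∀ i, e i * e i = 1 := by
    intro i
    rw [he]
    by_cases hi : i = 0
    · simp [hi, hσ2]
    · simp [hi]
  have hea : ∀ i, |e i| = 1 := by
    intro i
    rw [he]
    by_cases hi : i = 0
    · simp [hi, hσ]
    · simp [hi]
  have hep : ∏ i, e i = σ := by
    rw [he, Fin.prod_univ_four]
    simp
  obtain ⟨t, ht⟩ : ∃ t : Fin 4 → ℝ, t = fun i => e i * a i / ρ := ⟨_, rfl⟩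
  have htp : ∏ i, t i = 1 := by
    rw [ht, Finset.prod_div_distrib, Finset.prod_mul_distrib, hep, hσP, Finset.prod_const,
      Finset.card_univ, Fintype.card_fin, hρ4, div_self hP0.ne']
  have htr1 : ∀ i l, tr L 1 t i l = t i * L i l := by
    intro i l
    unfold tr
    simp [Matrix.one_apply]
  obtain ⟨M, hM, hMb⟩ := hβ (tr L 1 t) (by
      rw [tr_det, htp, one_mul, abs_mul, hL]
      simp) (fun p hp => tr_lower h (by simp) htp p hp)
  have hTM : ∀ i j, ∑ l, tr L 1 t i l * (M l j : ℝ) = tr L M t i j := by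
    intro i j
    simp_rw [htr1]
    unfold tr
    rw [Finset.mul_sum]
    exact Finset.sum_congr rfl (fun l _ => by ring)
  have hdM : M.det ≠ 0 := by
    rcases hM with h1 | h1 <;> rw [h1] <;> norm_num
  refine ⟨tr L M t, fun i => ρ * e i, Matrix.vecMul c M, ⟨M, t, hM, htp, rfl⟩, ?_, ?_, ?_, ?_, ?_⟩
  · intro i j
    rw [← hTM]
    exact hMb i j
  · intro i
    rw [abs_mul, hea, mul_one, abs_of_pos hρ0]
    by_contra hcon
    have h2 : 2 < ρ := not_le.mp hcon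
    have h3 : (2 : ℝ) ^ 4 < ρ ^ 4 := pow_lt_pow_left₀ h2 (by norm_num) (by norm_num)
    have h4 := kap_lt_one
    rw [hρ4, hPd] at h3
    norm_num at h3
    linarith
  · intro h0
    exact hc (Matrix.eq_zero_of_vecMul_eq_zero hdM h0)
  · intro j
    have e1 : ∀ i, ρ * e i * tr L M t i j = ∑ l, (a i * L i l) * (M l j : ℝ) := by
      intro i
      unfold tr
      rw [ht, Finset.mul_sum, Finset.mul_sum]
      refine Finset.sum_congr rfl (fun l _ => ?_)
      have h5 : ρ * e i * (e i * a i / ρ * (L i l * (M l j : ℝ))) =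
          (e i * e i) * (ρ / ρ) * (a i * L i l * (M l j : ℝ)) := by ring
      rw [h5, hee, div_self hρ0.ne']
      ring
    simp_rw [e1]
    rw [Finset.sum_comm]
    have e2 : ∀ l, ∑ i, (a i * L i l) * (M l j : ℝ) = (c l : ℝ) * (M l j : ℝ) := by
      intro l
      rw [← Finset.sum_mul, ha]
    simp_rw [e2]
    unfold Matrix.vecMul dotProduct
    push_cast
    rfl
  · have h6 : |∏ i, ρ * e i| = P := by
      rw [Finset.prod_mul_distrib, hep, Finset.prod_const, Finset.card_univ, Fintype.card_fin,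
        hρ4, abs_mul, hσ, mul_one, abs_of_pos hP0]
    rw [h6, hPd]
    exact hP.le

theorem exA {L : Fin 4 → Fin 4 → ℝ} (hL : |(Matrix.of L).det| = 1)
    (h : ∀ p : Fin 4 → ℤ, p ≠ 0 → κ ≤ |∏ i, ∑ j, L i j * (p j : ℝ)|) :
    ∃ L' ∈ closure (orb L), ∃ (c : Fin 4 → ℤ) (a : Fin 4 → ℝ), c ≠ 0 ∧
      (∀ j, ∑ i, a i * L' i j = (c j : ℝ)) ∧ |∏ i, a i| ≤ κ := by
  obtain ⟨β, -, hβ⟩ := reduction (n := 4) (by norm_num) kap_pos one_pos
  have hstep := fun k : ℕ => exA_step hL h hβ (ε := 1 / ((k : ℝ) + 1)) (by positivity) (by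
    rw [div_le_one (by positivity)]
    have : (0 : ℝ) ≤ k := Nat.cast_nonneg k
    linarith)
  choose T b c hT hTb hb hc hs hP using hstep
  have hK : IsCompact ((box 4 β) ×ˢ (Set.pi Set.univ fun _ : Fin 4 => Set.Icc (-2 : ℝ) 2)) :=
    (box_compact β).prod (isCompact_univ_pi fun _ => isCompact_Icc)
  obtain ⟨⟨L', b'⟩, -, φ, hφ, hlim⟩ := hK.tendsto_subseq (x := fun k => (T k, b k)) (fun k =>
    ⟨hTb k, fun i _ => abs_le.mp (hb k i)⟩)
  rw [Prod.tendsto_iff] at hlim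
  obtain ⟨hl1, hl2⟩ := hlim
  have hT1 : ∀ i j, Tendsto (fun k => T (φ k) i j) atTop (𝓝 (L' i j)) := fun i j =>
    (tendsto_pi_nhds.mp ((tendsto_pi_nhds.mp hl1) i)) j
  have hb1 : ∀ i, Tendsto (fun k => b (φ k) i) atTop (𝓝 (b' i)) := fun i =>
    (tendsto_pi_nhds.mp hl2) i
  have hcl : ∀ j, Tendsto (fun k => ((c (φ k) j : ℤ) : ℝ)) atTop (𝓝 (∑ i, b' i * L' i j)) := by
    intro j
    have h1 : Tendsto (fun k => ∑ i, b (φ k) i * T (φ k) i j) atTop
        (𝓝 (∑ i, b' i * L' i j)) :=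
      tendsto_finsetSum _ (fun i _ => (hb1 i).mul (hT1 i j))
    refine h1.congr (fun k => hs (φ k) j)
  have hint : ∀ j, ∃ z : ℤ, ∑ i, b' i * L' i j = (z : ℝ) := by
    intro j
    have hclosed : IsClosed (Set.range ((↑) : ℤ → ℝ)) := Int.isClosedEmbedding_coe_real.isClosed_range
    have h2 := hclosed.mem_of_tendsto (hcl j) (Eventually.of_forall (fun k => ⟨_, rfl⟩))
    obtain ⟨z, hz⟩ := h2
    exact ⟨z, hz.symm⟩
  choose z hz using hint
  refine ⟨L', ?_, z, b', ?_, hz, ?_⟩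
  · exact mem_closure_of_tendsto hl1 (Eventually.of_forall (fun k => hT (φ k)))
  · intro h0
    have hev : ∀ᶠ k in atTop, ∀ j, c (φ k) j = 0 := by
      rw [eventually_all]
      intro j
      have h1 := hcl j
      rw [hz j, h0, Pi.zero_apply, Int.cast_zero] at h1
      have h2 := (Metric.tendsto_nhds.mp h1) 1 one_pos
      refine h2.mono (fun k hk => ?_)
      rw [Real.dist_eq, sub_zero] at hk
      have h3 : |c (φ k) j| < 1 := by exact_mod_cast hk
      rw [Int.abs_lt_one_iff] at h3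
      exact h3
    obtain ⟨k, hk⟩ := hev.exists
    exact hc (φ k) (funext hk)
  · have h1 : Tendsto (fun k => |∏ i, b (φ k) i|) atTop (𝓝 |∏ i, b' i|) :=
      (tendsto_finsetProd _ (fun i _ => hb1 i)).abs
    have h2 : Tendsto (fun k : ℕ => κ + 1 / (((φ k : ℕ) : ℝ) + 1)) atTop (𝓝 (κ + 0)) :=
      tendsto_const_nhds.add (tendsto_one_div_add_atTop_nhds_zero_nat.comp hφ.tendsto_atTop)
    rw [add_zero] at h2
    exact le_of_tendsto_of_tendsto' h1 h2 (fun k => hP (φ k))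

end Pool.Agent.Work.MP_77d073_nt.Q4
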