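import Pool.Agent.Work.MP_77d073_nt.Q4.Eul
import Pool.Agent.Work.MP_77d073_nt.Q4.Nrm

/-!
MODULE Loc (M).  A small perturbation of a shifted cube `th i ^ 3` violates one of four product conditions.

PROOF.  For `s ∈ {(-1,-3,0), (1,0,-2), (-1,-1,2), (3,-2,-2)}` let `u_s(t) = t^3 + s₀ + s₁ t + s₂ t²`.  These are units: the inverse
of `u_s(th i)` is `v_s(th i)` with
  `v = 2 - 3t - t² + t³`,  `3 + t - t²`,  `-6 + t + 3t² - t³`,  `1 + t - t²`
(check `u_s(t) v_s(t) - 1 = (multiple of f(t))`: `linear_combination (...) * h.root i`), and `∏ i, u_s(th i) = -1, -1, 1, 1`.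
Only `|∏ i, u_s (th i)| = 1` is needed.  (One way: the products are `≈ ±1`; or `∏ = ± resultant`; or: `∏ u_s(th i)` and
`∏ v_s (th i)` are integers with product 1 - integrality: `Nrm.norm_int` (file `Nrm`, import it if you like) applied to
`p = (s₀, s₁, s₂, 1)` and to the coefficients of `v_s`.)
With `h.bd` (`th_bd`) and `|w j| ≤ 1/10`:  `|w3 w (th i)| ≤ (1 + |th i| + th i ^ 2)/10 < |u_s (th i)|` for all `i` and the four `s`
(numerical values: bound `0.4194, 0.1705, 0.2282, 0.7486` for `i = 0..3`; `u_s(th i)`: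
 `0.57549, 0.32307, -2.81156, 1.91300`;  `-5.16724, 0.43574, 0.31313, 1.41837`;
 `1.53985, -0.17589, -0.24805, 14.8841`;  `-0.45589, 3.39026, 0.83785, -0.77222`).
So `y i := w3 w (th i) * v_s (th i)` has `|y i| < 1`, and `H s` gives `1 ≤ |∏ u_s(th i) (1 + y i)| = ∏ (1 + y i)`.
Since `0 < 1 + y i`, AM-GM (or `1 ≤ ∏ (1 + y i) ≤ exp (∑ y i)`, `Real.add_one_le_exp`) gives `0 ≤ ∑ y i`.
With the power sums `∑ th i ^ k = 4, 1, 7, 7, 23, 36` for `k = 0..5` (from `euler`-type relations or from `th_all`: the elementary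
symmetric functions of `th` are `1, -3, -1, 1`, so `p₁ = 1`, `p₂ = 7`, `p₃ = 7`, and `p_(k+4) = p_(k+3) + 3 p_(k+2) - p_(k+1) - p_k` by
`h.root`), `∑ y i = t_s · w` with `t_s = (5,-3,6)`, `(6,3,5)`, `(-9,-1,-2)`, `(-2,1,-9)`.
The four inequalities `t_s · w ≥ 0` and `∑_s t_s = 0` force `t_s · w = 0` for all `s`, and the first three `t_s` are linearly
independent (determinant 220): `w = 0` (`linarith`).
-/

set_option autoImplicit false

namespace Pool.Agent.Work.MP_77d073_nt.Q4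

private theorem psums' {th : Fin 4 → ℝ} (h : IsTh th) :
    (th 0 + th 1 + th 2 + th 3 = 1) ∧ (th 0 ^ 2 + th 1 ^ 2 + th 2 ^ 2 + th 3 ^ 2 = 7) ∧
    (th 0 ^ 3 + th 1 ^ 3 + th 2 ^ 3 + th 3 ^ 3 = 7) ∧ (th 0 ^ 4 + th 1 ^ 4 + th 2 ^ 4 + th 3 ^ 4 = 23) ∧
    (th 0 ^ 5 + th 1 ^ 5 + th 2 ^ 5 + th 3 ^ 5 = 36) := by
  have a0 := th_all h 0
  have a1 := th_all h 1
  have a2 := th_all h (-1)
  have a3 := th_all h 2
  have e2 : th 0 * th 1 + th 0 * th 2 + th 0 * th 3 + th 1 * th 2 + th 1 * th 3 + th 2 * th 3 = -3 := by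
    linear_combination a0 - (1 / 2 : ℝ) * a1 - (1 / 2 : ℝ) * a2
  have e1 : th 0 + th 1 + th 2 + th 3 = 1 := by
    linear_combination (1 / 2 : ℝ) * a0 - (1 / 2 : ℝ) * a1 - (1 / 6 : ℝ) * a2 + (1 / 6 : ℝ) * a3
  have e3 : th 0 * th 1 * th 2 + th 0 * th 1 * th 3 + th 0 * th 2 * th 3 + th 1 * th 2 * th 3 = -1 := by
    linear_combination (1 / 2 : ℝ) * a1 - (1 / 2 : ℝ) * a2 - e1
  have r0 := h.root 0
  have r1 := h.root 1
  have r2 := h.root 2
  have r3 := h.root 3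
  have p2 : th 0 ^ 2 + th 1 ^ 2 + th 2 ^ 2 + th 3 ^ 2 = 7 := by
    linear_combination (th 0 + th 1 + th 2 + th 3 + 1) * e1 - 2 * e2
  have p3 : th 0 ^ 3 + th 1 ^ 3 + th 2 ^ 3 + th 3 ^ 3 = 7 := by
    linear_combination (th 0 + th 1 + th 2 + th 3) * p2 - (th 0 + th 1 + th 2 + th 3) * e2 + 3 * e3 + 10 * e1
  have p4 : th 0 ^ 4 + th 1 ^ 4 + th 2 ^ 4 + th 3 ^ 4 = 23 := by
    linear_combination r0 + r1 + r2 + r3 + p3 + 3 * p2 - e1
  have p5 : th 0 ^ 5 + th 1 ^ 5 + th 2 ^ 5 + th 3 ^ 5 = 36 := by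
    linear_combination th 0 * r0 + th 1 * r1 + th 2 * r2 + th 3 * r3 + p4 + 3 * p3 - p2 - e1
  exact ⟨e1, p2, p3, p4, p5⟩

private theorem powb {th : Fin 4 → ℝ} (h : IsTh th) :
    ((-1.355675 < th 0 ∧ th 0 < -1.355674) ∧ (1.837851 < th 0 ^ 2 ∧ th 0 ^ 2 < 1.837856) ∧
      (-2.491540 < th 0 ^ 3 ∧ th 0 ^ 3 < -2.491520)) ∧
    ((-0.477260 < th 1 ∧ th 1 < -0.477259) ∧ (0.227776 < th 1 ^ 2 ∧ th 1 ^ 2 < 0.227778) ∧
      (-0.108720 < th 1 ^ 3 ∧ th 1 ^ 3 < -0.108700)) ∧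
    ((0.737640 < th 2 ∧ th 2 < 0.737641) ∧ (0.544112 < th 2 ^ 2 ∧ th 2 ^ 2 < 0.544115) ∧
      (0.401350 < th 2 ^ 3 ∧ th 2 ^ 3 < 0.401370)) ∧
    ((2.095293 < th 3 ∧ th 3 < 2.095294) ∧ (4.390252 < th 3 ^ 2 ∧ th 3 ^ 2 < 4.390258) ∧
      (9.198860 < th 3 ^ 3 ∧ th 3 ^ 3 < 9.198898)) := by
  obtain ⟨⟨a0, b0⟩, ⟨a1, b1⟩, ⟨a2, b2⟩, a3, b3⟩ := th_bd h
  have c0 : 1.837851 < th 0 ^ 2 ∧ th 0 ^ 2 < 1.837856 := by constructor <;> nlinarith
  have c1 : 0.227776 < th 1 ^ 2 ∧ th 1 ^ 2 < 0.227778 := by constructor <;> nlinarith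
  have c2 : 0.544112 < th 2 ^ 2 ∧ th 2 ^ 2 < 0.544115 := by constructor <;> nlinarith
  have c3 : 4.390252 < th 3 ^ 2 ∧ th 3 ^ 2 < 4.390258 := by constructor <;> nlinarith
  have d0 : -2.491540 < th 0 ^ 3 ∧ th 0 ^ 3 < -2.491520 := by
    have : th 0 ^ 3 = th 0 * th 0 ^ 2 := by ring
    rw [this]
    constructor <;> nlinarith [c0.1, c0.2]
  have d1 : -0.108720 < th 1 ^ 3 ∧ th 1 ^ 3 < -0.108700 := by
    have : th 1 ^ 3 = th 1 * th 1 ^ 2 := by ring
    rw [this]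
    constructor <;> nlinarith [c1.1, c1.2]
  have d2 : 0.401350 < th 2 ^ 3 ∧ th 2 ^ 3 < 0.401370 := by
    have : th 2 ^ 3 = th 2 * th 2 ^ 2 := by ring
    rw [this]
    constructor <;> nlinarith [c2.1, c2.2]
  have d3 : 9.198860 < th 3 ^ 3 ∧ th 3 ^ 3 < 9.198898 := by
    have : th 3 ^ 3 = th 3 * th 3 ^ 2 := by ring
    rw [this]
    constructor <;> nlinarith [c3.1, c3.2]
  exact ⟨⟨⟨a0, b0⟩, c0, d0⟩, ⟨⟨a1, b1⟩, c1, d1⟩, ⟨⟨a2, b2⟩, c2, d2⟩, ⟨⟨a3, b3⟩, c3, d3⟩⟩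

private theorem w3b {w : Fin 3 → ℝ} (hw : ∀ j, |w j| ≤ 1 / 10) (t : ℝ) :
    |w3 w t| ≤ (1 + |t| + t ^ 2) / 10 := by
  have h1 : |w 1 * t| ≤ 1 / 10 * |t| := by
    rw [abs_mul]
    exact mul_le_mul_of_nonneg_right (hw 1) (abs_nonneg _)
  have h2 : |w 2 * t ^ 2| ≤ 1 / 10 * t ^ 2 := by
    rw [abs_mul, abs_of_nonneg (sq_nonneg t)]
    exact mul_le_mul_of_nonneg_right (hw 2) (sq_nonneg _)
  have h3 := abs_add_le (w 0 + w 1 * t) (w 2 * t ^ 2)
  have h4 := abs_add_le (w 0) (w 1 * t)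
  have h5 := hw 0
  unfold w3
  linarith

private theorem w3all {th : Fin 4 → ℝ} (h : IsTh th) {w : Fin 3 → ℝ} (hw : ∀ j, |w j| ≤ 1 / 10) :
    |w3 w (th 0)| < 0.4195 ∧ |w3 w (th 1)| < 0.1706 ∧ |w3 w (th 2)| < 0.2283 ∧ |w3 w (th 3)| < 0.7487 := by
  obtain ⟨⟨⟨a0, b0⟩, ⟨c0, d0⟩, -⟩, ⟨⟨a1, b1⟩, ⟨c1, d1⟩, -⟩, ⟨⟨a2, b2⟩, ⟨c2, d2⟩, -⟩, ⟨a3, b3⟩, ⟨c3, d3⟩, -⟩ := powb h
  have h0 := w3b hw (th 0)
  have h1 := w3b hw (th 1)
  have h2 := w3b hw (th 2)
  have h3 := w3b hw (th 3)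
  rw [abs_of_neg (a := th 0) (by linarith)] at h0
  rw [abs_of_neg (a := th 1) (by linarith)] at h1
  rw [abs_of_pos (a := th 2) (by linarith)] at h2
  rw [abs_of_pos (a := th 3) (by linarith)] at h3
  refine ⟨?_, ?_, ?_, ?_⟩ <;> linarith

private theorem prod_unit {th : Fin 4 → ℝ} (h : IsTh th) (s : Fin 3 → ℤ) (v : Fin 4 → ℤ)
    (huv : ∀ i, (th i ^ 3 + q3 s (th i)) * ((v 0 : ℝ) + v 1 * th i + v 2 * th i ^ 2 + v 3 * th i ^ 3) = 1) :
    |∏ i, (th i ^ 3 + q3 s (th i))| = 1 := by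
  obtain ⟨z, hz⟩ := norm_int h ![s 0, s 1, s 2, 1]
  obtain ⟨z', hz'⟩ := norm_int h v
  have e1 : ∏ i, (th i ^ 3 + q3 s (th i)) = (z : ℝ) := by
    rw [← hz]
    refine Finset.prod_congr rfl fun i _ => ?_
    simp only [Fin.sum_univ_four, V, q3]
    have i2 : (![s 0, s 1, s 2, 1] : Fin 4 → ℤ) 2 = s 2 := rfl
    have i3 : (![s 0, s 1, s 2, 1] : Fin 4 → ℤ) 3 = 1 := rfl
    have i0 : (![s 0, s 1, s 2, 1] : Fin 4 → ℤ) 0 = s 0 := rfl
    have i1 : (![s 0, s 1, s 2, 1] : Fin 4 → ℤ) 1 = s 1 := rfl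
    rw [i0, i1, i2, i3]
    norm_num
    ring
  have e2 : ∏ i, ((v 0 : ℝ) + v 1 * th i + v 2 * th i ^ 2 + v 3 * th i ^ 3) = (z' : ℝ) := by
    rw [← hz']
    refine Finset.prod_congr rfl fun i _ => ?_
    simp only [Fin.sum_univ_four, V]
    norm_num
    ring
  have e3 : (z : ℝ) * z' = 1 := by
    rw [← e1, ← e2, ← Finset.prod_mul_distrib]
    exact Finset.prod_eq_one fun i _ => huv i
  have e4 : z * z' = 1 := by exact_mod_cast e3
  have e5 : IsUnit z := IsUnit.of_mul_eq_one _ e4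
  rw [e1]
  rcases Int.isUnit_iff.mp e5 with h1 | h1 <;> rw [h1] <;> simp

private theorem step {th : Fin 4 → ℝ} (h : IsTh th) (w : Fin 3 → ℝ) (s : Fin 3 → ℤ) (v : Fin 4 → ℤ)
    (huv : ∀ i, (th i ^ 3 + q3 s (th i)) * ((v 0 : ℝ) + v 1 * th i + v 2 * th i ^ 2 + v 3 * th i ^ 3) = 1)
    (l0 : |w3 w (th 0)| < |th 0 ^ 3 + q3 s (th 0)|) (l1 : |w3 w (th 1)| < |th 1 ^ 3 + q3 s (th 1)|)
    (l2 : |w3 w (th 2)| < |th 2 ^ 3 + q3 s (th 2)|) (l3 : |w3 w (th 3)| < |th 3 ^ 3 + q3 s (th 3)|)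
    (H : 1 ≤ |∏ i, (th i ^ 3 + w3 w (th i) + q3 s (th i))|) :
    0 ≤ ∑ i, w3 w (th i) * ((v 0 : ℝ) + v 1 * th i + v 2 * th i ^ 2 + v 3 * th i ^ 3) := by
  have hlt : ∀ i, |w3 w (th i)| < |th i ^ 3 + q3 s (th i)| := by
    intro i
    fin_cases i
    · exact l0
    · exact l1
    · exact l2
    · exact l3
  set y : Fin 4 → ℝ := fun i => w3 w (th i) * ((v 0 : ℝ) + v 1 * th i + v 2 * th i ^ 2 + v 3 * th i ^ 3) with hy
  have hu := prod_unit h s v huv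
  have e1 : ∀ i, th i ^ 3 + w3 w (th i) + q3 s (th i) = (th i ^ 3 + q3 s (th i)) * (1 + y i) := by
    intro i
    simp only [hy]
    linear_combination -w3 w (th i) * huv i
  have hpos : ∀ i, 0 < 1 + y i := by
    intro i
    have h1 : |y i| < 1 := by
      have h2 : |th i ^ 3 + q3 s (th i)| * |(v 0 : ℝ) + v 1 * th i + v 2 * th i ^ 2 + v 3 * th i ^ 3| = 1 := by
        rw [← abs_mul, huv i, abs_one]
      have h3 : 0 < |(v 0 : ℝ) + v 1 * th i + v 2 * th i ^ 2 + v 3 * th i ^ 3| := by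
        rcases (abs_nonneg ((v 0 : ℝ) + v 1 * th i + v 2 * th i ^ 2 + v 3 * th i ^ 3)).lt_or_eq with h4 | h4
        · exact h4
        · rw [← h4, mul_zero] at h2
          norm_num at h2
      calc |y i| = |w3 w (th i)| * |(v 0 : ℝ) + v 1 * th i + v 2 * th i ^ 2 + v 3 * th i ^ 3| := by
            simp only [hy]; rw [abs_mul]
        _ < |th i ^ 3 + q3 s (th i)| * |(v 0 : ℝ) + v 1 * th i + v 2 * th i ^ 2 + v 3 * th i ^ 3| :=
            mul_lt_mul_of_pos_right (hlt i) h3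
        _ = 1 := h2
    have := (abs_lt.mp h1).1
    linarith
  have e2 : ∏ i, (th i ^ 3 + w3 w (th i) + q3 s (th i)) = (∏ i, (th i ^ 3 + q3 s (th i))) * ∏ i, (1 + y i) := by
    rw [← Finset.prod_mul_distrib]
    exact Finset.prod_congr rfl fun i _ => e1 i
  rw [e2, abs_mul, hu, one_mul, abs_of_pos (Finset.prod_pos fun i _ => hpos i)] at H
  have e3 : ∏ i, (1 + y i) ≤ Real.exp (∑ i, y i) := by
    rw [Real.exp_sum]
    refine Finset.prod_le_prod (fun i _ => (hpos i).le) fun i _ => ?_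
    have := Real.add_one_le_exp (y i)
    linarith
  have e4 : 1 ≤ Real.exp (∑ i, y i) := H.trans e3
  rwa [Real.one_le_exp_iff] at e4

theorem loc {th : Fin 4 → ℝ} (h : IsTh th) (w : Fin 3 → ℝ) (hw : ∀ j, |w j| ≤ 1 / 10)
    (H : ∀ g : Fin 3 → ℤ, 1 ≤ |∏ i, (th i ^ 3 + w3 w (th i) + q3 g (th i))|) : w = 0 := by
  obtain ⟨p1, p2, p3, p4, p5⟩ := psums' h
  obtain ⟨⟨⟨a0, b0⟩, ⟨c0, d0⟩, ⟨m0, n0⟩⟩, ⟨⟨a1, b1⟩, ⟨c1, d1⟩, ⟨m1, n1⟩⟩,
    ⟨⟨a2, b2⟩, ⟨c2, d2⟩, ⟨m2, n2⟩⟩, ⟨⟨a3, b3⟩, ⟨c3, d3⟩, ⟨m3, n3⟩⟩⟩ := powb h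
  obtain ⟨w0, w1, w2, w3'⟩ := w3all h hw
  have q : ∀ (x y z : ℤ) (t : ℝ), q3 ![x, y, z] t = (x : ℝ) + y * t + z * t ^ 2 := by
    intro x y z t
    rfl
  have s1 := step h w ![-1, -3, 0] ![2, -3, -1, 1]
    (by
      intro i
      rw [q]
      have := h.root i
      simp
      linear_combination (-3 + th i ^ 2) * this)
    (by
      refine lt_of_lt_of_le w0 ?_
      refine le_trans ?_ (le_abs_self _)
      simp only [q]
      norm_num
      linarith)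
    (by
      refine lt_of_lt_of_le w1 ?_
      refine le_trans ?_ (le_abs_self _)
      simp only [q]
      norm_num
      linarith)
    (by
      refine lt_of_lt_of_le w2 ?_
      refine le_trans ?_ (neg_le_abs _)
      simp only [q]
      norm_num
      linarith)
    (by
      refine lt_of_lt_of_le w3' ?_
      refine le_trans ?_ (le_abs_self _)
      simp only [q]
      norm_num
      linarith)
    (H _)
  have s2 := step h w ![1, 0, -2] ![3, 1, -1, 0]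
    (by
      intro i
      rw [q]
      have := h.root i
      simp
      linear_combination (2 - th i) * this)
    (by
      refine lt_of_lt_of_le w0 ?_
      refine le_trans ?_ (neg_le_abs _)
      simp only [q]
      norm_num
      linarith)
    (by
      refine lt_of_lt_of_le w1 ?_
      refine le_trans ?_ (le_abs_self _)
      simp only [q]
      norm_num
      linarith)
    (by
      refine lt_of_lt_of_le w2 ?_
      refine le_trans ?_ (le_abs_self _)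
      simp only [q]
      norm_num
      linarith)
    (by
      refine lt_of_lt_of_le w3' ?_
      refine le_trans ?_ (le_abs_self _)
      simp only [q]
      norm_num
      linarith)
    (H _)
  have s3 := step h w ![-1, -1, 2] ![-6, 1, 3, -1]
    (by
      intro i
      rw [q]
      have := h.root i
      simp
      linear_combination (5 - th i ^ 2) * this)
    (by
      refine lt_of_lt_of_le w0 ?_
      refine le_trans ?_ (le_abs_self _)
      simp only [q]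
      norm_num
      linarith)
    (by
      refine lt_of_lt_of_le w1 ?_
      refine le_trans ?_ (neg_le_abs _)
      simp only [q]
      norm_num
      linarith)
    (by
      refine lt_of_lt_of_le w2 ?_
      refine le_trans ?_ (neg_le_abs _)
      simp only [q]
      norm_num
      linarith)
    (by
      refine lt_of_lt_of_le w3' ?_
      refine le_trans ?_ (le_abs_self _)
      simp only [q]
      norm_num
      linarith)
    (H _)
  have s4 := step h w ![3, -2, -2] ![1, 1, -1, 0]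
    (by
      intro i
      rw [q]
      have := h.root i
      simp
      linear_combination (2 - th i) * this)
    (by
      refine lt_of_lt_of_le w0 ?_
      refine le_trans ?_ (neg_le_abs _)
      simp only [q]
      norm_num
      linarith)
    (by
      refine lt_of_lt_of_le w1 ?_
      refine le_trans ?_ (le_abs_self _)
      simp only [q]
      norm_num
      linarith)
    (by
      refine lt_of_lt_of_le w2 ?_
      refine le_trans ?_ (le_abs_self _)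
      simp only [q]
      norm_num
      linarith)
    (by
      refine lt_of_lt_of_le w3' ?_
      refine le_trans ?_ (neg_le_abs _)
      simp only [q]
      norm_num
      linarith)
    (H _)
  have t1 : 0 ≤ 5 * w 0 - 3 * w 1 + 6 * w 2 := by
    refine s1.trans_eq ?_
    simp only [Fin.sum_univ_four, w3]
    simp
    linear_combination (2 * w 1 - 3 * w 0) * p1 + (2 * w 2 - 3 * w 1 - w 0) * p2 + (w 0 - w 1 - 3 * w 2) * p3 +
      (w 1 - w 2) * p4 + w 2 * p5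
  have t2 : 0 ≤ 6 * w 0 + 3 * w 1 + 5 * w 2 := by
    refine s2.trans_eq ?_
    simp only [Fin.sum_univ_four, w3]
    simp
    linear_combination (w 0 + 3 * w 1) * p1 + (3 * w 2 + w 1 - w 0) * p2 + (w 2 - w 1) * p3 - w 2 * p4
  have t3 : 0 ≤ -9 * w 0 - w 1 - 2 * w 2 := by
    refine s3.trans_eq ?_
    simp only [Fin.sum_univ_four, w3]
    simp
    linear_combination (w 0 - 6 * w 1) * p1 + (-6 * w 2 + w 1 + 3 * w 0) * p2 + (w 2 + 3 * w 1 - w 0) * p3 +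
      (3 * w 2 - w 1) * p4 - w 2 * p5
  have t4 : 0 ≤ -2 * w 0 + w 1 - 9 * w 2 := by
    refine s4.trans_eq ?_
    simp only [Fin.sum_univ_four, w3]
    simp
    linear_combination (w 0 + w 1) * p1 + (w 2 + w 1 - w 0) * p2 + (w 2 - w 1) * p3 - w 2 * p4
  have z0 : w 0 = 0 := by linarith
  have z1 : w 1 = 0 := by linarith
  have z2 : w 2 = 0 := by linarith
  funext j
  fin_cases j
  · exact z0
  · exact z1
  · exact z2

end Pool.Agent.Work.MP_77d073_nt.Q4
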