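import Pool.Agent.Work.MP_77d073_nt.Q4.Lag
import Pool.Agent.Work.MP_77d073_nt.Q4.Cov
import Pool.Agent.Work.MP_77d073_nt.Q4.Loc

/-!
MODULE Four (S).  The fourth vector.

PROOF.  `lag` gives `w'` with `z i = th i ^ 3 + w3 w' (th i)`.  Let `m j = round (w' j)` and `w j = w' j - m j`
(`abs_sub_round`: `|w j| ≤ 1/2`).  For `g : Fin 3 → ℤ`, `th i ^ 3 + w3 w (th i) + q3 g (th i) = z i + q3 (g - m) (th i)`, so `cover` and
then `loc` apply to `w`: `w = 0`, and `z i = th i ^ 3 + q3 m (th i)`.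
-/

set_option autoImplicit false

namespace Pool.Agent.Work.MP_77d073_nt.Q4

theorem fourth {th : Fin 4 → ℝ} (hth : IsTh th) (z : Fin 4 → ℝ) (hz : ∑ i, z i / fd (th i) = 1)
    (h : ∀ g : Fin 3 → ℤ, 1 ≤ |∏ i, (z i + q3 g (th i))|) :
    ∃ g : Fin 3 → ℤ, ∀ i, z i = th i ^ 3 + q3 g (th i) := by
  obtain ⟨w', hw'⟩ := lag hth z hz
  have key : ∀ (g : Fin 3 → ℤ) (i : Fin 4),
      th i ^ 3 + w3 (fun j => w' j - ((round (w' j) : ℤ) : ℝ)) (th i) + q3 g (th i)
        = z i + q3 (fun j => g j - round (w' j)) (th i) := by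
    intro g i
    rw [hw' i]
    simp only [w3, q3]
    push_cast
    ring
  have hw : ∀ j, |(fun j => w' j - ((round (w' j) : ℤ) : ℝ)) j| ≤ 1 / 2 := fun j => abs_sub_round (w' j)
  have H : ∀ g : Fin 3 → ℤ,
      1 ≤ |∏ i, (th i ^ 3 + w3 (fun j => w' j - ((round (w' j) : ℤ) : ℝ)) (th i) + q3 g (th i))| := by
    intro g
    have h1 := h (fun j => g j - round (w' j))
    have h2 : ∏ i, (th i ^ 3 + w3 (fun j => w' j - ((round (w' j) : ℤ) : ℝ)) (th i) + q3 g (th i))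
        = ∏ i, (z i + q3 (fun j => g j - round (w' j)) (th i)) :=
      Finset.prod_congr rfl (fun i _ => key g i)
    rw [h2]
    exact h1
  have h1 := cover hth _ hw H
  have h0 := loc hth _ h1 H
  refine ⟨fun j => round (w' j), fun i => ?_⟩
  have e : ∀ j, w' j = ((round (w' j) : ℤ) : ℝ) := by
    intro j
    have := congrFun h0 j
    simp only [Pi.zero_apply] at this
    linarith
  rw [hw' i]
  simp only [w3, q3]
  rw [← e 0, ← e 1, ← e 2]

end Pool.Agent.Work.MP_77d073_nt.Q4
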