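import Pool.Agent.Work.MP_77d073_nt.Q4.Defs

/-!
MODULE NFtr (S-M).  Invariance of `NF`.

PROOF.  `nf_tr`: if `L i j = a i * ∑ k, V th (σ i) k * U k j` then `tr L M t i j = (t i * a i) * ∑ k, V th (σ i) k * (U * M) k j`.
`nf_of_tr`: `L = tr (tr L M t) M' t⁻¹` for the inverse `M'` of `M` (`Uni.inv`, `tr_tr`, `tr_one`; `t i ≠ 0`), then `nf_tr`.
`nf_perm`: rows permuted: `σ` is replaced by `σ * τ`.
-/

set_option autoImplicit false

namespace Pool.Agent.Work.MP_77d073_nt.Q4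

open Pool.Agent.Work.MP_77d073_nt

theorem nf_tr {th : Fin 4 → ℝ} {L : Fin 4 → Fin 4 → ℝ} (h : NF th L) {M : Matrix (Fin 4) (Fin 4) ℤ} (hM : Uni M)
    (t : Fin 4 → ℝ) : NF th (tr L M t) := by
  obtain ⟨σ, U, a, hU, hL⟩ := h
  refine ⟨σ, U * M, t * a, hU.mul hM, fun i j => ?_⟩
  have h1 : L = tr (fun i => V th (σ i)) U a := by
    funext i j
    rw [hL i j]
    rfl
  rw [h1, tr_tr]
  rfl

theorem nf_of_tr {th : Fin 4 → ℝ} {L : Fin 4 → Fin 4 → ℝ} {M : Matrix (Fin 4) (Fin 4) ℤ} (hM : Uni M)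
    {t : Fin 4 → ℝ} (ht : ∀ i, t i ≠ 0) (h : NF th (tr L M t)) : NF th L := by
  obtain ⟨M', hM', h1, -⟩ := hM.inv
  have h2 : t⁻¹ * t = 1 := by
    funext i
    simp [ht i]
  have h3 : tr (tr L M t) M' t⁻¹ = L := by
    rw [tr_tr, h1, h2, tr_one]
  rw [← h3]
  exact nf_tr h hM' _

theorem nf_perm {th : Fin 4 → ℝ} {L : Fin 4 → Fin 4 → ℝ} (τ : Equiv.Perm (Fin 4)) (h : NF th L) :
    NF th (fun i => L (τ i)) := by
  obtain ⟨σ, U, a, hU, hL⟩ := h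
  exact ⟨τ.trans σ, U, fun i => a (τ i), hU, fun i j => hL (τ i) j⟩

end Pool.Agent.Work.MP_77d073_nt.Q4
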