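import Pool.Agent.Work.MP_77d073_nt.Q4.Tr
import Pool.Agent.Work.MP_77d073_nt.Q4.Four
import Pool.Agent.Work.MP_77d073_nt.Q4.NFtr

/-!
MODULE ExB (M-L).  An extremal system whose dual minimum is attained is the norm form.

PROOF.  `sect` with `m = κ` gives `W, g, r, X` with `r^4 (P κ) = 1`, `P = |∏ a|`, and `D^4 g^4 κ^3 = P ≤ κ`, while `t3_bound` gives
`D^4 ≥ 725`.  With `725 κ² = 1` (`kap_sq`): `g^4 ≤ 1`, so `g = 1`, `D^4 = 725`, `P = κ` and `r^4 = 725`.
`t3_eq` gives `σ, U, s` with `s^4 = 725` and `∑ k, X i k * U k j = s * th (σ i)^j / fd (th (σ i))` (`j : Fin 3`).  Since `r > 0` and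
`s^4 = r^4`, `s = e * r` with `e = 1` or `e = -1` (take `e : ℤ`).
Write `L1 = tr L W 1` and `β i = e / (a i * fd (th (σ i)))`.  Then
  (1) `∑ k : Fin 3, L1 i k.castSucc * U k j = β i * th (σ i)^j`,
  (2) `|∏ β i| = 1/(κ * 725) = κ` (`fd_725`, and `∏ i, fd (th (σ i)) = ∏ i, fd (th i)` by `Equiv.prod_comp`).
Let `y i = a i * fd (th (σ i)) * L1 i 3`.  Then (3) `L1 i 3 = e * β i * y i` and `∑ i, y i / fd (th (σ i)) = ∑ i, a i * L1 i 3 = g = 1`.
Let `z = y ∘ σ⁻¹` (`z (σ i) = y i`), so `∑ i, z i / fd (th i) = 1`.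
For `q : Fin 3 → ℤ` let `p = (e U q, 1)`, that is `p k.castSucc = e * ∑ j, U k j * q j`, `p 3 = 1`.  It is nonzero, and by (1), (3)
`∑ j, L1 i j * p j = e * β i * (q3 q (th (σ i)) + y i)`.  So by the lower bound for `L1` (`tr_lower`) and (2)
`κ ≤ |∏ L1_i(p)| = κ |∏ (z i + q3 q (th i))|`: this is the hypothesis of `fourth`.  It gives `q` with
`y i = th (σ i)^3 + q3 q (th (σ i))`.
Let `N` be the matrix with columns `(U · j, 0)` for `j < 3` and last column `(-U q, e)`: `det N = e * det U = ±1`, and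
`∑ l, L1 i l * N l j = β i * V th (σ i) j` for all `j` (for `j = 3`: `-β i q3 q + e * e * β i * y i = β i th^3`).
So `tr L1 N 1` is `NF` (with the matrix `1`), and `nf_of_tr` (twice) gives `NF th L`.
-/

set_option autoImplicit false

namespace Pool.Agent.Work.MP_77d073_nt.Q4

open Pool.Agent.Work.MP_77d073_nt

/-- the substitution matrix -/
private def NN (U : Matrix (Fin 3) (Fin 3) ℤ) (q : Fin 3 → ℤ) (e : ℤ) :
    Matrix (Fin 4) (Fin 4) ℤ :=
  Matrix.of (Fin.snoc (α := fun _ => Fin 4 → ℤ)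
    (fun k : Fin 3 => Fin.snoc (α := fun _ => ℤ) (fun j : Fin 3 => U k j) (-∑ j, U k j * q j))
    (Fin.snoc (α := fun _ => ℤ) (fun _ : Fin 3 => 0) e))

private theorem NN_cc (U : Matrix (Fin 3) (Fin 3) ℤ) (q : Fin 3 → ℤ) (e : ℤ) (k j : Fin 3) :
    NN U q e k.castSucc j.castSucc = U k j := by
  simp [NN]

private theorem NN_cl (U : Matrix (Fin 3) (Fin 3) ℤ) (q : Fin 3 → ℤ) (e : ℤ) (k : Fin 3) :
    NN U q e k.castSucc (Fin.last 3) = -∑ j, U k j * q j := by
  unfold NN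
  rw [Matrix.of_apply, Fin.snoc_castSucc, Fin.snoc_last]

private theorem NN_lc (U : Matrix (Fin 3) (Fin 3) ℤ) (q : Fin 3 → ℤ) (e : ℤ) (j : Fin 3) :
    NN U q e (Fin.last 3) j.castSucc = 0 := by
  unfold NN
  rw [Matrix.of_apply, Fin.snoc_last, Fin.snoc_castSucc]

private theorem NN_ll (U : Matrix (Fin 3) (Fin 3) ℤ) (q : Fin 3 → ℤ) (e : ℤ) :
    NN U q e (Fin.last 3) (Fin.last 3) = e := by
  unfold NN
  rw [Matrix.of_apply, Fin.snoc_last, Fin.snoc_last]

private theorem NN_det (U : Matrix (Fin 3) (Fin 3) ℤ) (q : Fin 3 → ℤ) (e : ℤ) :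
    (NN U q e).det = e * U.det := by
  rw [Matrix.det_succ_row _ (Fin.last 3), Fin.sum_univ_castSucc]
  have h1 : ∑ j : Fin 3, (-1 : ℤ) ^ ((Fin.last 3 : Fin 4) + (j.castSucc : Fin 4) : ℕ) *
      NN U q e (Fin.last 3) j.castSucc *
      ((NN U q e).submatrix (Fin.last 3).succAbove (j.castSucc).succAbove).det = 0 := by
    refine Finset.sum_eq_zero (fun j _ => ?_)
    rw [NN_lc]
    ring
  rw [h1, NN_ll, zero_add]
  have h2 : (NN U q e).submatrix (Fin.last 3).succAbove (Fin.last 3).succAbove = U := by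
    ext k j
    rw [Matrix.submatrix_apply, Fin.succAbove_last]
    exact NN_cc U q e k j
  rw [h2]
  norm_num

private theorem mul_le_cancel {a b : ℝ} (ha : 0 < a) (h : a ≤ a * b) : 1 ≤ b := by
  by_contra hcon
  have h1 := mul_lt_mul_of_pos_left (not_le.mp hcon) ha
  linarith

theorem exB {th : Fin 4 → ℝ} (hth : IsTh th) {L : Fin 4 → Fin 4 → ℝ} (hL : |(Matrix.of L).det| = 1)
    (h : ∀ p : Fin 4 → ℤ, p ≠ 0 → κ ≤ |∏ i, ∑ j, L i j * (p j : ℝ)|) {c : Fin 4 → ℤ} (hc : c ≠ 0)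
    {a : Fin 4 → ℝ} (ha : ∀ j, ∑ i, a i * L i j = (c j : ℝ)) (hP : |∏ i, a i| ≤ κ) : NF th L := by
  have hk := kap_pos
  have hk2 := kap_sq
  obtain ⟨W, g, r, X, hW, hg, hr, ha0, hrP, hag, hX, hX0, hX1, hD⟩ := sect hL hk h hc ha
  have h725 := t3_bound X hX0 hX1
  obtain ⟨D4, hD4⟩ : ∃ D4, D4 = (Matrix.of fun i j : Fin 3 => X i.castSucc j).det ^ 4 := ⟨_, rfl⟩
  rw [← hD4] at h725 hD
  -- g = 1
  have hgR : (1 : ℝ) ≤ (g : ℝ) := by exact_mod_cast hg
  have hg4 : (1 : ℝ) ≤ (g : ℝ) ^ 4 := one_le_pow₀ hgR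
  have hk3 : (0 : ℝ) < κ ^ 3 := by positivity
  have hmain : D4 * (g : ℝ) ^ 4 * κ ^ 2 ≤ 1 := by
    have h1 : (D4 * (g : ℝ) ^ 4 * κ ^ 2) * κ ≤ 1 * κ := by
      calc (D4 * (g : ℝ) ^ 4 * κ ^ 2) * κ = D4 * ((g : ℝ) ^ 4 * κ ^ 3) := by ring
        _ = |∏ i, a i| := hD
        _ ≤ 1 * κ := by rw [one_mul]; exact hP
    exact le_of_mul_le_mul_right h1 hk
  have hk2p : (0 : ℝ) < κ ^ 2 := by positivity
  have hg1 : (g : ℝ) ^ 4 ≤ 1 := by
    have h1 : 725 * (g : ℝ) ^ 4 * κ ^ 2 ≤ D4 * (g : ℝ) ^ 4 * κ ^ 2 := by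
      refine mul_le_mul_of_nonneg_right ?_ hk2p.le
      exact mul_le_mul_of_nonneg_right h725 (by positivity)
    nlinarith
  have hg1' : g = 1 := by
    have h1 : (g : ℝ) ≤ 1 := by
      by_contra hcon
      have h2 : (1 : ℝ) < (g : ℝ) ^ 4 := one_lt_pow₀ (not_le.mp hcon) (by norm_num)
      linarith
    have h2 : g ≤ 1 := by exact_mod_cast h1
    omega
  have hD725 : D4 = 725 := by
    rw [hg1'] at hmain
    have h1 : D4 * κ ^ 2 ≤ 725 * κ ^ 2 := by
      have : D4 * ((1 : ℤ) : ℝ) ^ 4 * κ ^ 2 = D4 * κ ^ 2 := by norm_num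
      rw [this] at hmain
      linarith
    exact le_antisymm (le_of_mul_le_mul_right h1 hk2p) h725
  have hPk : |∏ i, a i| = κ := by
    rw [← hD, hD725, hg1']
    have : (725 : ℝ) * (((1 : ℤ) : ℝ) ^ 4 * κ ^ 3) = (κ ^ 2 * 725) * κ := by
      push_cast
      ring
    rw [this, hk2, one_mul]
  have hr4 : r ^ 4 = 725 := by
    rw [hPk] at hrP
    have h1 : r ^ 4 * κ ^ 2 = 725 * κ ^ 2 := by
      calc r ^ 4 * κ ^ 2 = r ^ 4 * (κ * κ) := by ring
        _ = 1 := hrP
        _ = 725 * κ ^ 2 := by linarith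
    exact mul_right_cancel₀ hk2p.ne' h1
  obtain ⟨σ, U, s, hU, hs4, hXU⟩ := t3_eq hth X hX0 hX1 (hD4 ▸ hD725)
  -- the sign
  obtain ⟨e, he, hse⟩ : ∃ e : ℤ, (e = 1 ∨ e = -1) ∧ s = (e : ℝ) * r := by
    have h1 : (s ^ 2) ^ 2 = (r ^ 2) ^ 2 := by
      rw [← pow_mul, ← pow_mul, hs4, hr4]
    have h2 : s ^ 2 = r ^ 2 := by
      have := (sq_eq_sq₀ (sq_nonneg s) (sq_nonneg r)).mp h1
      exact this
    rcases sq_eq_sq_iff_eq_or_eq_neg.mp h2 with h3 | h3
    · exact ⟨1, Or.inl rfl, by rw [h3]; push_cast; ring⟩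
    · exact ⟨-1, Or.inr rfl, by rw [h3]; push_cast; ring⟩
  have hee : (e : ℝ) * (e : ℝ) = 1 := by
    rcases he with h1 | h1 <;> rw [h1] <;> norm_num
  have heabs : |(e : ℝ)| = 1 := by
    rcases he with h1 | h1 <;> rw [h1] <;> norm_num
  have hfd : ∀ i, fd (th (σ i)) ≠ 0 := fun i => fd_ne hth (σ i)
  obtain ⟨L1, hL1⟩ : ∃ L1, L1 = tr L W 1 := ⟨_, rfl⟩
  rw [← hL1] at hag
  obtain ⟨be, hbe⟩ : ∃ be : Fin 4 → ℝ, be = fun i => (e : ℝ) / (a i * fd (th (σ i))) := ⟨_, rfl⟩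
  have h1 : ∀ i (j : Fin 3), ∑ k : Fin 3, L1 i k.castSucc * (U k j : ℝ) =
      be i * th (σ i) ^ (j : ℕ) := by
    intro i j
    have h2 := hXU i j
    have h3 : ∑ k, X i k * (U k j : ℝ) =
        r * a i * ∑ k : Fin 3, L1 i k.castSucc * (U k j : ℝ) := by
      rw [Finset.mul_sum]
      refine Finset.sum_congr rfl (fun k _ => ?_)
      rw [hX, ← hL1]
      ring
    rw [h3, hse] at h2
    have h4 : r * a i ≠ 0 := mul_ne_zero hr.ne' (ha0 i)
    apply mul_left_cancel₀ h4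
    rw [h2, hbe]
    have h5 := hfd i
    have h6 := ha0 i
    field_simp
  have h2 : |∏ i, be i| = κ := by
    have h3 : ∏ i, be i = (e : ℝ) ^ 4 / ((∏ i, a i) * ∏ i, fd (th (σ i))) := by
      rw [hbe, Finset.prod_div_distrib, Finset.prod_mul_distrib, Finset.prod_const,
        Finset.card_univ, Fintype.card_fin]
    have h4 : ∏ i, fd (th (σ i)) = 725 := by
      rw [Equiv.prod_comp σ (fun i => fd (th i))]
      exact fd_725 hth
    rw [h3, h4, abs_div, abs_mul, hPk, abs_pow, heabs, one_pow, abs_of_pos (by norm_num : (0 : ℝ) < 725),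
      div_eq_iff (by positivity)]
    nlinarith
  obtain ⟨y, hy⟩ : ∃ y : Fin 4 → ℝ, y = fun i => a i * fd (th (σ i)) * L1 i (Fin.last 3) := ⟨_, rfl⟩
  have h3 : ∀ i, L1 i (Fin.last 3) = e * (be i * y i) := by
    intro i
    rw [hbe, hy]
    have h5 := hfd i
    have h6 := ha0 i
    have h7 : (e : ℝ) * ((e : ℝ) / (a i * fd (th (σ i))) * (a i * fd (th (σ i)) * L1 i (Fin.last 3))) =
        ((e : ℝ) * (e : ℝ)) * L1 i (Fin.last 3) := by
      field_simp
    rw [h7, hee, one_mul]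
  have hys : ∑ i, y i / fd (th (σ i)) = 1 := by
    have h5 : ∀ i, y i / fd (th (σ i)) = a i * L1 i 3 := by
      intro i
      rw [hy]
      have h5 := hfd i
      show a i * fd (th (σ i)) * L1 i (Fin.last 3) / fd (th (σ i)) = a i * L1 i (Fin.last 3)
      field_simp
    simp_rw [h5]
    rw [hag 3, if_pos rfl, hg1']
    norm_num
  obtain ⟨z, hz⟩ : ∃ z : Fin 4 → ℝ, z = fun i => y (σ.symm i) := ⟨_, rfl⟩
  have hzσ : ∀ i, z (σ i) = y i := by
    intro i
    rw [hz]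
    simp
  have hzs : ∑ i, z i / fd (th i) = 1 := by
    rw [← Equiv.sum_comp σ (fun i => z i / fd (th i))]
    simp_rw [hzσ]
    exact hys
  have hWd : W.det ≠ 0 := hW.ne_zero
  obtain ⟨q, hq⟩ := fourth hth z hzs (by
    intro q
    obtain ⟨p, hp⟩ : ∃ p : Fin 4 → ℤ, p = Fin.snoc (α := fun _ => ℤ)
      (fun k : Fin 3 => e * ∑ j, U k j * q j) 1 := ⟨_, rfl⟩
    have hpc : ∀ k : Fin 3, p k.castSucc = e * ∑ j, U k j * q j := by
      intro k
      rw [hp]
      simp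
    have hpl : p (Fin.last 3) = 1 := by
      rw [hp, Fin.snoc_last]
    have hp0 : p ≠ 0 := by
      intro h0
      rw [h0] at hpl
      simp at hpl
    have hlow := tr_lower h hWd (t := 1) (by simp) p hp0
    rw [← hL1] at hlow
    have hval : ∀ i, ∑ j, L1 i j * (p j : ℝ) = e * (be i * (z (σ i) + q3 q (th (σ i)))) := by
      intro i
      rw [Fin.sum_univ_castSucc, hpl, hzσ]
      have h5 : ∑ k : Fin 3, L1 i k.castSucc * ((p k.castSucc : ℤ) : ℝ) =
          e * (be i * q3 q (th (σ i))) := by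
        have h6 : ∀ k : Fin 3, L1 i k.castSucc * ((p k.castSucc : ℤ) : ℝ) =
            ∑ j : Fin 3, e * ((q j : ℝ) * (L1 i k.castSucc * (U k j : ℝ))) := by
          intro k
          rw [hpc]
          push_cast
          rw [Finset.mul_sum, Finset.mul_sum]
          exact Finset.sum_congr rfl (fun j _ => by ring)
        simp_rw [h6]
        rw [Finset.sum_comm]
        simp_rw [← Finset.mul_sum, h1]
        unfold q3
        rw [Fin.sum_univ_three]
        simp only [Fin.val_zero, Fin.val_one, Fin.val_two, pow_zero, pow_one]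
        ring
      rw [h5, h3 i]
      push_cast
      ring
    simp_rw [hval] at hlow
    rw [Finset.prod_mul_distrib, Finset.prod_mul_distrib, Finset.prod_const, Finset.card_univ,
      Fintype.card_fin, abs_mul, abs_mul, h2, abs_pow, heabs, one_pow, one_mul,
      Equiv.prod_comp σ (fun i => z i + q3 q (th i))] at hlow
    exact mul_le_cancel hk hlow)
  -- the final substitution
  have hN : Uni (NN U q e) := by
    unfold Uni
    rw [NN_det]
    rcases hU with h5 | h5 <;> rcases he with h6 | h6 <;> rw [h5, h6] <;> norm_num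
  have hNF : NF th (tr L1 (NN U q e) 1) := by
    refine ⟨σ, 1, be, Or.inl Matrix.det_one, ?_⟩
    intro i j
    have h5 : ∑ k, V th (σ i) k * (((1 : Matrix (Fin 4) (Fin 4) ℤ) k j : ℤ) : ℝ) = V th (σ i) j := by
      simp [Matrix.one_apply]
    rw [h5]
    unfold tr
    rw [Pi.one_apply, one_mul, Fin.sum_univ_castSucc]
    induction j using Fin.lastCases with
    | last =>
      have h6 : ∑ k : Fin 3, L1 i k.castSucc * ((NN U q e k.castSucc (Fin.last 3) : ℤ) : ℝ) =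
          -(be i * q3 q (th (σ i))) := by
        have h7 : ∀ k : Fin 3, L1 i k.castSucc * ((NN U q e k.castSucc (Fin.last 3) : ℤ) : ℝ) =
            ∑ j : Fin 3, -((q j : ℝ) * (L1 i k.castSucc * (U k j : ℝ))) := by
          intro k
          rw [NN_cl]
          push_cast
          rw [Finset.sum_neg_distrib, mul_neg, Finset.mul_sum]
          congr 1
          exact Finset.sum_congr rfl (fun j _ => by ring)
        simp_rw [h7]
        rw [Finset.sum_comm]
        simp_rw [Finset.sum_neg_distrib, ← Finset.mul_sum, h1]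
        unfold q3
        rw [Fin.sum_univ_three]
        simp only [Fin.val_zero, Fin.val_one, Fin.val_two, pow_zero, pow_one]
        ring
      rw [h6, NN_ll, h3 i]
      have h8 := hq (σ i)
      rw [hzσ] at h8
      have h9 : (e : ℝ) * (be i * y i) * (e : ℝ) = ((e : ℝ) * (e : ℝ)) * (be i * y i) := by ring
      rw [h9, hee, h8]
      unfold V
      rw [Fin.val_last]
      ring
    | cast j =>
      have h6 : ∑ k : Fin 3, L1 i k.castSucc * ((NN U q e k.castSucc j.castSucc : ℤ) : ℝ) =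
          be i * th (σ i) ^ (j : ℕ) := by
        rw [← h1 i j]
        exact Finset.sum_congr rfl (fun k _ => by rw [NN_cc])
      rw [h6, NN_lc]
      unfold V
      rw [Fin.val_castSucc]
      push_cast
      ring
  have h5 : NF th L1 := nf_of_tr hN (fun i => one_ne_zero) hNF
  rw [hL1] at h5
  exact nf_of_tr hW (fun i => one_ne_zero) h5

end Pool.Agent.Work.MP_77d073_nt.Q4
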