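import Pool.Agent.Work.MP_77d073_nt.Q4.Th

/-!
MODULE Exp (S-M).  Expansion of the off-diagonal part.

PROOF.  By `th_bd`, `|th i|` for `i = 0..3` lies in `(1.355674, 1.355675)`, `(0.477259, 0.477260)`, `(0.737640, 0.737641)`,
`(2.095293, 2.095294)`: so `|th j / th i| ≠ 1` for `i ≠ j` and `|th j / th i| < 5` for all `i, j`.
Take `i₀ ≠ j₀` with `F i₀ j₀ ≠ 0`, and `e = 1` or `e = -1` such that `|(th j₀ / th i₀)^e| > 1`.  Then `|F i₀ j₀ ((th j₀/th i₀)^e)^n| → ∞`
(`n : ℕ`), so there is a least `N` such that some off-diagonal `|F i j ((th j/th i)^e)^N| > η` (`Nat.find`).  `N ≠ 0`.  For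
`n = N - 1` all off-diagonal ones are `≤ η`, and the pair `(i, j)` that is `> η` at `N` has `|...| ≥ η / 5` at `N - 1`, as
`|(th j/th i)^e| ≤ 5`.  The answer is the integer `e * (N - 1)`.
-/

set_option autoImplicit false

namespace Pool.Agent.Work.MP_77d073_nt.Q4

private theorem th_facts {th : Fin 4 → ℝ} (hth : IsTh th) :
    (∀ i, 0.47 < |th i| ∧ |th i| < 2.1) ∧ ∀ i j, i ≠ j → |th i| ≠ |th j| := by
  obtain ⟨⟨a1, a2⟩, ⟨b1, b2⟩, ⟨c1, c2⟩, ⟨d1, d2⟩⟩ := th_bd hth
  have h0 : |th 0| = -th 0 := abs_of_neg (by linarith)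
  have h1 : |th 1| = -th 1 := abs_of_neg (by linarith)
  have h2 : |th 2| = th 2 := abs_of_pos (by linarith)
  have h3 : |th 3| = th 3 := abs_of_pos (by linarith)
  constructor
  · rw [Fin.forall_fin_succ, Fin.forall_fin_succ, Fin.forall_fin_succ, Fin.forall_fin_one]
    refine ⟨?_, ?_, ?_, ?_⟩
    · rw [h0]
      constructor <;> linarith
    · show 0.47 < |th 1| ∧ |th 1| < 2.1
      rw [h1]
      constructor <;> linarith
    · show 0.47 < |th 2| ∧ |th 2| < 2.1
      rw [h2]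
      constructor <;> linarith
    · show 0.47 < |th 3| ∧ |th 3| < 2.1
      rw [h3]
      constructor <;> linarith
  · have key : ∀ i j : Fin 4, i < j → |th i| ≠ |th j| := by
      intro i j hij
      fin_cases i <;> fin_cases j <;> first
        | exact absurd hij (by decide)
        | (show |th 0| ≠ |th 1|; rw [h0, h1]; intro h; linarith)
        | (show |th 0| ≠ |th 2|; rw [h0, h2]; intro h; linarith)
        | (show |th 0| ≠ |th 3|; rw [h0, h3]; intro h; linarith)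
        | (show |th 1| ≠ |th 2|; rw [h1, h2]; intro h; linarith)
        | (show |th 1| ≠ |th 3|; rw [h1, h3]; intro h; linarith)
        | (show |th 2| ≠ |th 3|; rw [h2, h3]; intro h; linarith)
    intro i j hij
    rcases lt_or_gt_of_ne hij with h | h
    · exact key i j h
    · exact (key j i h).symm

theorem expand {th : Fin 4 → ℝ} (hth : IsTh th) {η : ℝ} (hη : 0 < η) (F : Fin 4 → Fin 4 → ℝ)
    (hF : ∀ i j, i ≠ j → |F i j| ≤ η) (hne : ∃ i j, i ≠ j ∧ F i j ≠ 0) :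
    ∃ n : ℤ, (∀ i j, i ≠ j → |F i j * (th j / th i) ^ n| ≤ η) ∧
      ∃ i j, i ≠ j ∧ η / 5 ≤ |F i j * (th j / th i) ^ n| := by
  classical
  obtain ⟨hb, hd⟩ := th_facts hth
  have hpos : ∀ i, 0 < |th i| := fun i => by linarith [(hb i).1]
  have hrat : ∀ i j, |th j / th i| ≤ 5 := by
    intro i j
    rw [abs_div, div_le_iff₀ (hpos i)]
    linarith [(hb i).1, (hb j).2]
  obtain ⟨i₀, j₀, hij, hF0⟩ := hne
  -- the exponent sign
  obtain ⟨e, he, he1⟩ : ∃ e : ℤ, (e = 1 ∨ e = -1) ∧ 1 < |(th j₀ / th i₀) ^ e| := by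
    rcases lt_or_gt_of_ne (hd i₀ j₀ hij) with h | h
    · refine ⟨1, Or.inl rfl, ?_⟩
      rw [zpow_one, abs_div, lt_div_iff₀ (hpos i₀)]
      linarith
    · refine ⟨-1, Or.inr rfl, ?_⟩
      rw [zpow_neg_one, inv_div, abs_div, lt_div_iff₀ (hpos j₀)]
      linarith
  have hr5 : ∀ i j, |(th j / th i) ^ e| ≤ 5 := by
    intro i j
    rcases he with rfl | rfl
    · rw [zpow_one]
      exact hrat i j
    · rw [zpow_neg_one, inv_div]
      exact hrat j i
  have hex : ∃ n : ℕ, ∃ i j, i ≠ j ∧ η < |F i j * ((th j / th i) ^ e) ^ n| := by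
    obtain ⟨n, hn⟩ := pow_unbounded_of_one_lt (η / |F i₀ j₀|) he1
    refine ⟨n, i₀, j₀, hij, ?_⟩
    rw [abs_mul, abs_pow]
    rw [div_lt_iff₀ (abs_pos.2 hF0)] at hn
    linarith
  have hN := Nat.find_spec hex
  have hmin := fun m (hm : m < Nat.find hex) => Nat.find_min hex hm
  set N := Nat.find hex with hNd
  have hN0 : N ≠ 0 := by
    intro h0
    rw [h0] at hN
    obtain ⟨i, j, hij', hlt⟩ := hN
    rw [pow_zero, mul_one] at hlt
    exact absurd (hF i j hij') (not_le.2 hlt)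
  obtain ⟨m, hm⟩ : ∃ m, N = m + 1 := ⟨N - 1, by omega⟩
  have hpow : ∀ i j, (th j / th i) ^ (e * (m : ℤ)) = ((th j / th i) ^ e) ^ m := by
    intro i j
    rw [zpow_mul, zpow_natCast]
  refine ⟨e * (m : ℤ), ?_, ?_⟩
  · intro i j hij'
    rw [hpow]
    by_contra hc
    push Not at hc
    exact hmin m (by omega) ⟨i, j, hij', hc⟩
  · obtain ⟨i, j, hij', hlt⟩ := hN
    refine ⟨i, j, hij', ?_⟩
    rw [hpow]
    rw [hm, pow_succ, ← mul_assoc, abs_mul] at hlt
    have h1 := mul_le_mul_of_nonneg_left (hr5 i j) (abs_nonneg (F i j * ((th j / th i) ^ e) ^ m))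
    linarith

end Pool.Agent.Work.MP_77d073_nt.Q4
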