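import Pool.Agent.Work.MP_77d073_nt.Q4.ExA
import Pool.Agent.Work.MP_77d073_nt.Q4.ExB
import Pool.Agent.Work.MP_77d073_nt.Q4.Conc

/-!
MODULE ExtNF (M).  Every extremal system is the norm form.

PROOF.  `exA` gives `L' ∈ closure (orb L)`, `c`, `a`.  `|det L'| = 1` (`orb_det`), the lower bound `κ` for `L'` (`orb_lower`), so `exB`
gives `NF th L'`.  `conc` gives `PairResult.Conclusion L`; `PairResult.eigen_of_conclusion` an integer matrix `A` with
`∑ j, L i j * A j k = μ i * L i k`, `μ` injective; `values_of_matrix` (file `Disc.lean`) a constant `C` with all values of `∏ L_i` at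
integer points in `C ℤ`; `closed_orbit` (file `Pairb.lean`): `L' ∈ orb L`, that is `L' = tr L M t`, `Uni M`, `∏ t i = 1`, so `t i ≠ 0`,
and `nf_of_tr` gives `NF th L`.  (See the proof of `PairResult.result` for the use of these lemmas.)
-/

set_option autoImplicit false

namespace Pool.Agent.Work.MP_77d073_nt.Q4

open Pool.Agent.Work.MP_77d073_nt

theorem extNF {th : Fin 4 → ℝ} (hth : IsTh th) {L : Fin 4 → Fin 4 → ℝ} (hL : |(Matrix.of L).det| = 1)
    (h : ∀ p : Fin 4 → ℤ, p ≠ 0 → κ ≤ |∏ i, ∑ j, L i j * (p j : ℝ)|) : NF th L := by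
  obtain ⟨L', hL', c, a, hc, ha, hP⟩ := exA hL h
  have hdet' : |(Matrix.of L').det| = 1 := by rw [orb_det hL', hL]
  have hlow' : ∀ p : Fin 4 → ℤ, p ≠ 0 → κ ≤ |∏ i, ∑ j, L' i j * (p j : ℝ)| :=
    fun p hp => orb_lower hL' h p hp
  have hNF' : NF th L' := exB hth hdet' hlow' hc ha hP
  have hLdet : (Matrix.of L).det ≠ 0 := by
    intro h0
    rw [h0, abs_zero] at hL
    exact zero_ne_one hL
  have hli : LinearIndependent ℝ L := (li_iff_det L).mpr hLdet
  have hb : PairResult.Bounded L := ⟨κ, kap_pos, h⟩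
  have hconc := conc hth hli hb hL' hNF'
  obtain ⟨A, μ, hμ, hA⟩ := PairResult.eigen_of_conclusion hli hconc
  obtain ⟨C, hC⟩ := values_of_matrix hμ hA
  obtain ⟨M, t, hM, ht, hLt⟩ := closed_orbit hLdet hC hL'
  have ht0 : ∀ i, t i ≠ 0 := by
    intro i hi
    rw [Finset.prod_eq_zero (Finset.mem_univ i) hi] at ht
    exact zero_ne_one ht
  rw [hLt] at hNF'
  exact nf_of_tr hM ht0 hNF'

end Pool.Agent.Work.MP_77d073_nt.Q4
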