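import Pool.Agent.Work.MP_77d073_nt.Q4.IsoLoc

/-!
MODULE IsoGl (M-L).  The norm form is isolated: systems with lower bound close to `κ` are the norm form.

PROOF.  Suppose not: for every `k : ℕ` there is `L k` with `|det| = 1`, lower bound `κ - 1/(k+1)`, and not `NF th (L k)`.  For `k`
large the lower bound is at least `κ/2`, and `reduction` (`c = κ/2`, `D = 1`) gives `β` and unimodular `M k` with
`T k = tr (L k) (M k) 1` in `box 4 β`; not `NF` (`nf_of_tr`).  A subsequence converges: `T k → T` (`box_compact`), `|det T| = 1`, lower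
bound `κ` (for each `p` by continuity).  `extNF`: `T i j = a i * ∑ l, V th (σ i) l * U l j`, with `|∏ a| * |det V| = 1`, so
`a i ≠ 0` and `|∏ a|⁻¹ = |det V| = √725`.  Let `U'` be the inverse of `U` and
`Y k i j = (a (σ⁻¹ i))⁻¹ * ∑ l, T k (σ⁻¹ i) l * U' l j`, that is `Y k = tr (rows of T k permuted by σ⁻¹) U' (..)`.  Then `Y k → V th`,
`|det (Y k)| = |det V|`, the lower bound for `Y k` is `(κ - 1/(k+1)) √725 = 1 - √725/(k+1)`.  Let `R` be the inverse matrix of `V th` and
`F k = (Y k - V) R`, so `F k → 0` and `Y k = pert th (F k)`.  For large `k`, `isoLoc` gives `F k i j = 0` (`i ≠ j`), so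
`Y k i j = (1 + F k i i) * V th i j`: `NF th (Y k)`, hence `NF th (T k)` (`nf_of_tr`, `nf_perm`): contradiction.
-/

set_option autoImplicit false

namespace Pool.Agent.Work.MP_77d073_nt.Q4

open Pool.Agent.Work.MP_77d073_nt Filter Topology

private lemma ig_lower {n : ℕ} {L : Fin n → Fin n → ℝ} {c : ℝ}
    (hc : ∀ p : Fin n → ℤ, p ≠ 0 → c ≤ |∏ i, ∑ j, L i j * (p j : ℝ)|)
    {M : Matrix (Fin n) (Fin n) ℤ} (hM : M.det ≠ 0) (t : Fin n → ℝ)
    (p : Fin n → ℤ) (hp : p ≠ 0) : |∏ i, t i| * c ≤ |∏ i, ∑ j, tr L M t i j * (p j : ℝ)| := by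
  have hq : M.mulVec p ≠ 0 := by
    intro h
    exact hp (Matrix.eq_zero_of_mulVec_eq_zero hM h)
  have h1 := hc _ hq
  have h2 : ∏ i, ∑ j, tr L M t i j * (p j : ℝ) =
      (∏ i, t i) * ∏ i, ∑ j, L i j * ((M.mulVec p j : ℤ) : ℝ) := by
    rw [← Finset.prod_mul_distrib]
    refine Finset.prod_congr rfl fun i _ => ?_
    rw [tr_sum]
    congr 1
    refine Finset.sum_congr rfl fun l _ => ?_
    congr 1
    simp only [Matrix.mulVec, dotProduct]
    push_cast
    rfl
  rw [h2, abs_mul]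
  exact mul_le_mul_of_nonneg_left h1 (abs_nonneg _)

private lemma ig_perm {n : ℕ} {L : Fin n → Fin n → ℝ} (τ : Equiv.Perm (Fin n)) :
    |(Matrix.of fun i => L (τ i)).det| = |(Matrix.of L).det| := by
  have h1 : (Matrix.of fun i => L (τ i)) = (Matrix.of L).submatrix τ id := rfl
  rw [h1, Matrix.det_permute, abs_mul]
  rcases Int.units_eq_one_or (Equiv.Perm.sign τ) with h | h <;> simp [h]

private lemma ig_det {n : ℕ} (L : Fin n → Fin n → ℝ) {M : Matrix (Fin n) (Fin n) ℤ} (hM : Uni M)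
    (t : Fin n → ℝ) : |(Matrix.of (tr L M t)).det| = |∏ i, t i| * |(Matrix.of L).det| := by
  rw [tr_det, abs_mul, abs_mul]
  rcases hM with h | h <;> simp [h]

theorem isoGl {th : Fin 4 → ℝ} (hth : IsTh th) :
    ∃ ε : ℝ, 0 < ε ∧ ∀ L : Fin 4 → Fin 4 → ℝ, |(Matrix.of L).det| = 1 →
      (∀ p : Fin 4 → ℤ, p ≠ 0 → κ - ε ≤ |∏ i, ∑ j, L i j * (p j : ℝ)|) → NF th L := by
  classical
  by_contra hcon
  push Not at hcon
  have hκ := kap_pos
  obtain ⟨e, he⟩ : ∃ e : ℕ → ℝ, e = fun k : ℕ => κ / 2 * (1 / ((k : ℝ) + 1)) := ⟨_, rfl⟩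
  have he0 : ∀ k, 0 < e k := fun k => by rw [he]; positivity
  have he2 : ∀ k, e k ≤ κ / 2 := fun k => by
    have h1 : 1 / ((k : ℝ) + 1) ≤ 1 := by
      rw [div_le_one (by positivity)]
      have : (0 : ℝ) ≤ k := Nat.cast_nonneg k
      linarith
    rw [he]
    have : (0 : ℝ) ≤ κ / 2 := by positivity
    simp only
    nlinarith
  have helim : Tendsto e atTop (𝓝 0) := by
    rw [he]
    have h1 := (tendsto_one_div_add_atTop_nhds_zero_nat (𝕜 := ℝ)).const_mul (κ / 2)
    rwa [mul_zero] at h1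
  choose L hLdet hLlow hLnf using fun k : ℕ => hcon (e k) (he0 k)
  obtain ⟨β, hβ, hred⟩ := reduction (n := 4) (by norm_num) (c := κ / 2) (D := 1) (by positivity)
    one_pos
  choose M hM hMb using fun k => hred (L k) (hLdet k) (fun p hp => le_trans (by
    have := he2 k
    linarith) (hLlow k p hp))
  have hMu : ∀ k, Uni (M k) := hM
  obtain ⟨T, hT⟩ : ∃ T : ℕ → Fin 4 → Fin 4 → ℝ, T = fun k => tr (L k) (M k) 1 := ⟨_, rfl⟩
  have hTbox : ∀ k, T k ∈ box 4 β := by
    intro k i j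
    rw [hT]
    show |(1 : Fin 4 → ℝ) i * ∑ l, L k i l * (M k l j : ℝ)| ≤ β
    rw [Pi.one_apply, one_mul]
    exact hMb k i j
  have hTdet : ∀ k, |(Matrix.of (T k)).det| = 1 := by
    intro k
    rw [hT]
    simp only
    rw [ig_det _ (hMu k), hLdet k]
    simp
  have hTlow : ∀ k, ∀ p : Fin 4 → ℤ, p ≠ 0 → κ - e k ≤ |∏ i, ∑ j, T k i j * (p j : ℝ)| := by
    intro k p hp
    rw [hT]
    exact tr_lower (hLlow k) (hMu k).ne_zero (by simp) p hp
  obtain ⟨A, -, φ, hφ, hlim⟩ := (box_compact (n := 4) β).tendsto_subseq hTbox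
  have hAdet : |(Matrix.of A).det| = 1 := by
    have hc : Continuous fun B : Fin 4 → Fin 4 → ℝ => |(Matrix.of B).det| :=
      (Continuous.matrix_det (continuous_id : Continuous fun B : Matrix (Fin 4) (Fin 4) ℝ => B)).abs
    have h1 := (hc.tendsto A).comp hlim
    refine tendsto_nhds_unique h1 (Tendsto.congr (fun k => ?_) tendsto_const_nhds)
    exact (hTdet (φ k)).symm
  have helim' : Tendsto (fun k => e (φ k)) atTop (𝓝 0) := helim.comp hφ.tendsto_atTop
  have hAlow : ∀ p : Fin 4 → ℤ, p ≠ 0 → κ ≤ |∏ i, ∑ j, A i j * (p j : ℝ)| := by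
    intro p hp
    have hc : Continuous fun B : Fin 4 → Fin 4 → ℝ => |∏ i, ∑ j, B i j * (p j : ℝ)| := by
      fun_prop
    have h1 := (hc.tendsto A).comp hlim
    have h2 : Tendsto (fun k => κ - e (φ k)) atTop (𝓝 κ) := by
      have h3 := helim'.const_sub κ
      rwa [sub_zero] at h3
    exact le_of_tendsto_of_tendsto' h2 h1 fun k => hTlow (φ k) p hp
  obtain ⟨σ, U, a, hU, hAeq⟩ := extNF hth hAdet hAlow
  have hA2 : A = tr (fun i => V th (σ i)) U a := by
    funext i j
    exact hAeq i j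
  have hdV : |∏ i, a i| * |(Matrix.of (V th)).det| = 1 := by
    rw [← hAdet, hA2, ig_det _ hU, ig_perm]
  have hdV0 : (Matrix.of (V th)).det ≠ 0 := by
    intro h0
    rw [h0, abs_zero, mul_zero] at hdV
    exact zero_ne_one hdV
  have hprod : ∏ i, a i ≠ 0 := by
    intro h0
    rw [h0, abs_zero, zero_mul] at hdV
    exact zero_ne_one hdV
  have ha : ∀ i, a i ≠ 0 := fun i => (Finset.prod_ne_zero_iff.1 hprod) i (Finset.mem_univ i)
  have hκV : κ * |(Matrix.of (V th)).det| = 1 := by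
    have h1 : (κ * |(Matrix.of (V th)).det|) ^ 2 = 1 := by
      rw [mul_pow, sq_abs, detV_sq hth, kap_sq]
    have h2 : 0 ≤ κ * |(Matrix.of (V th)).det| := by positivity
    nlinarith
  obtain ⟨U', hU', hUU', -⟩ := hU.inv
  obtain ⟨b, hb⟩ : ∃ b : Fin 4 → ℝ, b = fun i => (a (σ.symm i))⁻¹ := ⟨_, rfl⟩
  have hb0 : ∀ i, b i ≠ 0 := fun i => by
    rw [hb]
    exact inv_ne_zero (ha _)
  have hbprod : |∏ i, b i| = |(Matrix.of (V th)).det| := by
    have h1 : ∏ i, b i = (∏ i, a i)⁻¹ := by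
      rw [hb, Finset.prod_inv_distrib]
      congr 1
      exact Equiv.prod_comp σ.symm a
    rw [h1, abs_inv]
    exact inv_eq_of_mul_eq_one_right hdV
  obtain ⟨G, hG⟩ : ∃ G : (Fin 4 → Fin 4 → ℝ) → Fin 4 → Fin 4 → ℝ,
    G = fun B => tr (fun i => B (σ.symm i)) U' b := ⟨_, rfl⟩
  have hGc : Continuous G := by
    rw [hG]
    exact (tr_cont U' b).comp (continuous_pi fun i => continuous_apply (σ.symm i))
  have hGA : G A = V th := by
    rw [hG]
    simp only
    have h1 : (fun i => A (σ.symm i)) = tr (V th) U (fun i => a (σ.symm i)) := by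
      funext i j
      rw [hA2]
      simp only [tr, Equiv.apply_symm_apply]
    rw [h1, tr_tr, hUU']
    have h2 : (b * fun i => a (σ.symm i)) = 1 := by
      funext i
      rw [hb]
      exact inv_mul_cancel₀ (ha _)
    rw [h2, tr_one]
  obtain ⟨δ, hδ, ε, hε, hloc⟩ := isoLoc hth
  obtain ⟨H, hH⟩ : ∃ H : (Fin 4 → Fin 4 → ℝ) → Fin 4 → Fin 4 → ℝ,
    H = fun B i j => ∑ l, (G B i l - V th i l) * (Matrix.of (V th))⁻¹ l j := ⟨_, rfl⟩
  have hHc : ∀ i j, Continuous fun B => H B i j := by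
    intro i j
    rw [hH]
    simp only
    refine continuous_finsetSum _ fun l _ => ?_
    refine Continuous.mul ?_ continuous_const
    exact ((continuous_apply l).comp ((continuous_apply i).comp hGc)).sub continuous_const
  have hHA : ∀ i j, H A i j = 0 := by
    intro i j
    rw [hH]
    simp only [hGA, sub_self, zero_mul, Finset.sum_const_zero]
  have hpert : ∀ B, pert th (H B) = G B := by
    intro B
    funext i j
    have h1 : (Matrix.of (H B) * Matrix.of (V th)) = Matrix.of (fun i j => G B i j - V th i j) := by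
      have h2 : Matrix.of (H B) = Matrix.of (fun i j => G B i j - V th i j) *
          (Matrix.of (V th))⁻¹ := by
        ext i j
        rw [hH]
        rfl
      rw [h2, Matrix.nonsing_inv_mul_cancel_right _ _ (isUnit_iff_ne_zero.2 hdV0)]
    have h3 := congrFun (congrFun h1 i) j
    have h4 : ∑ k, H B i k * V th k j = G B i j - V th i j := h3
    show V th i j + ∑ k, H B i k * V th k j = G B i j
    rw [h4]
    ring
  have ev1 : ∀ᶠ k in atTop, ∀ i j, |H (T (φ k)) i j| ≤ δ := by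
    rw [eventually_all]
    intro i
    rw [eventually_all]
    intro j
    have h1 := (((hHc i j).tendsto A).comp hlim).abs
    rw [hHA i j, abs_zero] at h1
    exact (h1.eventually (gt_mem_nhds hδ)).mono fun k hk => le_of_lt hk
  have ev2 : ∀ᶠ k in atTop, e (φ k) * |(Matrix.of (V th)).det| ≤ ε := by
    have h1 := helim'.mul_const |(Matrix.of (V th)).det|
    rw [zero_mul] at h1
    exact (h1.eventually (gt_mem_nhds hε)).mono fun k hk => le_of_lt hk
  obtain ⟨k, hk1, hk2⟩ := (ev1.and ev2).exists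
  have hz := hloc (H (T (φ k))) hk1 (by
    rw [hpert, hG]
    simp only
    rw [ig_det _ hU', ig_perm, hTdet, mul_one, hbprod]) (by
    intro p hp
    rw [hpert, hG]
    simp only
    have h1 : ∀ p : Fin 4 → ℤ, p ≠ 0 →
        κ - e (φ k) ≤ |∏ i, ∑ j, (fun i => T (φ k) (σ.symm i)) i j * (p j : ℝ)| := by
      intro p hp
      have h2 := hTlow (φ k) p hp
      rw [← Equiv.prod_comp σ.symm (fun i => ∑ j, T (φ k) i j * (p j : ℝ))] at h2
      exact h2
    have h3 := ig_lower h1 hU'.ne_zero b p hp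
    refine le_trans ?_ h3
    rw [hbprod]
    nlinarith)
  have hGk : NF th (G (T (φ k))) := by
    refine ⟨1, 1, fun i => 1 + H (T (φ k)) i i, Or.inl Matrix.det_one, fun i j => ?_⟩
    rw [← hpert]
    have h1 : ∑ l, V th ((1 : Equiv.Perm (Fin 4)) i) l * (((1 : Matrix (Fin 4) (Fin 4) ℤ) l j : ℤ) : ℝ)
        = V th i j := by
      simp [Matrix.one_apply]
    rw [h1]
    show V th i j + ∑ l, H (T (φ k)) i l * V th l j = _
    rw [Finset.sum_eq_single i (fun l _ hl => by rw [hz i l hl.symm, zero_mul]) (fun h =>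
      absurd (Finset.mem_univ i) h)]
    ring
  rw [hG] at hGk
  have h1 := nf_perm σ (nf_of_tr hU' hb0 hGk)
  simp only [Equiv.symm_apply_apply] at h1
  rw [hT] at h1
  exact hLnf (φ k) (nf_of_tr (hMu _) (fun i => one_ne_zero) h1)

end Pool.Agent.Work.MP_77d073_nt.Q4
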