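import Pool.Agent.Work.MP_77d073_nt.Baire
import Pool.Agent.Work.MP_77d073_nt.Q4.Nrm

/-!
MODULE Near (M).  A norm form system close to `V` is a scaled `V`.

PROOF.  `pert th F = V + F V`.  Let `NF th (pert th F)` with data `σ, U, a`.  Determinants (`Matrix.of (pert th F) =
diagonal a * (V permuted) * U`): `|∏ a| * |det V| = |det V|`, `det V ≠ 0` (Vandermonde), so `∏ a = ±1`, and for integer `p`:
`val (pert th F) p = ∏ a i * ∏ i, (V_(σ i))(U p) = ± ∏ i, V_i (U p)` is an integer by `norm_int` (`Equiv.prod_comp`), and so is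
`val (V th) p`.  (`val` is in `Baire.lean`.)  For the finitely many `p : Fin 4 → Fin 5` the function `F ↦ val (pert th F) p` is
continuous with value `val (V th) p` at `F = 0`, so for small `F` the two integers differ by less than `1`: they are equal.
`poly_grid`: `val (pert th F) x = val (V th) x` for all real `x`.  `near_iso` (for `L₀ = V th`; its open set contains
`pert th F` for small `F`) gives `pert th F i j = s i * V th i j`, so `∑ k, (F i k - (s i - 1) δ_ik) V th k j = 0` for all `j`, and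
`V th` is invertible: `F i k = 0` for `k ≠ i`.
`η`: continuity of finitely many functions and of `F ↦ pert th F` at `0` (`Metric.isOpen_iff`/`eventually` near `0` in the space
`Fin 4 → Fin 4 → ℝ`; `|F i j| ≤ η` for all `i, j` puts `F` in the ball of radius `2η`, `dist_pi_lt_iff`/`pi_norm_le_iff`).
-/

set_option autoImplicit false

namespace Pool.Agent.Work.MP_77d073_nt.Q4

open Pool.Agent.Work.MP_77d073_nt

private theorem near_detV {th : Fin 4 → ℝ} (hth : IsTh th) : (Matrix.of (V th)).det ≠ 0 := by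
  have h1 : Matrix.of (V th) = Matrix.vandermonde th := by
    ext i j
    rfl
  rw [h1]
  exact Matrix.det_vandermonde_ne_zero_iff.2 hth.mono.injective

private theorem near_int {th : Fin 4 → ℝ} (hth : IsTh th) (p : Fin 4 → ℤ) :
    ∃ z : ℤ, val (V th) (fun j => (p j : ℝ)) = (z : ℝ) := norm_int hth p

private theorem near_det {th : Fin 4 → ℝ} {L : Fin 4 → Fin 4 → ℝ} (σ : Equiv.Perm (Fin 4))
    (U : Matrix (Fin 4) (Fin 4) ℤ) (a : Fin 4 → ℝ) (hU : Uni U)
    (h : ∀ i j, L i j = a i * ∑ k, V th (σ i) k * (U k j : ℝ)) :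
    |(Matrix.of L).det| = |∏ i, a i| * |(Matrix.of (V th)).det| := by
  have h1 : Matrix.of L = Matrix.diagonal a * ((Matrix.of (V th)).submatrix σ id *
      U.map (Int.cast : ℤ → ℝ)) := by
    ext i j
    rw [Matrix.diagonal_mul, Matrix.mul_apply]
    simp only [Matrix.of_apply, Matrix.submatrix_apply, id_eq, Matrix.map_apply]
    exact h i j
  have h2 : |(U.map (Int.cast : ℤ → ℝ)).det| = 1 := by
    have h3 : (U.map (Int.cast : ℤ → ℝ)).det = ((U.det : ℤ) : ℝ) := by
      have h4 := (Int.castRingHom ℝ).map_det U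
      rw [RingHom.mapMatrix_apply] at h4
      exact h4.symm
    rw [h3]
    rcases hU with h | h <;> rw [h] <;> simp
  have h5 : |((Equiv.Perm.sign σ : ℤ) : ℝ)| = 1 := by
    rcases Int.units_eq_one_or (Equiv.Perm.sign σ) with h | h <;> rw [h] <;> simp
  rw [h1, Matrix.det_mul, Matrix.det_mul, Matrix.det_diagonal, Matrix.det_permute, abs_mul,
    abs_mul, abs_mul, h2, h5, one_mul, mul_one]

private theorem near_val {th : Fin 4 → ℝ} (hth : IsTh th) {L : Fin 4 → Fin 4 → ℝ}
    (σ : Equiv.Perm (Fin 4)) (U : Matrix (Fin 4) (Fin 4) ℤ) (a : Fin 4 → ℝ)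
    (h : ∀ i j, L i j = a i * ∑ k, V th (σ i) k * (U k j : ℝ)) (ha : |∏ i, a i| = 1)
    (p : Fin 4 → ℤ) : ∃ z : ℤ, val L (fun j => (p j : ℝ)) = (z : ℝ) := by
  have h1 : ∀ i, ∑ j, L i j * (p j : ℝ) =
      a i * ∑ k, V th (σ i) k * ((∑ j, U k j * p j : ℤ) : ℝ) := by
    intro i
    have h2 : ∀ j, L i j * (p j : ℝ) = ∑ k, a i * (V th (σ i) k * ((U k j : ℝ) * (p j : ℝ))) := by
      intro j
      rw [h i j, mul_assoc, Finset.sum_mul, Finset.mul_sum]
      refine Finset.sum_congr rfl fun k _ => ?_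
      ring
    rw [Finset.sum_congr rfl fun j _ => h2 j, Finset.sum_comm, Finset.mul_sum]
    refine Finset.sum_congr rfl fun k _ => ?_
    push_cast
    rw [Finset.mul_sum, Finset.mul_sum]
  obtain ⟨z, hz⟩ := near_int hth (fun k => ∑ j, U k j * p j)
  have h3 : val L (fun j => (p j : ℝ)) = (∏ i, a i) * (z : ℝ) := by
    rw [← hz]
    unfold val
    rw [Finset.prod_congr rfl fun i _ => h1 i, Finset.prod_mul_distrib]
    congr 1
    exact Equiv.prod_comp σ (fun i => ∑ k, V th i k * ((∑ j, U k j * p j : ℤ) : ℝ))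
  rcases (abs_eq (zero_le_one)).1 ha with h4 | h4
  · refine ⟨z, ?_⟩
    rw [h3, h4, one_mul]
  · refine ⟨-z, ?_⟩
    rw [h3, h4]
    push_cast
    ring

private theorem near_pert_cont (th : Fin 4 → ℝ) :
    Continuous (fun F : Fin 4 → Fin 4 → ℝ => pert th F) := by
  unfold pert
  fun_prop

private theorem near_pert_zero (th : Fin 4 → ℝ) : pert th 0 = V th := by
  funext i j
  unfold pert
  simp

theorem near {th : Fin 4 → ℝ} (hth : IsTh th) :
    ∃ η : ℝ, 0 < η ∧ ∀ F : Fin 4 → Fin 4 → ℝ, (∀ i j, |F i j| ≤ η) →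
      |(Matrix.of (pert th F)).det| = |(Matrix.of (V th)).det| → NF th (pert th F) →
      ∀ i j, i ≠ j → F i j = 0 := by
  classical
  have hdV := near_detV hth
  obtain ⟨O, hO, hVO, hOs⟩ := near_iso hdV
  set W : Set (Fin 4 → Fin 4 → ℝ) := (fun F => pert th F) ⁻¹' O ∩
    ⋂ p : Fin 4 → Fin 5, {F | |val (pert th F) (fun j => ((p j : ℕ) : ℝ)) -
      val (V th) (fun j => ((p j : ℕ) : ℝ))| < 1} with hW
  have hWo : IsOpen W := by
    refine (hO.preimage (near_pert_cont th)).inter (isOpen_iInter_of_finite fun p => ?_)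
    exact isOpen_lt (((val_cont _).comp (near_pert_cont th)).sub continuous_const).abs
      continuous_const
  have h0W : (0 : Fin 4 → Fin 4 → ℝ) ∈ W := by
    refine ⟨?_, Set.mem_iInter.2 fun p => ?_⟩
    · show pert th 0 ∈ O
      rw [near_pert_zero]
      exact hVO
    · show |val (pert th 0) (fun j => ((p j : ℕ) : ℝ)) - val (V th) (fun j => ((p j : ℕ) : ℝ))| < 1
      rw [near_pert_zero, sub_self, abs_zero]
      exact zero_lt_one
  obtain ⟨ε, hε, hball⟩ := Metric.isOpen_iff.1 hWo 0 h0W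
  refine ⟨ε / 2, half_pos hε, fun F hF hdet hNF => ?_⟩
  have hFW : F ∈ W := by
    apply hball
    rw [mem_ball_zero_iff]
    have h1 : ‖F‖ ≤ ε / 2 := by
      rw [pi_norm_le_iff_of_nonneg (half_pos hε).le]
      intro i
      rw [pi_norm_le_iff_of_nonneg (half_pos hε).le]
      intro j
      rw [Real.norm_eq_abs]
      exact hF i j
    linarith
  obtain ⟨hFO, hFp⟩ := hFW
  rw [Set.mem_iInter] at hFp
  obtain ⟨σ, U, a, hU, hL⟩ := hNF
  have hd := near_det σ U a hU hL
  have ha : |∏ i, a i| = 1 := by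
    rw [hdet] at hd
    have h1 : (0 : ℝ) < |(Matrix.of (V th)).det| := abs_pos.2 hdV
    have h2 : (|∏ i, a i| - 1) * |(Matrix.of (V th)).det| = 0 := by linarith
    rcases mul_eq_zero.1 h2 with h3 | h3
    · linarith
    · exact absurd h3 h1.ne'
  have hgrid : ∀ p : Fin 4 → Fin (4 + 1), val (pert th F) (fun j => ((p j : ℕ) : ℝ)) =
      val (V th) (fun j => ((p j : ℕ) : ℝ)) := by
    intro p
    obtain ⟨z, hz⟩ := near_val hth σ U a hL ha (fun j => ((p j : ℕ) : ℤ))
    obtain ⟨z', hz'⟩ := near_int hth (fun j => ((p j : ℕ) : ℤ))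
    have hc : (fun j => (((p j : ℕ) : ℤ) : ℝ)) = fun j => ((p j : ℕ) : ℝ) := by
      funext j
      push_cast
      rfl
    rw [hc] at hz hz'
    have h1 : |(z : ℝ) - (z' : ℝ)| < 1 := by
      have h2 := hFp p
      rw [Set.mem_setOf_eq, hz, hz'] at h2
      exact h2
    have h3 : |z - z'| < 1 := by exact_mod_cast h1
    have h4 : z - z' = 0 := Int.abs_lt_one_iff.1 h3
    rw [hz, hz', sub_eq_zero.1 h4]
  have hall := poly_grid (pert th F) (V th) hgrid
  obtain ⟨s, -, -, hs⟩ := hOs (pert th F) hFO hall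
  intro i k hik
  have hvec : (fun l => F i l - (if l = i then s i - 1 else 0)) = 0 := by
    apply Matrix.eq_zero_of_vecMul_eq_zero hdV
    funext j
    have h1 := hs i j
    unfold pert at h1
    have h2 : (Matrix.vecMul (fun l => F i l - (if l = i then s i - 1 else 0))
        (Matrix.of (V th))) j = ∑ l, (F i l - (if l = i then s i - 1 else 0)) * V th l j := rfl
    rw [h2]
    have h3 : ∑ l, (F i l - (if l = i then s i - 1 else 0)) * V th l j =
        ∑ l, F i l * V th l j - (s i - 1) * V th i j := by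
      have h4 : ∀ l, (F i l - (if l = i then s i - 1 else 0)) * V th l j =
          F i l * V th l j - (if l = i then (s i - 1) * V th l j else 0) := by
        intro l
        split_ifs <;> ring
      rw [Finset.sum_congr rfl fun l _ => h4 l, Finset.sum_sub_distrib]
      congr 1
      rw [Finset.sum_ite_eq' Finset.univ i]
      simp
    rw [h3]
    show ∑ l, F i l * V th l j - (s i - 1) * V th i j = 0
    linarith
  have h5 := congrFun hvec k
  simp only [Pi.zero_apply] at h5
  rw [if_neg (fun h => hik h.symm), sub_zero] at h5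
  exact h5

end Pool.Agent.Work.MP_77d073_nt.Q4
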