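import Pool.Agent.Work.MP_77d073_nt.Q4.Nrm
import Pool.Agent.Work.MP_77d073_nt.Q4.Eul

/-!
MODULE Stp (S-M).  The units act on the perturbations.

PROOF.  `det C4 = 1` (`by decide`, `Matrix.det_succ_row_zero`, or `simp [Fin.sum_univ_succ]`), so `Uni C4`; let `D` be its inverse
(`Uni.inv`).  For `n ≥ 0` let `M = C4 ^ n`, for `n < 0` let `M = D ^ (-n)`; `Uni M` (`Matrix.det_pow`).  `V_C4` gives
`∑ l, V th i l * M l j = th i ^ n * V th i j` (induction; for `D`: multiply `V C4 = diag(th) V` by `D` on the right; `th i ≠ 0` by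
`prod_th`).  With `t i = th i ^ (-n)`: `∏ t i = 1` (`prod_th`), and
`tr (pert th F) M t i j = th i ^ (-n) * (th i ^ n * V th i j + ∑ k, F i k * th k ^ n * V th k j)`, which is
`pert th (fun i j => F i j * (th j / th i) ^ n) i j`.
-/

set_option autoImplicit false

namespace Pool.Agent.Work.MP_77d073_nt.Q4

open Pool.Agent.Work.MP_77d073_nt

private def Act (th : Fin 4 → ℝ) (M : Matrix (Fin 4) (Fin 4) ℤ) (a : Fin 4 → ℝ) : Prop :=
  ∀ i j, ∑ l, V th i l * (M l j : ℝ) = a i * V th i j

private theorem act_mul {th : Fin 4 → ℝ} {M M' : Matrix (Fin 4) (Fin 4) ℤ} {a b : Fin 4 → ℝ}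
    (h : Act th M a) (h' : Act th M' b) : Act th (M * M') (fun i => a i * b i) := by
  intro i j
  simp only [Matrix.mul_apply]
  push_cast
  simp_rw [Finset.mul_sum]
  rw [Finset.sum_comm]
  have h1 : ∀ k, ∑ l, V th i l * ((M l k : ℝ) * (M' k j : ℝ)) =
      a i * (V th i k * (M' k j : ℝ)) := by
    intro k
    have := h i k
    calc ∑ l, V th i l * ((M l k : ℝ) * (M' k j : ℝ))
        = (∑ l, V th i l * (M l k : ℝ)) * (M' k j : ℝ) := by
          rw [Finset.sum_mul]
          exact Finset.sum_congr rfl fun l _ => by ring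
      _ = a i * (V th i k * (M' k j : ℝ)) := by rw [this]; ring
  rw [Finset.sum_congr rfl fun k _ => h1 k, ← Finset.mul_sum, h' i j]
  ring

private theorem act_one (th : Fin 4 → ℝ) : Act th 1 (fun _ => 1) := by
  intro i j
  simp [Matrix.one_apply]

private theorem act_pow {th : Fin 4 → ℝ} {M : Matrix (Fin 4) (Fin 4) ℤ} {a : Fin 4 → ℝ}
    (h : Act th M a) (m : ℕ) : Act th (M ^ m) (fun i => a i ^ m) := by
  induction m with
  | zero => simpa using act_one th
  | succ m ih =>
    rw [pow_succ]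
    have := act_mul ih h
    simpa only [pow_succ] using this

private theorem act_inv {th : Fin 4 → ℝ} {M M' : Matrix (Fin 4) (Fin 4) ℤ} {a : Fin 4 → ℝ}
    (h : Act th M a) (ha : ∀ i, a i ≠ 0) (hM : M * M' = 1) :
    Act th M' (fun i => (a i)⁻¹) := by
  intro i j
  have h1 : ∑ k, V th i k * (((M * M') k j : ℤ) : ℝ) = V th i j := by
    rw [hM]
    simp [Matrix.one_apply]
  have h2 : ∑ k, V th i k * (((M * M') k j : ℤ) : ℝ) = a i * ∑ l, V th i l * (M' l j : ℝ) := by
    simp only [Matrix.mul_apply]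
    push_cast
    simp_rw [Finset.mul_sum]
    rw [Finset.sum_comm]
    apply Finset.sum_congr rfl
    intro k _
    have := h i k
    calc ∑ l, V th i l * ((M l k : ℝ) * (M' k j : ℝ))
        = (∑ l, V th i l * (M l k : ℝ)) * (M' k j : ℝ) := by
          rw [Finset.sum_mul]
          exact Finset.sum_congr rfl fun l _ => by ring
      _ = a i * (V th i k * (M' k j : ℝ)) := by rw [this]; ring
  rw [h1] at h2
  show ∑ l, V th i l * (M' l j : ℝ) = (a i)⁻¹ * V th i j
  rw [h2, inv_mul_cancel_left₀ (ha i)]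

private theorem uni_pow {M : Matrix (Fin 4) (Fin 4) ℤ} (h : Uni M) (m : ℕ) : Uni (M ^ m) := by
  induction m with
  | zero =>
    left
    simp
  | succ m ih =>
    rw [pow_succ]
    exact ih.mul h

private theorem det_C4 : C4.det = 1 := by
  unfold C4
  simp [Matrix.det_succ_row_zero, Fin.sum_univ_succ]
  rfl

private theorem exists_act {th : Fin 4 → ℝ} (hth : IsTh th) (h0 : ∀ i, th i ≠ 0) (n : ℤ) :
    ∃ M : Matrix (Fin 4) (Fin 4) ℤ, Uni M ∧ Act th M (fun i => th i ^ n) := by
  have hC : Act th C4 th := fun i k => V_C4 hth i k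
  have hU : Uni C4 := Or.inl det_C4
  obtain ⟨D, hD, hD1, -⟩ := hU.inv
  have hDa := act_inv hC h0 hD1
  rcases Int.eq_nat_or_neg n with ⟨m, rfl | rfl⟩
  · refine ⟨C4 ^ m, uni_pow hU m, ?_⟩
    simpa only [zpow_natCast] using act_pow hC m
  · refine ⟨D ^ m, uni_pow hD m, ?_⟩
    have := act_pow hDa m
    simpa only [zpow_neg, zpow_natCast, inv_pow] using this

theorem step {th : Fin 4 → ℝ} (hth : IsTh th) (F : Fin 4 → Fin 4 → ℝ) (n : ℤ) :
    ∃ (M : Matrix (Fin 4) (Fin 4) ℤ) (t : Fin 4 → ℝ), Uni M ∧ ∏ i, t i = 1 ∧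
      tr (pert th F) M t = pert th (fun i j => F i j * (th j / th i) ^ n) := by
  have h0 : ∀ i, th i ≠ 0 := by
    intro i hi
    have := prod_th hth
    rw [Finset.prod_eq_zero (Finset.mem_univ i) hi] at this
    exact one_ne_zero this.symm
  obtain ⟨M, hM, hA⟩ := exists_act hth h0 n
  refine ⟨M, fun i => th i ^ (-n), hM, ?_, ?_⟩
  · rw [Finset.prod_zpow, prod_th hth, one_zpow]
  · funext i j
    unfold tr pert
    have h1 : ∑ k, (V th i k + ∑ l, F i l * V th l k) * (M k j : ℝ) =
        th i ^ n * V th i j + ∑ l, F i l * (th l ^ n * V th l j) := by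
      simp_rw [add_mul]
      rw [Finset.sum_add_distrib, hA i j]
      congr 1
      simp_rw [Finset.sum_mul]
      rw [Finset.sum_comm]
      apply Finset.sum_congr rfl
      intro l _
      rw [← hA l j, Finset.mul_sum]
      exact Finset.sum_congr rfl fun k _ => by ring
    rw [h1, mul_add, Finset.mul_sum]
    have h2 : th i ^ (-n) * (th i ^ n * V th i j) = V th i j := by
      rw [zpow_neg, inv_mul_cancel_left₀ (zpow_ne_zero n (h0 i))]
    rw [h2]
    congr 1
    apply Finset.sum_congr rfl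
    intro l _
    show th i ^ (-n) * (F i l * (th l ^ n * V th l j)) = F i l * (th l / th i) ^ n * V th l j
    rw [div_zpow, zpow_neg]
    field_simp

end Pool.Agent.Work.MP_77d073_nt.Q4
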