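import Pool.Agent.Work.MP_77d073_nt.Q4.ExtNF
import Pool.Agent.Work.MP_77d073_nt.Q4.Near
import Pool.Agent.Work.MP_77d073_nt.Q4.Exp
import Pool.Agent.Work.MP_77d073_nt.Q4.Stp

/-!
MODULE IsoLoc (M-L).  Isolation near `V`.

PROOF.  Let `η` be from `near`.  Suppose the claim fails; for every `k : ℕ`, with `δ = ε = 1/(k+1)`, there is `F k` with
`|F k i j| ≤ 1/(k+1)`, `|det| = |det V|`, lower bound `1 - 1/(k+1)` and a nonzero off-diagonal entry.  For `k` large `1/(k+1) ≤ η`,
and `expand` gives `n k`; let `G k i j = F k i j * (th j / th i)^(n k)`: its off-diagonal entries are `≤ η`, one of them is `≥ η/5`,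
and its diagonal is that of `F k`.  By `step`, `pert th (G k) = tr (pert th (F k)) M t`, so `|det (pert th (G k))| = |det V|`
(`tr_det`) and the lower bound `1 - 1/(k+1)` holds (`tr_lower`).  `G k` is in a compact box: a subsequence converges to some `G`
(`(box_compact _).tendsto_subseq`), with `G i i = 0`, `|G i j| ≤ η`, and `η/5 ≤ |G i j|` for some `i ≠ j` (finitely many
pairs: the pair can be taken constant along a subsequence, or `∑_(i≠j) |G k i j| ≥ η/5` passes to the limit, which already gives a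
nonzero off-diagonal entry).  By continuity `|det (pert th G)| = |det V|` and the lower bound is `1`.
Let `λ > 0` with `λ^4 = κ` (`λ = √√κ`), so `λ^4 * |det V| = 1` (`detV_sq`, `kap_sq`: `|det V| = √725 = κ⁻¹`).  The
system `tr (pert th G) 1 (fun _ => λ)` has `|det| = 1` and lower bound `κ`: `extNF`, then `nf_of_tr` gives `NF th (pert th G)`.
`near` gives `G i j = 0` for `i ≠ j`: contradiction.
-/

set_option autoImplicit false

namespace Pool.Agent.Work.MP_77d073_nt.Q4

open Pool.Agent.Work.MP_77d073_nt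

private theorem isoLoc_pert_cont (th : Fin 4 → ℝ) :
    Continuous (fun F : Fin 4 → Fin 4 → ℝ => pert th F) := by
  unfold pert
  fun_prop

private theorem isoLoc_scale {th : Fin 4 → ℝ} (hth : IsTh th) {L : Fin 4 → Fin 4 → ℝ}
    (hdet : |(Matrix.of L).det| = |(Matrix.of (V th)).det|)
    (hlow : ∀ p : Fin 4 → ℤ, p ≠ 0 → 1 ≤ |∏ i, ∑ j, L i j * (p j : ℝ)|) : NF th L := by
  have hk : 0 < κ := kap_pos
  obtain ⟨r, hr⟩ : ∃ r : ℝ, r = Real.sqrt (Real.sqrt κ) := ⟨_, rfl⟩
  have hr0 : 0 < r := by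
    rw [hr]
    exact Real.sqrt_pos.2 (Real.sqrt_pos.2 hk)
  have hr4 : r ^ 4 = κ := by
    have e1 : r ^ 4 = (r ^ 2) ^ 2 := by ring
    rw [e1, hr, Real.sq_sqrt (Real.sqrt_nonneg κ), Real.sq_sqrt hk.le]
  have hkV : κ * |(Matrix.of (V th)).det| = 1 := by
    have h1 : (κ * |(Matrix.of (V th)).det|) ^ 2 = 1 := by
      rw [mul_pow, sq_abs, detV_sq hth, kap_sq]
    have h2 : 0 ≤ κ * |(Matrix.of (V th)).det| := mul_nonneg hk.le (abs_nonneg _)
    exact (pow_eq_one_iff_of_nonneg h2 (by norm_num)).1 h1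
  have hU1 : Uni (1 : Matrix (Fin 4) (Fin 4) ℤ) := Or.inl Matrix.det_one
  have hprod : (∏ _i : Fin 4, r) = κ := by
    rw [Finset.prod_const, Finset.card_univ, Fintype.card_fin, hr4]
  have hd : |(Matrix.of (tr L 1 (fun _ => r))).det| = 1 := by
    rw [tr_det, hprod, Matrix.det_one, abs_mul, abs_of_pos hk]
    simp only [Int.cast_one, mul_one]
    rw [hdet, hkV]
  have hl : ∀ p : Fin 4 → ℤ, p ≠ 0 →
      κ ≤ |∏ i, ∑ j, tr L 1 (fun _ => r) i j * (p j : ℝ)| := by
    intro p hp
    have h1 : ∀ i, ∑ j, tr L 1 (fun _ => r) i j * (p j : ℝ) = r * ∑ j, L i j * (p j : ℝ) := by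
      intro i
      rw [Finset.mul_sum]
      refine Finset.sum_congr rfl fun j _ => ?_
      have h2 : tr L 1 (fun _ => r) i j = r * L i j := by
        unfold tr
        simp [Matrix.one_apply]
      rw [h2]
      ring
    rw [Finset.prod_congr rfl fun i _ => h1 i, Finset.prod_mul_distrib, hprod, abs_mul,
      abs_of_pos hk]
    have h3 := mul_le_mul_of_nonneg_left (hlow p hp) hk.le
    linarith
  exact nf_of_tr hU1 (fun _ => hr0.ne') (extNF hth hd hl)

theorem isoLoc {th : Fin 4 → ℝ} (hth : IsTh th) :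
    ∃ δ : ℝ, 0 < δ ∧ ∃ ε : ℝ, 0 < ε ∧ ∀ F : Fin 4 → Fin 4 → ℝ, (∀ i j, |F i j| ≤ δ) →
      |(Matrix.of (pert th F)).det| = |(Matrix.of (V th)).det| →
      (∀ p : Fin 4 → ℤ, p ≠ 0 → 1 - ε ≤ |∏ i, ∑ j, pert th F i j * (p j : ℝ)|) →
      ∀ i j, i ≠ j → F i j = 0 := by
  classical
  obtain ⟨η, hη, hnear⟩ := near hth
  by_contra hcon
  push Not at hcon
  have hk0 : ∀ k : ℕ, (0 : ℝ) < 1 / ((k : ℝ) + 1) := fun k => by positivity
  have hch : ∀ k : ℕ, ∃ F : Fin 4 → Fin 4 → ℝ, (∀ i j, |F i j| ≤ min η (1 / ((k : ℝ) + 1))) ∧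
      |(Matrix.of (pert th F)).det| = |(Matrix.of (V th)).det| ∧
      (∀ p : Fin 4 → ℤ, p ≠ 0 → 1 - 1 / ((k : ℝ) + 1) ≤
        |∏ i, ∑ j, pert th F i j * (p j : ℝ)|) ∧ ∃ i j, i ≠ j ∧ F i j ≠ 0 := by
    intro k
    obtain ⟨F, h1, h2, h3, i, j, h4, h5⟩ := hcon _ (lt_min hη (hk0 k)) _ (hk0 k)
    exact ⟨F, h1, h2, h3, i, j, h4, h5⟩
  choose F hF hFdet hFlow hFne using hch
  have hth0 : ∀ i, th i ≠ 0 := by
    intro i hi
    have := prod_th hth
    rw [Finset.prod_eq_zero (Finset.mem_univ i) hi] at this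
    exact one_ne_zero this.symm
  have hex := fun k => expand hth hη (F k) (fun i j _ => (hF k i j).trans (min_le_left _ _)) (hFne k)
  choose n hn1 hn2 using hex
  obtain ⟨G, hG⟩ : ∃ G : ℕ → Fin 4 → Fin 4 → ℝ,
      G = fun k i j => F k i j * (th j / th i) ^ (n k) := ⟨_, rfl⟩
  have hGd : ∀ k i, G k i i = F k i i := by
    intro k i
    rw [hG]
    show F k i i * (th i / th i) ^ (n k) = F k i i
    rw [div_self (hth0 i), one_zpow, mul_one]
  have hGbox : ∀ k, G k ∈ box 4 η := by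
    intro k i j
    by_cases hij : i = j
    · subst hij
      rw [hGd]
      exact (hF k i i).trans (min_le_left _ _)
    · rw [hG]
      exact hn1 k i j hij
  have hGsum : ∀ k, η / 5 ≤ ∑ i, ∑ j, if i = j then (0 : ℝ) else |G k i j| := by
    intro k
    obtain ⟨i, j, hij, hle⟩ := hn2 k
    have h0 : ∀ a b : Fin 4, 0 ≤ if a = b then (0 : ℝ) else |G k a b| := by
      intro a b
      split_ifs
      · exact le_refl 0
      · exact abs_nonneg _
    have h1 : (if i = j then (0 : ℝ) else |G k i j|) ≤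
        ∑ b, if i = b then (0 : ℝ) else |G k i b| :=
      Finset.single_le_sum (f := fun b => if i = b then (0 : ℝ) else |G k i b|)
        (fun b _ => h0 i b) (Finset.mem_univ j)
    have h2 : (∑ b, if i = b then (0 : ℝ) else |G k i b|) ≤
        ∑ a, ∑ b, if a = b then (0 : ℝ) else |G k a b| :=
      Finset.single_le_sum (f := fun a => ∑ b, if a = b then (0 : ℝ) else |G k a b|)
        (fun a _ => Finset.sum_nonneg fun b _ => h0 a b) (Finset.mem_univ i)
    rw [if_neg hij] at h1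
    have h3 : η / 5 ≤ |G k i j| := by
      rw [hG]
      exact hle
    linarith
  have hGdet : ∀ k, |(Matrix.of (pert th (G k))).det| = |(Matrix.of (V th)).det| := by
    intro k
    obtain ⟨M, t, hM, ht, hMt⟩ := step hth (F k) (n k)
    have h1 : pert th (G k) = tr (pert th (F k)) M t := by
      rw [hMt, hG]
    rw [h1, tr_det, ht, one_mul, abs_mul, hFdet]
    have h2 : |((M.det : ℤ) : ℝ)| = 1 := by
      rcases hM with h | h <;> rw [h] <;> simp
    rw [h2, mul_one]
  have hGlow : ∀ k : ℕ, ∀ p : Fin 4 → ℤ, p ≠ 0 → 1 - 1 / ((k : ℝ) + 1) ≤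
      |∏ i, ∑ j, pert th (G k) i j * (p j : ℝ)| := by
    intro k p hp
    obtain ⟨M, t, hM, ht, hMt⟩ := step hth (F k) (n k)
    have h1 : pert th (G k) = tr (pert th (F k)) M t := by
      rw [hMt, hG]
    rw [h1]
    exact tr_lower (hFlow k) hM.ne_zero ht p hp
  obtain ⟨G0, hG0, φ, hφ, hlim⟩ := (box_compact (n := 4) η).tendsto_subseq hGbox
  have hφt : Filter.Tendsto φ Filter.atTop Filter.atTop := hφ.tendsto_atTop
  have hinv : Filter.Tendsto (fun k : ℕ => 1 / ((φ k : ℝ) + 1)) Filter.atTop (nhds 0) :=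
    tendsto_one_div_add_atTop_nhds_zero_nat.comp hφt
  have hlimij : ∀ i j, Filter.Tendsto (fun k => G (φ k) i j) Filter.atTop (nhds (G0 i j)) := by
    intro i j
    exact (((continuous_apply j).comp (continuous_apply i)).tendsto G0).comp hlim
  have hdiag : ∀ i, G0 i i = 0 := by
    intro i
    have h1 : Filter.Tendsto (fun k => G (φ k) i i) Filter.atTop (nhds 0) := by
      apply squeeze_zero_norm _ hinv
      intro k
      rw [hGd, Real.norm_eq_abs]
      exact (hF (φ k) i i).trans (min_le_right _ _)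
    exact tendsto_nhds_unique (hlimij i i) h1
  have hpc : Filter.Tendsto (fun k => pert th (G (φ k))) Filter.atTop (nhds (pert th G0)) :=
    ((isoLoc_pert_cont th).tendsto G0).comp hlim
  have hdet0 : |(Matrix.of (pert th G0)).det| = |(Matrix.of (V th)).det| := by
    have hc : Continuous fun L : Fin 4 → Fin 4 → ℝ => |(Matrix.of L).det| := by
      have h1 : Continuous fun L : Fin 4 → Fin 4 → ℝ => (Matrix.of L).det :=
        Continuous.matrix_det (by fun_prop)
      exact h1.abs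
    have h1 := (hc.tendsto (pert th G0)).comp hpc
    have h2 : Filter.Tendsto (fun _ : ℕ => |(Matrix.of (V th)).det|) Filter.atTop
        (nhds |(Matrix.of (pert th G0)).det|) := by
      refine h1.congr fun k => ?_
      exact hGdet (φ k)
    exact tendsto_nhds_unique h2 tendsto_const_nhds
  have hlow0 : ∀ p : Fin 4 → ℤ, p ≠ 0 → 1 ≤ |∏ i, ∑ j, pert th G0 i j * (p j : ℝ)| := by
    intro p hp
    have hc : Continuous fun L : Fin 4 → Fin 4 → ℝ => |∏ i, ∑ j, L i j * (p j : ℝ)| := by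
      fun_prop
    have h1 := (hc.tendsto (pert th G0)).comp hpc
    have h2 : Filter.Tendsto (fun k : ℕ => 1 - 1 / ((φ k : ℝ) + 1)) Filter.atTop (nhds (1 - 0)) :=
      tendsto_const_nhds.sub hinv
    rw [sub_zero] at h2
    exact le_of_tendsto_of_tendsto' h2 h1 fun k => hGlow (φ k) p hp
  have hNF := isoLoc_scale hth hdet0 hlow0
  have hzero := hnear G0 hG0 hdet0 hNF
  have hsum0 : η / 5 ≤ ∑ i, ∑ j, if i = j then (0 : ℝ) else |G0 i j| := by
    have h1 : Filter.Tendsto (fun k => ∑ i, ∑ j, if i = j then (0 : ℝ) else |G (φ k) i j|)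
        Filter.atTop (nhds (∑ i, ∑ j, if i = j then (0 : ℝ) else |G0 i j|)) := by
      refine tendsto_finsetSum _ fun i _ => tendsto_finsetSum _ fun j _ => ?_
      split_ifs
      · exact tendsto_const_nhds
      · exact (hlimij i j).abs
    exact ge_of_tendsto' h1 fun k => hGsum (φ k)
  have hsumz : (∑ i, ∑ j, if i = j then (0 : ℝ) else |G0 i j|) = 0 := by
    refine Finset.sum_eq_zero fun i _ => Finset.sum_eq_zero fun j _ => ?_
    split_ifs with h
    · rfl
    · rw [hzero i j h, abs_zero]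
  rw [hsumz] at hsum0
  linarith

end Pool.Agent.Work.MP_77d073_nt.Q4
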