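import Pool.Agent.Work.MP_77d073_nt.Q4.Eul

/-!
MODULE Lag (S-M).  Interpolation.

PROOF.  Let `y i = z i - th i ^ 3`; by `euler`, `∑ y i / fd (th i) = 0`.  There are `w 0, w 1, w 2` with `y i = w3 w (th i)` for
`i = 0, 1, 2` (explicit divided differences, or the 3x3 Vandermonde matrix is invertible).  Then `y' i = y i - w3 w (th i)`
vanishes for `i = 0, 1, 2` and `∑ y' i / fd (th i) = 0` (`euler` for `1, th, th²`), so `y' 3 / fd (th 3) = 0`, `y' 3 = 0`.
-/

set_option autoImplicit false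

namespace Pool.Agent.Work.MP_77d073_nt.Q4

theorem lag {th : Fin 4 → ℝ} (h : IsTh th) (z : Fin 4 → ℝ) (hz : ∑ i, z i / fd (th i) = 1) :
    ∃ w : Fin 3 → ℝ, ∀ i, z i = th i ^ 3 + w3 w (th i) := by
  have hne : ∀ i j : Fin 4, i ≠ j → th i ≠ th j := fun i j hij he => hij (h.mono.injective he)
  have h01 : th 1 - th 0 ≠ 0 := sub_ne_zero.mpr (hne 1 0 (by decide))
  have h02 : th 2 - th 0 ≠ 0 := sub_ne_zero.mpr (hne 2 0 (by decide))
  have h12 : th 2 - th 1 ≠ 0 := sub_ne_zero.mpr (hne 2 1 (by decide))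
  obtain ⟨e0, e1, e2, e3⟩ := euler h
  set y : Fin 4 → ℝ := fun i => z i - th i ^ 3 with hy
  set d1 : ℝ := (y 1 - y 0) / (th 1 - th 0) with hd1
  set d2 : ℝ := ((y 2 - y 0) / (th 2 - th 0) - d1) / (th 2 - th 1) with hd2
  have k1 : d1 * (th 1 - th 0) = y 1 - y 0 := by
    rw [hd1]; field_simp
  have k2 : d2 * (th 2 - th 1) * (th 2 - th 0) + d1 * (th 2 - th 0) = y 2 - y 0 := by
    have h1 : d2 * (th 2 - th 1) = (y 2 - y 0) / (th 2 - th 0) - d1 := by
      rw [hd2]; field_simp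
    rw [h1]
    field_simp
    ring
  have hw : ∀ t, w3 ![y 0 - d1 * th 0 + d2 * th 0 * th 1, d1 - d2 * (th 0 + th 1), d2] t
      = y 0 + d1 * (t - th 0) + d2 * (t - th 0) * (t - th 1) := by
    intro t
    simp only [w3, Matrix.cons_val_zero, Matrix.cons_val_one, Matrix.cons_val]
    ring
  refine ⟨![y 0 - d1 * th 0 + d2 * th 0 * th 1, d1 - d2 * (th 0 + th 1), d2], ?_⟩
  set w : Fin 3 → ℝ := ![y 0 - d1 * th 0 + d2 * th 0 * th 1, d1 - d2 * (th 0 + th 1), d2] with hwd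
  have z0 : z 0 = th 0 ^ 3 + w3 w (th 0) := by
    rw [hw]
    simp only [hy]
    ring
  have z1 : z 1 = th 1 ^ 3 + w3 w (th 1) := by
    rw [hw]
    have : d1 * (th 1 - th 0) = (z 1 - th 1 ^ 3) - y 0 := k1
    linear_combination -this
  have z2 : z 2 = th 2 ^ 3 + w3 w (th 2) := by
    rw [hw]
    have : d2 * (th 2 - th 1) * (th 2 - th 0) + d1 * (th 2 - th 0) = (z 2 - th 2 ^ 3) - y 0 := k2
    linear_combination -this
  have hsum : ∑ i, (th i ^ 3 + w3 w (th i)) / fd (th i) = 1 := by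
    have : ∀ i, (th i ^ 3 + w3 w (th i)) / fd (th i)
        = th i ^ 3 / fd (th i) + w 0 * (1 / fd (th i)) + w 1 * (th i / fd (th i))
          + w 2 * (th i ^ 2 / fd (th i)) := by
      intro i
      simp only [w3]
      ring
    rw [Finset.sum_congr rfl fun i _ => this i]
    rw [Finset.sum_add_distrib, Finset.sum_add_distrib, Finset.sum_add_distrib, ← Finset.mul_sum,
      ← Finset.mul_sum, ← Finset.mul_sum, e0, e1, e2, e3]
    ring
  have z3 : z 3 = th 3 ^ 3 + w3 w (th 3) := by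
    rw [Fin.sum_univ_four] at hz hsum
    rw [← z0, ← z1, ← z2] at hsum
    have h3 : z 3 / fd (th 3) = (th 3 ^ 3 + w3 w (th 3)) / fd (th 3) := by linarith
    exact (div_left_inj' (fd_ne h 3)).mp h3
  intro i
  fin_cases i
  · exact z0
  · exact z1
  · exact z2
  · exact z3

end Pool.Agent.Work.MP_77d073_nt.Q4
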