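import Pool.Agent.Work.MP_77d073_nt.Q4.Defs
import Pool.Agent.Work.MP_77d073_nt.Reduce

/-!
MODULE Nz (S-M).  The dual forms do not vanish at nonzero integer vectors.

PROOF.  Suppose `a i₀ = 0`.  Let `L'` be `L` with row `i₀` replaced by `c` (real).  If `det L' ≠ 0`, apply `minkowski_forms` to `L'`
with bound `1/2` for the row `i₀` and a large bound for ... NO: simpler: rows `i ≠ i₀` have bounds `ε` (small) except one of them, `i₁`,
which has the bound `B` large: then a nonzero integer `p` with `|c · p| < 1/2`, so `c · p = 0`.  Choose the row to be replaced well: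
`∑_i a i L i = c` with `c ≠ 0`, so some `a i₁ ≠ 0`, `i₁ ≠ i₀`.  Let `L'` be `L` with row `i₁` replaced by `c`; `det L' = a i₁ det L ≠ 0`
(`Matrix.det_updateRow_sum` / multilinearity: `c = ∑ a i L i`).  `minkowski_forms` for `L'` with bounds `1/2` for row `i₁` (that is
`c`), `ε` for the two rows other than `i₀, i₁`, and `B` for `i₀`, with `B ε² / 2 > |det L'|`, e.g. `B = 4 (|det L'| + 1) / ε²`: get
`p ≠ 0` with `c · p = 0` (integer, `< 1/2`), `|L_i(p)| < ε` for the two `i ∉ {i₀, i₁}`, `|L_(i₀)(p)| < B`, and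
`a i₁ L_(i₁)(p) = c · p - ∑_(i ≠ i₀,i₁) a i L_i(p)` (as `a i₀ = 0`), so `|L_(i₁)(p)| ≤ C ε` with `C = ∑ |a i| / |a i₁|`.  Then
`|∏ L_i(p)| ≤ B · C ε · ε² = 4 C (|det L'| + 1) ε < m` for small `ε`: contradiction.
-/

set_option autoImplicit false

namespace Pool.Agent.Work.MP_77d073_nt.Q4

private theorem prod_three {i₀ i₁ : Fin 4} (h : i₀ ≠ i₁) (x y z : ℝ) :
    ∏ i : Fin 4, (if i = i₁ then x else if i = i₀ then y else z) = x * y * z ^ 2 := by
  rw [Fin.prod_univ_four]
  fin_cases i₀ <;> fin_cases i₁ <;> simp at h ⊢ <;> ring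

theorem dual_ne {L : Fin 4 → Fin 4 → ℝ} (hL : (Matrix.of L).det ≠ 0) {m : ℝ} (hm : 0 < m)
    (h : ∀ p : Fin 4 → ℤ, p ≠ 0 → m ≤ |∏ i, ∑ j, L i j * (p j : ℝ)|) {c : Fin 4 → ℤ} (hc : c ≠ 0)
    {a : Fin 4 → ℝ} (ha : ∀ j, ∑ i, a i * L i j = (c j : ℝ)) : ∀ i, a i ≠ 0 := by
  classical
  intro i₀ h0
  obtain ⟨i₁, h1⟩ : ∃ i, a i ≠ 0 := by
    by_contra hcon
    push Not at hcon
    apply hc
    funext j
    have h2 := ha j
    simp only [hcon, zero_mul, Finset.sum_const_zero] at h2
    have h3 : c j = 0 := by exact_mod_cast h2.symm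
    exact h3
  have h01 : i₀ ≠ i₁ := by
    rintro rfl
    exact h1 h0
  -- the modified system
  obtain ⟨L', hL'⟩ : ∃ L' : Fin 4 → Fin 4 → ℝ, L' = Function.update L i₁ (fun j => (c j : ℝ)) :=
    ⟨_, rfl⟩
  have hdet : (Matrix.of L').det = a i₁ * (Matrix.of L).det := by
    have h2 := Matrix.det_updateRow_sum (Matrix.of L) i₁ a
    have h3 : Matrix.of L' = (Matrix.of L).updateRow i₁ (∑ k, a k • (Matrix.of L) k) := by
      ext i j
      rw [Matrix.updateRow_apply, hL']
      by_cases hi : i = i₁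
      · subst hi
        simp only [Matrix.of_apply, Function.update_self, if_true, Finset.sum_apply, Pi.smul_apply,
          smul_eq_mul]
        rw [← ha j]
      · simp only [Matrix.of_apply, Function.update_of_ne hi, if_neg hi]
    rw [h3, h2, smul_eq_mul]
  have hdet0 : (Matrix.of L').det ≠ 0 := by
    rw [hdet]
    exact mul_ne_zero h1 hL
  obtain ⟨D, hD⟩ : ∃ D : ℝ, D = |(Matrix.of L').det| + 1 := ⟨_, rfl⟩
  have hDpos : 0 < D := by
    rw [hD]
    positivity
  obtain ⟨C, hC⟩ : ∃ C : ℝ, C = (∑ i, |a i|) / |a i₁| + 1 := ⟨_, rfl⟩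
  have ha1 : 0 < |a i₁| := abs_pos.2 h1
  have hCpos : 0 < C := by
    rw [hC]
    positivity
  obtain ⟨ε, hε⟩ : ∃ ε : ℝ, ε = m / (8 * C * D) := ⟨_, rfl⟩
  have hεpos : 0 < ε := by
    rw [hε]
    positivity
  obtain ⟨B, hB⟩ : ∃ B : ℝ, B = 4 * D / ε ^ 2 := ⟨_, rfl⟩
  have hBpos : 0 < B := by
    rw [hB]
    positivity
  have hBε : B * ε ^ 2 = 4 * D := by
    rw [hB]
    field_simp
  obtain ⟨p, hp, hpb⟩ := minkowski_forms hdet0
    (a := fun i => if i = i₁ then (1 / 2 : ℝ) else if i = i₀ then B else ε)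
    (by
      intro i
      show 0 < (if i = i₁ then (1 / 2 : ℝ) else if i = i₀ then B else ε)
      split_ifs
      · norm_num
      · exact hBpos
      · exact hεpos)
    (by
      rw [prod_three h01]
      have h4 : 1 / 2 * B * ε ^ 2 = 2 * D := by
        have : 1 / 2 * B * ε ^ 2 = 1 / 2 * (B * ε ^ 2) := by ring
        rw [this, hBε]
        ring
      rw [h4, hD]
      have := abs_nonneg (Matrix.of L').det
      linarith)
  -- the integer `c · p` vanishes
  have hcp : ∑ j, (c j : ℝ) * (p j : ℝ) = 0 := by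
    have h5 := hpb i₁
    simp only [hL', Function.update_self, if_true] at h5
    have h6 : ((∑ j, c j * p j : ℤ) : ℝ) = ∑ j, (c j : ℝ) * (p j : ℝ) := by push_cast; rfl
    rw [← h6] at h5 ⊢
    have h7 : |(∑ j, c j * p j : ℤ)| < 1 := by
      have h8 : ((|(∑ j, c j * p j : ℤ)| : ℤ) : ℝ) < 1 := by
        rw [Int.cast_abs]
        linarith
      exact_mod_cast h8
    rw [Int.abs_lt_one_iff.1 h7]
    simp
  have hb0 : |∑ j, L i₀ j * (p j : ℝ)| < B := by
    have h5 := hpb i₀
    simpa only [hL', Function.update_of_ne h01, if_neg h01, if_true] using h5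
  have hbo : ∀ i, i ≠ i₀ → i ≠ i₁ → |∑ j, L i j * (p j : ℝ)| < ε := by
    intro i hi0 hi1
    have h5 := hpb i
    simpa only [hL', Function.update_of_ne hi1, if_neg hi1, if_neg hi0] using h5
  have hrel : ∑ i, a i * (∑ j, L i j * (p j : ℝ)) = 0 := by
    rw [← hcp]
    calc ∑ i, a i * (∑ j, L i j * (p j : ℝ)) = ∑ i, ∑ j, a i * L i j * (p j : ℝ) := by
          refine Finset.sum_congr rfl fun i _ => ?_
          rw [Finset.mul_sum]
          refine Finset.sum_congr rfl fun j _ => ?_
          ring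
      _ = ∑ j, (∑ i, a i * L i j) * (p j : ℝ) := by
          rw [Finset.sum_comm]
          refine Finset.sum_congr rfl fun j _ => ?_
          rw [Finset.sum_mul]
      _ = ∑ j, (c j : ℝ) * (p j : ℝ) := by
          refine Finset.sum_congr rfl fun j _ => ?_
          rw [ha j]
  have hb1 : |∑ j, L i₁ j * (p j : ℝ)| ≤ C * ε := by
    have h9 : a i₁ * (∑ j, L i₁ j * (p j : ℝ)) =
        -∑ i ∈ Finset.univ.erase i₁, a i * (∑ j, L i j * (p j : ℝ)) := by
      have h10 := Finset.add_sum_erase Finset.univ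
        (fun i => a i * (∑ j, L i j * (p j : ℝ))) (Finset.mem_univ i₁)
      have h11 : (fun i => a i * (∑ j, L i j * (p j : ℝ))) i₁ +
          ∑ i ∈ Finset.univ.erase i₁, a i * (∑ j, L i j * (p j : ℝ)) = 0 := by
        rw [h10]
        exact hrel
      linarith
    have h12 : |a i₁| * |∑ j, L i₁ j * (p j : ℝ)| ≤ (∑ i, |a i|) * ε := by
      rw [← abs_mul, h9, abs_neg]
      calc |∑ i ∈ Finset.univ.erase i₁, a i * (∑ j, L i j * (p j : ℝ))|
          ≤ ∑ i ∈ Finset.univ.erase i₁, |a i * (∑ j, L i j * (p j : ℝ))| :=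
            Finset.abs_sum_le_sum_abs _ _
        _ ≤ ∑ i ∈ Finset.univ.erase i₁, |a i| * ε := by
            refine Finset.sum_le_sum fun i hi => ?_
            rw [abs_mul]
            by_cases hi0 : i = i₀
            · subst hi0
              rw [h0]
              simp
            · exact mul_le_mul_of_nonneg_left (hbo i hi0 (Finset.ne_of_mem_erase hi)).le
                (abs_nonneg _)
        _ ≤ ∑ i, |a i| * ε := by
            refine Finset.sum_le_sum_of_subset_of_nonneg (Finset.erase_subset _ _) ?_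
            intro i _ _
            positivity
        _ = (∑ i, |a i|) * ε := by rw [Finset.sum_mul]
    have h13 : |∑ j, L i₁ j * (p j : ℝ)| ≤ (∑ i, |a i|) / |a i₁| * ε := by
      rw [div_mul_eq_mul_div, le_div_iff₀ ha1, mul_comm]
      exact h12
    refine h13.trans ?_
    rw [hC]
    nlinarith
  have hprod : |∏ i, ∑ j, L i j * (p j : ℝ)| ≤ m / 2 := by
    rw [Finset.abs_prod]
    calc ∏ i, |∑ j, L i j * (p j : ℝ)|
        ≤ ∏ i, (if i = i₁ then C * ε else if i = i₀ then B else ε) := by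
          refine Finset.prod_le_prod (fun i _ => abs_nonneg _) fun i _ => ?_
          by_cases hi1 : i = i₁
          · subst hi1
            rw [if_pos rfl]
            exact hb1
          · rw [if_neg hi1]
            by_cases hi0 : i = i₀
            · subst hi0
              rw [if_pos rfl]
              exact hb0.le
            · rw [if_neg hi0]
              exact (hbo i hi0 hi1).le
      _ = C * ε * B * ε ^ 2 := prod_three h01 _ _ _
      _ = C * ε * (B * ε ^ 2) := by ring
      _ = m / 2 := by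
          rw [hBε, hε]
          field_simp
          ring
  have hfin := h p hp
  linarith

end Pool.Agent.Work.MP_77d073_nt.Q4
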