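import Pool.Agent.Work.MP_77d073_nt.Q4.Defs

/-!
MODULE Prim (S-M).  An integer row vector is moved to `(0, 0, 0, g)` by a unimodular matrix.

PROOF.  Among all unimodular `V` (`Uni V`) take one minimizing the natural number `N(V) = ∑ j, |(c V) j|` (`Nat.find` or
well-foundedness of `ℕ` under the image; `V = 1` shows that the set is nonempty), `(c V) j = ∑ k, c k * V k j`.  At most one coordinate is
nonzero: if `|(cV) i| ≥ |(cV) j| > 0` with `i ≠ j`, subtract `±` column `j` from column `i` (multiply by
`Matrix.transvection j i (∓1)`, `Matrix.det_transvection_of_ne`): `N` drops.  Since `c ≠ 0` and `V` is invertible, `c V ≠ 0`: exactly one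
coordinate `i` is nonzero; permute the columns (`(Equiv.swap i 3).permMatrix` or `Matrix.submatrix`, determinant `±1`) to make it
the last one, and if it is negative multiply by `-1`.
-/

set_option autoImplicit false

namespace Pool.Agent.Work.MP_77d073_nt.Q4

open Pool.Agent.Work.MP_77d073_nt

theorem prim (c : Fin 4 → ℤ) (hc : c ≠ 0) :
    ∃ (W : Matrix (Fin 4) (Fin 4) ℤ) (g : ℤ), Uni W ∧ 0 < g ∧
      ∀ j, ∑ k, c k * W k j = if j = 3 then g else 0 := by
  classical
  have hex : ∃ n : ℕ, ∃ V : Matrix (Fin 4) (Fin 4) ℤ, Uni V ∧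
      ∑ j, (Matrix.vecMul c V j).natAbs = n :=
    ⟨_, 1, Or.inl Matrix.det_one, rfl⟩
  obtain ⟨V, hV, hVn⟩ := Nat.find_spec hex
  have hmin : ∀ V' : Matrix (Fin 4) (Fin 4) ℤ, Uni V' →
      ∑ j, (Matrix.vecMul c V j).natAbs ≤ ∑ j, (Matrix.vecMul c V' j).natAbs := by
    intro V' hV'
    rw [hVn]
    exact Nat.find_min' hex ⟨V', hV', rfl⟩
  -- one step
  have step : ∀ i j : Fin 4, i ≠ j → Matrix.vecMul c V j ≠ 0 →
      (Matrix.vecMul c V j).natAbs ≤ (Matrix.vecMul c V i).natAbs → False := by
    intro i j hij hj hle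
    obtain ⟨s, hs⟩ : ∃ s : ℤ, (Matrix.vecMul c V i + s * Matrix.vecMul c V j).natAbs <
        (Matrix.vecMul c V i).natAbs := by
      generalize Matrix.vecMul c V i = a at hle ⊢
      generalize Matrix.vecMul c V j = b at hle hj ⊢
      rcases le_or_gt 0 a with ha | ha <;> rcases le_or_gt 0 b with hb | hb
      · exact ⟨-1, by omega⟩
      · exact ⟨1, by omega⟩
      · exact ⟨1, by omega⟩
      · exact ⟨-1, by omega⟩
    have hT : ∀ b, Matrix.vecMul c (V * Matrix.transvection j i s) b =
        if b = i then Matrix.vecMul c V i + s * Matrix.vecMul c V j else Matrix.vecMul c V b := by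
      intro b
      split_ifs with hb
      · subst hb
        simp only [Matrix.vecMul, dotProduct, Matrix.mul_transvection_apply_same]
        rw [Finset.mul_sum, ← Finset.sum_add_distrib]
        exact Finset.sum_congr rfl (fun k _ => by ring)
      · simp only [Matrix.vecMul, dotProduct]
        exact Finset.sum_congr rfl (fun k _ => by rw [Matrix.mul_transvection_apply_of_ne _ _ _ _ hb])
    have hU : Uni (V * Matrix.transvection j i s) := by
      refine hV.mul (Or.inl ?_)
      exact Matrix.det_transvection_of_ne j i hij.symm s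
    have h1 := hmin _ hU
    have h2 : ∑ b, (Matrix.vecMul c (V * Matrix.transvection j i s) b).natAbs <
        ∑ b, (Matrix.vecMul c V b).natAbs := by
      refine Finset.sum_lt_sum (fun b _ => ?_) ⟨i, Finset.mem_univ _, ?_⟩
      · rw [hT b]
        split_ifs with hb
        · subst hb
          exact hs.le
        · exact le_rfl
      · rw [hT i, if_pos rfl]
        exact hs
    omega
  have hne : Matrix.vecMul c V ≠ 0 := by
    intro h0
    exact hc (Matrix.eq_zero_of_vecMul_eq_zero hV.ne_zero h0)
  obtain ⟨i, hi⟩ : ∃ i, Matrix.vecMul c V i ≠ 0 := by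
    by_contra hcon
    push Not at hcon
    exact hne (funext hcon)
  have hz : ∀ j, j ≠ i → Matrix.vecMul c V j = 0 := by
    intro j hj
    by_contra hj0
    rcases le_total (Matrix.vecMul c V j).natAbs (Matrix.vecMul c V i).natAbs with h1 | h1
    · exact step i j (Ne.symm hj) hj0 h1
    · exact step j i hj hi h1
  have hW : Uni (V.submatrix id (Equiv.swap i 3)) := by
    unfold Uni
    rw [Matrix.det_permute']
    rcases Int.units_eq_one_or (Equiv.Perm.sign (Equiv.swap i 3)) with h1 | h1 <;>
      rcases hV with h2 | h2 <;> simp [h1, h2]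
  have hWv : ∀ j, ∑ k, c k * (V.submatrix id (Equiv.swap i 3)) k j =
      if j = 3 then Matrix.vecMul c V i else 0 := by
    intro j
    have e1 : ∑ k, c k * (V.submatrix id (Equiv.swap i 3)) k j = Matrix.vecMul c V (Equiv.swap i 3 j) := rfl
    rw [e1]
    split_ifs with hj
    · rw [hj, Equiv.swap_apply_right]
    · refine hz _ ?_
      intro h1
      apply hj
      have h2 := congrArg (Equiv.swap i 3) h1
      rw [Equiv.swap_apply_self, Equiv.swap_apply_left] at h2
      exact h2
  rcases lt_or_gt_of_ne hi with hneg | hpos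
  · refine ⟨-(V.submatrix id (Equiv.swap i 3)), -(Matrix.vecMul c V i), ?_, by omega, ?_⟩
    · unfold Uni
      rw [Matrix.det_neg]
      have hW2 : (V.submatrix id (Equiv.swap i 3)).det = 1 ∨
          (V.submatrix id (Equiv.swap i 3)).det = -1 := hW
      simpa [Fintype.card_fin] using hW2
    · intro j
      have h1 := hWv j
      simp only [Matrix.neg_apply, mul_neg, Finset.sum_neg_distrib]
      rw [h1]
      split_ifs <;> simp
  · exact ⟨V.submatrix id (Equiv.swap i 3), Matrix.vecMul c V i, hW, hpos, hWv⟩

end Pool.Agent.Work.MP_77d073_nt.Q4
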