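import Pool.Agent.Work.MP_77d073_nt.Q4.Defs

/-!
MODULE Sec (S).  The determinant of the section.

PROOF.  The matrix `N i j = a i * L i j` has determinant `(∏ a i) det L` (`Matrix.det_mul_column` or by
`Matrix.diagonal a * L`).  Its rows add up to `(0, 0, 0, g)`.  Replacing row 3 by the sum of all rows does not change the determinant;
expanding along the new row 3 gives `g * det (N i j)_(i, j < 3)` (sign `+`).  Direct proof: `Matrix.det_succ_row_zero`,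
`Fin.sum_univ_succ`, `simp`, eliminate `N 3 j` by `ha j`, and `ring`.
-/

set_option autoImplicit false

namespace Pool.Agent.Work.MP_77d073_nt.Q4

theorem sec_det4 (L : Fin 4 → Fin 4 → ℝ) : (Matrix.of L).det =
    L 0 0 * (L 1 1 * (L 2 2 * L 3 3 - L 2 3 * L 3 2) - L 1 2 * (L 2 1 * L 3 3 - L 2 3 * L 3 1)
      + L 1 3 * (L 2 1 * L 3 2 - L 2 2 * L 3 1))
    - L 0 1 * (L 1 0 * (L 2 2 * L 3 3 - L 2 3 * L 3 2) - L 1 2 * (L 2 0 * L 3 3 - L 2 3 * L 3 0)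
      + L 1 3 * (L 2 0 * L 3 2 - L 2 2 * L 3 0))
    + L 0 2 * (L 1 0 * (L 2 1 * L 3 3 - L 2 3 * L 3 1) - L 1 1 * (L 2 0 * L 3 3 - L 2 3 * L 3 0)
      + L 1 3 * (L 2 0 * L 3 1 - L 2 1 * L 3 0))
    - L 0 3 * (L 1 0 * (L 2 1 * L 3 2 - L 2 2 * L 3 1) - L 1 1 * (L 2 0 * L 3 2 - L 2 2 * L 3 0)
      + L 1 2 * (L 2 0 * L 3 1 - L 2 1 * L 3 0)) := by
  have e1 : Fin.succAbove (1 : Fin 4) (0 : Fin 3) = 0 := rfl
  have e2 : Fin.succAbove (1 : Fin 4) (1 : Fin 3) = 2 := rfl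
  have e3 : Fin.succAbove (1 : Fin 4) (2 : Fin 3) = 3 := rfl
  have e4 : Fin.succAbove (2 : Fin 4) (0 : Fin 3) = 0 := rfl
  have e5 : Fin.succAbove (2 : Fin 4) (1 : Fin 3) = 1 := rfl
  have e6 : Fin.succAbove (2 : Fin 4) (2 : Fin 3) = 3 := rfl
  have e7 : Fin.succAbove (3 : Fin 4) (0 : Fin 3) = 0 := rfl
  have e8 : Fin.succAbove (3 : Fin 4) (1 : Fin 3) = 1 := rfl
  have e9 : Fin.succAbove (3 : Fin 4) (2 : Fin 3) = 2 := rfl
  have e10 : Fin.succAbove (0 : Fin 4) (0 : Fin 3) = 1 := rfl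
  have e11 : Fin.succAbove (0 : Fin 4) (1 : Fin 3) = 2 := rfl
  have e12 : Fin.succAbove (0 : Fin 4) (2 : Fin 3) = 3 := rfl
  have s0 : Fin.succ (0 : Fin 3) = 1 := rfl
  have s1 : Fin.succ (1 : Fin 3) = 2 := rfl
  have s2 : Fin.succ (2 : Fin 3) = 3 := rfl
  rw [Matrix.det_succ_row_zero]
  simp only [Fin.sum_univ_four, Matrix.det_fin_three, Matrix.submatrix_apply, Matrix.of_apply,
    e1, e2, e3, e4, e5, e6, e7, e8, e9, e10, e11, e12, s0, s1, s2]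
  norm_num
  ring

theorem sec {L : Fin 4 → Fin 4 → ℝ} {a : Fin 4 → ℝ} {g : ℝ}
    (ha : ∀ j, ∑ i, a i * L i j = if j = 3 then g else 0) :
    (Matrix.of fun i j : Fin 3 => a i.castSucc * L i.castSucc j.castSucc).det * g =
      (∏ i, a i) * (Matrix.of L).det := by
  have h0 := ha 0
  have h1 := ha 1
  have h2 := ha 2
  have h3 := ha 3
  have n0 : ¬ ((0 : Fin 4) = 3) := by decide
  have n1 : ¬ ((1 : Fin 4) = 3) := by decide
  have n2 : ¬ ((2 : Fin 4) = 3) := by decide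
  rw [if_neg n0, Fin.sum_univ_four] at h0
  rw [if_neg n1, Fin.sum_univ_four] at h1
  rw [if_neg n2, Fin.sum_univ_four] at h2
  rw [if_pos rfl, Fin.sum_univ_four] at h3
  have c0 : Fin.castSucc (0 : Fin 3) = 0 := rfl
  have c1 : Fin.castSucc (1 : Fin 3) = 1 := rfl
  have c2 : Fin.castSucc (2 : Fin 3) = 2 := rfl
  rw [sec_det4, Matrix.det_fin_three, Fin.prod_univ_four]
  simp only [Matrix.of_apply, c0, c1, c2]
  linear_combination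
    (a 0 * a 1 * a 2) * (L 0 1 * (L 1 2 * L 2 3 - L 1 3 * L 2 2) - L 0 2 * (L 1 1 * L 2 3 - L 1 3 * L 2 1)
      + L 0 3 * (L 1 1 * L 2 2 - L 1 2 * L 2 1)) * h0
    - (a 0 * a 1 * a 2) * (L 0 0 * (L 1 2 * L 2 3 - L 1 3 * L 2 2) - L 0 2 * (L 1 0 * L 2 3 - L 1 3 * L 2 0)
      + L 0 3 * (L 1 0 * L 2 2 - L 1 2 * L 2 0)) * h1
    + (a 0 * a 1 * a 2) * (L 0 0 * (L 1 1 * L 2 3 - L 1 3 * L 2 1) - L 0 1 * (L 1 0 * L 2 3 - L 1 3 * L 2 0)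
      + L 0 3 * (L 1 0 * L 2 1 - L 1 1 * L 2 0)) * h2
    - (a 0 * a 1 * a 2) * (L 0 0 * (L 1 1 * L 2 2 - L 1 2 * L 2 1) - L 0 1 * (L 1 0 * L 2 2 - L 1 2 * L 2 0)
      + L 0 2 * (L 1 0 * L 2 1 - L 1 1 * L 2 0)) * h3

end Pool.Agent.Work.MP_77d073_nt.Q4
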