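import Pool.Agent.Work.MP_77d073_nt.Q4.Tr

/-!
MODULE Sup (M).  No system of determinant one has a lower bound above `1/√725`; dual vectors with small product.

PROOF.  Let `S` be the set of all `m > 0` such that some `L` with `|det L| = 1` has `m ≤ |∏ L_i(p)|` for all `p ≠ 0`.  It is bounded
above by `1` (`minkowski_forms` with bounds `1 + δ`, or `2`: any explicit bound will do, e.g. `16`).  Let `L` be such a system with bound
`m` and let `L' i j = (Matrix.of L)⁻¹ j i` (the inverse transpose; `|det L'| = 1`).  For every `c : Fin 4 → ℤ`, the numbers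
`a i = ∑ j, L' i j * c j` satisfy `∑ i, a i * L i j = c j` (`Matrix.nonsing_inv_mul`).
(*) for every `ε > 0` there is `c ≠ 0` with `|∏ i, ∑ j, L' i j * c j| < sSup S + ε`: otherwise `sSup S + ε` is in `S`, against
`le_csSup`.
`transfer` then gives `725 m^3 ≤ |∏ a| < sSup S + ε`, so `725 m^3 ≤ sSup S` for all `m ∈ S`, hence `725 (sSup S)^3 ≤ sSup S`
(continuity: `∀ m < sSup S` there is a larger element of `S`; if `S` is empty there is nothing to prove), `sSup S > 0`,
`725 (sSup S)^2 ≤ 1`, `sSup S ≤ κ` (`kap_sq`, `kap_pos`, `abs_le_of_sq_le_sq` or `nlinarith`).  This is `le_kap`.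
`dual_near`: if there were no such `c`, then `L'` would have the lower bound `κ + ε > κ`: against `le_kap`.
-/

set_option autoImplicit false

namespace Pool.Agent.Work.MP_77d073_nt.Q4

open Pool.Agent.Work.MP_77d073_nt

private noncomputable def dl (L : Fin 4 → Fin 4 → ℝ) : Fin 4 → Fin 4 → ℝ :=
  fun i j => (Matrix.of L)⁻¹ j i

private theorem dl_det {L : Fin 4 → Fin 4 → ℝ} (hL : |(Matrix.of L).det| = 1) :
    |(Matrix.of (dl L)).det| = 1 := by
  have h1 : Matrix.of (dl L) = ((Matrix.of L)⁻¹).transpose := by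
    ext i j
    rfl
  rw [h1, Matrix.det_transpose, Matrix.det_nonsing_inv, Ring.inverse_eq_inv', abs_inv, hL, inv_one]

private theorem dl_sum {L : Fin 4 → Fin 4 → ℝ} (hL : |(Matrix.of L).det| = 1)
    (c : Fin 4 → ℤ) (j : Fin 4) :
    ∑ i, (∑ k, dl L i k * (c k : ℝ)) * L i j = (c j : ℝ) := by
  have hu : IsUnit (Matrix.of L).det := by
    rw [isUnit_iff_ne_zero]
    intro h0
    rw [h0, abs_zero] at hL
    exact zero_ne_one hL
  have h1 : ∀ k, ∑ i, (Matrix.of L)⁻¹ k i * L i j = if k = j then 1 else 0 := by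
    intro k
    have h2 := congrFun (congrFun (Matrix.nonsing_inv_mul (Matrix.of L) hu) k) j
    rw [Matrix.mul_apply, Matrix.one_apply] at h2
    exact h2
  calc ∑ i, (∑ k, dl L i k * (c k : ℝ)) * L i j
      = ∑ i, ∑ k, (c k : ℝ) * ((Matrix.of L)⁻¹ k i * L i j) := by
        refine Finset.sum_congr rfl fun i _ => ?_
        rw [Finset.sum_mul]
        refine Finset.sum_congr rfl fun k _ => ?_
        unfold dl
        ring
    _ = ∑ k, (c k : ℝ) * ∑ i, (Matrix.of L)⁻¹ k i * L i j := by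
        rw [Finset.sum_comm]
        refine Finset.sum_congr rfl fun k _ => ?_
        rw [Finset.mul_sum]
    _ = (c j : ℝ) := by
        simp only [h1, mul_ite, mul_one, mul_zero, Finset.sum_ite_eq', Finset.mem_univ, if_true]

private def bds : Set ℝ :=
  {m | 0 < m ∧ ∃ L : Fin 4 → Fin 4 → ℝ, |(Matrix.of L).det| = 1 ∧
    ∀ p : Fin 4 → ℤ, p ≠ 0 → m ≤ |∏ i, ∑ j, L i j * (p j : ℝ)|}

private theorem bds_bdd : BddAbove bds := by
  refine ⟨16, ?_⟩
  rintro m ⟨-, L, hL, h⟩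
  have hne : (Matrix.of L).det ≠ 0 := by
    intro h0
    rw [h0, abs_zero] at hL
    exact zero_ne_one hL
  obtain ⟨p, hp, hpr⟩ := minkowski_forms hne (a := fun _ => (2 : ℝ)) (fun _ => by norm_num) (by
    rw [hL, Finset.prod_const, Finset.card_univ, Fintype.card_fin]
    norm_num)
  refine (h p hp).trans ?_
  rw [Finset.abs_prod]
  calc ∏ i, |∑ j, L i j * (p j : ℝ)| ≤ ∏ _i : Fin 4, (2 : ℝ) :=
        Finset.prod_le_prod (fun _ _ => abs_nonneg _) (fun i _ => (hpr i).le)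
    _ = 16 := by
        rw [Finset.prod_const, Finset.card_univ, Fintype.card_fin]
        norm_num

private theorem bds_nonneg : 0 ≤ sSup bds := Real.sSup_nonneg fun _ hx => hx.1.le

private theorem bds_near {L : Fin 4 → Fin 4 → ℝ} (hL : |(Matrix.of L).det| = 1) {ε : ℝ}
    (hε : 0 < ε) : ∃ c : Fin 4 → ℤ, c ≠ 0 ∧
      |∏ i, ∑ j, dl L i j * (c j : ℝ)| < sSup bds + ε := by
  by_contra hcon
  push Not at hcon
  have h1 : sSup bds + ε ∈ bds :=
    ⟨by linarith [bds_nonneg], dl L, dl_det hL, fun p hp => hcon p hp⟩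
  linarith [le_csSup bds_bdd h1]

private theorem bds_cube {m : ℝ} (hm : m ∈ bds) : 725 * m ^ 3 ≤ sSup bds := by
  obtain ⟨h0, L, hL, h⟩ := hm
  apply le_of_forall_pos_lt_add
  intro ε hε
  obtain ⟨c, hc, hlt⟩ := bds_near hL hε
  exact (transfer hL h0 h hc (a := fun i => ∑ k, dl L i k * (c k : ℝ))
    (fun j => dl_sum hL c j)).trans_lt hlt

theorem le_kap {L : Fin 4 → Fin 4 → ℝ} (hL : |(Matrix.of L).det| = 1) {m : ℝ} (hm : 0 < m)
    (h : ∀ p : Fin 4 → ℤ, p ≠ 0 → m ≤ |∏ i, ∑ j, L i j * (p j : ℝ)|) : m ≤ κ := by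
  have hmS : m ∈ bds := ⟨hm, L, hL, h⟩
  have hms : m ≤ sSup bds := le_csSup bds_bdd hmS
  have hs0 : 0 < sSup bds := hm.trans_le hms
  have h3 : 725 * sSup bds ^ 3 ≤ sSup bds := by
    by_contra hcon
    push Not at hcon
    have hcont : Continuous fun x : ℝ => 725 * x ^ 3 := by fun_prop
    have hev : ∀ᶠ x in nhds (sSup bds), sSup bds < 725 * x ^ 3 :=
      (hcont.tendsto (sSup bds)).eventually (lt_mem_nhds hcon)
    have hev0 : ∀ᶠ x in nhds (sSup bds), 0 < x := lt_mem_nhds hs0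
    have hev2 : ∀ᶠ x in nhdsWithin (sSup bds) (Set.Iio (sSup bds)),
        sSup bds < 725 * x ^ 3 ∧ 0 < x ∧ x < sSup bds := by
      filter_upwards [nhdsWithin_le_nhds hev, nhdsWithin_le_nhds hev0, self_mem_nhdsWithin]
        with x hx1 hx2 hx3
      exact ⟨hx1, hx2, hx3⟩
    obtain ⟨x, hx1, hx2, hx3⟩ := hev2.exists
    obtain ⟨y, hy, hxy⟩ := exists_lt_of_lt_csSup ⟨m, hmS⟩ hx3
    have h4 := bds_cube hy
    have h5 : x ^ 3 ≤ y ^ 3 := pow_le_pow_left₀ hx2.le hxy.le 3
    linarith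
  have h4 : 725 * sSup bds ^ 2 ≤ 1 := by
    by_contra hcon
    push Not at hcon
    nlinarith [mul_lt_mul_of_pos_right hcon hs0]
  have h5 : sSup bds ≤ κ := by
    by_contra hcon
    push Not at hcon
    nlinarith [kap_pos, kap_sq, mul_lt_mul_of_pos_right hcon hs0,
      mul_lt_mul_of_pos_left hcon kap_pos]
  exact hms.trans h5

theorem dual_near {L : Fin 4 → Fin 4 → ℝ} (hL : |(Matrix.of L).det| = 1) {ε : ℝ} (hε : 0 < ε) :
    ∃ (c : Fin 4 → ℤ) (a : Fin 4 → ℝ), c ≠ 0 ∧ (∀ j, ∑ i, a i * L i j = (c j : ℝ)) ∧ |∏ i, a i| < κ + ε := by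
  by_contra hcon
  have h1 : κ + ε ≤ κ := by
    refine le_kap (dl_det hL) (by linarith [kap_pos]) fun p hp => ?_
    by_contra hlt
    push Not at hlt
    exact hcon ⟨p, fun i => ∑ k, dl L i k * (p k : ℝ), hp, fun j => dl_sum hL p j, hlt⟩
  linarith

end Pool.Agent.Work.MP_77d073_nt.Q4
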