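import Pool.Agent.Work.MP_77d073_nt.Q4.Bb.Fin

/-!
The theorem in dimension three.  Four real linear forms in three variables with sum zero and product at least one in
absolute value at all nonzero integer points: the determinant of three of them satisfies `725 ≤ D^4`, and equality
holds only for the section of the norm form of discriminant 725.  (Reduction `Bb/RedC`, branch and bound certificate
`Bb/BB`, exact local lemma `CrI`.)
-/

set_option autoImplicit false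

namespace Pool.Agent.Work.MP_77d073_nt.Q4

theorem t3_bound (X : Fin 4 → Fin 3 → ℝ) (h0 : ∀ j, ∑ i, X i j = 0)
    (h1 : ∀ p : Fin 3 → ℤ, p ≠ 0 → 1 ≤ |∏ i, ∑ j, X i j * (p j : ℝ)|) :
    725 ≤ (Matrix.of fun i j : Fin 3 => X i.castSucc j).det ^ 4 :=
  Cr.t3_bound_of Bb.fin_T3 X h0 h1

theorem t3_eq {th : Fin 4 → ℝ} (h : IsTh th) (X : Fin 4 → Fin 3 → ℝ) (h0 : ∀ j, ∑ i, X i j = 0)
    (h1 : ∀ p : Fin 3 → ℤ, p ≠ 0 → 1 ≤ |∏ i, ∑ j, X i j * (p j : ℝ)|)
    (h2 : (Matrix.of fun i j : Fin 3 => X i.castSucc j).det ^ 4 = 725) :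
    ∃ (σ : Equiv.Perm (Fin 4)) (U : Matrix (Fin 3) (Fin 3) ℤ) (s : ℝ), (U.det = 1 ∨ U.det = -1) ∧
      s ^ 4 = 725 ∧ ∀ i j, ∑ k, X i k * (U k j : ℝ) = s * th (σ i) ^ (j : ℕ) / fd (th (σ i)) :=
  Cr.t3_eq_of Bb.fin_T3 h X h0 h1 h2

end Pool.Agent.Work.MP_77d073_nt.Q4
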