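import Pool.Agent.Work.MP_77d073_nt.Q4.Defs

/-!
MODULE Th (M).  The four real roots of `f(x) = x^4 - x^3 - 3x^2 + x + 1`.

PROOF.  Intermediate value theorem on the four intervals below (`norm_num` gives opposite signs at the end
points, e.g. `f(-1.355675) > 0 > f(-1.355674)`, `f(-0.477260) < 0 < f(-0.477259)`, `f(0.737640) > 0 > f(0.737641)`,
`f(2.095293) < 0 < f(2.095294)`; check the signs) gives `r₀ < r₁ < r₂ < r₃`: `exists_th`.
`th_all`: if `IsTh th`, the four numbers `th i` are distinct roots of the monic polynomial `f` of degree 4, so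
`f = ∏ (X - th i)` (for instance: eliminate: subtract `f(th 0) = 0`, divide by `t - th 0`, ... or
`Polynomial.prod_multiset_X_sub_C_of_monic_of_roots_card_eq`, or the elementary argument: the polynomial
`f - ∏ (X - th i)` has degree < 4 and 4 distinct roots).
`th_bd`: every root of `f` is one of `r₀, ..., r₃` (by `th_all` for `r`), and `th` is strictly increasing, so `th = r`.
-/

set_option autoImplicit false

namespace Pool.Agent.Work.MP_77d073_nt.Q4

private theorem exists_th_bd : ∃ th : Fin 4 → ℝ, IsTh th ∧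
    ((-1.355675 < th 0 ∧ th 0 < -1.355674) ∧ (-0.477260 < th 1 ∧ th 1 < -0.477259) ∧
    (0.737640 < th 2 ∧ th 2 < 0.737641) ∧ (2.095293 < th 3 ∧ th 3 < 2.095294)) := by
  have hc : Continuous (fun x : ℝ => x ^ 4 - x ^ 3 - 3 * x ^ 2 + x + 1) := by fun_prop
  have h0 : ∃ x : ℝ, (-1.355675 < x ∧ x < -1.355674) ∧
      x ^ 4 - x ^ 3 - 3 * x ^ 2 + x + 1 = 0 := by
    have := intermediate_value_Ioo' (a := (-1.355675 : ℝ)) (b := -1.355674) (by norm_num)
      hc.continuousOn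
    obtain ⟨x, hx, hx'⟩ := this (show (0 : ℝ) ∈ _ from ⟨by norm_num, by norm_num⟩)
    exact ⟨x, hx, hx'⟩
  have h1 : ∃ x : ℝ, (-0.477260 < x ∧ x < -0.477259) ∧
      x ^ 4 - x ^ 3 - 3 * x ^ 2 + x + 1 = 0 := by
    have := intermediate_value_Ioo (a := (-0.477260 : ℝ)) (b := -0.477259) (by norm_num)
      hc.continuousOn
    obtain ⟨x, hx, hx'⟩ := this (show (0 : ℝ) ∈ _ from ⟨by norm_num, by norm_num⟩)
    exact ⟨x, hx, hx'⟩
  have h2 : ∃ x : ℝ, (0.737640 < x ∧ x < 0.737641) ∧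
      x ^ 4 - x ^ 3 - 3 * x ^ 2 + x + 1 = 0 := by
    have := intermediate_value_Ioo' (a := (0.737640 : ℝ)) (b := 0.737641) (by norm_num)
      hc.continuousOn
    obtain ⟨x, hx, hx'⟩ := this (show (0 : ℝ) ∈ _ from ⟨by norm_num, by norm_num⟩)
    exact ⟨x, hx, hx'⟩
  have h3 : ∃ x : ℝ, (2.095293 < x ∧ x < 2.095294) ∧
      x ^ 4 - x ^ 3 - 3 * x ^ 2 + x + 1 = 0 := by
    have := intermediate_value_Ioo (a := (2.095293 : ℝ)) (b := 2.095294) (by norm_num)
      hc.continuousOn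
    obtain ⟨x, hx, hx'⟩ := this (show (0 : ℝ) ∈ _ from ⟨by norm_num, by norm_num⟩)
    exact ⟨x, hx, hx'⟩
  obtain ⟨a, ha, ha'⟩ := h0
  obtain ⟨b, hb, hb'⟩ := h1
  obtain ⟨c, hc', hc''⟩ := h2
  obtain ⟨d, hd, hd'⟩ := h3
  refine ⟨![a, b, c, d], ⟨?_, ?_⟩, ?_⟩
  · intro i
    fin_cases i
    · exact ha'
    · exact hb'
    · exact hc''
    · exact hd'
  · have e1 : a < b := by linarith [ha.2, hb.1]
    have e2 : b < c := by linarith [hb.2, hc'.1]
    have e3 : c < d := by linarith [hc'.2, hd.1]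
    refine Fin.strictMono_iff_lt_succ.2 ?_
    intro i
    fin_cases i
    · exact e1
    · exact e2
    · exact e3
  · exact ⟨ha, hb, hc', hd⟩

theorem exists_th : ∃ th : Fin 4 → ℝ, IsTh th := by
  obtain ⟨th, h, _⟩ := exists_th_bd
  exact ⟨th, h⟩

private theorem four_roots {a b c d : ℝ} (hab : a ≠ b) (hac : a ≠ c) (had : a ≠ d) (hbc : b ≠ c)
    (hbd : b ≠ d) (hcd : c ≠ d) (ha : a ^ 4 - a ^ 3 - 3 * a ^ 2 + a + 1 = 0)
    (hb : b ^ 4 - b ^ 3 - 3 * b ^ 2 + b + 1 = 0) (hc : c ^ 4 - c ^ 3 - 3 * c ^ 2 + c + 1 = 0)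
    (hd : d ^ 4 - d ^ 3 - 3 * d ^ 2 + d + 1 = 0) (t : ℝ) :
    t ^ 4 - t ^ 3 - 3 * t ^ 2 + t + 1 = (t - a) * (t - b) * (t - c) * (t - d) := by
  have G : ∀ x y : ℝ, x ≠ y → x ^ 4 - x ^ 3 - 3 * x ^ 2 + x + 1 = 0 →
      y ^ 4 - y ^ 3 - 3 * y ^ 2 + y + 1 = 0 →
      x ^ 3 + x ^ 2 * y + x * y ^ 2 + y ^ 3 - (x ^ 2 + x * y + y ^ 2) - 3 * (x + y) + 1 = 0 := by
    intro x y hxy hx hy
    have : (x - y) * (x ^ 3 + x ^ 2 * y + x * y ^ 2 + y ^ 3 - (x ^ 2 + x * y + y ^ 2)
        - 3 * (x + y) + 1) = 0 := by linear_combination hx - hy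
    rcases mul_eq_zero.1 this with h | h
    · exact absurd (sub_eq_zero.1 h) hxy
    · exact h
  have gab := G a b hab ha hb
  have gac := G a c hac ha hc
  have gad := G a d had ha hd
  have habc : a ^ 2 + a * b + a * c + b ^ 2 + b * c + c ^ 2 - a - b - c - 3 = 0 := by
    have : (b - c) * (a ^ 2 + a * b + a * c + b ^ 2 + b * c + c ^ 2 - a - b - c - 3) = 0 := by
      linear_combination gab - gac
    rcases mul_eq_zero.1 this with h | h
    · exact absurd (sub_eq_zero.1 h) hbc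
    · exact h
  have habd : a ^ 2 + a * b + a * d + b ^ 2 + b * d + d ^ 2 - a - b - d - 3 = 0 := by
    have : (b - d) * (a ^ 2 + a * b + a * d + b ^ 2 + b * d + d ^ 2 - a - b - d - 3) = 0 := by
      linear_combination gab - gad
    rcases mul_eq_zero.1 this with h | h
    · exact absurd (sub_eq_zero.1 h) hbd
    · exact h
  have s1 : a + b + c + d - 1 = 0 := by
    have : (c - d) * (a + b + c + d - 1) = 0 := by linear_combination habc - habd
    rcases mul_eq_zero.1 this with h | h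
    · exact absurd (sub_eq_zero.1 h) hcd
    · exact h
  have hd1 : d = 1 - a - b - c := by linarith
  subst hd1
  have s2 : a * b + a * c + b * c + (1 - a - b - c) * (a + b + c) + 3 = 0 := by
    linear_combination -habc
  have s3 : a * b * c + (1 - a - b - c) * (a * b + a * c + b * c) + 1 = 0 := by
    linear_combination gab - (a + b) * habc
  have s4 : a * b * c * (1 - a - b - c) - 1 = 0 := by
    linear_combination -ha - a ^ 2 * s2 + a * s3
  linear_combination -s4 + t * s3 - t ^ 2 * s2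

theorem th_all {th : Fin 4 → ℝ} (h : IsTh th) (t : ℝ) :
    t ^ 4 - t ^ 3 - 3 * t ^ 2 + t + 1 = (t - th 0) * (t - th 1) * (t - th 2) * (t - th 3) :=
  four_roots (h.mono.injective.ne (by decide)) (h.mono.injective.ne (by decide))
    (h.mono.injective.ne (by decide)) (h.mono.injective.ne (by decide))
    (h.mono.injective.ne (by decide)) (h.mono.injective.ne (by decide))
    (h.root 0) (h.root 1) (h.root 2) (h.root 3) t

private theorem mem_range {th : Fin 4 → ℝ} (h : IsTh th) {t : ℝ}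
    (ht : t ^ 4 - t ^ 3 - 3 * t ^ 2 + t + 1 = 0) : t ∈ Set.range th := by
  rw [th_all h t] at ht
  rcases mul_eq_zero.1 ht with ht | ht
  · rcases mul_eq_zero.1 ht with ht | ht
    · rcases mul_eq_zero.1 ht with ht | ht
      · exact ⟨0, (sub_eq_zero.1 ht).symm⟩
      · exact ⟨1, (sub_eq_zero.1 ht).symm⟩
    · exact ⟨2, (sub_eq_zero.1 ht).symm⟩
  · exact ⟨3, (sub_eq_zero.1 ht).symm⟩

theorem th_bd {th : Fin 4 → ℝ} (h : IsTh th) :
    (-1.355675 < th 0 ∧ th 0 < -1.355674) ∧ (-0.477260 < th 1 ∧ th 1 < -0.477259) ∧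
    (0.737640 < th 2 ∧ th 2 < 0.737641) ∧ (2.095293 < th 3 ∧ th 3 < 2.095294) := by
  obtain ⟨r, hr, hb⟩ := exists_th_bd
  have hrange : Set.range th = Set.range r := by
    apply Set.Subset.antisymm
    · rintro _ ⟨i, rfl⟩
      exact mem_range hr (h.root i)
    · rintro _ ⟨i, rfl⟩
      exact mem_range h (hr.root i)
  have : th = r := (StrictMono.range_inj h.mono hr.mono).1 hrange
  rw [this]
  exact hb

end Pool.Agent.Work.MP_77d073_nt.Q4
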