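import Pool.Agent.Work.MP_77d073_nt.Q4.T3
import Pool.Agent.Work.MP_77d073_nt.Q4.Prim
import Pool.Agent.Work.MP_77d073_nt.Q4.Nz
import Pool.Agent.Work.MP_77d073_nt.Q4.Sec

/-!
MODULE Tr (M).  Transference: from a bound for sections to a bound for the dual forms.

PROOF.  `sect` (the reduction used twice): `prim c` gives `W`, `g ≥ 1`; put `L1 = tr L W 1`, so `∑ i, a i * L1 i j = if j = 3 then g else 0`
(`L1 i j = ∑ l, L i l * W l j`, exchange sums), `|det L1| = 1` (`tr_det`), the same lower bound `m` (`tr_lower`), `a i ≠ 0` (`dual_ne`).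
Let `P = |∏ i, a i| > 0`, `r = (P * m)^(-1/4) > 0` (`r^4 * (P * m) = 1`: `Real.rpow` or `Real.sqrt (Real.sqrt _)`),
`X i j = r * (a i * L1 i j)` for `j < 3`.  Then `∑ i, X i j = 0`; for `p : Fin 3 → ℤ`, `p ≠ 0`, with `p' = (p, 0)` (`Fin.snoc p 0`):
`|∏ X(p)| = r^4 * P * |∏ L1(p')| ≥ r^4 * P * m = 1`.  `sec` gives `det(a i L1 i j)_(<3) * g = (∏ a) det L1`, so with
`D = det (X i j)_(<3) = r^3 det(a i L1 i j)` : `|D| * g = r^3 * P`, `D^4 * g^4 = r^12 P^4 = P^4 / (P m)^3 = P / m^3`, i.e.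
`D^4 * g^4 * m^3 = P`.
`transfer`: with `t3_bound`, `725 * g^4 * m^3 ≤ P`, and `g ≥ 1`.
-/

set_option autoImplicit false

namespace Pool.Agent.Work.MP_77d073_nt.Q4

open Pool.Agent.Work.MP_77d073_nt

private theorem tr_root {q : ℝ} (hq : 0 < q) : ∃ r : ℝ, 0 < r ∧ r ^ 4 * q = 1 := by
  refine ⟨(Real.sqrt (Real.sqrt q))⁻¹, by positivity, ?_⟩
  have h1 : Real.sqrt (Real.sqrt q) ^ 4 = q := by
    have e1 : Real.sqrt (Real.sqrt q) ^ 4 = (Real.sqrt (Real.sqrt q) ^ 2) ^ 2 := by ring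
    rw [e1, Real.sq_sqrt (Real.sqrt_nonneg q), Real.sq_sqrt hq.le]
  rw [inv_pow, h1, inv_mul_cancel₀ hq.ne']

theorem sect {L : Fin 4 → Fin 4 → ℝ} (hL : |(Matrix.of L).det| = 1) {m : ℝ} (hm : 0 < m)
    (h : ∀ p : Fin 4 → ℤ, p ≠ 0 → m ≤ |∏ i, ∑ j, L i j * (p j : ℝ)|) {c : Fin 4 → ℤ} (hc : c ≠ 0)
    {a : Fin 4 → ℝ} (ha : ∀ j, ∑ i, a i * L i j = (c j : ℝ)) :
    ∃ (W : Matrix (Fin 4) (Fin 4) ℤ) (g : ℤ) (r : ℝ) (X : Fin 4 → Fin 3 → ℝ), Uni W ∧ 0 < g ∧ 0 < r ∧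
      (∀ i, a i ≠ 0) ∧ r ^ 4 * (|∏ i, a i| * m) = 1 ∧
      (∀ j, ∑ i, a i * tr L W 1 i j = if j = 3 then (g : ℝ) else 0) ∧
      (∀ i j, X i j = r * (a i * tr L W 1 i j.castSucc)) ∧
      (∀ j, ∑ i, X i j = 0) ∧ (∀ p : Fin 3 → ℤ, p ≠ 0 → 1 ≤ |∏ i, ∑ j, X i j * (p j : ℝ)|) ∧
      (Matrix.of fun i j : Fin 3 => X i.castSucc j).det ^ 4 * ((g : ℝ) ^ 4 * m ^ 3) = |∏ i, a i| := by
  obtain ⟨W, g, hW, hg, hcW⟩ := prim c hc
  have hdL : (Matrix.of L).det ≠ 0 := by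
    intro h0
    rw [h0] at hL
    simp at hL
  have han : ∀ i, a i ≠ 0 := dual_ne hdL hm h hc ha
  have hP : 0 < |∏ i, a i| := abs_pos.mpr (Finset.prod_ne_zero_iff.mpr fun i _ => han i)
  have hPm : 0 < |∏ i, a i| * m := mul_pos hP hm
  obtain ⟨r, hr, hr4⟩ := tr_root hPm
  have hcol : ∀ j, ∑ i, a i * tr L W 1 i j = if j = 3 then (g : ℝ) else 0 := by
    intro j
    have h1 : ∑ i, a i * tr L W 1 i j = ∑ l, (c l : ℝ) * (W l j : ℝ) := by
      unfold tr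
      simp only [Pi.one_apply, one_mul, Finset.mul_sum]
      rw [Finset.sum_comm]
      refine Finset.sum_congr rfl fun l _ => ?_
      rw [← ha l, Finset.sum_mul]
      refine Finset.sum_congr rfl fun i _ => ?_
      ring
    rw [h1]
    have h3 : ((∑ k, c k * W k j : ℤ) : ℝ) = ((if j = 3 then g else 0 : ℤ) : ℝ) := by rw [hcW j]
    push_cast at h3
    rw [h3]
  have hlow : ∀ p : Fin 4 → ℤ, p ≠ 0 → m ≤ |∏ i, ∑ j, tr L W 1 i j * (p j : ℝ)| :=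
    fun p hp => tr_lower h hW.ne_zero (by simp) p hp
  have hdet : ((Matrix.of (tr L W 1)).det) ^ 4 = 1 := by
    rw [tr_det]
    have e1 : (∏ i : Fin 4, (1 : Fin 4 → ℝ) i) = 1 := by simp
    have e2 : (Matrix.of L).det ^ 4 = 1 := by
      have e3 : (Matrix.of L).det ^ 4 = |(Matrix.of L).det| ^ 4 := by
        rw [Even.pow_abs (by decide)]
      rw [e3, hL, one_pow]
    have e4 : (W.det : ℝ) ^ 4 = 1 := by
      rcases hW with h1 | h1 <;> rw [h1] <;> norm_num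
    rw [e1, one_mul, mul_pow, e2, e4, one_mul]
  refine ⟨W, g, r, fun i j => r * (a i * tr L W 1 i j.castSucc), hW, hg, hr, han, hr4, hcol,
    fun i j => rfl, fun j => ?_, fun p hp => ?_, ?_⟩
  · rw [← Finset.mul_sum, hcol, if_neg, mul_zero]
    exact (Fin.castSucc_lt_last j).ne
  · have hp' : (Fin.snoc (α := fun _ => ℤ) p 0 : Fin 4 → ℤ) ≠ 0 := by
      intro h0
      apply hp
      funext j
      have := congrFun h0 j.castSucc
      rw [Fin.snoc_castSucc] at this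
      simpa using this
    have h1 := hlow _ hp'
    have h2 : ∀ i, ∑ j : Fin 3, r * (a i * tr L W 1 i j.castSucc) * (p j : ℝ) =
        (r * a i) * ∑ j : Fin 4, tr L W 1 i j * ((Fin.snoc (α := fun _ => ℤ) p 0 : Fin 4 → ℤ) j : ℝ) := by
      intro i
      rw [Fin.sum_univ_castSucc (n := 3)]
      simp only [Fin.snoc_castSucc, Fin.snoc_last, Int.cast_zero, mul_zero, add_zero]
      rw [Finset.mul_sum]
      refine Finset.sum_congr rfl fun j _ => ?_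
      ring
    rw [Finset.prod_congr rfl fun i _ => h2 i, Finset.prod_mul_distrib, Finset.prod_mul_distrib,
      abs_mul, abs_mul, Finset.prod_const, Finset.card_univ, Fintype.card_fin,
      abs_of_pos (pow_pos hr 4)]
    calc (1 : ℝ) = r ^ 4 * |∏ i, a i| * m := by rw [mul_assoc, hr4]
      _ ≤ _ := by
        exact mul_le_mul_of_nonneg_left h1 (by positivity)
  · have h1 := sec (L := tr L W 1) (a := a) (g := (g : ℝ)) hcol
    have h2 : (Matrix.of fun i j : Fin 3 => r * (a i.castSucc * tr L W 1 i.castSucc j.castSucc)).det =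
        r ^ 3 * (Matrix.of fun i j : Fin 3 => a i.castSucc * tr L W 1 i.castSucc j.castSucc).det := by
      rw [Matrix.det_fin_three, Matrix.det_fin_three]
      simp only [Matrix.of_apply]
      ring
    rw [h2]
    have h3 : ((Matrix.of fun i j : Fin 3 => a i.castSucc * tr L W 1 i.castSucc j.castSucc).det *
        (g : ℝ)) ^ 4 = |∏ i, a i| ^ 4 := by
      rw [h1, mul_pow, hdet, mul_one, Even.pow_abs (by decide)]
    have h4 : (|∏ i, a i| * m) ^ 3 * (r ^ 4) ^ 3 = 1 := by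
      rw [← mul_pow, mul_comm, hr4, one_pow]
    generalize (Matrix.of fun i j : Fin 3 =>
      a i.castSucc * tr L W 1 i.castSucc j.castSucc).det = d at h3
    generalize |∏ i, a i| = P at h3 h4
    calc (r ^ 3 * d) ^ 4 * ((g : ℝ) ^ 4 * m ^ 3) = (r ^ 4) ^ 3 * (d * (g : ℝ)) ^ 4 * m ^ 3 := by ring
      _ = ((P * m) ^ 3 * (r ^ 4) ^ 3) * P := by rw [h3]; ring
      _ = P := by rw [h4, one_mul]

theorem transfer {L : Fin 4 → Fin 4 → ℝ} (hL : |(Matrix.of L).det| = 1) {m : ℝ} (hm : 0 < m)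
    (h : ∀ p : Fin 4 → ℤ, p ≠ 0 → m ≤ |∏ i, ∑ j, L i j * (p j : ℝ)|) {c : Fin 4 → ℤ} (hc : c ≠ 0)
    {a : Fin 4 → ℝ} (ha : ∀ j, ∑ i, a i * L i j = (c j : ℝ)) : 725 * m ^ 3 ≤ |∏ i, a i| := by
  obtain ⟨W, g, r, X, -, hg, -, -, -, -, -, hX0, hX1, hD⟩ := sect hL hm h hc ha
  have h1 := t3_bound X hX0 hX1
  have h2 : (1 : ℝ) ≤ (g : ℝ) ^ 4 := one_le_pow₀ (by exact_mod_cast hg)
  have h3 : 0 < m ^ 3 := pow_pos hm 3
  rw [← hD]
  calc 725 * m ^ 3 = 725 * (1 * m ^ 3) := by ring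
    _ ≤ (Matrix.of fun i j : Fin 3 => X i.castSucc j).det ^ 4 * ((g : ℝ) ^ 4 * m ^ 3) := by
      apply mul_le_mul h1 (mul_le_mul_of_nonneg_right h2 h3.le) (by positivity)
      linarith

end Pool.Agent.Work.MP_77d073_nt.Q4
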